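import Mathlib
import Pool.Agent.Work.MP_787500_nt.HN.Defs
import Pool.Agent.Work.MP_787500_nt.GP.N2_Rank

/-!
# The number of square classes of S-units of an arbitrary number field

Copies of `GP/N2_Rank.lean` and `HN/SuCard.lean` without the hypothesis that the field is totally complex.
-/

set_option autoImplicit false
set_option linter.unusedSectionVars false

namespace Pool.Agent.Work.MP_787500_nt.GA

open IsDedekindDomain NumberField WithZero
open Pool.Agent.Work.MP_787500_nt.GP (sUnit mem_sUnit)
open Pool.Agent.Work.MP_787500_nt.HN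

private theorem N2_Rank_gen {F : Type*} [Field F] [NumberField F] (w : HeightOneSpectrum (𝓞 F)) :
    ∃ g : F, g ≠ 0 ∧ w.valuation F g < 1 ∧
      ∀ w' : HeightOneSpectrum (𝓞 F), w' ≠ w → w'.valuation F g = 1 := by
  classical
  let I : nonZeroDivisors (Ideal (𝓞 F)) := ⟨w.asIdeal, mem_nonZeroDivisors_of_ne_zero w.ne_bot⟩
  set h := Nat.card (ClassGroup (𝓞 F)) with hh
  have hpos : 0 < h := Nat.card_pos
  have h1 : ClassGroup.mk0 (I ^ h) = 1 := by
    rw [map_pow]; exact pow_card_eq_one'
  have h2 : (w.asIdeal ^ h).IsPrincipal := by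
    have := (ClassGroup.mk0_eq_one_iff (I ^ h).2).1 h1
    simpa [I] using this
  obtain ⟨g, hg⟩ := h2.principal
  have hg' : w.asIdeal ^ h = Ideal.span {g} := hg
  have hg0 : g ≠ 0 := by
    rintro rfl
    rw [Ideal.span_singleton_zero] at hg'
    exact pow_ne_zero h w.ne_bot hg'
  have hgF : algebraMap (𝓞 F) F g ≠ 0 := by
    intro h0
    exact hg0 ((FaithfulSMul.algebraMap_injective (𝓞 F) F) (by rw [h0, map_zero]))
  have hgw : g ∈ w.asIdeal := by
    have : g ∈ w.asIdeal ^ h := by rw [hg']; exact Ideal.mem_span_singleton_self g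
    exact Ideal.pow_le_self hpos.ne' this
  refine ⟨algebraMap (𝓞 F) F g, hgF, (HeightOneSpectrum.valuation_lt_one_iff_mem _ _).2 hgw, ?_⟩
  intro w' hne
  refine le_antisymm (w'.valuation_le_one g) (not_lt.1 fun hlt => hne ?_)
  rw [HeightOneSpectrum.valuation_lt_one_iff_mem] at hlt
  have hle : w.asIdeal ≤ w'.asIdeal := by
    have : w.asIdeal ^ h ≤ w'.asIdeal := by
      rw [hg', Ideal.span_singleton_le_iff_mem]; exact hlt
    exact w'.isPrime.le_of_pow_le this
  have := w.isMaximal.eq_of_le w'.isPrime.ne_top hle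
  exact HeightOneSpectrum.ext this.symm


private theorem N2_Rank_unit {F : Type*} [Field F] [NumberField F] (u : (𝓞 F)ˣ)
    (v : HeightOneSpectrum (𝓞 F)) :
    v.valuation F ((Units.map (algebraMap (𝓞 F) F : 𝓞 F →* F) u : Fˣ) : F) = 1 := by
  rw [← PA.SunitRank.o_eq_zero]
  unfold PA.SunitRank.o
  rw [v.valuation_of_unit_eq u]
  rfl

/-- the exponents of the valuations at the places of `A` -/
private noncomputable def N2_Rank_f {F : Type*} [Field F] [NumberField F]
    (A : Finset (HeightOneSpectrum (𝓞 F))) : Additive (sUnit A) →ₗ[ℤ] (A → ℤ) :=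
  AddMonoidHom.toIntLinearMap
    { toFun := fun x v => PA.SunitRank.o v.1 (x.toMul : Fˣ)
      map_zero' := by
        funext v
        exact PA.SunitRank.o_one _
      map_add' := by
        intro x y
        funext v
        exact PA.SunitRank.o_mul _ _ _ }

/-- the units as S-units -/
private noncomputable def N2_Rank_u {F : Type*} [Field F] [NumberField F]
    (A : Finset (HeightOneSpectrum (𝓞 F))) : Additive (𝓞 F)ˣ →ₗ[ℤ] Additive (sUnit A) :=
  AddMonoidHom.toIntLinearMap
    { toFun := fun x => Additive.ofMul ⟨Units.map (algebraMap (𝓞 F) F : 𝓞 F →* F) x.toMul,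
        fun v _ => N2_Rank_unit _ v⟩
      map_zero' := by
        apply Additive.toMul.injective
        apply Subtype.ext
        exact map_one (Units.map (algebraMap (𝓞 F) F : 𝓞 F →* F))
      map_add' := by
        intro x y
        apply Additive.toMul.injective
        apply Subtype.ext
        exact map_mul (Units.map (algebraMap (𝓞 F) F : 𝓞 F →* F)) _ _ }

private theorem N2_Rank_inj {F : Type*} [Field F] [NumberField F]
    (A : Finset (HeightOneSpectrum (𝓞 F))) : Function.Injective (N2_Rank_u A) := by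
  intro x y h
  have h1 : Units.map (algebraMap (𝓞 F) F : 𝓞 F →* F) x.toMul =
      Units.map (algebraMap (𝓞 F) F : 𝓞 F →* F) y.toMul :=
    congrArg (fun z : Additive (sUnit A) => (z.toMul : Fˣ)) h
  apply Additive.toMul.injective
  apply Units.ext
  exact FaithfulSMul.algebraMap_injective (𝓞 F) F (congrArg Units.val h1)

private theorem N2_Rank_ker {F : Type*} [Field F] [NumberField F]
    (A : Finset (HeightOneSpectrum (𝓞 F))) :
    LinearMap.ker (N2_Rank_f A) = LinearMap.range (N2_Rank_u A) := by
  ext x
  constructor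
  · intro hx
    have h1 : ∀ v : HeightOneSpectrum (𝓞 F), v.valuation F ((x.toMul : Fˣ) : F) = 1 := by
      intro v
      by_cases hv : v ∈ A
      · rw [← PA.SunitRank.o_eq_zero]
        exact congrFun (show (N2_Rank_f A) x = 0 from hx) ⟨v, hv⟩
      · exact x.toMul.2 v hv
    obtain ⟨a, ha⟩ := HeightOneSpectrum.mem_integers_of_valuation_le_one F ((x.toMul : Fˣ) : F)
      (fun v => (h1 v).le)
    obtain ⟨b, hb⟩ := HeightOneSpectrum.mem_integers_of_valuation_le_one F (((x.toMul : Fˣ) : F)⁻¹)
      (fun v => by rw [map_inv₀, h1 v, inv_one])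
    have hab : a * b = 1 := by
      apply FaithfulSMul.algebraMap_injective (𝓞 F) F
      rw [map_mul, ha, hb, map_one]
      exact mul_inv_cancel₀ (Units.ne_zero _)
    refine ⟨Additive.ofMul ⟨a, b, hab, by rw [mul_comm]; exact hab⟩, ?_⟩
    apply Additive.toMul.injective
    apply Subtype.ext
    apply Units.ext
    exact ha
  · rintro ⟨y, rfl⟩
    show (N2_Rank_f A) (N2_Rank_u A y) = 0
    funext v
    show PA.SunitRank.o v.1 (Units.map (algebraMap (𝓞 F) F : 𝓞 F →* F) y.toMul) = 0
    rw [PA.SunitRank.o_eq_zero]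
    exact N2_Rank_unit _ _

theorem sUnit_rank_gen {F : Type*} [Field F] [NumberField F]
    (A : Finset (HeightOneSpectrum (𝓞 F))) :
    Module.finrank ℤ (Additive (sUnit A)) + 1 =
      InfinitePlace.nrRealPlaces F + InfinitePlace.nrComplexPlaces F + A.card := by
  classical
  have hfin : Module.Finite ℤ (Additive (sUnit A)) :=
    Module.Finite.iff_addGroup_fg.2 (GroupFG.iff_add_fg.1 (GP.sUnit_fg A))
  have e1 := (LinearMap.ker (N2_Rank_f A)).finrank_quotient_add_finrank
  rw [(N2_Rank_f A).quotKerEquivRange.finrank_eq, N2_Rank_ker,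
    LinearMap.finrank_range_of_inj (N2_Rank_inj A)] at e1
  have e2 : Module.finrank ℤ (LinearMap.range (N2_Rank_f A)) = A.card := by
    apply le_antisymm
    · have := Submodule.finrank_le (LinearMap.range (N2_Rank_f A))
      simpa using this
    · choose g hg0 hg1 hg2 using fun v : HeightOneSpectrum (𝓞 F) => N2_Rank_gen v
      have hmem : ∀ v : A, Units.mk0 (g v.1) (hg0 v.1) ∈ sUnit A := by
        intro v w hw
        exact hg2 v.1 w (fun h => hw (h ▸ v.2))
      let b : A → LinearMap.range (N2_Rank_f A) := fun v =>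
        ⟨N2_Rank_f A (Additive.ofMul ⟨_, hmem v⟩), ⟨_, rfl⟩⟩
      have hb : LinearIndependent ℤ b := by
        rw [linearIndependent_iff']
        intro s c hc v hv
        have h1 := congrArg (fun z : LinearMap.range (N2_Rank_f A) => (z : A → ℤ) v) hc
        simp only [Submodule.coe_sum, Submodule.coe_smul, Finset.sum_apply, Pi.smul_apply,
          ZeroMemClass.coe_zero, Pi.zero_apply] at h1
        rw [Finset.sum_eq_single v] at h1
        · rcases smul_eq_zero.1 h1 with h2 | h2
          · exact h2
          · exfalso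
            have h3 : PA.SunitRank.o v.1 (Units.mk0 (g v.1) (hg0 v.1)) = 0 := h2
            rw [PA.SunitRank.o_eq_zero] at h3
            exact (hg1 v.1).ne h3
        · intro w _ hwv
          have h3 : PA.SunitRank.o v.1 (Units.mk0 (g w.1) (hg0 w.1)) = 0 := by
            rw [PA.SunitRank.o_eq_zero]
            exact hg2 w.1 v.1 (fun h => hwv (Subtype.ext h.symm))
          have h4 : (b w : A → ℤ) v = 0 := h3
          rw [h4, smul_zero]
        · intro h
          exact absurd hv h
      have := hb.fintype_card_le_finrank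
      simpa using this
  rw [e2] at e1
  have e3 : Module.finrank ℤ (Additive (𝓞 F)ˣ) + 1 =
      InfinitePlace.nrRealPlaces F + InfinitePlace.nrComplexPlaces F := by
    rw [NumberField.Units.finrank_eq, NumberField.Units.rank,
      ← NumberField.InfinitePlace.card_eq_nrRealPlaces_add_nrComplexPlaces]
    have : 0 < Fintype.card (InfinitePlace F) := Fintype.card_pos
    omega
  omega

variable {F : Type*} [Field F] [NumberField F]

private theorem index_squares {B : Type*} [CommGroup B] [Group.FG B] (ε : B) (hε : ε ≠ 1)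
    (h : ε ^ 2 = 1) (h2 : ∀ x : B, x ^ 2 = 1 → x = 1 ∨ x = ε) :
    (powMonoidHom 2 : B →* B).range.index = 2 ^ (Module.finrank ℤ (Additive B) + 1) := by
  have hfg : AddGroup.FG (Additive B) := GroupFG.iff_add_fg.1 inferInstance
  have e1 : (powMonoidHom 2 : B →* B).range.index = (dbl (Additive B)).range.index := rfl
  rw [e1, index_dbl_eq, pow_succ]
  congr 1
  rw [Nat.card_eq_two_iff]
  refine ⟨0, ⟨Additive.ofMul ε, ?_⟩, ?_, ?_⟩
  · exact congrArg Additive.ofMul h
  · intro h3
    exact hε (congrArg (fun x => (x : Additive B).toMul) (congrArg Subtype.val h3)).symm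
  · ext ⟨x, hx⟩
    simp only [Set.mem_insert_iff, Set.mem_singleton_iff, Set.mem_univ, iff_true]
    rcases h2 x.toMul (congrArg Additive.toMul hx) with h4 | h4
    · left
      exact Subtype.ext (congrArg Additive.ofMul h4)
    · right
      exact Subtype.ext (congrArg Additive.ofMul h4)

private theorem sq_eq_one_iff_of_side_cond {x : F} (h : x ^ 2 = 1) : x = 1 ∨ x = -1 := by
  have h3 : (x - 1) * (x + 1) = 0 := by linear_combination h
  rcases mul_eq_zero.1 h3 with h | h
  · left
    exact sub_eq_zero.1 h
  · right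
    exact eq_neg_of_add_eq_zero_left h

private theorem pow_two_eq_one {r : WithZero (Multiplicative ℤ)} (h : r ^ 2 = 1) : r = 1 := by
  have hr0 : r ≠ 0 := by
    rintro rfl
    rw [zero_pow two_ne_zero] at h
    exact zero_ne_one h
  obtain ⟨n, rfl⟩ : ∃ n : ℤ, r = exp n := ⟨_, (exp_log hr0).symm⟩
  rw [← exp_nsmul, ← exp_zero, exp_inj] at h
  rw [← exp_zero, exp_inj]
  simpa using h

theorem relIndex_sq_sUnit_gen (A : Finset (HeightOneSpectrum (𝓞 F))) :
    (sq F).relIndex (sUnit A) =
      2 ^ (InfinitePlace.nrRealPlaces F + InfinitePlace.nrComplexPlaces F + A.card) := by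
  have hfg : Group.FG (sUnit A) := GP.sUnit_fg A
  have hrk2 := sUnit_rank_gen A
  have hmem : (-1 : Fˣ) ∈ sUnit A := by
    intro v _
    rw [Units.val_neg, Units.val_one, Valuation.map_neg, map_one]
  have key := index_squares (⟨-1, hmem⟩ : sUnit A)
    (by
      intro h
      have h1 : (-1 : Fˣ) = 1 := congrArg Subtype.val h
      have h2 : (-1 : F) = 1 := by
        have := congrArg Units.val h1
        simpa using this
      have h3 : (2 : F) = 0 := by linear_combination (-1 : F) * h2
      exact two_ne_zero h3)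
    (Subtype.ext (by simp))
    (fun x hx => by
      have h1 : (x : Fˣ) ^ 2 = 1 := congrArg Subtype.val hx
      have h2 : ((x : Fˣ) : F) ^ 2 = 1 := by
        rw [← Units.val_pow_eq_pow_val, h1, Units.val_one]
      rcases sq_eq_one_iff_of_side_cond h2 with h | h
      · left
        exact Subtype.ext (Units.ext h)
      · right
        exact Subtype.ext (Units.ext (by rw [h]; simp)))
  rw [hrk2] at key
  rw [← key]
  show ((sq F).subgroupOf (sUnit A)).index = _
  congr 1
  ext x
  rw [Subgroup.mem_subgroupOf]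
  constructor
  · rintro ⟨y, hy⟩
    have hy' : y ^ 2 = (x : Fˣ) := hy
    have hyA : y ∈ sUnit A := by
      intro v hv
      have h1 := x.2 v hv
      rw [← hy', Units.val_pow_eq_pow_val, map_pow] at h1
      exact pow_two_eq_one h1
    exact ⟨⟨y, hyA⟩, Subtype.ext hy'⟩
  · rintro ⟨y, rfl⟩
    exact ⟨y, rfl⟩


end Pool.Agent.Work.MP_787500_nt.GA
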