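import Mathlib
import Pool.Agent.Work.MP_787500_nt.HN.CDefs
import Pool.Agent.Work.MP_787500_nt.HN.ClA
import Pool.Agent.Work.MP_787500_nt.HN.SelUnit
import Pool.Agent.Work.MP_787500_nt.GA.Rank

/-!
# Elements with even valuations outside a finite set of places

`evA A` is the group of the `x` in the number field `K` with `v x` a square for all `v ∉ A`. It is finite modulo
squares; it is `sUnit A * squares` if and only if the class group of the `A`-integers has odd order (`OddA`), and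
this holds if its index over the squares is at most `2 ^ (r₁ + r₂ + #A)`.
-/

set_option autoImplicit false
set_option linter.unusedSectionVars false

namespace Pool.Agent.Work.MP_787500_nt.GA

open IsDedekindDomain NumberField WithZero
open Pool.Agent.Work.MP_787500_nt.GP (sUnit mem_sUnit)
open Pool.Agent.Work.MP_787500_nt.HN

universe u

variable {K : Type u} [Field K] [NumberField K]

/-- the elements with even valuation at all places outside `A` -/
def evA (A : Finset (HeightOneSpectrum (𝓞 K))) : Subgroup Kˣ where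
  carrier := {x | ∀ v ∉ A, IsSquare (v.valuation K (x : K))}
  mul_mem' := by
    intro x y hx hy v hv
    rw [Units.val_mul, map_mul]
    exact (hx v hv).mul (hy v hv)
  one_mem' := fun v _ => by
    rw [Units.val_one, map_one]
    exact ⟨1, by rw [one_mul]⟩
  inv_mem' := by
    intro x hx v hv
    rw [Units.val_inv_eq_inv_val, map_inv₀]
    exact (hx v hv).inv

theorem mem_evA {A : Finset (HeightOneSpectrum (𝓞 K))} {x : Kˣ} :
    x ∈ evA A ↔ ∀ v ∉ A, IsSquare (v.valuation K (x : K)) := Iff.rfl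

theorem sq_le_evA (A : Finset (HeightOneSpectrum (𝓞 K))) : sq K ≤ evA A := by
  rintro x ⟨y, rfl⟩ v _
  refine ⟨v.valuation K (y : K), ?_⟩
  show v.valuation K ((y ^ 2 : Kˣ) : K) = _
  rw [Units.val_pow_eq_pow_val, map_pow, pow_two]

theorem sUnit_le_evA (A : Finset (HeightOneSpectrum (𝓞 K))) : sUnit A ≤ evA A := by
  intro x hx v hv
  rw [hx v hv]
  exact ⟨1, by rw [one_mul]⟩

theorem evA_mono {A B : Finset (HeightOneSpectrum (𝓞 K))} (h : A ⊆ B) : evA A ≤ evA B :=
  fun _ hx v hv => hx v fun h' => hv (h h')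

open Pool.Agent.Work.MP_787500_nt.PA.SunitRank (o o_mul o_one o_pow o_prod o_eq_zero)

private theorem SelUnit_val (w : HeightOneSpectrum (𝓞 K)) (x : Kˣ) :
    w.valuation K (x : K) = exp (o w x) := by
  rw [← HeightOneSpectrum.valuationOfNeZero_eq]
  rfl

private theorem SelUnit_inv (w : HeightOneSpectrum (𝓞 K)) (x : Kˣ) : o w x⁻¹ = -o w x := by
  have h := o_pow w x (-1)
  rw [zpow_neg_one] at h
  rw [h]
  ring

private theorem SelUnit_sq (w : HeightOneSpectrum (𝓞 K)) (x : Kˣ) :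
    IsSquare (w.valuation K (x : K)) ↔ Even (o w x) := by
  rw [SelUnit_val]
  constructor
  · rintro ⟨r, hr⟩
    have hr0 : r ≠ 0 := by
      rintro rfl
      rw [mul_zero] at hr
      exact exp_ne_zero hr
    obtain ⟨m, rfl⟩ : ∃ m : ℤ, r = exp m := ⟨_, (exp_log hr0).symm⟩
    rw [← exp_add, exp_inj] at hr
    exact ⟨m, hr⟩
  · rintro ⟨m, hm⟩
    exact ⟨exp m, by rw [← exp_add, hm]⟩

private theorem SelUnit_gen (w : HeightOneSpectrum (𝓞 K)) :
    ∃ x : Kˣ, o w x = -(Nat.card (ClassGroup (𝓞 K)) : ℤ) ∧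
      ∀ w' : HeightOneSpectrum (𝓞 K), w' ≠ w → o w' x = 0 := by
  classical
  let I : nonZeroDivisors (Ideal (𝓞 K)) := ⟨w.asIdeal, mem_nonZeroDivisors_of_ne_zero w.ne_bot⟩
  set h := Nat.card (ClassGroup (𝓞 K)) with hh
  have hpos : 0 < h := Nat.card_pos
  have h1 : ClassGroup.mk0 (I ^ h) = 1 := by
    rw [map_pow]; exact pow_card_eq_one'
  have h2 : (w.asIdeal ^ h).IsPrincipal := by
    have := (ClassGroup.mk0_eq_one_iff (I ^ h).2).1 h1
    simpa [I] using this
  obtain ⟨g, hg⟩ := h2.principal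
  have hg' : w.asIdeal ^ h = Ideal.span {g} := hg
  have hg0 : g ≠ 0 := by
    rintro rfl
    rw [Ideal.span_singleton_zero] at hg'
    exact pow_ne_zero h w.ne_bot hg'
  have hgF : algebraMap (𝓞 K) K g ≠ 0 := by
    intro h0
    exact hg0 ((FaithfulSMul.algebraMap_injective (𝓞 K) K) (by rw [h0, map_zero]))
  refine ⟨Units.mk0 _ hgF, ?_, fun w' hne => ?_⟩
  · have hle : w.intValuation g ≤ exp (-(h : ℤ)) := by
      rw [HeightOneSpectrum.intValuation_le_pow_iff_dvd, hg']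
    have hgt : ¬ w.intValuation g ≤ exp (-((h + 1 : ℕ) : ℤ)) := by
      rw [HeightOneSpectrum.intValuation_le_pow_iff_dvd, ← hg']
      intro hd
      have h3 := Ideal.le_of_dvd hd
      exact absurd (Ideal.pow_right_strictAnti w.asIdeal w.ne_bot w.isPrime.ne_top
        (Nat.lt_succ_self h)) (not_lt_of_ge h3)
    have hval : w.intValuation g = exp (o w (Units.mk0 _ hgF)) := by
      rw [← SelUnit_val, Units.val_mk0, HeightOneSpectrum.valuation_of_algebraMap]
    rw [hval, exp_le_exp] at hle hgt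
    push_cast at hgt
    omega
  · rw [o_eq_zero, Units.val_mk0]
    refine le_antisymm (w'.valuation_le_one g) (not_lt.1 fun hlt => hne ?_)
    rw [HeightOneSpectrum.valuation_lt_one_iff_mem] at hlt
    have hle : w.asIdeal ≤ w'.asIdeal := by
      have : w.asIdeal ^ h ≤ w'.asIdeal := by
        rw [hg', Ideal.span_singleton_le_iff_mem]; exact hlt
      exact w'.isPrime.le_of_pow_le this
    have := w.isMaximal.eq_of_le w'.isPrime.ne_top hle
    exact HeightOneSpectrum.ext this.symm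

private theorem SelUnit_fin (x : Kˣ) : {w : HeightOneSpectrum (𝓞 K) | o w x ≠ 0}.Finite := by
  refine ((HeightOneSpectrum.Support.finite (𝓞 K) (x : K)).union
    (HeightOneSpectrum.Support.finite (𝓞 K) ((x⁻¹ : Kˣ) : K))).subset fun w hw => ?_
  have hw' : o w x ≠ 0 := hw
  rcases lt_or_gt_of_ne hw' with h | h
  · right
    show 1 < w.valuation K ((x⁻¹ : Kˣ) : K)
    rw [SelUnit_val, SelUnit_inv, ← exp_zero, exp_lt_exp]
    omega
  · left
    show 1 < w.valuation K (x : K)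
    rw [SelUnit_val, ← exp_zero, exp_lt_exp]
    exact h

/-- all `N`-th powers of places outside `A` are principal outside `A` -/
private def SelUnit_PP (A : Finset (HeightOneSpectrum (𝓞 K))) (N : ℤ) : Prop :=
  ∀ v ∉ A, ∃ x : Kˣ, o v x = N ∧ ∀ w ∉ A, w ≠ v → o w x = 0

private theorem SelUnit_fam {A : Finset (HeightOneSpectrum (𝓞 K))} {N : ℤ} (h : SelUnit_PP A N)
    (e : HeightOneSpectrum (𝓞 K) → ℤ) (he : {w | e w ≠ 0}.Finite) :
    ∃ x : Kˣ, ∀ w ∉ A, o w x = N * e w := by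
  classical
  choose! p hp1 hp2 using h
  refine ⟨∏ v ∈ he.toFinset with v ∉ A, p v ^ e v, fun w hw => ?_⟩
  rw [o_prod]
  by_cases h0 : e w = 0
  · rw [h0, mul_zero]
    refine Finset.sum_eq_zero fun v hv => ?_
    rw [Finset.mem_filter, Set.Finite.mem_toFinset] at hv
    have hne : w ≠ v := by
      rintro rfl
      exact hv.1 h0
    rw [o_pow, hp2 v hv.2 w hw hne, mul_zero]
  · rw [Finset.sum_eq_single w]
    · rw [o_pow, hp1 w hw, mul_comm]
    · intro v hv hne
      rw [Finset.mem_filter] at hv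
      rw [o_pow, hp2 v hv.2 w hw hne.symm, mul_zero]
    · intro hw'
      exact absurd (Finset.mem_filter.2 ⟨he.mem_toFinset.2 h0, hw⟩) hw'


private theorem evA_of_PP {A : Finset (HeightOneSpectrum (𝓞 K))} {h' : ℤ} (hodd : Odd h')
    (hP : SelUnit_PP A h') : evA A ≤ sUnit A ⊔ sq K := by
  intro y hy
  obtain ⟨k, hk⟩ := hodd
  obtain ⟨x, hx⟩ := SelUnit_fam hP (fun w => o w y / 2)
    ((SelUnit_fin y).subset fun w hw => by
      have hw2 : o w y / 2 ≠ 0 := hw
      show o w y ≠ 0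
      intro h0
      rw [h0] at hw2
      exact hw2 rfl)
  set z : Kˣ := x * (y ^ k)⁻¹ with hz
  have hoz : ∀ w ∉ A, 2 * o w z = o w y := by
    intro w hw
    obtain ⟨m, hm⟩ := (SelUnit_sq w y).1 (hy w hw)
    rw [hz, o_mul, SelUnit_inv, o_pow, hx w hw, hm, ← two_mul,
      Int.mul_ediv_cancel_left _ two_ne_zero, hk]
    ring
  have h1 : y * (z ^ 2)⁻¹ ∈ sUnit A := by
    rw [mem_sUnit]
    intro w hw
    have h3 : o w (z ^ 2) = 2 * o w z := by
      have := o_pow w z 2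
      rw [zpow_ofNat] at this
      exact this
    rw [← o_eq_zero, o_mul, SelUnit_inv, h3, hoz w hw, add_neg_cancel]
  have h2 : y = (y * (z ^ 2)⁻¹) * z ^ 2 := by rw [inv_mul_cancel_right]
  rw [h2]
  exact Subgroup.mul_mem_sup h1 ⟨z, rfl⟩

theorem evA_of_CL {A : Finset (HeightOneSpectrum (𝓞 K))} (hA : CL A) :
    evA A ≤ sUnit A ⊔ sq K := by
  refine evA_of_PP (h' := -1) ⟨-1, by norm_num⟩ fun v hv => ?_
  obtain ⟨y, h1, h2⟩ := hA v hv
  refine ⟨y, ?_, fun w hw hne => ?_⟩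
  · rw [SelUnit_val, exp_inj] at h1
    exact h1
  · rw [o_eq_zero]
    exact h2 w hw hne

theorem relIndex_sup_sq (A : Finset (HeightOneSpectrum (𝓞 K))) :
    (sq K).relIndex (sUnit A ⊔ sq K) =
      2 ^ (InfinitePlace.nrRealPlaces K + InfinitePlace.nrComplexPlaces K + A.card) := by
  rw [Subgroup.relIndex_sup_right, relIndex_sq_sUnit_gen]

/-- `evA A` is finite modulo squares. -/
theorem relIndex_evA_ne (A : Finset (HeightOneSpectrum (𝓞 K))) : (sq K).relIndex (evA A) ≠ 0 := by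
  obtain ⟨A', hAA, -, hC⟩ := exists_CL A
  intro h0
  have h1 := Subgroup.relIndex_eq_zero_of_le_right ((evA_mono hAA).trans (evA_of_CL hC)) h0
  rw [relIndex_sup_sq] at h1
  exact pow_ne_zero _ two_ne_zero h1

theorem le_relIndex_evA (A : Finset (HeightOneSpectrum (𝓞 K))) :
    2 ^ (InfinitePlace.nrRealPlaces K + InfinitePlace.nrComplexPlaces K + A.card) ≤
      (sq K).relIndex (evA A) := by
  rw [← relIndex_sup_sq]
  exact Subgroup.relIndex_le_of_le_right (sup_le (sUnit_le_evA A) (sq_le_evA A)) (relIndex_evA_ne A)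

theorem evA_le_of_index {A : Finset (HeightOneSpectrum (𝓞 K))}
    (h : (sq K).relIndex (evA A) ≤
      2 ^ (InfinitePlace.nrRealPlaces K + InfinitePlace.nrComplexPlaces K + A.card)) :
    evA A ≤ sUnit A ⊔ sq K := by
  have h1 := Subgroup.relIndex_mul_relIndex (sq K) (sUnit A ⊔ sq K) (evA A) le_sup_right
    (sup_le (sUnit_le_evA A) (sq_le_evA A))
  rw [← Subgroup.relIndex_eq_one]
  have h2 := relIndex_evA_ne A
  rw [← relIndex_sup_sq, ← h1] at h
  rw [← h1] at h2
  have h3 : 0 < (sq K).relIndex (sUnit A ⊔ sq K) := Nat.pos_of_ne_zero (left_ne_zero_of_mul h2)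
  have h4 : 0 < (sUnit A ⊔ sq K).relIndex (evA A) := Nat.pos_of_ne_zero (right_ne_zero_of_mul h2)
  have h5 : (sUnit A ⊔ sq K).relIndex (evA A) ≤ 1 :=
    Nat.le_of_mul_le_mul_left (by rwa [mul_one]) h3
  omega

/-- If `evA A` consists of `A`-units times squares then every place outside `A` has an odd power which is
principal outside `A`. -/
theorem odd_of_evA {A : Finset (HeightOneSpectrum (𝓞 K))} (h : evA A ≤ sUnit A ⊔ sq K)
    {v : HeightOneSpectrum (𝓞 K)} (hv : v ∉ A) :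
    ∃ y : Kˣ, ¬ IsSquare (v.valuation K (y : K)) ∧ ∀ w ∉ A, w ≠ v → w.valuation K (y : K) = 1 := by
  classical
  have hpos : Nat.card (ClassGroup (𝓞 K)) ≠ 0 := Nat.card_pos.ne'
  obtain ⟨a, h', hh', hcard⟩ := Nat.exists_eq_two_pow_mul_odd hpos
  have hdesc : ∀ n : ℕ, (∃ x : Kˣ, o v x = (2 : ℤ) ^ n * h' ∧ ∀ w ∉ A, w ≠ v → o w x = 0) →
      ∃ x : Kˣ, o v x = h' ∧ ∀ w ∉ A, w ≠ v → o w x = 0 := by
    intro n
    induction n with
    | zero =>
      intro h
      rwa [pow_zero, one_mul] at h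
    | succ n ih =>
      rintro ⟨x, hx1, hx2⟩
      apply ih
      have hev : x ∈ evA A := by
        intro w hw
        rw [SelUnit_sq]
        by_cases hwv : w = v
        · rw [hwv, hx1, pow_succ, mul_assoc, mul_comm (2 : ℤ) _, ← mul_assoc]
          exact even_two.mul_left _
        · rw [hx2 w hw hwv]
          exact Even.zero
      obtain ⟨u, hu, s, ⟨z, rfl⟩, hx⟩ := Subgroup.mem_sup.1 (h hev)
      have hx' : u * z ^ (2 : ℤ) = x := by
        rw [← hx, zpow_ofNat]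
        rfl
      have hoz : ∀ w ∉ A, 2 * o w z = o w x := by
        intro w hw
        have h1 : o w u = 0 := by
          rw [o_eq_zero]
          exact hu w hw
        rw [← hx', o_mul, h1, o_pow, zero_add]
      refine ⟨z, ?_, fun w hw hne => ?_⟩
      · have h1 := hoz v hv
        rw [hx1, pow_succ] at h1
        linarith
      · have h1 := hoz w hw
        rw [hx2 w hw hne] at h1
        omega
  obtain ⟨x, hx1, hx2⟩ := SelUnit_gen v
  obtain ⟨y, hy1, hy2⟩ := hdesc a ⟨x⁻¹, by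
    rw [SelUnit_inv, hx1, hcard]
    push_cast
    ring, fun w _ hne => by rw [SelUnit_inv, hx2 w hne, neg_zero]⟩
  refine ⟨y, ?_, fun w hw hne => ?_⟩
  · rw [SelUnit_sq, hy1, Int.even_coe_nat, Nat.not_even_iff_odd]
    exact hh'
  · rw [← o_eq_zero]
    exact hy2 w hw hne

/-- the places above 2 and `T` -/
theorem exists_AT (K : Type u) [Field K] [NumberField K] {T : Finset ℕ} (hT : ∀ l ∈ T, l ≠ 0) :
    ∃ A : Finset (HeightOneSpectrum (𝓞 K)), ∀ v : HeightOneSpectrum (𝓞 K),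
      v ∈ A ↔ (2 : 𝓞 K) ∈ v.asIdeal ∨ ∃ l ∈ T, (l : 𝓞 K) ∈ v.asIdeal := by
  classical
  have hfin : ∀ N : ℕ, N ≠ 0 → {w : HeightOneSpectrum (𝓞 K) | (N : 𝓞 K) ∈ w.asIdeal}.Finite := by
    intro N hN
    have h0 : Ideal.span {(N : 𝓞 K)} ≠ ⊥ := by
      rw [Ne, Ideal.span_singleton_eq_bot]
      exact_mod_cast hN
    refine (Ideal.finite_factors h0).subset fun w hw => ?_
    rw [Set.mem_ofPred_eq, Ideal.dvd_iff_le, Ideal.span_singleton_le_iff_mem]
    exact hw
  have h2 := hfin 2 two_ne_zero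
  have h1 : ({w : HeightOneSpectrum (𝓞 K) | ((2 : ℕ) : 𝓞 K) ∈ w.asIdeal} ∪
      ⋃ l ∈ T, {w : HeightOneSpectrum (𝓞 K) | (l : 𝓞 K) ∈ w.asIdeal}).Finite :=
    h2.union (Set.Finite.biUnion (Finset.finite_toSet T) fun l hl => hfin l (hT l hl))
  refine ⟨h1.toFinset, fun v => ?_⟩
  rw [Set.Finite.mem_toFinset, Set.mem_union, Set.mem_iUnion₂, Set.mem_ofPred_eq, Nat.cast_ofNat]
  simp only [Set.mem_ofPred_eq, exists_prop]

theorem oddT_of_index {T : Finset ℕ} {A : Finset (HeightOneSpectrum (𝓞 K))}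
    (hA : ∀ v : HeightOneSpectrum (𝓞 K),
      v ∈ A ↔ (2 : 𝓞 K) ∈ v.asIdeal ∨ ∃ l ∈ T, (l : 𝓞 K) ∈ v.asIdeal)
    (h : (sq K).relIndex (evA A) ≤
      2 ^ (InfinitePlace.nrRealPlaces K + InfinitePlace.nrComplexPlaces K + A.card)) : OddT K T := by
  intro v h2 hl
  have hv : v ∉ A := by
    rw [hA]
    rintro (h | ⟨l, hl', h⟩)
    · exact h2 h
    · exact hl l hl' h
  obtain ⟨y, hy1, hy2⟩ := odd_of_evA (evA_le_of_index h) hv
  refine ⟨y, y.ne_zero, hy1, fun w hw hw2 hwl => ?_⟩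
  rw [hy2 w (by
    rw [hA]
    rintro (h | ⟨l, hl', h⟩)
    · exact hw2 h
    · exact hwl l hl' h) hw]
  exact ⟨1, by rw [one_mul]⟩

/-- under `OddT` elements of `evA A` are `A`-units times squares -/
theorem evA_of_oddT {T : Finset ℕ} (hodd : OddT K T) {A : Finset (HeightOneSpectrum (𝓞 K))}
    (hA : ∀ v : HeightOneSpectrum (𝓞 K),
      v ∈ A ↔ (2 : 𝓞 K) ∈ v.asIdeal ∨ ∃ l ∈ T, (l : 𝓞 K) ∈ v.asIdeal) :
    evA A ≤ sUnit A ⊔ sq K := by
  intro y hy
  obtain ⟨x, hx, z, rfl⟩ := sel_unit hodd hA hy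
  exact Subgroup.mul_mem_sup hx ⟨z, rfl⟩

theorem relIndex_evA_of_oddT {T : Finset ℕ} (hodd : OddT K T) {A : Finset (HeightOneSpectrum (𝓞 K))}
    (hA : ∀ v : HeightOneSpectrum (𝓞 K),
      v ∈ A ↔ (2 : 𝓞 K) ∈ v.asIdeal ∨ ∃ l ∈ T, (l : 𝓞 K) ∈ v.asIdeal) :
    (sq K).relIndex (evA A) =
      2 ^ (InfinitePlace.nrRealPlaces K + InfinitePlace.nrComplexPlaces K + A.card) := by
  rw [← relIndex_sup_sq, le_antisymm (evA_of_oddT hodd hA) (sup_le (sUnit_le_evA A) (sq_le_evA A))]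

end Pool.Agent.Work.MP_787500_nt.GA
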