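import Mathlib
import Pool.Agent.Work.MP_787500_nt.GA.Sel
import Pool.Agent.Work.MP_787500_nt.HN.DensD
import Pool.Agent.Work.MP_787500_nt.GP.S0_KumT
import Pool.Agent.Work.MP_787500_nt.GP.C6_In

/-!
# Kummer theory for an arbitrary number field

`chi x` is the homomorphism `AbsGal K → ZMod 2` that belongs to `K (√x)`. The elements of `homs (sysT K T) ⊤` are
the `chi x`, `x ∈ evA A`, `A` the set of places above 2 and `T`; `chi x = 0` if and only if `x` is a square; `chi x`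
vanishes on the decomposition group of a prime above `v` if and only if `x` is a local square at `v`.
-/

set_option autoImplicit false
set_option linter.unusedSectionVars false

namespace Pool.Agent.Work.MP_787500_nt.GA

open IsDedekindDomain NumberField WithZero
open Pool.Agent.Work.MP_787500_nt.PA (TwoSys Sm1 Sm2 homs Coc Cob Opn)
open Pool.Agent.Work.MP_787500_nt.GP (sysT stabD Fx GoodT inT sUnit mem_sUnit)
open Pool.Agent.Work.MP_787500_nt.HN

universe u

private theorem inertia_of_odd {F : Type*} [Field F] [NumberField F] {Ω : Type*} [Field Ω]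
    [Algebra F Ω] [IsGalois F Ω] {d : F} {s : Ω} (hs : s ^ 2 = algebraMap F Ω d)
    {v : HeightOneSpectrum (𝓞 F)} {Q : Ideal (𝓞 Ω)} (hQ : Q.IsPrime)
    (hQv : Q.comap (algebraMap (𝓞 F) (𝓞 Ω)) = v.asIdeal)
    (hd : ¬ IsSquare (v.valuation F d)) :
    ∃ σ ∈ Q.inertia (Ω ≃ₐ[F] Ω), σ s = -s := by
  have hd0 : d ≠ 0 := by
    rintro rfl
    exact hd ⟨0, by rw [map_zero, mul_zero]⟩
  have hs0 : s ≠ 0 := by
    rintro rfl
    rw [zero_pow (by norm_num)] at hs
    exact hd0 ((map_eq_zero (algebraMap F Ω)).1 hs.symm)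
  have hsign : ∀ σ : Ω ≃ₐ[F] Ω, σ s = s ∨ σ s = -s := by
    intro σ
    apply sq_eq_sq_iff_eq_or_eq_neg.1
    rw [← map_pow, hs, AlgEquiv.commutes]
  have hmem : ∀ z : 𝓞 F, algebraMap (𝓞 F) (𝓞 Ω) z ∈ Q ↔ z ∈ v.asIdeal := by
    intro z
    rw [← hQv, Ideal.mem_comap]
  obtain ⟨σ₀, hσ₀⟩ : ∃ σ : Ω ≃ₐ[F] Ω, σ s ≠ s := by
    by_contra hcon
    push Not at hcon
    obtain ⟨a, ha⟩ := mem_base_of_fixed hcon
    have : a ^ 2 = d := by
      apply (algebraMap F Ω).injective
      rw [map_pow, ha, hs]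
    apply hd
    rw [← this, map_pow]
    exact ⟨_, pow_two _⟩
  have hσ₀' : σ₀ s = -s := (hsign σ₀).resolve_left hσ₀
  have h2Ω : (2 : Ω) ≠ 0 := by
    rw [← map_ofNat (algebraMap F Ω) 2]
    exact (map_ne_zero _).2 two_ne_zero
  have hne : ∀ σ : Ω ≃ₐ[F] Ω, ¬ (σ s = s ∧ σ s = -s) := by
    rintro σ ⟨h1, h2⟩
    have : (2 : Ω) * s = 0 := by rw [h1] at h2; linear_combination h2
    exact mul_ne_zero h2Ω hs0 this
  let H : Subgroup (Ω ≃ₐ[F] Ω) := MulAction.stabilizer (Ω ≃ₐ[F] Ω) s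
  have hHmem : ∀ σ : Ω ≃ₐ[F] Ω, σ ∈ H ↔ σ s = s := fun σ => Iff.rfl
  have hHopen : IsOpen (H : Set (Ω ≃ₐ[F] Ω)) := stabilizer_isOpen_of_isIntegral s
  have hHcl : IsClosed (H : Set (Ω ≃ₐ[F] Ω)) := Subgroup.isClosed_of_isOpen H hHopen
  let _ : TopologicalSpace (𝓞 Ω) := ⊥
  have : DiscreteTopology (𝓞 Ω) := ⟨rfl⟩
  have : ContinuousSMul (Ω ≃ₐ[F] Ω) (𝓞 Ω) := by
    rw [continuousSMul_iff_stabilizer_isOpen]
    intro x
    have h1 : IsOpen (MulAction.stabilizer (Ω ≃ₐ[F] Ω) (algebraMap (𝓞 Ω) Ω x) :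
      Set (Ω ≃ₐ[F] Ω)) := stabilizer_isOpen_of_isIntegral _
    convert h1 using 1
    ext σ
    simp only [SetLike.mem_coe, MulAction.mem_stabilizer_iff]
    constructor
    · intro h
      have := congrArg (algebraMap (𝓞 Ω) Ω) h
      exact this
    · intro h
      apply RingOfIntegers.ext
      exact h
  have key : ∀ (σ : Ω ≃ₐ[F] Ω), σ s = -s → ∀ x : 𝓞 Ω, (∀ h ∈ H, h • x = x) → σ • x - x ∈ Q := by
    intro σ hσ x hx
    have hx' : ∀ τ : Ω ≃ₐ[F] Ω, τ s = s → τ (algebraMap (𝓞 Ω) Ω x) = algebraMap (𝓞 Ω) Ω x := by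
      intro τ hτ
      have := congrArg (algebraMap (𝓞 Ω) Ω) (hx τ hτ)
      exact this
    set X := algebraMap (𝓞 Ω) Ω x with hX
    set y := σ X - X with hy
    have hσinv : σ⁻¹ s = -s := by
      have : σ⁻¹ (σ s) = s := by
        rw [← AlgEquiv.mul_apply, inv_mul_cancel]; rfl
      rw [hσ, map_neg] at this
      exact neg_eq_iff_eq_neg.1 this
    have hys : ∀ τ : Ω ≃ₐ[F] Ω, τ (y * s) = y * s := by
      intro τ
      rcases hsign τ with h | h
      · have h1 : τ (σ X) = σ X := by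
          have h2 := hx' (σ⁻¹ * (τ * σ)) (by
            rw [AlgEquiv.mul_apply, AlgEquiv.mul_apply, hσ, map_neg, h, map_neg, hσinv, neg_neg])
          have h3 := congrArg σ h2
          rw [← AlgEquiv.mul_apply, mul_inv_cancel_left, AlgEquiv.mul_apply] at h3
          exact h3
        rw [hy, map_mul, map_sub, h1, hx' τ h, h]
      · have h1 : τ (σ X) = X := by
          rw [← AlgEquiv.mul_apply]
          exact hx' _ (by rw [AlgEquiv.mul_apply, hσ, map_neg, h, neg_neg])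
        have h2 : τ X = σ X := by
          have h2 := hx' (σ⁻¹ * τ) (by rw [AlgEquiv.mul_apply, h, map_neg, hσinv, neg_neg])
          have h3 := congrArg σ h2
          rw [← AlgEquiv.mul_apply, mul_inv_cancel_left] at h3
          exact h3
        rw [hy, map_mul, map_sub, h1, h2, h]
        ring
    obtain ⟨a, ha⟩ := mem_base_of_fixed hys
    have hy2 : y ^ 2 = algebraMap F Ω (a ^ 2 / d) := by
      rw [map_div₀, map_pow, ha, ← hs]
      field_simp
    have hYy : algebraMap (𝓞 Ω) Ω ((σ • x - x) ^ 2) = y ^ 2 := by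
      rw [map_pow, map_sub, coe_smul_int]
    have hint : IsIntegral ℤ (a ^ 2 / d) := by
      have h1 : IsIntegral ℤ (algebraMap F Ω (a ^ 2 / d)) := by
        rw [← hy2, ← hYy]
        exact RingOfIntegers.isIntegral_coe _
      exact (isIntegral_algebraMap_iff (algebraMap F Ω).injective).1 h1
    obtain ⟨z, hz⟩ : ∃ z : 𝓞 F, algebraMap (𝓞 F) F z = a ^ 2 / d := ⟨⟨_, hint⟩, rfl⟩
    have hYz : (σ • x - x) ^ 2 = algebraMap (𝓞 F) (𝓞 Ω) z := by
      apply RingOfIntegers.ext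
      show algebraMap (𝓞 Ω) Ω _ = algebraMap (𝓞 Ω) Ω _
      rw [hYy, hy2, ← hz]
      rfl
    have hzv : z ∈ v.asIdeal := by
      by_contra hcon
      have h1 := (HeightOneSpectrum.valuation_eq_one_iff_notMem (K := F) v).2 hcon
      rw [hz, map_div₀] at h1
      apply hd
      have h2 : v.valuation F d ≠ 0 := (v.valuation F).ne_zero_iff.2 hd0
      have h3 : v.valuation F (a ^ 2) = v.valuation F d := (div_eq_one_iff_eq h2).1 h1
      rw [← h3, map_pow]
      exact ⟨_, pow_two _⟩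
    have h5 : (σ • x - x) ^ 2 ∈ Q := by
      rw [hYz, hmem]
      exact hzv
    exact hQ.mem_of_pow_mem _ h5
  have hσinv : σ₀⁻¹ s = -s := by
    have : σ₀⁻¹ (σ₀ s) = s := by
      rw [← AlgEquiv.mul_apply, inv_mul_cancel]; rfl
    rw [hσ₀', map_neg] at this
    exact neg_eq_iff_eq_neg.1 this
  obtain ⟨h, hh, hin⟩ := exists_inertia H hHcl Q σ₀ (key _ hσinv)
  refine ⟨h * σ₀, hin, ?_⟩
  rw [AlgEquiv.mul_apply, hσ₀', map_neg, (hHmem h).1 hh]

variable {K : Type u} [Field K] [NumberField K]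

private theorem unitAt_of_val {Q : Ideal (𝓞 (AlgebraicClosure K))} {v : HeightOneSpectrum (𝓞 K)}
    (hv : Q.comap (algebraMap (𝓞 K) (𝓞 (AlgebraicClosure K))) = v.asIdeal) {w : K}
    (hw : v.valuation K w = 1) : GP.UnitAt Q (algebraMap K (AlgebraicClosure K) w) := by
  obtain ⟨n, d, hnd⟩ := v.exists_primeCompl_mul_eq_of_integer w hw.le
  have hd : (d : 𝓞 K) ∉ v.asIdeal := d.2
  have hvd : v.valuation K (algebraMap (𝓞 K) K d) = 1 :=
    (HeightOneSpectrum.valuation_eq_one_iff_notMem (K := K) v).2 hd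
  have hvn : v.valuation K (algebraMap (𝓞 K) K n) = 1 := by
    rw [← hnd, map_mul, hw, hvd, one_mul]
  have hn : n ∉ v.asIdeal := (HeightOneSpectrum.valuation_eq_one_iff_notMem (K := K) v).1 hvn
  refine ⟨algebraMap (𝓞 K) (𝓞 (AlgebraicClosure K)) n,
    algebraMap (𝓞 K) (𝓞 (AlgebraicClosure K)) d, ?_, ?_, ?_⟩
  · exact fun h => hn (hv.le h)
  · exact fun h => hd (hv.le h)
  · have h1 := congrArg (algebraMap K (AlgebraicClosure K)) hnd
    rw [map_mul] at h1
    exact h1

private theorem above (v : HeightOneSpectrum (𝓞 K)) : ∃ P : Ideal (𝓞 (AlgebraicClosure K)),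
    P.IsPrime ∧ P ≠ ⊥ ∧ P.comap (algebraMap (𝓞 K) (𝓞 (AlgebraicClosure K))) = v.asIdeal := by
  have : v.asIdeal.IsMaximal := v.isMaximal
  obtain ⟨P, hP, hPv⟩ := Ideal.exists_maximal_ideal_liesOver_of_isIntegral
    (S := 𝓞 (AlgebraicClosure K)) v.asIdeal
  refine ⟨P, hP.isPrime, ?_, hPv.over.symm⟩
  rintro rfl
  have h1 := hPv.over
  rw [Ideal.under_bot] at h1
  exact v.ne_bot h1

private theorem neg_ne {t : AlgebraicClosure K} (ht : t ≠ 0) : -t ≠ t := by
  intro h
  have h2 : (2 : AlgebraicClosure K) * t = 0 := by linear_combination -h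
  exact mul_ne_zero two_ne_zero ht h2

private theorem top_mem (T : Finset ℕ) : GoodT K T ⊤ := Gn.GoodG.top (GP.baseT K T)

/-- an element fixed by the decomposition group is approximated by elements of `K` -/
private theorem locSq_of_fixed {v : HeightOneSpectrum (𝓞 K)} {Q : Ideal (𝓞 (AlgebraicClosure K))}
    (hQ : Q.IsPrime) (hb : Q ≠ ⊥)
    (hQv : Q.comap (algebraMap (𝓞 K) (𝓞 (AlgebraicClosure K))) = v.asIdeal)
    {t : AlgebraicClosure K} {y : K} (hy : algebraMap K (AlgebraicClosure K) y = t ^ 2)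
    (ht : ∀ g ∈ stabD Q, g t = t) : LocSq (v.valuation K) y := by
  have hopen : IsOpen ((⊤ : Subgroup (AbsGal K)) : Set (AbsGal K)) := isOpen_univ
  have hNF : NumberField (Fx (⊤ : Subgroup (AbsGal K))) := fx_numberField hopen
  let w : HeightOneSpectrum (𝓞 (Fx (⊤ : Subgroup (AbsGal K)))) :=
    ⟨Q.comap (algebraMap (𝓞 (Fx (⊤ : Subgroup (AbsGal K)))) (𝓞 (AlgebraicClosure K))),
      Ideal.comap_isPrime _ _, fun h => hb (Ideal.eq_bot_of_comap_eq_bot h)⟩
  have hwv : below K w = v := by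
    apply HeightOneSpectrum.ext
    rw [← hQv]
    rfl
  obtain ⟨E, hE, P, hPw, hs⟩ := densD hopen hQ hb (w := w) rfl {t} (by
    intro z hz
    rw [Finset.mem_singleton] at hz
    subst hz
    rw [GP.mem_Fx]
    exact fun g hg => ht g hg.1)
  obtain ⟨z', hz', happ⟩ := hs t (Finset.mem_singleton_self t)
  obtain ⟨e₁, he₁, h₁⟩ := exists_valuation_below (K := Fx (⊤ : Subgroup (AbsGal K))) P
  obtain ⟨e₂, he₂, h₂⟩ := exists_valuation_below (K := K) w
  rw [hPw] at h₁
  rw [hwv] at h₂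
  intro γ hγ
  have hΓ : γ ^ (e₂ * e₁) ≠ 0 := pow_ne_zero _ hγ
  obtain ⟨δ, hδ, h3⟩ := exists_lt_of_ne_zero (a := P.valuation E (2 * z')) hΓ
  obtain ⟨k', hk'⟩ := happ (min δ (min 1 (γ ^ (e₂ * e₁)))) (by
    rcases min_choice δ (min 1 (γ ^ (e₂ * e₁))) with h' | h' <;> rw [h']
    · exact hδ
    · rcases min_choice 1 (γ ^ (e₂ * e₁)) with h' | h' <;> rw [h']
      · exact one_ne_zero
      · exact hΓ)
  have hu1 : P.valuation E (z' - algebraMap _ E k') < δ := hk'.trans_le (min_le_left _ _)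
  have hu2 : P.valuation E (z' - algebraMap _ E k') < 1 :=
    hk'.trans_le ((min_le_right _ _).trans (min_le_left _ _))
  have hu3 : P.valuation E (z' - algebraMap _ E k') < γ ^ (e₂ * e₁) :=
    hk'.trans_le ((min_le_right _ _).trans (min_le_right _ _))
  obtain ⟨k, hk⟩ := mem_base_of_fixed (F := K) (Ω := AlgebraicClosure K)
    (x := (k' : AlgebraicClosure K)) (fun σ => GP.mem_Fx.1 k'.2 σ trivial)
  refine ⟨k, ?_⟩
  have e1 : algebraMap (Fx (⊤ : Subgroup (AbsGal K))) E (algebraMap K _ (y - k ^ 2)) =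
      (z' - algebraMap _ E k') * (z' + algebraMap _ E k') := by
    apply Subtype.ext
    show algebraMap K (AlgebraicClosure K) (y - k ^ 2) =
      ((z' : AlgebraicClosure K) - (k' : AlgebraicClosure K)) *
        ((z' : AlgebraicClosure K) + (k' : AlgebraicClosure K))
    rw [map_sub, map_pow, hy, hk, hz']
    ring
  have h4 : P.valuation E (z' + algebraMap _ E k') ≤
      max (P.valuation E (2 * z')) (P.valuation E (z' - algebraMap _ E k')) := by
    have e2 : z' + algebraMap _ E k' = 2 * z' - (z' - algebraMap _ E k') := by ring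
    rw [e2]
    exact Valuation.map_sub _ _ _
  have h5 : P.valuation E (algebraMap (Fx (⊤ : Subgroup (AbsGal K))) E
      (algebraMap K _ (y - k ^ 2))) < γ ^ (e₂ * e₁) := by
    rw [e1, map_mul]
    rcases le_max_iff.1 h4 with h6 | h6
    · calc P.valuation E (z' - algebraMap _ E k') * P.valuation E (z' + algebraMap _ E k')
          ≤ P.valuation E (z' - algebraMap _ E k') * P.valuation E (2 * z') := by gcongr
        _ = P.valuation E (2 * z') * P.valuation E (z' - algebraMap _ E k') := mul_comm _ _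
        _ < γ ^ (e₂ * e₁) := h3 _ hu1
    · calc P.valuation E (z' - algebraMap _ E k') * P.valuation E (z' + algebraMap _ E k')
          ≤ 1 * P.valuation E (z' - algebraMap _ E k') := by gcongr
        _ = P.valuation E (z' - algebraMap _ E k') := one_mul _
        _ < γ ^ (e₂ * e₁) := hu3
  rw [← h₁, ← h₂, ← pow_mul] at h5
  exact lt_of_pow_lt_pow_left' _ h5

private theorem isSquare_of_locSq {v : HeightOneSpectrum (𝓞 K)} {y : K} (hy0 : y ≠ 0)
    (h : LocSq (v.valuation K) y) : IsSquare (v.valuation K y) := by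
  obtain ⟨k, hk⟩ := h (v.valuation K y) ((Valuation.ne_zero_iff _).2 hy0)
  rw [Valuation.map_sub_swap] at hk
  have h1 : v.valuation K (k ^ 2) = v.valuation K y := Valuation.map_eq_of_sub_lt _ hk
  rw [← h1, map_pow]
  exact ⟨_, pow_two _⟩

private theorem act2_congr {t t' : AlgebraicClosure K} {z : K} (hz : z ≠ 0)
    (h : t ^ 2 = (t' * algebraMap K (AlgebraicClosure K) z) ^ 2) :
    PA.act2 (⊤ : Subgroup (AbsGal K)) t = PA.act2 ⊤ t' := by
  classical
  have hz' : algebraMap K (AlgebraicClosure K) z ≠ 0 := (map_ne_zero _).2 hz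
  have key : ∀ g : AbsGal K, g t = t ↔ g t' = t' := by
    intro g
    rcases sq_eq_sq_iff_eq_or_eq_neg.1 h with h1 | h1
    · rw [h1, map_mul, AlgEquiv.commutes]
      exact ⟨fun h2 => mul_right_cancel₀ hz' h2, fun h2 => by rw [h2]⟩
    · rw [h1, map_neg, map_mul, AlgEquiv.commutes, neg_inj]
      exact ⟨fun h2 => mul_right_cancel₀ hz' h2, fun h2 => by rw [h2]⟩
  funext g
  unfold PA.act2
  by_cases h1 : g t = t
  · rw [if_neg (fun h' => h'.2 h1), if_neg (fun h' => h'.2 ((key g).1 h1))]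
  · rw [if_pos ⟨trivial, h1⟩, if_pos ⟨trivial, fun h' => h1 ((key g).2 h')⟩]


/-- the square root -/
private noncomputable def sr (x : Kˣ) : AlgebraicClosure K :=
  GP.rt (algebraMap K (AlgebraicClosure K) (x : K))

private theorem sr_sq (x : Kˣ) : sr x ^ 2 = algebraMap K (AlgebraicClosure K) (x : K) :=
  GP.rt_sq _

private theorem sr_ne (x : Kˣ) : sr x ≠ 0 := by
  intro h
  have h1 := sr_sq x
  rw [h, zero_pow two_ne_zero] at h1
  exact (map_ne_zero _).2 x.ne_zero h1.symm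

private theorem sr_fix (x : Kˣ) (g : AbsGal K) : g (sr x ^ 2) = sr x ^ 2 := by
  rw [sr_sq, AlgEquiv.commutes]

private theorem sr_sign (x : Kˣ) (g : AbsGal K) : g (sr x) = sr x ∨ g (sr x) = -sr x := by
  apply sq_eq_sq_iff_eq_or_eq_neg.1
  rw [← map_pow, sr_fix]

/-- the quadratic character of `K (√x)` -/
noncomputable def chi (x : Kˣ) : AbsGal K → ZMod 2 := PA.act2 ⊤ (sr x)

theorem chi_eq_zero_iff_root {x : Kˣ} {t : AlgebraicClosure K}
    (ht : t ^ 2 = algebraMap K (AlgebraicClosure K) (x : K)) (g : AbsGal K) :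
    chi x g = 0 ↔ g t = t := by
  classical
  have h1 : g (sr x) = sr x ↔ g t = t := by
    rcases sq_eq_sq_iff_eq_or_eq_neg.1 (ht.trans (sr_sq x).symm) with h | h
    · rw [h]
    · rw [h, map_neg, neg_inj]
  rw [← h1]
  unfold chi PA.act2
  constructor
  · intro h
    by_contra hcon
    rw [if_pos ⟨trivial, hcon⟩] at h
    exact one_ne_zero h
  · intro h
    rw [if_neg fun h' => h'.2 h]

theorem chi_mul (x y : Kˣ) : chi (x * y) = chi x + chi y := by
  unfold chi
  rw [← PA.act2_mul (sr_ne x) (sr_ne y) (fun g _ => sr_fix x g) (fun g _ => sr_fix y g)]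
  refine act2_congr (z := 1) one_ne_zero ?_
  rw [map_one, mul_one, mul_pow, sr_sq, sr_sq, sr_sq, Units.val_mul, map_mul]

theorem chi_zero (x : Kˣ) : chi x = 0 ↔ x ∈ sq K := by
  unfold chi
  rw [PA.act2_eq_zero_iff]
  constructor
  · intro h
    obtain ⟨a, ha⟩ := mem_base_of_fixed (F := K) (Ω := AlgebraicClosure K) (x := sr x)
      (fun σ => h σ trivial)
    have h1 : a ^ 2 = (x : K) := by
      apply (algebraMap K (AlgebraicClosure K)).injective
      rw [map_pow, ha, sr_sq]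
    have ha0 : a ≠ 0 := by
      rintro rfl
      rw [zero_pow two_ne_zero] at h1
      exact x.ne_zero h1.symm
    exact ⟨Units.mk0 a ha0, Units.ext h1⟩
  · rintro ⟨y, rfl⟩ g _
    have h1 : sr (y ^ 2) ^ 2 = (algebraMap K (AlgebraicClosure K) (y : K)) ^ 2 := by
      rw [sr_sq, ← map_pow, Units.val_pow_eq_pow_val]
    rcases sq_eq_sq_iff_eq_or_eq_neg.1 h1 with h2 | h2
    · show g (sr (y ^ 2)) = sr (y ^ 2)
      rw [h2, AlgEquiv.commutes]
    · show g (sr (y ^ 2)) = sr (y ^ 2)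
      rw [h2, map_neg, AlgEquiv.commutes]

theorem chi_one : chi (1 : Kˣ) = 0 := (chi_zero 1).2 (sq K).one_mem

theorem chi_hom (x : Kˣ) (g h : AbsGal K) : chi x (g * h) = chi x g + chi x h := by
  have hz : ∀ a : ZMod 2, a ≠ 0 → a = 1 := by decide
  have hn : ∀ g : AbsGal K, chi x g ≠ 0 → g (sr x) = -sr x := fun g hg =>
    (sr_sign x g).resolve_left fun h => hg ((chi_eq_zero_iff_root (sr_sq x) g).2 h)
  by_cases h1 : chi x g = 0 <;> by_cases h2 : chi x h = 0
  · rw [h1, h2, add_zero]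
    rw [chi_eq_zero_iff_root (sr_sq x)] at h1 h2 ⊢
    rw [AlgEquiv.mul_apply, h2, h1]
  · have h3 : chi x (g * h) ≠ 0 := by
      rw [Ne, chi_eq_zero_iff_root (sr_sq x), AlgEquiv.mul_apply, hn h h2, map_neg,
        (chi_eq_zero_iff_root (sr_sq x) g).1 h1]
      exact neg_ne (sr_ne x)
    rw [hz _ h2, hz _ h3, h1, zero_add]
  · have h3 : chi x (g * h) ≠ 0 := by
      rw [Ne, chi_eq_zero_iff_root (sr_sq x), AlgEquiv.mul_apply,
        (chi_eq_zero_iff_root (sr_sq x) h).1 h2, hn g h1]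
      exact neg_ne (sr_ne x)
    rw [hz _ h1, hz _ h3, h2, add_zero]
  · rw [hz _ h1, hz _ h2]
    have : (1 : ZMod 2) + 1 = 0 := by decide
    rw [this, chi_eq_zero_iff_root (sr_sq x), AlgEquiv.mul_apply, hn h h2, map_neg, hn g h1, neg_neg]

/-- the stabilizer of `√x` is good -/
private theorem stab_good {T : Finset ℕ} {A : Finset (HeightOneSpectrum (𝓞 K))}
    (hA : ∀ v : HeightOneSpectrum (𝓞 K),
      v ∈ A ↔ (2 : 𝓞 K) ∈ v.asIdeal ∨ ∃ l ∈ T, (l : 𝓞 K) ∈ v.asIdeal) {x : Kˣ}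
    (hx : x ∈ evA A) : GoodT K T (MulAction.stabilizer (AbsGal K) (sr x)) := by
  have hmem : ∀ g : AbsGal K, g ∈ MulAction.stabilizer (AbsGal K) (sr x) ↔ g (sr x) = sr x :=
    fun g => Iff.rfl
  refine ⟨⟨fun w hw g => ?_⟩, stabilizer_isOpen_of_isIntegral _, le_top, fun g _ => ⟨1, ?_⟩, ?_⟩
  · rw [hmem] at hw ⊢
    rw [← chi_eq_zero_iff_root (sr_sq x)] at hw ⊢
    have h1 : chi x g + chi x g⁻¹ = 0 := by
      rw [← chi_hom, mul_inv_cancel, chi_eq_zero_iff_root (sr_sq x)]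
      rfl
    rw [chi_hom, chi_hom, hw, add_zero, h1]
  · rw [hmem, pow_one, pow_two, AlgEquiv.mul_apply]
    rcases sr_sign x g with h | h
    · rw [h, h]
    · rw [h, map_neg, h, neg_neg]
  · rintro σ ⟨Q, hQ, hQ2, hQT, hσ⟩
    rw [hmem]
    by_cases hb : Q = ⊥
    · rw [hb] at hσ
      have : σ = 1 := eq_one_of_inertia_bot hσ
      rw [this]
      rfl
    · let v : HeightOneSpectrum (𝓞 K) :=
        ⟨Q.comap (algebraMap (𝓞 K) (𝓞 (AlgebraicClosure K))), Ideal.comap_isPrime _ _,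
          fun h => hb (Ideal.eq_bot_of_comap_eq_bot h)⟩
      have hv : v ∉ A := by
        rw [hA]
        rintro (h | ⟨l, hl, h⟩)
        · have h' : (2 : 𝓞 K) ∈ Q.comap (algebraMap (𝓞 K) (𝓞 (AlgebraicClosure K))) := h
          rw [Ideal.mem_comap, map_ofNat] at h'
          exact hQ2 h'
        · have h' : (l : 𝓞 K) ∈ Q.comap (algebraMap (𝓞 K) (𝓞 (AlgebraicClosure K))) := h
          rw [Ideal.mem_comap, map_natCast] at h'
          exact hQT l hl h'
      obtain ⟨r, hr⟩ := hx v hv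
      have hvx : v.valuation K (x : K) ≠ 0 := (Valuation.ne_zero_iff _).2 x.ne_zero
      have hr0 : r ≠ 0 := by
        rintro rfl
        rw [mul_zero] at hr
        exact hvx hr
      obtain ⟨π, hπ⟩ := v.valuation_exists_uniformizer K
      obtain ⟨m, hm⟩ : ∃ m : ℤ, r = exp m := ⟨_, (exp_log hr0).symm⟩
      have hπ0 : π ≠ 0 := by
        rintro rfl
        rw [map_zero] at hπ
        exact absurd hπ.symm exp_ne_zero
      have hvz : v.valuation K (π ^ (-m)) = r := by
        rw [map_zpow₀, hπ, hm, ← exp_zsmul]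
        congr 1
        simp
      have hz0 : π ^ (-m) ≠ 0 := zpow_ne_zero _ hπ0
      set z : K := π ^ (-m) with hz
      have hu : v.valuation K ((x : K) / z ^ 2) = 1 := by
        rw [map_div₀, map_pow, hvz, hr, pow_two]
        exact div_self (mul_ne_zero hr0 hr0)
      have hU := unitAt_of_val (v := v) (Q := Q) rfl hu
      have hzΩ : algebraMap K (AlgebraicClosure K) z ≠ 0 := (map_ne_zero _).2 hz0
      have h1 : (sr x / algebraMap K (AlgebraicClosure K) z) ^ 2 =
          algebraMap K (AlgebraicClosure K) ((x : K) / z ^ 2) := by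
        rw [div_pow, sr_sq, map_div₀, map_pow]
      rw [← h1] at hU
      have hU2 := GP.UnitAt.of_pow hQ two_ne_zero hU
      have h2 := GP.unit_fix hQ hQ2 hU2 hσ (by
        rw [map_div₀, AlgEquiv.commutes]
        rcases sr_sign x σ with h | h
        · left
          rw [h]
        · right
          rw [h, neg_div])
      rw [map_div₀, AlgEquiv.commutes] at h2
      exact (div_left_inj' hzΩ).1 h2

theorem chi_mem {T : Finset ℕ} {A : Finset (HeightOneSpectrum (𝓞 K))}
    (hA : ∀ v : HeightOneSpectrum (𝓞 K),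
      v ∈ A ↔ (2 : 𝓞 K) ∈ v.asIdeal ∨ ∃ l ∈ T, (l : 𝓞 K) ∈ v.asIdeal) {x : Kˣ}
    (hx : x ∈ evA A) : chi x ∈ homs (sysT K T) ⊤ :=
  GP.act2_memT ⟨⊤, top_mem T, le_rfl⟩ (sr_ne x) ⟨_, stab_good hA hx, fun _ hw => hw⟩
    fun g _ => sr_fix x g

theorem chi_surj {T : Finset ℕ} {A : Finset (HeightOneSpectrum (𝓞 K))}
    (hA : ∀ v : HeightOneSpectrum (𝓞 K),
      v ∈ A ↔ (2 : 𝓞 K) ∈ v.asIdeal ∨ ∃ l ∈ T, (l : 𝓞 K) ∈ v.asIdeal)
    {ω : AbsGal K → ZMod 2} (hω : ω ∈ homs (sysT K T) ⊤) :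
    ∃ x ∈ evA A, chi x = ω := by
  obtain ⟨t, ht0, ⟨W, hW, hWt⟩, hfix, rfl⟩ := GP.exists_act2T ⟨⊤, top_mem T, le_rfl⟩ hω
  obtain ⟨y, hy⟩ := mem_base_of_fixed (F := K) (Ω := AlgebraicClosure K) (x := t ^ 2)
    (fun σ => hfix σ trivial)
  have hy0 : y ≠ 0 := by
    rintro rfl
    rw [map_zero] at hy
    exact pow_ne_zero 2 ht0 hy.symm
  refine ⟨Units.mk0 y hy0, fun v hv => ?_, ?_⟩
  · rw [Units.val_mk0]
    by_contra hcon
    obtain ⟨Q, hQ, -, hQv⟩ := above v
    obtain ⟨σ, hσ, hσt⟩ := inertia_of_odd (F := K) (Ω := AlgebraicClosure K) (d := y) (s := t)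
      hy.symm hQ hQv hcon
    have hmemv : ∀ z : 𝓞 K, algebraMap (𝓞 K) (𝓞 (AlgebraicClosure K)) z ∈ Q ↔ z ∈ v.asIdeal := by
      intro z
      rw [← hQv, Ideal.mem_comap]
    have h1 : σ ∈ W := by
      apply hW.inertia
      refine ⟨Q, hQ, ?_, ?_, hσ⟩
      · intro h
        apply hv
        rw [hA]
        left
        rw [← hmemv, map_ofNat]
        exact h
      · intro l hl h
        apply hv
        rw [hA]
        right
        refine ⟨l, hl, ?_⟩
        rw [← hmemv, map_natCast]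
        exact h
    have h2 := hWt σ h1
    rw [hσt] at h2
    exact neg_ne ht0 h2
  · refine act2_congr (z := 1) one_ne_zero ?_
    rw [map_one, mul_one, sr_sq, Units.val_mk0, hy]

theorem exists_prime_above (v : HeightOneSpectrum (𝓞 K)) : ∃ P : Ideal (𝓞 (AlgebraicClosure K)),
    P.IsPrime ∧ P ≠ ⊥ ∧ P.comap (algebraMap (𝓞 K) (𝓞 (AlgebraicClosure K))) = v.asIdeal := above v

theorem locSq_of_chi {v : HeightOneSpectrum (𝓞 K)} {Q : Ideal (𝓞 (AlgebraicClosure K))}
    (hQ : Q.IsPrime) (hb : Q ≠ ⊥)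
    (hQv : Q.comap (algebraMap (𝓞 K) (𝓞 (AlgebraicClosure K))) = v.asIdeal) {x : Kˣ}
    (h : ∀ g ∈ stabD Q, chi x g = 0) : x ∈ LS v :=
  locSq_of_fixed hQ hb hQv (sr_sq x).symm fun g hg =>
    (chi_eq_zero_iff_root (sr_sq x) g).1 (h g hg)

theorem chi_of_locSq {v : HeightOneSpectrum (𝓞 K)} {Q : Ideal (𝓞 (AlgebraicClosure K))}
    (hQ : Q.IsPrime) (hb : Q ≠ ⊥)
    (hQv : Q.comap (algebraMap (𝓞 K) (𝓞 (AlgebraicClosure K))) = v.asIdeal) {x : Kˣ}
    (hx : x ∈ LS v) {g : AbsGal K} (hg : g ∈ stabD Q) : chi x g = 0 := by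
  rw [chi_eq_zero_iff_root (sr_sq x)]
  by_contra hcon
  have hneg : g (sr x) = -sr x := (sr_sign x g).resolve_left hcon
  let L : IntermediateField K (AlgebraicClosure K) := IntermediateField.adjoin K {sr x}
  have hL : FiniteDimensional K L :=
    IntermediateField.finiteDimensional_adjoin (fun y _ => Algebra.IsIntegral.isIntegral y)
  let E : IntermediateField K (AlgebraicClosure K) :=
    IntermediateField.normalClosure K L (AlgebraicClosure K)
  have hE : FiniteDimensional K E := inferInstance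
  have hnum : NumberField E := NumberField.of_module_finite K E
  have hnorm : Normal K E := inferInstance
  have hLE : L ≤ E := IntermediateField.le_normalClosure L
  have hsE : sr x ∈ E := hLE (IntermediateField.subset_adjoin _ _ (Set.mem_singleton _))
  let P : HeightOneSpectrum (𝓞 E) :=
    ⟨Q.comap (algebraMap (𝓞 E) (𝓞 (AlgebraicClosure K))), Ideal.comap_isPrime _ _,
      fun h => hb (Ideal.eq_bot_of_comap_eq_bot h)⟩
  have hP : ∀ z : 𝓞 E, z ∈ P.asIdeal ↔ algebraMap (𝓞 E) (𝓞 (AlgebraicClosure K)) z ∈ Q :=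
    fun z => Iff.rfl
  have hPv : below K P = v := by
    apply HeightOneSpectrum.ext
    rw [← hQv]
    rfl
  let gE : E ≃ₐ[K] E := g.restrictNormal E
  have hcom : ∀ z : E, g (z : AlgebraicClosure K) = ((gE z : E) : AlgebraicClosure K) := fun z =>
    (AlgEquiv.restrictNormal_commutes g E z).symm
  have hconj : conjPrime (gE : E ≃+* E) P = P := by
    apply HeightOneSpectrum.ext
    ext z
    rw [mem_conjPrime, hP, hP]
    have h1 : algebraMap (𝓞 E) (𝓞 (AlgebraicClosure K)) (RingOfIntegers.mapRingEquiv (gE : E ≃+* E) z) =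
        g • algebraMap (𝓞 E) (𝓞 (AlgebraicClosure K)) z := by
      apply RingOfIntegers.ext
      exact (hcom (algebraMap (𝓞 E) E z)).symm
    rw [h1]
    exact (hg _).symm
  have hval : ∀ z : E, P.valuation E (gE z) = P.valuation E z := by
    intro z
    have := valuation_conjPrime (gE : E ≃+* E) P z
    rw [hconj] at this
    exact this.symm
  obtain ⟨e, he, h₁⟩ := exists_valuation_below (K := K) P
  rw [hPv] at h₁
  set s : E := ⟨sr x, hsE⟩ with hs
  have hs2 : s ^ 2 = algebraMap K E (x : K) := by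
    apply Subtype.ext
    exact sr_sq x
  have hgs : gE s = -s := by
    apply Subtype.ext
    rw [← hcom]
    exact hneg
  have h40 : (4 * (x : K)) ≠ 0 := mul_ne_zero (by norm_num) x.ne_zero
  obtain ⟨y, hy⟩ := hx (v.valuation K (4 * (x : K))) ((Valuation.ne_zero_iff _).2 h40)
  set y' : E := algebraMap K E y with hy'
  have hgy : gE y' = y' := gE.commutes y
  have h2 : P.valuation E (s - y') = P.valuation E (s + y') := by
    rw [← hval (s - y'), map_sub, hgs, hgy]
    have : -s - y' = -(s + y') := by ring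
    rw [this, Valuation.map_neg]
  have h3 : P.valuation E ((s - y') * (s + y')) < P.valuation E (2 * s) ^ 2 := by
    have e1 : (s - y') * (s + y') = algebraMap K E ((x : K) - y ^ 2) := by
      rw [map_sub, map_pow, ← hs2]
      ring
    have e2 : P.valuation E (2 * s) ^ 2 = P.valuation E (algebraMap K E (4 * (x : K))) := by
      rw [← map_pow]
      congr 1
      rw [map_mul, ← hs2, map_ofNat]
      ring
    rw [e1, e2, ← h₁, ← h₁]
    exact pow_lt_pow_left₀ hy zero_le he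
  rw [map_mul, ← h2, ← pow_two] at h3
  have h4 : P.valuation E (s - y') < P.valuation E (2 * s) := lt_of_pow_lt_pow_left₀ 2 zero_le h3
  have h5 : P.valuation E (s + y') < P.valuation E (2 * s) := by rwa [← h2]
  have h6 : 2 * s = (s - y') + (s + y') := by ring
  have h7 : P.valuation E (2 * s) < P.valuation E (2 * s) := by
    conv_lhs => rw [h6]
    exact (Valuation.map_add _ _ _).trans_lt (max_lt h4 h5)
  exact lt_irrefl _ h7

theorem chi_loc {v : HeightOneSpectrum (𝓞 K)} {Q : Ideal (𝓞 (AlgebraicClosure K))}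
    (hQ : Q.IsPrime) (hb : Q ≠ ⊥)
    (hQv : Q.comap (algebraMap (𝓞 K) (𝓞 (AlgebraicClosure K))) = v.asIdeal) {x : Kˣ} :
    (∀ g ∈ stabD Q, chi x g = 0) ↔ x ∈ LS v :=
  ⟨fun h => locSq_of_chi hQ hb hQv h, fun h _ hg => chi_of_locSq hQ hb hQv h hg⟩

/-- local squares have even valuation -/
theorem isSquare_of_LS {v : HeightOneSpectrum (𝓞 K)} {x : Kˣ} (h : x ∈ LS v) :
    IsSquare (v.valuation K (x : K)) := isSquare_of_locSq x.ne_zero h

/-- The number of homomorphisms of the system of `T`. -/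
theorem card_homs {T : Finset ℕ} {A : Finset (HeightOneSpectrum (𝓞 K))}
    (hA : ∀ v : HeightOneSpectrum (𝓞 K),
      v ∈ A ↔ (2 : 𝓞 K) ∈ v.asIdeal ∨ ∃ l ∈ T, (l : 𝓞 K) ∈ v.asIdeal) :
    Finite (homs (sysT K T) (⊤ : Subgroup (AbsGal K))) ∧
      Nat.card (homs (sysT K T) (⊤ : Subgroup (AbsGal K))) = (sq K).relIndex (evA A) := by
  classical
  let Ψ : evA A →* Multiplicative (homs (sysT K T) (⊤ : Subgroup (AbsGal K))) :=
    { toFun := fun x => Multiplicative.ofAdd ⟨chi (x : Kˣ), chi_mem hA x.2⟩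
      map_one' := by
        apply Multiplicative.toAdd.injective
        apply Subtype.ext
        exact chi_one
      map_mul' := by
        intro x y
        apply Multiplicative.toAdd.injective
        apply Subtype.ext
        exact chi_mul (x : Kˣ) (y : Kˣ) }
  have hker : Ψ.ker = (sq K).subgroupOf (evA A) := by
    ext x
    rw [MonoidHom.mem_ker, Subgroup.mem_subgroupOf, ← chi_zero]
    constructor
    · intro h
      exact congrArg (fun z : Multiplicative (homs (sysT K T) (⊤ : Subgroup (AbsGal K))) =>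
        ((Multiplicative.toAdd z : homs (sysT K T) (⊤ : Subgroup (AbsGal K))) :
          AbsGal K → ZMod 2)) h
    · intro h
      apply Multiplicative.toAdd.injective
      apply Subtype.ext
      exact h
  have hsurj : Function.Surjective Ψ := by
    intro ω
    obtain ⟨x, hx, hxω⟩ := chi_surj hA (Multiplicative.toAdd ω).2
    refine ⟨⟨x, hx⟩, ?_⟩
    apply Multiplicative.toAdd.injective
    apply Subtype.ext
    exact hxω
  have hcard : Nat.card (homs (sysT K T) (⊤ : Subgroup (AbsGal K))) = (sq K).relIndex (evA A) := by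
    have h1 : Ψ.ker.index = Nat.card Ψ.range := Subgroup.index_ker Ψ
    rw [MonoidHom.range_eq_top.2 hsurj, Subgroup.card_top, hker] at h1
    have h3 : Nat.card (Multiplicative (homs (sysT K T) (⊤ : Subgroup (AbsGal K)))) =
        Nat.card (homs (sysT K T) (⊤ : Subgroup (AbsGal K))) :=
      Nat.card_congr Multiplicative.toAdd
    rw [← h3, ← h1]
    rfl
  exact ⟨Nat.finite_of_card_ne_zero (by rw [hcard]; exact relIndex_evA_ne A), hcard⟩

/-- The dimension of the space of homomorphisms of the system of `T` for any number field. -/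
theorem finrank_homs {T : Finset ℕ} (hodd : OddT K T) {A : Finset (HeightOneSpectrum (𝓞 K))}
    (hA : ∀ v : HeightOneSpectrum (𝓞 K),
      v ∈ A ↔ (2 : 𝓞 K) ∈ v.asIdeal ∨ ∃ l ∈ T, (l : 𝓞 K) ∈ v.asIdeal) :
    Module.finrank (ZMod 2) (homs (sysT K T) (⊤ : Subgroup (AbsGal K))) =
      InfinitePlace.nrRealPlaces K + InfinitePlace.nrComplexPlaces K + A.card := by
  obtain ⟨hfin, hcard⟩ := card_homs (K := K) hA
  have hfd : FiniteDimensional (ZMod 2) (homs (sysT K T) (⊤ : Subgroup (AbsGal K))) :=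
    Module.Finite.of_finite
  have h4 := Module.natCard_eq_pow_finrank (K := ZMod 2)
    (V := homs (sysT K T) (⊤ : Subgroup (AbsGal K)))
  rw [hcard, relIndex_evA_of_oddT hodd hA, Nat.card_zmod] at h4
  exact (Nat.pow_right_injective le_rfl h4).symm

theorem le_finrank_homs {T : Finset ℕ} {A : Finset (HeightOneSpectrum (𝓞 K))}
    (hA : ∀ v : HeightOneSpectrum (𝓞 K),
      v ∈ A ↔ (2 : 𝓞 K) ∈ v.asIdeal ∨ ∃ l ∈ T, (l : 𝓞 K) ∈ v.asIdeal) :
    InfinitePlace.nrRealPlaces K + InfinitePlace.nrComplexPlaces K + A.card ≤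
      Module.finrank (ZMod 2) (homs (sysT K T) (⊤ : Subgroup (AbsGal K))) := by
  obtain ⟨hfin, hcard⟩ := card_homs (K := K) hA
  have hfd : FiniteDimensional (ZMod 2) (homs (sysT K T) (⊤ : Subgroup (AbsGal K))) :=
    Module.Finite.of_finite
  have h4 := Module.natCard_eq_pow_finrank (K := ZMod 2)
    (V := homs (sysT K T) (⊤ : Subgroup (AbsGal K)))
  rw [hcard, Nat.card_zmod] at h4
  have h5 := le_relIndex_evA A
  rw [h4] at h5
  exact (Nat.pow_le_pow_iff_right (by norm_num : 1 < 2)).1 h5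

/-- An upper bound for the dimension gives `OddT`. -/
theorem oddT_of_finrank {T : Finset ℕ} {A : Finset (HeightOneSpectrum (𝓞 K))}
    (hA : ∀ v : HeightOneSpectrum (𝓞 K),
      v ∈ A ↔ (2 : 𝓞 K) ∈ v.asIdeal ∨ ∃ l ∈ T, (l : 𝓞 K) ∈ v.asIdeal)
    (h : Module.finrank (ZMod 2) (homs (sysT K T) (⊤ : Subgroup (AbsGal K))) ≤
      InfinitePlace.nrRealPlaces K + InfinitePlace.nrComplexPlaces K + A.card) : OddT K T := by
  obtain ⟨hfin, hcard⟩ := card_homs (K := K) hA
  have hfd : FiniteDimensional (ZMod 2) (homs (sysT K T) (⊤ : Subgroup (AbsGal K))) :=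
    Module.Finite.of_finite
  have h4 := Module.natCard_eq_pow_finrank (K := ZMod 2)
    (V := homs (sysT K T) (⊤ : Subgroup (AbsGal K)))
  rw [hcard, Nat.card_zmod] at h4
  refine oddT_of_index hA ?_
  rw [h4]
  exact Nat.pow_le_pow_right (by norm_num) h

/-- The condition on square classes that gives `InjT`. -/
theorem injT_of_LS {T : Finset ℕ} (hT : ∀ x : Kˣ, x ∈ evA (∅ : Finset (HeightOneSpectrum (𝓞 K))) →
    (∀ v : HeightOneSpectrum (𝓞 K), ((2 : 𝓞 K) ∈ v.asIdeal ∨ ∃ l ∈ T, (l : 𝓞 K) ∈ v.asIdeal) →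
      x ∈ LS v) → x ∈ sq K) (h0 : ∀ l ∈ T, l ≠ 0) : InjT K T := by
  intro ω hω hloc
  obtain ⟨A, hA⟩ := exists_AT K h0
  obtain ⟨x, hx, rfl⟩ := chi_surj hA hω
  have hLS : ∀ v : HeightOneSpectrum (𝓞 K),
      ((2 : 𝓞 K) ∈ v.asIdeal ∨ ∃ l ∈ T, (l : 𝓞 K) ∈ v.asIdeal) → x ∈ LS v := by
    intro v hv
    obtain ⟨Q, hQ, hQb, hQv⟩ := above v
    have hmemv : ∀ z : 𝓞 K, algebraMap (𝓞 K) (𝓞 (AlgebraicClosure K)) z ∈ Q ↔ z ∈ v.asIdeal := by
      intro z
      rw [← hQv, Ideal.mem_comap]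
    refine locSq_of_chi hQ hQb hQv fun g hg => hloc Q hQ ?_ g hg
    rcases hv with h | ⟨l, hl, h⟩
    · left
      rw [← hmemv, map_ofNat] at h
      exact h
    · right
      rw [← hmemv, map_natCast] at h
      exact ⟨l, hl, h⟩
  rw [chi_zero]
  refine hT x (fun v _ => ?_) hLS
  by_cases hv : v ∈ A
  · exact isSquare_of_LS (hLS v ((hA v).1 hv))
  · exact hx v hv

end Pool.Agent.Work.MP_787500_nt.GA
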