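import Pool.Agent.Work.MP_787500_nt.GA.Density
import Pool.Agent.Work.MP_787500_nt.GA.Kum

/-!
# Auxiliary prime numbers

`K` is any number field, `B` a finite set of places, `N ≠ 0`. There is a finite set `T₁` of prime numbers `l` not
dividing `N`, each with a place of degree one above it, such that an element of `evA B` that is a local square at
the places of degree one above `T₁` is a square (`exists_sep`). So `InjT K T` for all `T ⊇ T₁` (`exists_injT`).
If `K` contains a square root of `-D` then the `l` split in the quadratic field (`splitD_of_absNorm`).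
-/

set_option autoImplicit false
set_option linter.unusedSectionVars false

namespace Pool.Agent.Work.MP_787500_nt.GA

open IsDedekindDomain NumberField WithZero
open Pool.Agent.Work.MP_787500_nt.PA (TwoSys Sm1 Sm2 homs Coc Cob Opn)
open Pool.Agent.Work.MP_787500_nt.GP (sysT stabD Fx GoodT inT sUnit mem_sUnit)
open Pool.Agent.Work.MP_787500_nt.HN

universe u

/-- `l` is a prime number not dividing `N` with a place of degree one above it -/
def DegOne (K : Type u) [Field K] [NumberField K] (N l : ℕ) : Prop :=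
  l.Prime ∧ ¬ l ∣ N ∧ ∃ w : HeightOneSpectrum (𝓞 K), Ideal.absNorm w.asIdeal = l

variable {K : Type u} [Field K] [NumberField K]

theorem exists_sep (B : Finset (HeightOneSpectrum (𝓞 K))) {N : ℕ} (hN : N ≠ 0) :
    ∃ T₁ : Finset ℕ, (∀ l ∈ T₁, DegOne K N l) ∧ ∀ x ∈ evA B,
      (∀ w : HeightOneSpectrum (𝓞 K), Ideal.absNorm w.asIdeal ∈ T₁ → x ∈ LS w) → x ∈ sq K := by
  classical
  have hfi : ((sq K).subgroupOf (evA B)).FiniteIndex := ⟨relIndex_evA_ne B⟩
  have hfin : Finite (evA B ⧸ (sq K).subgroupOf (evA B)) := Subgroup.finite_quotient_of_finiteIndex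
  have := Fintype.ofFinite (evA B ⧸ (sq K).subgroupOf (evA B))
  have hex : ∀ x : evA B, ∃ w : HeightOneSpectrum (𝓞 K), (x : Kˣ) ∉ sq K →
      (Ideal.absNorm w.asIdeal).Prime ∧ ¬ Ideal.absNorm w.asIdeal ∣ N ∧ (x : Kˣ) ∉ LS w := by
    intro x
    by_cases hx : (x : Kˣ) ∈ sq K
    · obtain ⟨w, -⟩ : ∃ w : HeightOneSpectrum (𝓞 K), True := by
        obtain ⟨w, hw⟩ := Ideal.exists_maximal (𝓞 K)
        exact ⟨⟨w, hw.isPrime,
          Ring.ne_bot_of_isMaximal_of_not_isField hw (RingOfIntegers.not_isField K)⟩, trivial⟩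
      exact ⟨w, fun h => absurd hx h⟩
    · obtain ⟨w, l, -, h1, h2, -, h3, h4⟩ := density_nat hx ∅ hN
      exact ⟨w, fun _ => by rw [h3]; exact ⟨h1, h2, h4⟩⟩
  choose w hw using hex
  refine ⟨((Finset.univ : Finset (evA B ⧸ (sq K).subgroupOf (evA B))).filter
    fun c => ((Quotient.out c : evA B) : Kˣ) ∉ sq K).image
      (fun c => Ideal.absNorm (w (Quotient.out c)).asIdeal), ?_, ?_⟩
  · intro l hl
    obtain ⟨c, hc, rfl⟩ := Finset.mem_image.1 hl
    rw [Finset.mem_filter] at hc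
    obtain ⟨h1, h2, h3⟩ := hw _ hc.2
    exact ⟨h1, h2, _, rfl⟩
  · intro x hx hloc
    by_contra hcon
    set c : evA B ⧸ (sq K).subgroupOf (evA B) := QuotientGroup.mk ⟨x, hx⟩ with hc
    have h1 : ((Quotient.out c : evA B) : Kˣ)⁻¹ * x ∈ sq K := by
      have h2 : (QuotientGroup.mk (Quotient.out c : evA B) : evA B ⧸ (sq K).subgroupOf (evA B)) =
          QuotientGroup.mk ⟨x, hx⟩ := by
        rw [QuotientGroup.out_eq']
      rw [QuotientGroup.eq, Subgroup.mem_subgroupOf] at h2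
      exact h2
    have h2 : ((Quotient.out c : evA B) : Kˣ) ∉ sq K := by
      intro h3
      apply hcon
      exact (Subgroup.mul_mem_cancel_left _ ((sq K).inv_mem h3)).1 h1
    obtain ⟨-, -, h5⟩ := hw _ h2
    apply h5
    have h6 := hloc (w (Quotient.out c)) (Finset.mem_image.2 ⟨c, Finset.mem_filter.2
      ⟨Finset.mem_univ _, h2⟩, rfl⟩)
    have h7 : ((Quotient.out c : evA B) : Kˣ)⁻¹ ∈ LS (w (Quotient.out c)) :=
      (Subgroup.mul_mem_cancel_right _ h6).1 (sq_le_LS _ h1)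
    exact (Subgroup.inv_mem_iff _).1 h7

theorem exists_injT (K : Type u) [Field K] [NumberField K] {N : ℕ} (hN : N ≠ 0) :
    ∃ T₁ : Finset ℕ, (∀ l ∈ T₁, DegOne K N l) ∧ ∀ T : Finset ℕ, T₁ ⊆ T → (∀ l ∈ T, l ≠ 0) →
      InjT K T := by
  obtain ⟨T₁, h1, h2⟩ := exists_sep (K := K) ∅ hN
  refine ⟨T₁, h1, fun T hT h0 => injT_of_LS (fun x hx hloc => ?_) h0⟩
  refine h2 x hx fun w hw => hloc w (Or.inr ⟨_, hT hw, ?_⟩)
  exact Ideal.absNorm_mem w.asIdeal

/-- Every integer is congruent to a rational integer modulo a place of degree one. -/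
theorem exists_int_congr {w : HeightOneSpectrum (𝓞 K)} (hw : (Ideal.absNorm w.asIdeal).Prime)
    (z : 𝓞 K) : ∃ A : ℤ, z - A ∈ w.asIdeal := by
  set l := Ideal.absNorm w.asIdeal with hl
  have : Fact l.Prime := ⟨hw⟩
  have hmem : (l : 𝓞 K) ∈ w.asIdeal := Ideal.absNorm_mem w.asIdeal
  have hcard : Nat.card (𝓞 K ⧸ w.asIdeal) = l := by
    rw [hl, Ideal.absNorm_apply, Submodule.cardQuot_apply]
  have hfin : Finite (𝓞 K ⧸ w.asIdeal) := Nat.finite_of_card_ne_zero (by rw [hcard]; exact hw.ne_zero)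
  have hl0 : ((l : ℕ) : 𝓞 K ⧸ w.asIdeal) = 0 := by
    have := Ideal.Quotient.eq_zero_iff_mem.2 hmem
    rwa [map_natCast] at this
  have hnt : Nontrivial (𝓞 K ⧸ w.asIdeal) := Ideal.Quotient.nontrivial_iff.2 w.isPrime.ne_top
  have hchar : CharP (𝓞 K ⧸ w.asIdeal) l := by
    obtain ⟨p, hp⟩ := CharP.exists (𝓞 K ⧸ w.asIdeal)
    have hd := (CharP.cast_eq_zero_iff (𝓞 K ⧸ w.asIdeal) p l).1 hl0
    rcases (Nat.dvd_prime hw).1 hd with h | h
    · subst h
      exact absurd (CharP.char_ne_one (𝓞 K ⧸ w.asIdeal) 1 rfl) id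
    · rwa [← h]
  set f : ZMod l →+* 𝓞 K ⧸ w.asIdeal := ZMod.castHom (dvd_refl l) _ with hf
  have hinj : Function.Injective f := f.injective
  have hbij : Function.Bijective f := by
    have := Fintype.ofFinite (𝓞 K ⧸ w.asIdeal)
    rw [Fintype.bijective_iff_injective_and_card]
    refine ⟨hinj, ?_⟩
    rw [ZMod.card, ← Nat.card_eq_fintype_card, hcard]
  obtain ⟨a, ha⟩ := hbij.2 (Ideal.Quotient.mk w.asIdeal z)
  refine ⟨(a.val : ℤ), ?_⟩
  rw [← Ideal.Quotient.eq_zero_iff_mem, map_sub, ← ha, sub_eq_zero, Int.cast_natCast, map_natCast]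
  conv_lhs => rw [← ZMod.natCast_zmod_val a]
  rw [map_natCast]

theorem splitD_of_absNorm {D : ℕ} {s : K} (hs : s ^ 2 = -(D : K)) {w : HeightOneSpectrum (𝓞 K)}
    {l : ℕ} (hl : l.Prime) (hw : Ideal.absNorm w.asIdeal = l) (h2 : l ≠ 2) (hD : ¬ l ∣ D) :
    SplitD D l := by
  refine ⟨hl, h2, hD, ?_⟩
  have hint : IsIntegral ℤ s := by
    refine ⟨Polynomial.X ^ 2 + Polynomial.C (D : ℤ), by monicity!, ?_⟩
    simp [hs]
  obtain ⟨S, hS⟩ : ∃ S : 𝓞 K, algebraMap (𝓞 K) K S = s := ⟨⟨s, hint⟩, rfl⟩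
  have hS2 : S ^ 2 = -(D : 𝓞 K) := by
    apply FaithfulSMul.algebraMap_injective (𝓞 K) K
    rw [map_pow, hS, hs, map_neg, map_natCast]
  obtain ⟨A, hA⟩ := exists_int_congr (w := w) (by rw [hw]; exact hl) S
  refine ⟨A, ?_⟩
  have h3 : ((A ^ 2 + D : ℤ) : 𝓞 K) ∈ w.asIdeal := by
    have h4 : ((A ^ 2 + D : ℤ) : 𝓞 K) = -((S - (A : 𝓞 K)) * (S + (A : 𝓞 K))) := by
      push_cast
      linear_combination hS2
    rw [h4]
    exact w.asIdeal.neg_mem (Ideal.mul_mem_right _ _ hA)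
  -- w ∩ ℤ = (l)
  have hlmem : (l : 𝓞 K) ∈ w.asIdeal := by
    rw [← hw]
    exact Ideal.absNorm_mem w.asIdeal
  by_contra hcon
  have hcop : IsCoprime (l : ℤ) (A ^ 2 + D) :=
    (Nat.prime_iff_prime_int.1 hl).coprime_iff_not_dvd.2 hcon
  obtain ⟨a, b, hab⟩ := hcop
  apply w.isPrime.ne_top
  rw [Ideal.eq_top_iff_one]
  have h6 : (1 : 𝓞 K) = (a : 𝓞 K) * (l : 𝓞 K) + (b : 𝓞 K) * ((A ^ 2 + D : ℤ) : 𝓞 K) := by
    have := congrArg (fun z : ℤ => (z : 𝓞 K)) hab
    simp only [Int.cast_add, Int.cast_mul, Int.cast_one, Int.cast_natCast] at this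
    rw [← this]
    push_cast
    ring
  rw [h6]
  exact Ideal.add_mem _ (Ideal.mul_mem_left _ _ hlmem) (Ideal.mul_mem_left _ _ h3)

theorem DegOne.splitD {D : ℕ} {s : K} (hs : s ^ 2 = -(D : K)) {N l : ℕ} (h : DegOne K N l)
    (hN : 2 * D ∣ N) : SplitD D l := by
  obtain ⟨hl, hlN, w, hw⟩ := h
  refine splitD_of_absNorm hs hl hw ?_ ?_
  · rintro rfl
    exact hlN ((dvd_mul_right 2 D).trans hN)
  · intro h
    exact hlN (h.trans ((dvd_mul_left D 2).trans hN))

end Pool.Agent.Work.MP_787500_nt.GA
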