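import Mathlib
import Pool.Agent.Work.MP_787500_nt.HP.EmbBasic
import Pool.Agent.Work.MP_787500_nt.HP.FieldQ

/-!
# The fixed field of an open subgroup of the group of automorphisms of `Ω`

`exists_field`: `C` is the image of the absolute Galois group of a number field.
-/

set_option autoImplicit false
set_option linter.unusedSectionVars false

namespace Pool.Agent.Work.MP_787500_nt.GA

open NumberField
open Pool.Agent.Work.MP_787500_nt.HP

universe u

theorem algQ {Ω : Type u} [Field Ω] [CharZero Ω] (h : Alg Ω) : Algebra.IsAlgebraic ℚ Ω := by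
  refine ⟨fun x => ?_⟩
  obtain ⟨p, hp, hpx⟩ := h x
  refine (IsFractionRing.isAlgebraic_iff ℤ ℚ Ω).1 ⟨p, hp, ?_⟩
  rw [Polynomial.aeval_def]
  exact hpx

/-- an automorphism is linear over the rational numbers -/
noncomputable def ratAlg {Ω : Type u} [Field Ω] [CharZero Ω] (g : Ω ≃+* Ω) : Ω ≃ₐ[ℚ] Ω :=
  AlgEquiv.ofRingEquiv (f := g) fun x => by
    rw [eq_ratCast, map_ratCast]

theorem exists_field' {Ω : Type u} [Field Ω] [CharZero Ω] [IsAlgClosed Ω] (halg : Alg Ω)
    {C : Subgroup (Ω ≃+* Ω)} (hC : OpnQ C) :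
    ∃ (F : IntermediateField ℚ Ω) (_ : NumberField F) (α : AlgebraicClosure F ≃+* Ω),
      (∀ x : F, α (algebraMap F (AlgebraicClosure F) x) = x) ∧ (emb α).range = C := by
  have hQ := algQ halg
  have hcl0 : IsAlgClosure ℚ Ω := ⟨inferInstance, hQ⟩
  have hgal : IsGalois ℚ Ω := IsAlgClosure.isGalois ℚ Ω
  obtain ⟨s, hs⟩ := hC
  let C' : Subgroup (Ω ≃ₐ[ℚ] Ω) :=
    { carrier := {σ | (σ : Ω ≃+* Ω) ∈ C}
      mul_mem' := fun {a b} ha hb => C.mul_mem ha hb
      one_mem' := C.one_mem
      inv_mem' := fun {a} ha => C.inv_mem ha }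
  have hC' : ∀ σ : Ω ≃ₐ[ℚ] Ω, σ ∈ C' ↔ (σ : Ω ≃+* Ω) ∈ C := fun _ => Iff.rfl
  have hSf : Finite (s : Set Ω) := s.finite_toSet
  have hfd : FiniteDimensional ℚ (IntermediateField.adjoin ℚ (s : Set Ω)) :=
    IntermediateField.finiteDimensional_adjoin fun x _ => Algebra.IsIntegral.isIntegral x
  have hopen : IsOpen (C' : Set (Ω ≃ₐ[ℚ] Ω)) := by
    refine Subgroup.isOpen_mono (H₁ := (IntermediateField.adjoin ℚ (s : Set Ω)).fixingSubgroup) ?_
      (IntermediateField.fixingSubgroup_isOpen _)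
    intro σ hσ
    rw [hC']
    exact hs _ fun x hx => (IntermediateField.mem_fixingSubgroup_iff _ _).1 hσ _
      (IntermediateField.subset_adjoin _ _ hx)
  have hcl : IsClosed (C' : Set (Ω ≃ₐ[ℚ] Ω)) := Subgroup.isClosed_of_isOpen _ hopen
  set F : IntermediateField ℚ Ω := IntermediateField.fixedField C' with hF
  have hfix : F.fixingSubgroup = C' := InfiniteGalois.fixingSubgroup_fixedField ⟨C', hcl⟩
  have hfin : FiniteDimensional ℚ F := by
    rw [← InfiniteGalois.isOpen_iff_finite, hfix]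
    exact hopen
  have hnf : NumberField F := { }
  have hac : IsAlgClosure F Ω := ⟨inferInstance, ⟨fun x => (hQ.isAlgebraic x).tower_top _⟩⟩
  let α : AlgebraicClosure F ≃ₐ[F] Ω := IsAlgClosure.equiv F (AlgebraicClosure F) Ω
  have hα : ∀ x : F, α.toRingEquiv (algebraMap F (AlgebraicClosure F) x) = x := fun x => α.commutes x
  refine ⟨F, hnf, α.toRingEquiv, hα, ?_⟩
  ext g
  rw [MonoidHom.mem_range, emb_iff]
  have h1 : g ∈ C ↔ ratAlg g ∈ F.fixingSubgroup := by
    rw [hfix, hC']
    exact Iff.rfl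
  rw [h1, IntermediateField.mem_fixingSubgroup_iff]
  constructor
  · intro h x hx
    have := h ⟨x, hx⟩
    rw [hα] at this
    exact this
  · intro h x
    rw [hα]
    exact h x x.2

/-- An open subgroup is the image of the absolute Galois group of a number field. -/
theorem exists_field {Ω : Type u} [Field Ω] [CharZero Ω] [IsAlgClosed Ω] (halg : Alg Ω)
    {C : Subgroup (Ω ≃+* Ω)} (hC : OpnQ C) :
    ∃ (F : Type u) (_ : Field F) (_ : NumberField F) (α : AlgebraicClosure F ≃+* Ω),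
      (emb α).range = C := by
  obtain ⟨F, h1, α, -, h2⟩ := exists_field' halg hC
  exact ⟨F, inferInstance, h1, α, h2⟩

end Pool.Agent.Work.MP_787500_nt.GA
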