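import Mathlib
import Pool.Agent.Work.MP_787500_nt.HN.DensD
import Pool.Agent.Work.MP_787500_nt.HN.CDefs
import Pool.Agent.Work.MP_787500_nt.H10_Gal
import Pool.Agent.Work.MP_787500_nt.GP.C2_Kum

/-!
# Local Kummer theory for decomposition groups

`H` is an open subgroup of `AbsGal K`, `F = Fx H`, `Q ≠ ⊥` a prime of the integers of the algebraic closure, `w` the
place of `F` below `Q`. An element `x` of `F` is a local square at `w` if and only if `√x` is fixed by
`stabD Q ⊓ H` (`fixed_iff`); every quadratic character of `stabD Q ⊓ H` comes from such an `x` (`exists_root`).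
-/

set_option autoImplicit false
set_option linter.unusedSectionVars false

namespace Pool.Agent.Work.MP_787500_nt.GA

open IsDedekindDomain NumberField WithZero
open Pool.Agent.Work.MP_787500_nt.PA (TwoSys Sm1 Sm2 homs Coc Cob Opn)
open Pool.Agent.Work.MP_787500_nt.GP (sysT stabD Fx GoodT inT)
open Pool.Agent.Work.MP_787500_nt.HN

universe u

variable {K : Type u} [Field K]

/-- `z` is in the maximal ideal of the local ring of `Q` -/
def InM (Q : Ideal (𝓞 (AlgebraicClosure K))) (z : AlgebraicClosure K) : Prop :=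
  ∃ a b : 𝓞 (AlgebraicClosure K), a ∈ Q ∧ b ∉ Q ∧ z * b = a

theorem InM.neg {Q : Ideal (𝓞 (AlgebraicClosure K))} {z : AlgebraicClosure K} (h : InM Q z) :
    InM Q (-z) := by
  obtain ⟨a, b, ha, hb, e⟩ := h
  refine ⟨-a, b, Q.neg_mem ha, hb, ?_⟩
  have e1 : ((-a : 𝓞 (AlgebraicClosure K)) : AlgebraicClosure K) = -(a : AlgebraicClosure K) := rfl
  rw [e1, ← e]
  ring

/-- the algebraic integers are integrally closed -/
private theorem int_of_root {ρ : AlgebraicClosure K} {b c : 𝓞 (AlgebraicClosure K)}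
    (h : ρ ^ 2 + b * ρ = c) : ∃ r : 𝓞 (AlgebraicClosure K), (r : AlgebraicClosure K) = ρ := by
  have hint : IsIntegral (𝓞 (AlgebraicClosure K)) ρ := by
    refine ⟨Polynomial.X ^ 2 + Polynomial.C b * Polynomial.X - Polynomial.C c, ?_, ?_⟩
    · monicity!
    · simp only [Polynomial.eval₂_sub, Polynomial.eval₂_add, Polynomial.eval₂_mul,
        Polynomial.eval₂_pow, Polynomial.eval₂_X, Polynomial.eval₂_C]
      rw [sub_eq_zero]
      exact h
  have hint2 : IsIntegral ℤ ρ := isIntegral_trans ρ hint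
  exact ⟨⟨ρ, hint2⟩, rfl⟩

/-- Two elements whose squares are close have the same sign. -/
theorem sign_eq {Q : Ideal (𝓞 (AlgebraicClosure K))} (hQ : Q.IsPrime) {t₁ t₂ : AlgebraicClosure K}
    (h20 : (2 : AlgebraicClosure K) ≠ 0) (h2 : t₂ ≠ 0)
    (h : InM Q ((t₁ ^ 2 - t₂ ^ 2) / (4 * t₂ ^ 2))) {g : AbsGal K} (hg : g ∈ stabD Q)
    (hg1 : g t₁ = t₁ ∨ g t₁ = -t₁) (hg2 : g t₂ = t₂ ∨ g t₂ = -t₂) : g t₁ = t₁ ↔ g t₂ = t₂ := by
  have hmem : ∀ x, x ∈ Q ↔ g • x ∈ Q := hg
  have h2t : 2 * t₂ ≠ 0 := mul_ne_zero h20 h2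
  have h4 : (4 : AlgebraicClosure K) = 2 * 2 := by norm_num
  set r : AlgebraicClosure K := (t₁ - t₂) / (2 * t₂) with hr
  have hrr : r * (r + 1) = (t₁ ^ 2 - t₂ ^ 2) / (4 * t₂ ^ 2) := by
    rw [hr, h4]
    field_simp
    ring
  have hneg : ∀ z : AlgebraicClosure K, z ≠ 0 → -z ≠ z := by
    intro z hz h
    have : (2 : AlgebraicClosure K) * z = 0 := by linear_combination -h
    exact mul_ne_zero h20 hz this
  -- different signs are impossible
  have key : ¬ g r = -(r + 1) := by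
    intro hgr
    obtain ⟨a, b, ha, hb, e⟩ := h
    rw [← hrr] at e
    obtain ⟨ρ, hρ⟩ := int_of_root (ρ := (b : AlgebraicClosure K) * r) (b := b) (c := a * b) (by
      have e1 : ((a * b : 𝓞 (AlgebraicClosure K)) : AlgebraicClosure K) =
        (a : AlgebraicClosure K) * b := rfl
      rw [e1, ← e]
      ring)
    have e2 : ρ * (ρ + b) = a * b := by
      apply RingOfIntegers.ext
      show (ρ : AlgebraicClosure K) * ((ρ : AlgebraicClosure K) + (b : AlgebraicClosure K)) =
        (a : AlgebraicClosure K) * (b : AlgebraicClosure K)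
      rw [hρ, ← e]
      ring
    have e3 : b * (g • ρ) = -((g • b) * (ρ + b)) := by
      apply RingOfIntegers.ext
      show (b : AlgebraicClosure K) * g (ρ : AlgebraicClosure K) =
        -(g (b : AlgebraicClosure K) * ((ρ : AlgebraicClosure K) + (b : AlgebraicClosure K)))
      rw [hρ, map_mul, hgr]
      ring
    have hgb : g • b ∉ Q := fun h' => hb ((hmem b).2 h')
    rcases hQ.mem_or_mem (show ρ * (ρ + b) ∈ Q by rw [e2]; exact Q.mul_mem_right _ ha) with h5 | h5
    · have h6 : (g • b) * (ρ + b) ∈ Q := by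
        have h7 : b * (g • ρ) ∈ Q := Q.mul_mem_left _ ((hmem ρ).1 h5)
        rw [e3] at h7
        simpa using Q.neg_mem h7
      rcases hQ.mem_or_mem h6 with h7 | h7
      · exact hgb h7
      · exact hb (by simpa using Q.sub_mem h7 h5)
    · have h6 : b * (g • ρ) ∈ Q := by
        rw [e3]
        exact Q.neg_mem (Q.mul_mem_left _ h5)
      rcases hQ.mem_or_mem h6 with h7 | h7
      · exact hb h7
      · exact hb (by simpa using Q.sub_mem h5 ((hmem ρ).2 h7))
  constructor
  · intro h3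
    rcases hg2 with h5 | h5
    · exact h5
    · exfalso
      apply key
      rw [hr, map_div₀, map_sub, map_mul, map_ofNat, h3, h5]
      field_simp
      ring
  · intro h3
    rcases hg1 with h5 | h5
    · exact h5
    · exfalso
      apply key
      rw [hr, map_div₀, map_sub, map_mul, map_ofNat, h3, h5]
      field_simp
      ring

section numberfield

variable [NumberField K]

private theorem inM_of_val {F : Type u} [Field F] [NumberField F] [Algebra F (AlgebraicClosure K)]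
    {Q : Ideal (𝓞 (AlgebraicClosure K))} {v : HeightOneSpectrum (𝓞 F)}
    (hv : Q.comap (algebraMap (𝓞 F) (𝓞 (AlgebraicClosure K))) = v.asIdeal) {x : F}
    (hx : v.valuation F x < 1) : InM Q (algebraMap F (AlgebraicClosure K) x) := by
  obtain ⟨n, d, hnd⟩ := v.exists_primeCompl_mul_eq_of_integer x hx.le
  have hd : (d : 𝓞 F) ∉ v.asIdeal := d.2
  have hvd : v.valuation F (algebraMap (𝓞 F) F d) = 1 :=
    (HeightOneSpectrum.valuation_eq_one_iff_notMem (K := F) v).2 hd
  have hvn : v.valuation F (algebraMap (𝓞 F) F n) < 1 := by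
    rw [← hnd, map_mul, hvd, mul_one]
    exact hx
  have hn : n ∈ v.asIdeal := (v.valuation_lt_one_iff_mem (K := F) n).1 hvn
  refine ⟨algebraMap (𝓞 F) (𝓞 (AlgebraicClosure K)) n,
    algebraMap (𝓞 F) (𝓞 (AlgebraicClosure K)) d, ?_, ?_, ?_⟩
  · rw [← hv] at hn
    exact hn
  · exact fun h => hd (hv.le h)
  · have h1 := congrArg (algebraMap F (AlgebraicClosure K)) hnd
    rw [map_mul] at h1
    exact h1

private theorem DensD_comm {U : Subgroup (AbsGal K)} {E : IntermediateField (Fx U) (AlgebraicClosure K)}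
    (x : 𝓞 (Fx U)) : algebraMap (𝓞 E) (𝓞 (AlgebraicClosure K)) (algebraMap (𝓞 (Fx U)) (𝓞 E) x) =
      algebraMap (𝓞 (Fx U)) (𝓞 (AlgebraicClosure K)) x := by
  apply RingOfIntegers.ext
  rfl

/-- Elements fixed by a decomposition group are approximated by elements of the base field. -/
theorem densQ {U : Subgroup (AbsGal K)} (hU : IsOpen (U : Set (AbsGal K))) [NumberField (Fx U)]
    {Q : Ideal (𝓞 (AlgebraicClosure K))} (hQ : Q.IsPrime) (hb : Q ≠ ⊥)
    {z N : AlgebraicClosure K} (hN : N ≠ 0) (hz : z ∈ Fx (stabD Q ⊓ U)) :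
    ∃ y : Fx U, InM Q ((z - (y : AlgebraicClosure K)) / N) := by
  classical
  have hfix : (Fx U).fixingSubgroup = U := fx_fixing hU
  let L : IntermediateField (Fx U) (AlgebraicClosure K) :=
    IntermediateField.adjoin (Fx U) (({z, N} : Finset (AlgebraicClosure K)) : Set (AlgebraicClosure K))
  have hL : FiniteDimensional (Fx U) L :=
    IntermediateField.finiteDimensional_adjoin (fun x _ => Algebra.IsIntegral.isIntegral x)
  let E : IntermediateField (Fx U) (AlgebraicClosure K) :=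
    IntermediateField.normalClosure (Fx U) L (AlgebraicClosure K)
  have hE : FiniteDimensional (Fx U) E := inferInstance
  have hnum : NumberField E := NumberField.of_module_finite (Fx U) E
  have hnorm : Normal (Fx U) E := inferInstance
  have hgal : IsGalois (Fx U) E := ⟨⟩
  have hLE : L ≤ E := IntermediateField.le_normalClosure L
  have hinj : Function.Injective (algebraMap (𝓞 E) (𝓞 (AlgebraicClosure K))) :=
    FaithfulSMul.algebraMap_injective _ _
  let P : HeightOneSpectrum (𝓞 E) :=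
    ⟨Q.comap (algebraMap (𝓞 E) (𝓞 (AlgebraicClosure K))), Ideal.comap_isPrime _ _,
      fun h => hb (Ideal.eq_bot_of_comap_eq_bot h)⟩
  have hP : ∀ x : 𝓞 E, x ∈ P.asIdeal ↔ algebraMap (𝓞 E) (𝓞 (AlgebraicClosure K)) x ∈ Q :=
    fun x => Iff.rfl
  have hzE : z ∈ E := hLE (IntermediateField.subset_adjoin _ _ (by simp))
  have hNE : N ∈ E := hLE (IntermediateField.subset_adjoin _ _ (by simp))
  have hγ : P.valuation E (⟨N, hNE⟩ : E) ≠ 0 := by
    rw [Valuation.ne_zero_iff]
    intro h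
    exact hN (congrArg Subtype.val h)
  have hfixz : ∀ g : E ≃ₐ[Fx U] E, conjPrime (g : E ≃+* E) P = P →
      g (⟨z, hzE⟩ : E) = (⟨z, hzE⟩ : E) := by
    intro g hg
    obtain ⟨g', hg'⟩ := AlgEquiv.restrictNormalHom_surjective (F := Fx U) (K₁ := E)
      (AlgebraicClosure K) g
    have hcom : ∀ x : E, g' (x : AlgebraicClosure K) = ((g x : E) : AlgebraicClosure K) := by
      intro x
      rw [← hg']
      exact (AlgEquiv.restrictNormal_commutes g' E x).symm
    let Q₁ : Ideal (𝓞 (AlgebraicClosure K)) := Q.comap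
      (MulSemiringAction.toRingEquiv (AlgebraicClosure K ≃ₐ[Fx U] AlgebraicClosure K)
        (𝓞 (AlgebraicClosure K)) g' : 𝓞 (AlgebraicClosure K) →+* 𝓞 (AlgebraicClosure K))
    have hQ₁ : ∀ x, x ∈ Q₁ ↔ g' • x ∈ Q := fun x => Iff.rfl
    have hQ₁p : Q₁.IsPrime := Ideal.comap_isPrime _ _
    have hcomap : Q₁.comap (algebraMap (𝓞 E) (𝓞 (AlgebraicClosure K))) =
        Q.comap (algebraMap (𝓞 E) (𝓞 (AlgebraicClosure K))) := by
      ext x
      rw [Ideal.mem_comap, hQ₁]
      have h1 : g' • (algebraMap (𝓞 E) (𝓞 (AlgebraicClosure K)) x) =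
          algebraMap (𝓞 E) (𝓞 (AlgebraicClosure K))
            (RingOfIntegers.mapRingEquiv (g : E ≃+* E) x) := by
        apply RingOfIntegers.ext
        exact hcom (algebraMap (𝓞 E) E x)
      rw [h1]
      show RingOfIntegers.mapRingEquiv (g : E ≃+* E) x ∈ P.asIdeal ↔ x ∈ P.asIdeal
      rw [← mem_conjPrime, hg]
    obtain ⟨h, hh⟩ := exists_smul_eq (F := E) Q₁ Q hcomap
    have hmem : ∀ x, x ∈ Q ↔ g' • (h⁻¹ • x) ∈ Q := by
      intro x
      conv_lhs => rw [hh]
      rw [Ideal.mem_pointwise_smul_iff_inv_smul_mem, hQ₁]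
    let τ : AbsGal K := (g'.restrictScalars K) * ((h⁻¹).restrictScalars (Fx U)).restrictScalars K
    have hτ : ∀ x, τ x = g' (h⁻¹ x) := fun x => rfl
    have hτ1 : τ ∈ stabD Q := by
      rw [GP.mem_stabD]
      intro x
      exact hmem x
    have hτ2 : τ ∈ U := by
      rw [← hfix, IntermediateField.mem_fixingSubgroup_iff]
      intro x hx
      rw [hτ]
      have h1 : h⁻¹ x = x := ((h⁻¹).restrictScalars (Fx U)).commutes ⟨x, hx⟩
      rw [h1]
      exact g'.commutes ⟨x, hx⟩
    have hz1 : τ z = z := GP.mem_Fx.1 hz τ ⟨hτ1, hτ2⟩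
    have hz2 : h⁻¹ z = z := (h⁻¹).commutes ⟨z, hzE⟩
    apply Subtype.ext
    rw [← hcom]
    show g' z = z
    rw [hτ, hz2] at hz1
    exact hz1
  obtain ⟨y, hy⟩ := dens (F := Fx U) (E := E) P (z := (⟨z, hzE⟩ : E)) hfixz hγ
  refine ⟨y, ?_⟩
  have h1 : P.valuation E ((⟨z, hzE⟩ - algebraMap (Fx U) E y) / ⟨N, hNE⟩) < 1 := by
    rw [map_div₀]
    exact (div_lt_one₀ (zero_lt_iff.2 hγ)).2 hy
  exact inM_of_val (F := E) (v := P) rfl h1

variable {H : Subgroup (AbsGal K)} [NumberField (Fx H)]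

private theorem two_ne : (2 : AlgebraicClosure K) ≠ 0 := by
  have h : algebraMap K (AlgebraicClosure K) 2 ≠ 0 := (map_ne_zero _).2 two_ne_zero
  rwa [map_ofNat] at h

/-- If `√x` is fixed by the decomposition group then `x` is a local square. -/
theorem locSq_of_fixed' (hH : IsOpen (H : Set (AbsGal K))) {Q : Ideal (𝓞 (AlgebraicClosure K))}
    (hQ : Q.IsPrime) (hb : Q ≠ ⊥) {w : HeightOneSpectrum (𝓞 (Fx H))}
    (hw : Q.comap (algebraMap (𝓞 (Fx H)) (𝓞 (AlgebraicClosure K))) = w.asIdeal)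
    {t : AlgebraicClosure K} {y : Fx H} (hy : t ^ 2 = (y : AlgebraicClosure K))
    (ht : ∀ g ∈ stabD Q, g ∈ H → g t = t) : LocSq (w.valuation (Fx H)) y := by
  obtain ⟨E, hE, P, hPw, hs⟩ := densD hH hQ hb (w := w) hw {t} (by
    intro z hz
    rw [Finset.mem_singleton] at hz
    subst hz
    rw [GP.mem_Fx]
    exact fun g hg => ht g hg.1 hg.2)
  obtain ⟨z', hz', happ⟩ := hs t (Finset.mem_singleton_self t)
  obtain ⟨e₁, he₁, h₁⟩ := exists_valuation_below (K := Fx H) P
  rw [hPw] at h₁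
  intro γ hγ
  have hΓ : γ ^ e₁ ≠ 0 := pow_ne_zero _ hγ
  obtain ⟨δ, hδ, h3⟩ := exists_lt_of_ne_zero (a := P.valuation E (2 * z')) hΓ
  obtain ⟨k', hk'⟩ := happ (min δ (min 1 (γ ^ e₁))) (by
    rcases min_choice δ (min 1 (γ ^ e₁)) with h' | h' <;> rw [h']
    · exact hδ
    · rcases min_choice 1 (γ ^ e₁) with h' | h' <;> rw [h']
      · exact one_ne_zero
      · exact hΓ)
  have hu1 : P.valuation E (z' - algebraMap _ E k') < δ := hk'.trans_le (min_le_left _ _)
  have hu2 : P.valuation E (z' - algebraMap _ E k') < 1 :=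
    hk'.trans_le ((min_le_right _ _).trans (min_le_left _ _))
  have hu3 : P.valuation E (z' - algebraMap _ E k') < γ ^ e₁ :=
    hk'.trans_le ((min_le_right _ _).trans (min_le_right _ _))
  refine ⟨k', ?_⟩
  have e1 : algebraMap (Fx H) E (y - k' ^ 2) =
      (z' - algebraMap _ E k') * (z' + algebraMap _ E k') := by
    apply Subtype.ext
    show (y : AlgebraicClosure K) - (k' : AlgebraicClosure K) ^ 2 =
      ((z' : AlgebraicClosure K) - (k' : AlgebraicClosure K)) *
        ((z' : AlgebraicClosure K) + (k' : AlgebraicClosure K))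
    rw [← hy, hz']
    ring
  have h4 : P.valuation E (z' + algebraMap _ E k') ≤
      max (P.valuation E (2 * z')) (P.valuation E (z' - algebraMap _ E k')) := by
    have e2 : z' + algebraMap _ E k' = 2 * z' - (z' - algebraMap _ E k') := by ring
    rw [e2]
    exact Valuation.map_sub _ _ _
  have h5 : P.valuation E (algebraMap (Fx H) E (y - k' ^ 2)) < γ ^ e₁ := by
    rw [e1, map_mul]
    rcases le_max_iff.1 h4 with h6 | h6
    · calc P.valuation E (z' - algebraMap _ E k') * P.valuation E (z' + algebraMap _ E k')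
          ≤ P.valuation E (z' - algebraMap _ E k') * P.valuation E (2 * z') := by gcongr
        _ = P.valuation E (2 * z') * P.valuation E (z' - algebraMap _ E k') := mul_comm _ _
        _ < γ ^ e₁ := h3 _ hu1
    · calc P.valuation E (z' - algebraMap _ E k') * P.valuation E (z' + algebraMap _ E k')
          ≤ 1 * P.valuation E (z' - algebraMap _ E k') := by gcongr
        _ = P.valuation E (z' - algebraMap _ E k') := one_mul _
        _ < γ ^ e₁ := hu3
  rw [← h₁] at h5
  exact lt_of_pow_lt_pow_left' _ h5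

/-- If `x` is a local square then `√x` is fixed by the decomposition group. -/
theorem fixed_of_locSq {Q : Ideal (𝓞 (AlgebraicClosure K))}
    (hQ : Q.IsPrime) {w : HeightOneSpectrum (𝓞 (Fx H))}
    (hw : Q.comap (algebraMap (𝓞 (Fx H)) (𝓞 (AlgebraicClosure K))) = w.asIdeal)
    {t : AlgebraicClosure K} {y : Fx H} (hy0 : y ≠ 0) (hy : t ^ 2 = (y : AlgebraicClosure K))
    (hs : LocSq (w.valuation (Fx H)) y) {g : AbsGal K} (hg : g ∈ stabD Q) (hgH : g ∈ H) :
    g t = t := by
  have hyΩ : (y : AlgebraicClosure K) ≠ 0 := fun h => hy0 (ZeroMemClass.coe_eq_zero.1 h)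
  have ht0 : t ≠ 0 := by
    rintro rfl
    rw [zero_pow two_ne_zero] at hy
    exact hyΩ hy.symm
  have h40 : (4 : Fx H) * y ≠ 0 := mul_ne_zero (by norm_num) hy0
  have h4le : w.valuation (Fx H) (4 : Fx H) ≤ 1 := by
    exact w.valuation_le_one (K := Fx H) (4 : 𝓞 (Fx H))
  obtain ⟨k, hk⟩ := hs (w.valuation (Fx H) (4 * y)) ((Valuation.ne_zero_iff _).2 h40)
  have hk2 : w.valuation (Fx H) (y - k ^ 2) < w.valuation (Fx H) y := by
    refine hk.trans_le ?_
    rw [map_mul]
    exact mul_le_of_le_one_left' h4le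
  have hval : w.valuation (Fx H) (k ^ 2) = w.valuation (Fx H) y := by
    rw [Valuation.map_sub_swap] at hk2
    exact Valuation.map_eq_of_sub_lt _ hk2
  have hk0 : k ≠ 0 := by
    rintro rfl
    rw [zero_pow two_ne_zero, map_zero] at hval
    exact (Valuation.ne_zero_iff _).2 hy0 hval.symm
  have hkΩ : (k : AlgebraicClosure K) ≠ 0 := fun h => hk0 (ZeroMemClass.coe_eq_zero.1 h)
  have h3 : w.valuation (Fx H) ((y - k ^ 2) / (4 * k ^ 2)) < 1 := by
    rw [map_div₀, map_mul, hval, ← map_mul]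
    exact (div_lt_one₀ (zero_lt_iff.2 ((Valuation.ne_zero_iff _).2 h40))).2 hk
  have h4 := inM_of_val (K := K) (F := Fx H) (v := w) hw h3
  have h5 : algebraMap (Fx H) (AlgebraicClosure K) ((y - k ^ 2) / (4 * k ^ 2)) =
      (t ^ 2 - (k : AlgebraicClosure K) ^ 2) / (4 * (k : AlgebraicClosure K) ^ 2) := by
    rw [hy, map_div₀, map_sub, map_mul, map_pow, map_ofNat]
    rfl
  rw [h5] at h4
  have hgk : g (k : AlgebraicClosure K) = k := GP.mem_Fx.1 k.2 g hgH
  have hgy : g (y : AlgebraicClosure K) = y := GP.mem_Fx.1 y.2 g hgH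
  refine (sign_eq hQ two_ne hkΩ h4 hg ?_ (Or.inl hgk)).2 hgk
  apply sq_eq_sq_iff_eq_or_eq_neg.1
  rw [← map_pow, hy, hgy]

theorem fixed_iff (hH : IsOpen (H : Set (AbsGal K))) {Q : Ideal (𝓞 (AlgebraicClosure K))}
    (hQ : Q.IsPrime) (hb : Q ≠ ⊥) {w : HeightOneSpectrum (𝓞 (Fx H))}
    (hw : Q.comap (algebraMap (𝓞 (Fx H)) (𝓞 (AlgebraicClosure K))) = w.asIdeal)
    {t : AlgebraicClosure K} {x : (Fx H)ˣ} (hx : t ^ 2 = ((x : Fx H) : AlgebraicClosure K)) :
    (∀ g ∈ stabD Q, g ∈ H → g t = t) ↔ x ∈ LS w :=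
  ⟨fun h => locSq_of_fixed' hH hQ hb hw hx h,
    fun h _ hg hgH => fixed_of_locSq hQ hw x.ne_zero hx h hg hgH⟩

/-- Quadratic characters of the decomposition group come from elements of the field. -/
theorem exists_root (hH : IsOpen (H : Set (AbsGal K))) {Q : Ideal (𝓞 (AlgebraicClosure K))}
    (hQ : Q.IsPrime) (hb : Q ≠ ⊥) {t : AlgebraicClosure K} (ht0 : t ≠ 0)
    (ht : ∀ g ∈ stabD Q, g ∈ H → g t = t ∨ g t = -t) :
    ∃ x : (Fx H)ˣ, ∀ t' : AlgebraicClosure K, t' ^ 2 = ((x : Fx H) : AlgebraicClosure K) →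
      ∀ g ∈ stabD Q, g ∈ H → (g t' = t' ↔ g t = t) := by
  have hN : 4 * t ^ 2 ≠ 0 := mul_ne_zero (by
    have : (4 : AlgebraicClosure K) = 2 * 2 := by norm_num
    rw [this]
    exact mul_ne_zero two_ne two_ne) (pow_ne_zero 2 ht0)
  have hz : t ^ 2 ∈ Fx (stabD Q ⊓ H) := by
    rw [GP.mem_Fx]
    intro g hg
    rw [map_pow]
    rcases ht g hg.1 hg.2 with h | h
    · rw [h]
    · rw [h, neg_sq]
  obtain ⟨y, hy⟩ := densQ hH hQ hb hN hz
  have hy' : InM Q (((y : AlgebraicClosure K) - t ^ 2) / (4 * t ^ 2)) := by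
    have := hy.neg
    rwa [← neg_div, neg_sub] at this
  have hy0 : y ≠ 0 := by
    rintro rfl
    obtain ⟨a, b, ha, hb', e⟩ := hy
    have e1 : (t ^ 2 - ((0 : Fx H) : AlgebraicClosure K)) / (4 * t ^ 2) = 1 / 4 := by
      rw [ZeroMemClass.coe_zero, sub_zero]
      field_simp
    rw [e1] at e
    have e2 : (b : AlgebraicClosure K) = 4 * a := by
      rw [← e]
      have : (4 : AlgebraicClosure K) ≠ 0 := left_ne_zero_of_mul hN
      field_simp
    have e3 : b = 4 * a := RingOfIntegers.ext e2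
    rw [e3] at hb'
    exact hb' (Q.mul_mem_left _ ha)
  refine ⟨Units.mk0 y hy0, fun t' ht' g hg hgH => ?_⟩
  rw [Units.val_mk0] at ht'
  have hyΩ : (y : AlgebraicClosure K) ≠ 0 := fun h => hy0 (ZeroMemClass.coe_eq_zero.1 h)
  have ht'0 : t' ≠ 0 := by
    rintro rfl
    rw [zero_pow two_ne_zero] at ht'
    exact hyΩ ht'.symm
  have hgy : g (y : AlgebraicClosure K) = y := GP.mem_Fx.1 y.2 g hgH
  rw [← ht'] at hy'
  refine sign_eq hQ two_ne ht0 hy' hg ?_ (ht g hg hgH)
  apply sq_eq_sq_iff_eq_or_eq_neg.1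
  rw [← map_pow, ht', hgy]

end numberfield

end Pool.Agent.Work.MP_787500_nt.GA
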