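import Pool.Agent.Work.MP_787500_nt.GA.ZetaU

/-!
# Removing primes from the zeta function

Let `G` be a property of prime ideals with `∑ 1 / N(P) < ∞` over the primes `P` that do not have it. The zeta
function is bounded by a constant times the sum `ZG` over the ideals all of whose prime factors have `G`. The
sum over the primes whose norm is not a prime number is finite.
-/

set_option autoImplicit false

namespace Pool.Agent.Work.MP_787500_nt.GA

open IsDedekindDomain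
open scoped NumberField

noncomputable section

universe u

/-- `∑ N(I)^{-s}` over the nonzero ideals whose prime factors have property `G`. -/
def ZG (L : Type u) [Field L] [NumberField L] (G : HeightOneSpectrum (𝓞 L) → Prop) (s : ℝ) : ENNReal :=
  ∑' I : {I : Ideal (𝓞 L) // I ≠ ⊥ ∧ ∀ P : HeightOneSpectrum (𝓞 L), P.asIdeal ∣ I → G P},
    ENNReal.ofReal ((Ideal.absNorm I.1 : ℝ) ^ (-s))

variable {L : Type u} [Field L] [NumberField L]

open Classical in
/-- `∑ N(I)^{-s}` over the nonzero ideals not divisible by the elements of `T`. -/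
private def zF (s : ℝ) (T : Set (HeightOneSpectrum (𝓞 L))) (I : Ideal (𝓞 L)) : ENNReal :=
  if I ≠ ⊥ ∧ ∀ Q ∈ T, ¬ Q.asIdeal ∣ I then ENNReal.ofReal ((Ideal.absNorm I : ℝ) ^ (-s)) else 0

private lemma zF_empty (s : ℝ) : ZZt L s = ∑' I, zF (L := L) s ∅ I := by
  classical
  unfold ZZt
  have := tsum_subtype {I : Ideal (𝓞 L) | I ≠ ⊥} (fun I => ENNReal.ofReal ((Ideal.absNorm I : ℝ) ^ (-s)))
  refine this.trans ?_
  refine tsum_congr fun I => ?_
  simp [Set.indicator_apply, zF]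

private lemma zF_ZG (s : ℝ) (G : HeightOneSpectrum (𝓞 L) → Prop) :
    ZG L G s = ∑' I, zF (L := L) s {P | ¬ G P} I := by
  classical
  unfold ZG
  have := tsum_subtype {I : Ideal (𝓞 L) | I ≠ ⊥ ∧ ∀ P : HeightOneSpectrum (𝓞 L), P.asIdeal ∣ I → G P}
    (fun I => ENNReal.ofReal ((Ideal.absNorm I : ℝ) ^ (-s)))
  refine this.trans ?_
  refine tsum_congr fun I => ?_
  have e : (∀ P : HeightOneSpectrum (𝓞 L), P.asIdeal ∣ I → G P) ↔
      ∀ Q ∈ {P : HeightOneSpectrum (𝓞 L) | ¬ G P}, ¬ Q.asIdeal ∣ I :=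
    ⟨fun h Q hQ hd => hQ (h Q hd), fun h P hd => by
      by_contra hc
      exact h P hc hd⟩
  simp only [Set.indicator_apply, zF, Set.mem_ofPred_eq, e]

private lemma zF_le_empty {s : ℝ} (T : Set (HeightOneSpectrum (𝓞 L))) (I : Ideal (𝓞 L)) :
    zF s T I ≤ zF s ∅ I := by
  classical
  unfold zF
  split_ifs with h1 h2
  · exact le_rfl
  · exact absurd ⟨h1.1, fun Q hQ => absurd hQ (Set.notMem_empty Q)⟩ h2
  · exact zero_le
  · exact le_rfl

private lemma zF_fin {s : ℝ} (hs : 1 < s) (T : Set (HeightOneSpectrum (𝓞 L))) :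
    ∑' I, zF s T I ≠ ⊤ := by
  refine ne_top_of_le_ne_top (zeta_fin L s hs) ?_
  rw [zF_empty]
  exact ENNReal.tsum_le_tsum (zF_le_empty T)

theorem two_le_absNorm (P : HeightOneSpectrum (𝓞 L)) : 2 ≤ Ideal.absNorm P.asIdeal := by
  have h0 : Ideal.absNorm P.asIdeal ≠ 0 := fun h => P.ne_bot (Ideal.absNorm_eq_zero_iff.1 h)
  have h1 : Ideal.absNorm P.asIdeal ≠ 1 := fun h => P.isPrime.ne_top (Ideal.absNorm_eq_one_iff.1 h)
  omega

private lemma zF_step {s : ℝ} (hs : 1 < s) (T : Set (HeightOneSpectrum (𝓞 L)))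
    (P : HeightOneSpectrum (𝓞 L)) :
    ∑' I, zF s T I ≤ ENNReal.ofReal (Real.exp (2 / Ideal.absNorm P.asIdeal)) *
      ∑' I, zF s (insert P T) I := by
  classical
  set x := ∑' I, zF s T I with hx
  have hxf : x ≠ ⊤ := zF_fin hs T
  have h1 : ∀ I, zF s T I ≤ zF s (insert P T) I + (if P.asIdeal ∣ I then zF s T I else 0) := by
    intro I
    by_cases hd : P.asIdeal ∣ I
    · simp [hd]
    · rw [if_neg hd, add_zero]
      unfold zF
      apply le_of_eq
      congr 1
      simp [hd]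
  have hinj : Function.Injective (fun I : Ideal (𝓞 L) => P.asIdeal * I) :=
    mul_right_injective₀ P.ne_bot
  have h2 : ∑' I, (if P.asIdeal ∣ I then zF s T I else 0) = ∑' I, zF s T (P.asIdeal * I) := by
    rw [← hinj.tsum_eq (f := fun I => if P.asIdeal ∣ I then zF s T I else 0)]
    · refine tsum_congr fun I => ?_
      simp
    · intro I hI
      by_cases hd : P.asIdeal ∣ I
      · obtain ⟨J, rfl⟩ := hd
        exact ⟨J, rfl⟩
      · simp [hd] at hI
  set u : ℝ := 1 / (Ideal.absNorm P.asIdeal : ℝ) with hu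
  have hN : (2 : ℝ) ≤ (Ideal.absNorm P.asIdeal : ℝ) := by exact_mod_cast two_le_absNorm P
  have hpos : (0:ℝ) < Ideal.absNorm P.asIdeal := by linarith
  have hu0 : 0 ≤ u := by positivity
  have hu1 : u ≤ 1 / 2 := by
    rw [hu]
    gcongr
  have hN2 : (Ideal.absNorm P.asIdeal : ℝ) ^ (-s) ≤ u := by
    calc (Ideal.absNorm P.asIdeal : ℝ) ^ (-s) ≤ (Ideal.absNorm P.asIdeal : ℝ) ^ (-1 : ℝ) :=
          Real.rpow_le_rpow_of_exponent_le (by linarith) (by linarith)
      _ = u := by rw [Real.rpow_neg_one, hu, one_div]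
  have h3 : ∀ I, zF s T (P.asIdeal * I) ≤ ENNReal.ofReal u * zF s T I := by
    intro I
    unfold zF
    by_cases hI : I ≠ ⊥ ∧ ∀ Q ∈ T, ¬ Q.asIdeal ∣ I
    · rw [if_pos hI]
      split_ifs with h
      · rw [← ENNReal.ofReal_mul hu0]
        apply ENNReal.ofReal_le_ofReal
        rw [map_mul, Nat.cast_mul, Real.mul_rpow (by positivity) (by positivity)]
        gcongr
      · exact zero_le
    · rw [if_neg hI, mul_zero, if_neg]
      rintro ⟨k1, k2⟩
      apply hI
      refine ⟨?_, fun Q hQ hd => k2 Q hQ (hd.mul_left _)⟩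
      rintro rfl
      simp at k1
  have h4 : x ≤ ∑' I, zF s (insert P T) I + ENNReal.ofReal u * x := by
    calc x ≤ ∑' I, (zF s (insert P T) I + (if P.asIdeal ∣ I then zF s T I else 0)) :=
          ENNReal.tsum_le_tsum h1
      _ = ∑' I, zF s (insert P T) I + ∑' I, zF s T (P.asIdeal * I) := by
          rw [ENNReal.tsum_add, h2]
      _ ≤ ∑' I, zF s (insert P T) I + ENNReal.ofReal u * x := by
          gcongr
          rw [hx, ← ENNReal.tsum_mul_left]
          exact ENNReal.tsum_le_tsum h3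
  set y := ∑' I, zF s (insert P T) I with hy
  have hyf : y ≠ ⊤ := zF_fin hs _
  have hux : ENNReal.ofReal u * x ≠ ⊤ := ENNReal.mul_ne_top ENNReal.ofReal_ne_top hxf
  have h5 : x.toReal ≤ y.toReal + u * x.toReal := by
    have := ENNReal.toReal_mono (ENNReal.add_ne_top.2 ⟨hyf, hux⟩) h4
    rwa [ENNReal.toReal_add hyf hux, ENNReal.toReal_mul, ENNReal.toReal_ofReal hu0] at this
  have hy0 : 0 ≤ y.toReal := ENNReal.toReal_nonneg
  have hx0 : 0 ≤ x.toReal := ENNReal.toReal_nonneg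
  have h6 : x.toReal ≤ (1 + 2 * u) * y.toReal := by
    nlinarith [mul_nonneg hu0 hx0, mul_nonneg hu0 hy0,
      mul_nonneg (mul_nonneg hu0 hx0) (sub_nonneg.2 hu1)]
  have h7 : 1 + 2 * u ≤ Real.exp (2 / Ideal.absNorm P.asIdeal) := by
    have := Real.add_one_le_exp (2 * u)
    have e : (2 : ℝ) / Ideal.absNorm P.asIdeal = 2 * u := by rw [hu]; ring
    rw [e]
    linarith
  rw [← ENNReal.ofReal_toReal hxf, ← ENNReal.ofReal_toReal hyf,
    ← ENNReal.ofReal_mul (Real.exp_pos _).le]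
  exact ENNReal.ofReal_le_ofReal (h6.trans (mul_le_mul_of_nonneg_right h7 hy0))

private lemma zF_ind {s : ℝ} (hs : 1 < s) (T : Finset (HeightOneSpectrum (𝓞 L))) :
    ZZt L s ≤ ENNReal.ofReal (Real.exp (∑ P ∈ T, 2 / (Ideal.absNorm P.asIdeal : ℝ))) *
      ∑' I, zF s (T : Set (HeightOneSpectrum (𝓞 L))) I := by
  classical
  induction T using Finset.induction_on with
  | empty => simp [zF_empty]
  | insert P T hPT ih =>
    have h2 := zF_step hs (T : Set (HeightOneSpectrum (𝓞 L))) P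
    rw [Finset.sum_insert hPT, Real.exp_add, ENNReal.ofReal_mul (Real.exp_pos _).le, Finset.coe_insert,
      mul_comm (ENNReal.ofReal _) (ENNReal.ofReal _), mul_assoc]
    exact ih.trans (by gcongr)

theorem zeta_good (G : HeightOneSpectrum (𝓞 L) → Prop)
    (hG : ∑' P : {P : HeightOneSpectrum (𝓞 L) // ¬ G P},
      ENNReal.ofReal (1 / (Ideal.absNorm P.1.asIdeal : ℝ)) ≠ ⊤) :
    ∃ C : ENNReal, C ≠ ⊤ ∧ ∀ s : ℝ, 1 < s → ZZt L s ≤ C * ZG L G s := by
  classical
  set B := ∑' P : {P : HeightOneSpectrum (𝓞 L) // ¬ G P},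
      ENNReal.ofReal (1 / (Ideal.absNorm P.1.asIdeal : ℝ)) with hB
  refine ⟨ENNReal.ofReal (Real.exp (2 * B.toReal)), ENNReal.ofReal_ne_top, fun s hs => ?_⟩
  -- the constant
  have hbd : ∀ T : Finset (HeightOneSpectrum (𝓞 L)), (∀ P ∈ T, ¬ G P) →
      ∑ P ∈ T, 2 / (Ideal.absNorm P.asIdeal : ℝ) ≤ 2 * B.toReal := by
    intro T hT
    have h1 : ∑ P ∈ T, ENNReal.ofReal (1 / (Ideal.absNorm P.asIdeal : ℝ)) ≤ B := by
      have h2 := ENNReal.sum_le_tsum (f := fun P : {P : HeightOneSpectrum (𝓞 L) // ¬ G P} =>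
        ENNReal.ofReal (1 / (Ideal.absNorm P.1.asIdeal : ℝ))) (T.subtype fun P => ¬ G P)
      rw [Finset.sum_subtype_of_mem
        (f := fun P : HeightOneSpectrum (𝓞 L) => ENNReal.ofReal (1 / (Ideal.absNorm P.asIdeal : ℝ)))
        hT] at h2
      exact h2
    have h3 := ENNReal.toReal_mono hG h1
    rw [ENNReal.toReal_sum fun _ _ => ENNReal.ofReal_ne_top] at h3
    have h4 : ∑ P ∈ T, 2 / (Ideal.absNorm P.asIdeal : ℝ) =
        2 * ∑ P ∈ T, (ENNReal.ofReal (1 / (Ideal.absNorm P.asIdeal : ℝ))).toReal := by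
      rw [Finset.mul_sum]
      refine Finset.sum_congr rfl fun P _ => ?_
      rw [ENNReal.toReal_ofReal (by positivity)]
      ring
    rw [h4]
    linarith
  set C := ENNReal.ofReal (Real.exp (2 * B.toReal)) with hC
  have hCt : C ≠ ⊤ := ENNReal.ofReal_ne_top
  -- the limit
  have hfin : ∑' I, zF (L := L) s ∅ I ≠ ⊤ := zF_fin hs ∅
  have htail := ENNReal.tendsto_tsum_compl_atTop_zero hfin
  have hle : ∀ A : Finset (Ideal (𝓞 L)), ZZt L s ≤
      C * (ZG L G s + ∑' I : {I // I ∉ A}, zF (L := L) s ∅ I) := by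
    intro A
    -- the bad primes that divide an element of A
    have hfinA : {P : HeightOneSpectrum (𝓞 L) | ¬ G P ∧ ∃ I ∈ A, I ≠ ⊥ ∧ P.asIdeal ∣ I}.Finite := by
      have h1 : (⋃ I ∈ A.filter (fun I => I ≠ ⊥), {P : HeightOneSpectrum (𝓞 L) | P.asIdeal ∣ I}).Finite := by
        refine Set.Finite.biUnion (Finset.finite_toSet _) fun I hI => ?_
        exact Ideal.finite_factors (Finset.mem_filter.1 hI).2
      refine h1.subset ?_
      rintro P ⟨-, I, hIA, hI0, hd⟩
      exact Set.mem_biUnion (show I ∈ (A.filter (fun I => I ≠ ⊥) : Set _) from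
        Finset.mem_coe.2 (Finset.mem_filter.2 ⟨hIA, hI0⟩)) hd
    set T := hfinA.toFinset with hT
    have hTG : ∀ P ∈ T, ¬ G P := fun P hP => ((Set.Finite.mem_toFinset _).1 hP).1
    have h1 := zF_ind hs T
    have h2 : ENNReal.ofReal (Real.exp (∑ P ∈ T, 2 / (Ideal.absNorm P.asIdeal : ℝ))) ≤ C :=
      ENNReal.ofReal_le_ofReal (Real.exp_le_exp.2 (hbd T hTG))
    have h3 : ∑' I, zF s (T : Set (HeightOneSpectrum (𝓞 L))) I ≤
        ZG L G s + ∑' I : {I // I ∉ A}, zF (L := L) s ∅ I := by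
      rw [zF_ZG]
      have h4 : ∑' I : {I // I ∉ A}, zF (L := L) s ∅ I =
          ∑' I, (Set.indicator {I | I ∉ A} (zF (L := L) s ∅)) I :=
        tsum_subtype {I : Ideal (𝓞 L) | I ∉ A} _
      rw [h4, ← ENNReal.tsum_add]
      refine ENNReal.tsum_le_tsum fun I => ?_
      by_cases hI : I ∈ A
      · refine le_trans ?_ (self_le_add_right _ _)
        unfold zF
        split_ifs with k1 k2
        · exact le_rfl
        · exfalso
          apply k2
          refine ⟨k1.1, fun Q hQ hd => k1.2 Q ?_ hd⟩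
          rw [Finset.mem_coe, hT, Set.Finite.mem_toFinset]
          exact ⟨hQ, I, hI, k1.1, hd⟩
        · exact zero_le
        · exact le_rfl
      · refine le_trans ?_ (self_le_add_left _ _)
        rw [Set.indicator_of_mem (show I ∈ {I | I ∉ A} from hI)]
        exact zF_le_empty _ _
    calc ZZt L s ≤ _ := h1
      _ ≤ C * (ZG L G s + ∑' I : {I // I ∉ A}, zF (L := L) s ∅ I) := mul_le_mul' h2 h3
  have hlim : Filter.Tendsto (fun A : Finset (Ideal (𝓞 L)) =>
      C * (ZG L G s + ∑' I : {I // I ∉ A}, zF (L := L) s ∅ I)) Filter.atTop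
      (nhds (C * (ZG L G s + 0))) :=
    ENNReal.Tendsto.const_mul (Filter.Tendsto.add tendsto_const_nhds htail) (Or.inr hCt)
  rw [add_zero] at hlim
  exact ge_of_tendsto' hlim hle

/-- The norm of a prime that contains `p` is a positive power of `p`. -/
theorem absNorm_eq_pow {p : ℕ} (hp : p.Prime) {P : HeightOneSpectrum (𝓞 L)}
    (h : (p : 𝓞 L) ∈ P.asIdeal) : ∃ k, 1 ≤ k ∧ Ideal.absNorm P.asIdeal = p ^ k := by
  have h1 : P.asIdeal ∣ Ideal.span {(p : 𝓞 L)} := by
    rw [Ideal.dvd_iff_le, Ideal.span_singleton_le_iff_mem]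
    exact h
  have h2 := map_dvd Ideal.absNorm h1
  rw [Ideal.absNorm_span_natCast] at h2
  obtain ⟨k, -, hk⟩ := (Nat.dvd_prime_pow hp).1 h2
  refine ⟨k, ?_, hk⟩
  by_contra hk0
  have : k = 0 := by omega
  rw [this, pow_zero] at hk
  have := two_le_absNorm P
  omega

theorem card_over {p : ℕ} (hp : p.Prime) (t : Finset (HeightOneSpectrum (𝓞 L)))
    (ht : ∀ P ∈ t, (p : 𝓞 L) ∈ P.asIdeal) : t.card ≤ Module.finrank ℚ L := by
  classical
  have h1 : ∏ P ∈ t, P.asIdeal ∣ Ideal.span {(p : 𝓞 L)} := by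
    have h2 : ∏ I ∈ t.image (fun P => P.asIdeal), I ∣ Ideal.span {(p : 𝓞 L)} := by
      refine Finset.prod_primes_dvd _ ?_ ?_
      · intro I hI
        obtain ⟨P, -, rfl⟩ := Finset.mem_image.1 hI
        exact (Ideal.prime_iff_isPrime P.ne_bot).2 P.isPrime
      · intro I hI
        obtain ⟨P, hP, rfl⟩ := Finset.mem_image.1 hI
        rw [Ideal.dvd_iff_le, Ideal.span_singleton_le_iff_mem]
        exact ht P hP
    rwa [Finset.prod_image fun P _ Q _ h => HeightOneSpectrum.ext h] at h2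
  have h2 := map_dvd Ideal.absNorm h1
  rw [Ideal.absNorm_span_natCast, map_prod] at h2
  have h3 : p ^ t.card ≤ ∏ P ∈ t, Ideal.absNorm P.asIdeal := by
    rw [← Finset.prod_const]
    refine Finset.prod_le_prod' fun P hP => ?_
    obtain ⟨k, hk, hk'⟩ := absNorm_eq_pow hp (ht P hP)
    rw [hk']
    exact Nat.le_self_pow (by omega) p
  have h4 : p ^ t.card ≤ p ^ Module.finrank ℚ L := by
    refine h3.trans (Nat.le_of_dvd (pow_pos hp.pos _) ?_)
    rwa [NumberField.RingOfIntegers.rank] at h2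
  exact (Nat.pow_le_pow_iff_right hp.one_lt).1 h4

/-- Every prime contains a prime number. -/
theorem exists_char (P : HeightOneSpectrum (𝓞 L)) :
    ∃ p : ℕ, p.Prime ∧ (p : 𝓞 L) ∈ P.asIdeal := by
  have h0 : (Ideal.absNorm P.asIdeal : 𝓞 L) ∈ P.asIdeal := Ideal.absNorm_mem P.asIdeal
  have h1 : Ideal.absNorm P.asIdeal ≠ 0 := by have := two_le_absNorm P; omega
  generalize Ideal.absNorm P.asIdeal = n at h0 h1
  induction n using induction_on_primes with
  | zero => exact absurd rfl h1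
  | one => exact absurd ((Ideal.eq_top_iff_one _).2 (by simpa using h0)) P.isPrime.ne_top
  | prime_mul p a hp ih =>
    rw [Nat.cast_mul] at h0
    rcases P.isPrime.mem_or_mem h0 with h | h
    · exact ⟨p, hp, h⟩
    · exact ih h fun ha => h1 (by rw [ha, mul_zero])

theorem sum_deg : ∑' P : {P : HeightOneSpectrum (𝓞 L) // ¬ (Ideal.absNorm P.asIdeal).Prime},
      ENNReal.ofReal (1 / (Ideal.absNorm P.1.asIdeal : ℝ)) ≠ ⊤ := by
  classical
  choose c hc using exists_char (L := L)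
  set c' : {P : HeightOneSpectrum (𝓞 L) // ¬ (Ideal.absNorm P.asIdeal).Prime} → ℕ := fun P => c P.1
    with hc'
  have h1 : ∀ P : {P : HeightOneSpectrum (𝓞 L) // ¬ (Ideal.absNorm P.asIdeal).Prime},
      ENNReal.ofReal (1 / (Ideal.absNorm P.1.asIdeal : ℝ)) ≤ ENNReal.ofReal (1 / (c' P : ℝ) ^ 2) := by
    intro P
    obtain ⟨hp, hm⟩ := hc P.1
    obtain ⟨k, hk, hk'⟩ := absNorm_eq_pow hp hm
    have hk2 : 2 ≤ k := by
      by_contra hlt
      have : k = 1 := by omega
      rw [this, pow_one] at hk'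
      exact P.2 (hk' ▸ hp)
    apply ENNReal.ofReal_le_ofReal
    have hpos : (0 : ℝ) < c' P := by exact_mod_cast hp.pos
    apply one_div_le_one_div_of_le (by positivity)
    rw [hk']
    have : (c P.1) ^ 2 ≤ (c P.1) ^ k := Nat.pow_le_pow_right hp.pos hk2
    exact_mod_cast this
  have h2 : ∑' P : {P : HeightOneSpectrum (𝓞 L) // ¬ (Ideal.absNorm P.asIdeal).Prime},
      ENNReal.ofReal (1 / (c' P : ℝ) ^ 2) ≤
      ∑' m : ℕ, (Module.finrank ℚ L : ENNReal) * ENNReal.ofReal (1 / (m : ℝ) ^ 2) := by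
    rw [← (Equiv.sigmaFiberEquiv c').tsum_eq, ENNReal.tsum_sigma']
    refine ENNReal.tsum_le_tsum fun m => ?_
    have e : ∀ b : {x // c' x = m}, ENNReal.ofReal (1 / (c' ((Equiv.sigmaFiberEquiv c') ⟨m, b⟩) : ℝ) ^ 2) =
        ENNReal.ofReal (1 / (m : ℝ) ^ 2) := by
      intro b
      have : c' ((Equiv.sigmaFiberEquiv c') ⟨m, b⟩) = m := b.2
      rw [this]
    rw [tsum_congr e, ENNReal.tsum_eq_iSup_sum]
    refine iSup_le fun t => ?_
    rw [Finset.sum_const, nsmul_eq_mul]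
    gcongr
    rcases t.eq_empty_or_nonempty with rfl | ⟨b, hb⟩
    · simp
    · have hm : m.Prime := by
        have := (hc b.1.1).1
        have h3 : c b.1.1 = m := b.2
        rwa [h3] at this
      have h4 : t.card = (t.image fun x => x.1.1).card := by
        rw [Finset.card_image_of_injective]
        intro x y hxy
        exact Subtype.ext (Subtype.ext hxy)
      rw [h4]
      refine card_over hm _ fun P hP => ?_
      obtain ⟨x, -, rfl⟩ := Finset.mem_image.1 hP
      have h5 := (hc x.1.1).2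
      have h3 : c x.1.1 = m := x.2
      rwa [h3] at h5
  have h3 : ∑' m : ℕ, (Module.finrank ℚ L : ENNReal) * ENNReal.ofReal (1 / (m : ℝ) ^ 2) ≠ ⊤ := by
    rw [ENNReal.tsum_mul_left]
    refine ENNReal.mul_ne_top (ENNReal.natCast_ne_top _) ?_
    rw [← ENNReal.ofReal_tsum_of_nonneg (fun n => by positivity)
      (Real.summable_one_div_nat_pow.2 one_lt_two)]
    exact ENNReal.ofReal_ne_top
  exact ne_top_of_le_ne_top h3 ((ENNReal.tsum_le_tsum h1).trans h2)

/-- Primes of prime norm outside a finite set. -/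
theorem sum_bad (S : Finset (HeightOneSpectrum (𝓞 L))) :
    ∑' P : {P : HeightOneSpectrum (𝓞 L) // ¬ ((Ideal.absNorm P.asIdeal).Prime ∧ P ∉ S)},
      ENNReal.ofReal (1 / (Ideal.absNorm P.1.asIdeal : ℝ)) ≠ ⊤ := by
  classical
  have h1 : ∑' P : {P : HeightOneSpectrum (𝓞 L) // ¬ ((Ideal.absNorm P.asIdeal).Prime ∧ P ∉ S)},
      ENNReal.ofReal (1 / (Ideal.absNorm P.1.asIdeal : ℝ)) =
      ∑' P, Set.indicator {P : HeightOneSpectrum (𝓞 L) | ¬ ((Ideal.absNorm P.asIdeal).Prime ∧ P ∉ S)}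
        (fun P => ENNReal.ofReal (1 / (Ideal.absNorm P.asIdeal : ℝ))) P :=
    tsum_subtype {P : HeightOneSpectrum (𝓞 L) | ¬ ((Ideal.absNorm P.asIdeal).Prime ∧ P ∉ S)}
      (fun P => ENNReal.ofReal (1 / (Ideal.absNorm P.asIdeal : ℝ)))
  have h2 : ∑' P : {P : HeightOneSpectrum (𝓞 L) // ¬ (Ideal.absNorm P.asIdeal).Prime},
      ENNReal.ofReal (1 / (Ideal.absNorm P.1.asIdeal : ℝ)) =
      ∑' P, Set.indicator {P : HeightOneSpectrum (𝓞 L) | ¬ (Ideal.absNorm P.asIdeal).Prime}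
        (fun P => ENNReal.ofReal (1 / (Ideal.absNorm P.asIdeal : ℝ))) P :=
    tsum_subtype {P : HeightOneSpectrum (𝓞 L) | ¬ (Ideal.absNorm P.asIdeal).Prime}
      (fun P => ENNReal.ofReal (1 / (Ideal.absNorm P.asIdeal : ℝ)))
  have h3 := sum_deg (L := L)
  rw [h2] at h3
  rw [h1]
  have h4 : ∑' P, Set.indicator (S : Set (HeightOneSpectrum (𝓞 L)))
      (fun P => ENNReal.ofReal (1 / (Ideal.absNorm P.asIdeal : ℝ))) P ≠ ⊤ := by
    rw [tsum_eq_sum (s := S) fun P hP => Set.indicator_of_notMem (by simpa using hP) _]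
    refine ENNReal.sum_ne_top.2 fun P hP => ?_
    rw [Set.indicator_of_mem (Finset.mem_coe.2 hP)]
    exact ENNReal.ofReal_ne_top
  refine ne_top_of_le_ne_top (ENNReal.add_ne_top.2 ⟨h3, h4⟩) ?_
  rw [← ENNReal.tsum_add]
  refine ENNReal.tsum_le_tsum fun P => ?_
  simp only [Set.indicator_apply, Set.mem_ofPred_eq, Finset.mem_coe]
  by_cases hP : (Ideal.absNorm P.asIdeal).Prime
  · by_cases hS : P ∈ S
    · simp [hP, hS]
    · simp [hP, hS]
  · simp [hP]

end

end Pool.Agent.Work.MP_787500_nt.GA
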