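import Mathlib
import Pool.Agent.Work.MP_787500_nt.GA.LocKum
import Pool.Agent.Work.MP_787500_nt.GP.LT2_Sep
import Pool.Agent.Work.MP_787500_nt.HN.LocCount
import Pool.Agent.Work.MP_787500_nt.PA.ActHom
import Pool.Agent.Work.MP_787500_nt.GA.ZetaDeg

/-!
# The number of homomorphisms of decomposition groups

`H` is open in `AbsGal K`, `w` the place of `Fx H` below `Q`, `stabD Q ⊓ H ≤ D ≤ stabD Q`. The
number of homomorphisms `stabD Q ⊓ H → ZMod 2` is the index of the local squares at `w`, that is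
`4 * Nat.card (𝓞 (Fx H) ⧸ w ^ ee w)` (`card_loc`).
-/

set_option autoImplicit false
set_option linter.unusedSectionVars false

namespace Pool.Agent.Work.MP_787500_nt.GA

open IsDedekindDomain NumberField WithZero
open Pool.Agent.Work.MP_787500_nt.PA (TwoSys Sm1 Sm2 homs Coc Cob Opn)
open Pool.Agent.Work.MP_787500_nt.GP (sysT stabD Fx GoodT inT subSys)
open Pool.Agent.Work.MP_787500_nt.HN

universe u

section group

variable {G : Type*} [Group G] [TopologicalSpace G] [IsTopologicalGroup G] [CompactSpace G]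

/-- Continuous homomorphisms of open subgroups of 2-power index are smooth. -/
theorem homs_subSys {D : Subgroup G} {C : Subgroup D} (hC : Opn (subSys D) C) {ψ : D → ZMod 2}
    (hoff : ∀ d ∉ C, ψ d = 0) (hmul : ∀ d ∈ C, ∀ e ∈ C, ψ (d * e) = ψ d + ψ e)
    (hcont : ∃ V : Subgroup G, IsOpen (V : Set G) ∧ ∀ d ∈ C, (d : G) ∈ V → ψ d = 0) :
    ψ ∈ homs (subSys D) C := by
  classical
  obtain ⟨W₀, hW₀, hle⟩ := hC
  obtain ⟨V, hV, hψV⟩ := hcont
  obtain ⟨⟨U, hU, hUW⟩, hn, k, hk⟩ := hW₀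
  have hone : ψ 1 = 0 := by
    have := hmul 1 C.one_mem 1 C.one_mem
    rw [mul_one] at this
    simpa using this
  have hconj : ∀ g : D, ∀ d ∈ W₀, g⁻¹ * d * g ∈ W₀ := fun g d hd => by
    have := hn.conj_mem d hd g⁻¹
    rwa [inv_inv] at this
  have hconj' : ∀ g : D, ∀ d ∈ W₀, g⁻¹ * d * g ∈ C := fun g d hd => hle (hconj g d hd)
  let W : Subgroup D :=
    { carrier := {d | d ∈ W₀ ∧ ∀ g : D, ψ (g⁻¹ * d * g) = 0}
      mul_mem' := by
        rintro a b ⟨ha, ha'⟩ ⟨hb, hb'⟩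
        refine ⟨W₀.mul_mem ha hb, fun g => ?_⟩
        have e : g⁻¹ * (a * b) * g = (g⁻¹ * a * g) * (g⁻¹ * b * g) := by group
        rw [e, hmul _ (hconj' g a ha) _ (hconj' g b hb), ha', hb', add_zero]
      one_mem' := ⟨W₀.one_mem, fun g => by
        have e : g⁻¹ * 1 * g = 1 := by group
        rw [e, hone]⟩
      inv_mem' := by
        rintro a ⟨ha, ha'⟩
        refine ⟨W₀.inv_mem ha, fun g => ?_⟩
        have h1 := hmul _ (hconj' g a ha) _ (hconj' g a⁻¹ (W₀.inv_mem ha))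
        have e : (g⁻¹ * a * g) * (g⁻¹ * a⁻¹ * g) = 1 := by group
        rw [e, hone, ha', zero_add] at h1
        exact h1.symm }
  have hWmem : ∀ d, d ∈ W ↔ d ∈ W₀ ∧ ∀ g : D, ψ (g⁻¹ * d * g) = 0 := fun d => Iff.rfl
  have hWn : W.Normal := by
    refine ⟨fun d hd h => ?_⟩
    rw [hWmem] at hd ⊢
    refine ⟨hn.conj_mem d hd.1 h, fun g => ?_⟩
    have e : g⁻¹ * (h * d * h⁻¹) * g = (h⁻¹ * g)⁻¹ * d * (h⁻¹ * g) := by group
    rw [e]
    exact hd.2 _
  -- an open subgroup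
  have hcore : IsOpen ((V ⊓ U).normalCore : Set G) := by
    have hq := Subgroup.quotient_finite_of_isOpen (V ⊓ U) (hV.inter hU)
    have hfi : (V ⊓ U).FiniteIndex := Subgroup.finiteIndex_of_finite_quotient
    have hfi2 : (V ⊓ U).normalCore.FiniteIndex := Subgroup.finiteIndex_normalCore _
    have hcl : IsClosed ((V ⊓ U).normalCore : Set G) :=
      Subgroup.normalCore_isClosed (V ⊓ U) (Subgroup.isClosed_of_isOpen _ (hV.inter hU))
    exact Subgroup.isOpen_of_isClosed_of_finiteIndex _ hcl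
  have hWU : (V ⊓ U).normalCore.subgroupOf D ≤ W := by
    intro d hd
    rw [Subgroup.mem_subgroupOf] at hd
    have hd1 : (d : G) ∈ V ⊓ U := Subgroup.normalCore_le _ hd
    have hdW : d ∈ W₀ := hUW (Subgroup.mem_subgroupOf.2 hd1.2)
    refine ⟨hdW, fun g => hψV _ (hconj' g d hdW) ?_⟩
    have h2 : (g⁻¹ : G) * d * (g⁻¹ : G)⁻¹ ∈ V ⊓ U := by
      have := (Subgroup.normalCore_normal (V ⊓ U)).conj_mem (d : G) hd (g⁻¹ : G)
      exact Subgroup.normalCore_le _ this
    rw [inv_inv] at h2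
    exact h2.1
  have hidx : ∃ k : ℕ, W.index = 2 ^ k := by
    have : Fact (Nat.Prime 2) := ⟨Nat.prime_two⟩
    have hsub : (V ⊓ U).normalCore.subgroupOf D ≤ W := hWU
    have hfi2 : (V ⊓ U).normalCore.FiniteIndex := by
      have hq := Subgroup.quotient_finite_of_isOpen (V ⊓ U) (hV.inter hU)
      have hfi : (V ⊓ U).FiniteIndex := Subgroup.finiteIndex_of_finite_quotient
      exact Subgroup.finiteIndex_normalCore _
    have hfi3 : ((V ⊓ U).normalCore.subgroupOf D).FiniteIndex := inferInstance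
    have hfi4 : W.FiniteIndex := Subgroup.finiteIndex_of_le hsub
    have hfin : Finite (D ⧸ W) := Subgroup.finite_quotient_of_finiteIndex
    have hp : IsPGroup 2 (D ⧸ W) := by
      intro x
      obtain ⟨g, rfl⟩ := QuotientGroup.mk_surjective x
      have h1 : g ^ 2 ^ k ∈ W₀ := by
        have := Subgroup.pow_index_mem W₀ g
        rwa [hk] at this
      refine ⟨k + 1, ?_⟩
      rw [← QuotientGroup.mk_pow, QuotientGroup.eq_one_iff, hWmem, pow_succ, pow_mul, pow_two]
      refine ⟨W₀.mul_mem h1 h1, fun h => ?_⟩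
      have e : h⁻¹ * (g ^ 2 ^ k * g ^ 2 ^ k) * h = (h⁻¹ * g ^ 2 ^ k * h) * (h⁻¹ * g ^ 2 ^ k * h) := by
        group
      rw [e, hmul _ (hconj' h _ h1) _ (hconj' h _ h1)]
      exact CharTwo.add_self_eq_zero _
    obtain ⟨m, hm⟩ := (IsPGroup.iff_card (p := 2)).1 hp
    exact ⟨m, hm⟩
  refine ⟨⟨W, ⟨⟨_, hcore, hWU⟩, hWn, hidx⟩, fun g w hw => ?_⟩, hoff, hmul⟩
  have hw' := (hWmem w).1 hw
  have hw0 : ψ w = 0 := by
    have := hw'.2 1
    rwa [inv_one, one_mul, mul_one] at this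
  by_cases hg : g ∈ C
  · rw [hmul g hg w (hle hw'.1), hw0, add_zero]
  · rw [hoff g hg, hoff]
    intro h
    exact hg ((Subgroup.mul_mem_cancel_right _ (hle hw'.1)).1 h)

end group

variable {K : Type u} [Field K] [NumberField K] {H : Subgroup (AbsGal K)} [NumberField (Fx H)]

/-- the square root -/
private noncomputable def sr (x : (Fx H)ˣ) : AlgebraicClosure K :=
  GP.rt ((x : Fx H) : AlgebraicClosure K)

private theorem sr_sq (x : (Fx H)ˣ) : sr x ^ 2 = ((x : Fx H) : AlgebraicClosure K) := GP.rt_sq _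

private theorem coe_ne (x : (Fx H)ˣ) : ((x : Fx H) : AlgebraicClosure K) ≠ 0 := fun h =>
  x.ne_zero (ZeroMemClass.coe_eq_zero.1 h)

private theorem sr_ne (x : (Fx H)ˣ) : sr x ≠ 0 := by
  intro h
  have h1 := sr_sq x
  rw [h, zero_pow two_ne_zero] at h1
  exact coe_ne x h1.symm

private theorem sr_fix (x : (Fx H)ˣ) {g : AbsGal K} (hg : g ∈ H) : g (sr x ^ 2) = sr x ^ 2 := by
  rw [sr_sq]
  exact GP.mem_Fx.1 (x : Fx H).2 g hg

private theorem sr_sign (x : (Fx H)ˣ) {g : AbsGal K} (hg : g ∈ H) :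
    g (sr x) = sr x ∨ g (sr x) = -sr x := by
  apply sq_eq_sq_iff_eq_or_eq_neg.1
  rw [← map_pow, sr_fix x hg]

private theorem act2_zero {t : AlgebraicClosure K} {g : AbsGal K} (hg : g ∈ H) :
    PA.act2 H t g = 0 ↔ g t = t := by
  classical
  unfold PA.act2
  constructor
  · intro h
    by_contra hcon
    rw [if_pos ⟨hg, hcon⟩] at h
    exact one_ne_zero h
  · intro h
    rw [if_neg fun h' => h'.2 h]

private theorem act2_off {t : AlgebraicClosure K} {g : AbsGal K} (hg : g ∉ H) :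
    PA.act2 H t g = 0 := by
  classical
  unfold PA.act2
  rw [if_neg fun h' => hg h'.1]

private theorem neg_ne {t : AlgebraicClosure K} (ht : t ≠ 0) : -t ≠ t := by
  intro h
  have h2 : (2 : AlgebraicClosure K) * t = 0 := by linear_combination -h
  have h20 : (2 : AlgebraicClosure K) ≠ 0 := by
    have h : algebraMap K (AlgebraicClosure K) 2 ≠ 0 := (map_ne_zero _).2 two_ne_zero
    rwa [map_ofNat] at h
  exact mul_ne_zero h20 ht h2

private theorem zmod_ne {a : ZMod 2} (h : a ≠ 0) : a = 1 := by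
  revert a
  decide

private theorem act2_hom {t : AlgebraicClosure K} (ht0 : t ≠ 0)
    (ht : ∀ g ∈ H, g t = t ∨ g t = -t) {g h : AbsGal K} (hg : g ∈ H) (hh : h ∈ H) :
    PA.act2 H t (g * h) = PA.act2 H t g + PA.act2 H t h := by
  have hgh := H.mul_mem hg hh
  have h1 : ∀ {g : AbsGal K}, g ∈ H → g t = -t → PA.act2 H t g = 1 := fun hg h =>
    zmod_ne fun h' => neg_ne ht0 (by rw [← h]; exact (act2_zero hg).1 h')
  rcases ht g hg with h2 | h2 <;> rcases ht h hh with h3 | h3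
  · rw [(act2_zero hg).2 h2, (act2_zero hh).2 h3, (act2_zero hgh).2 (by
      rw [AlgEquiv.mul_apply, h3, h2]), add_zero]
  · rw [(act2_zero hg).2 h2, h1 hh h3, h1 hgh (by rw [AlgEquiv.mul_apply, h3, map_neg, h2]), zero_add]
  · rw [h1 hg h2, (act2_zero hh).2 h3, h1 hgh (by rw [AlgEquiv.mul_apply, h3, h2]), add_zero]
  · rw [h1 hg h2, h1 hh h3, (act2_zero hgh).2 (by
      rw [AlgEquiv.mul_apply, h3, map_neg, h2, neg_neg])]
    decide

/-- the character of the decomposition group of `√x` -/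
private noncomputable def lchi (D : Subgroup (AbsGal K)) (x : (Fx H)ˣ) :
    D → ZMod 2 := fun d => PA.act2 H (sr x) (d : AbsGal K)

private theorem lchi_mem {D : Subgroup (AbsGal K)}
    (hC : Opn (subSys D) (H.subgroupOf D)) (x : (Fx H)ˣ) :
    lchi D x ∈ homs (subSys D) (H.subgroupOf D) := by
  refine homs_subSys hC (fun d hd => act2_off fun h => hd (Subgroup.mem_subgroupOf.2 h)) ?_
    ⟨MulAction.stabilizer (AbsGal K) (sr x), stabilizer_isOpen_of_isIntegral _, ?_⟩
  · intro d hd e he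
    exact act2_hom (sr_ne x) (fun g hg => sr_sign x hg) (Subgroup.mem_subgroupOf.1 hd)
      (Subgroup.mem_subgroupOf.1 he)
  · intro d hd hdV
    exact (act2_zero (Subgroup.mem_subgroupOf.1 hd)).2 hdV

private theorem lchi_mul (D : Subgroup (AbsGal K)) (x y : (Fx H)ˣ) :
    lchi D (x * y) = lchi D x + lchi D y := by
  funext d
  show PA.act2 H (sr (x * y)) (d : AbsGal K) = PA.act2 H (sr x) (d : AbsGal K) +
    PA.act2 H (sr y) (d : AbsGal K)
  rw [← Pi.add_apply, ← PA.act2_mul (sr_ne x) (sr_ne y) (fun g hg => sr_fix x hg)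
    (fun g hg => sr_fix y hg)]
  have h1 : sr (x * y) ^ 2 = (sr x * sr y) ^ 2 := by
    rw [mul_pow, sr_sq, sr_sq, sr_sq]
    rfl
  by_cases hd : (d : AbsGal K) ∈ H
  · have h2 : (d : AbsGal K) (sr (x * y)) = sr (x * y) ↔
        (d : AbsGal K) (sr x * sr y) = sr x * sr y := by
      rcases sq_eq_sq_iff_eq_or_eq_neg.1 h1 with h | h
      · rw [h]
      · rw [h, map_neg, neg_inj]
    rw [← act2_zero hd, ← act2_zero hd] at h2
    by_cases h3 : PA.act2 H (sr (x * y)) (d : AbsGal K) = 0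
    · rw [h3, h2.1 h3]
    · rw [zmod_ne h3, zmod_ne fun h => h3 (h2.2 h)]
  · rw [act2_off hd, act2_off hd]

private theorem lchi_zero (hH : IsOpen (H : Set (AbsGal K))) {Q : Ideal (𝓞 (AlgebraicClosure K))}
    (hQ : Q.IsPrime) (hb : Q ≠ ⊥) {w : HeightOneSpectrum (𝓞 (Fx H))}
    (hw : Q.comap (algebraMap (𝓞 (Fx H)) (𝓞 (AlgebraicClosure K))) = w.asIdeal)
    {D : Subgroup (AbsGal K)} (hDQ : D ≤ stabD Q) (hDH : ∀ g ∈ stabD Q, g ∈ H → g ∈ D)
    (x : (Fx H)ˣ) : lchi D x = 0 ↔ x ∈ LS w := by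
  rw [← fixed_iff hH hQ hb hw (sr_sq x)]
  constructor
  · intro h g hg hgH
    exact (act2_zero hgH).1 (congrFun h ⟨g, hDH g hg hgH⟩)
  · intro h
    funext d
    by_cases hd : (d : AbsGal K) ∈ H
    · exact (act2_zero hd).2 (h d (hDQ d.2) hd)
    · exact act2_off hd

private theorem lchi_surj (hH : IsOpen (H : Set (AbsGal K))) {Q : Ideal (𝓞 (AlgebraicClosure K))}
    (hQ : Q.IsPrime) (hb : Q ≠ ⊥) {D : Subgroup (AbsGal K)} (hDQ : D ≤ stabD Q)
    (hDH : ∀ g ∈ stabD Q, g ∈ H → g ∈ D) {ψ : D → ZMod 2}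
    (hψ : ψ ∈ homs (subSys D) (H.subgroupOf D)) : ∃ x : (Fx H)ˣ, lchi D x = ψ := by
  classical
  obtain ⟨⟨W, ⟨⟨U, hU, hUW⟩, -⟩, hsm⟩, hoff, hmul⟩ := hψ
  let lam : AbsGal K → ZMod 2 := fun g => if h : g ∈ D then ψ ⟨g, h⟩ else 0
  have hlam : ∀ (g : AbsGal K) (h : g ∈ D), lam g = ψ ⟨g, h⟩ := fun g h => dif_pos h
  have hone : ψ 1 = 0 := by
    have := hmul 1 (Subgroup.one_mem _) 1 (Subgroup.one_mem _)
    rw [mul_one] at this
    simpa using this
  have hcl : IsClosed ((stabD Q ⊓ H : Subgroup (AbsGal K)) : Set (AbsGal K)) :=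
    (GP.stabD_closed Q).inter (Subgroup.isClosed_of_isOpen H hH)
  have hD : ∀ g ∈ stabD Q ⊓ H, g ∈ D := fun g hg => hDH g hg.1 hg.2
  obtain ⟨t, ht0, ht1, ht2⟩ := GP.exists_kum (C := stabD Q ⊓ H) hcl lam (by
    intro g hg h hh
    rw [hlam g (hD g hg), hlam h (hD h hh), hlam (g * h) (D.mul_mem (hD g hg) (hD h hh))]
    exact hmul ⟨g, hD g hg⟩ (Subgroup.mem_subgroupOf.2 hg.2) ⟨h, hD h hh⟩
      (Subgroup.mem_subgroupOf.2 hh.2))
    ⟨U, hU, by
      intro g hg
      rw [hlam g (hD g hg.1)]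
      have h1 : (⟨g, hD g hg.1⟩ : D) ∈ W := hUW (Subgroup.mem_subgroupOf.2 hg.2)
      have h2 := hsm 1 _ h1
      rwa [one_mul, hone] at h2⟩
  obtain ⟨x, hx⟩ := exists_root hH hQ hb ht0 fun g hg hgH => ht1 g ⟨hg, hgH⟩
  refine ⟨x, ?_⟩
  funext d
  by_cases hd : (d : AbsGal K) ∈ H
  · have h1 : lchi D x d = 0 ↔ ψ d = 0 := by
      show PA.act2 H (sr x) (d : AbsGal K) = 0 ↔ ψ d = 0
      rw [act2_zero hd, hx (sr x) (sr_sq x) d (hDQ d.2) hd, ← ht2 d ⟨hDQ d.2, hd⟩, hlam d d.2]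
    by_cases h3 : lchi D x d = 0
    · rw [h3, h1.1 h3]
    · rw [zmod_ne h3, zmod_ne fun h => h3 (h1.2 h)]
  · rw [hoff d fun h => hd (Subgroup.mem_subgroupOf.1 h)]
    exact act2_off hd

/-- The number of homomorphisms of a decomposition group is the index of the local squares. Here `D` is a
subgroup of `stabD Q` that contains `stabD Q ⊓ H`. -/
theorem card_loc (hH : IsOpen (H : Set (AbsGal K))) {Q : Ideal (𝓞 (AlgebraicClosure K))}
    (hQ : Q.IsPrime) (hb : Q ≠ ⊥) {w : HeightOneSpectrum (𝓞 (Fx H))}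
    (hw : Q.comap (algebraMap (𝓞 (Fx H)) (𝓞 (AlgebraicClosure K))) = w.asIdeal)
    {D : Subgroup (AbsGal K)} (hDQ : D ≤ stabD Q) (hDH : ∀ g ∈ stabD Q, g ∈ H → g ∈ D)
    (hC : Opn (subSys D) (H.subgroupOf D)) :
    Finite (homs (subSys D) (H.subgroupOf D)) ∧
      Nat.card (homs (subSys D) (H.subgroupOf D)) = (LS w).index := by
  classical
  let Ψ : (Fx H)ˣ →* Multiplicative (homs (subSys D) (H.subgroupOf D)) :=
    { toFun := fun x => Multiplicative.ofAdd ⟨lchi D x, lchi_mem hC x⟩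
      map_one' := by
        apply Multiplicative.toAdd.injective
        apply Subtype.ext
        exact (lchi_zero hH hQ hb hw hDQ hDH 1).2 (LS w).one_mem
      map_mul' := by
        intro x y
        apply Multiplicative.toAdd.injective
        apply Subtype.ext
        exact lchi_mul D x y }
  have hker : Ψ.ker = LS w := by
    ext x
    rw [MonoidHom.mem_ker, ← lchi_zero hH hQ hb hw hDQ hDH]
    constructor
    · intro h
      exact congrArg (fun z : Multiplicative (homs (subSys D) (H.subgroupOf D)) =>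
        ((Multiplicative.toAdd z : homs (subSys D) (H.subgroupOf D)) : D → ZMod 2)) h
    · intro h
      apply Multiplicative.toAdd.injective
      apply Subtype.ext
      exact h
  have hsurj : Function.Surjective Ψ := by
    intro ω
    obtain ⟨x, hx⟩ := lchi_surj hH hQ hb hDQ hDH (Multiplicative.toAdd ω).2
    refine ⟨x, ?_⟩
    apply Multiplicative.toAdd.injective
    apply Subtype.ext
    exact hx
  have hcard : Nat.card (homs (subSys D) (H.subgroupOf D)) = (LS w).index := by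
    have h1 : Ψ.ker.index = Nat.card Ψ.range := Subgroup.index_ker Ψ
    rw [MonoidHom.range_eq_top.2 hsurj, Subgroup.card_top, hker] at h1
    have h3 : Nat.card (Multiplicative (homs (subSys D) (H.subgroupOf D))) =
        Nat.card (homs (subSys D) (H.subgroupOf D)) :=
      Nat.card_congr Multiplicative.toAdd
    rw [← h3, ← h1]
  refine ⟨Nat.finite_of_card_ne_zero ?_, hcard⟩
  rw [hcard, card_LS]
  exact mul_ne_zero (by norm_num) (card_quot_pos w _).ne'

/-- the degree of the completion over the field of 2-adic numbers, 0 for odd places: `2 ^ ld w` is the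
cardinality of the integers modulo 2 -/
noncomputable def ld {F : Type*} [Field F] [NumberField F] (w : HeightOneSpectrum (𝓞 F)) : ℕ :=
  Nat.log 2 (Nat.card (𝓞 F ⧸ w.asIdeal ^ ee w))

theorem two_pow_ld {F : Type u} [Field F] [NumberField F] (w : HeightOneSpectrum (𝓞 F)) :
    2 ^ ld w = Nat.card (𝓞 F ⧸ w.asIdeal ^ ee w) := by
  have h : ∃ m : ℕ, Nat.card (𝓞 F ⧸ w.asIdeal ^ ee w) = 2 ^ m := by
    by_cases h2 : (2 : 𝓞 F) ∈ w.asIdeal
    · obtain ⟨k, -, hk⟩ := absNorm_eq_pow Nat.prime_two (P := w) (by exact_mod_cast h2)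
      refine ⟨k * ee w, ?_⟩
      rw [← Submodule.cardQuot_apply, ← Ideal.absNorm_apply, map_pow, hk, ← pow_mul]
    · refine ⟨0, ?_⟩
      have hee : ee w = 0 := by
        unfold ee
        have h1 : w.valuation F (2 : F) = 1 := by
          have := (HeightOneSpectrum.valuation_eq_one_iff_notMem (K := F) w).2 h2
          exact this
        rw [h1, log_one]
        rfl
      rw [hee, pow_zero, pow_zero, Ideal.one_eq_top, Nat.card_eq_one_iff_unique]
      exact ⟨inferInstance, inferInstance⟩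
  obtain ⟨m, hm⟩ := h
  unfold ld
  rw [hm, Nat.log_pow (by norm_num)]

theorem ld_odd {F : Type u} [Field F] [NumberField F] {w : HeightOneSpectrum (𝓞 F)}
    (h2 : (2 : 𝓞 F) ∉ w.asIdeal) : ld w = 0 := by
  have hee : ee w = 0 := by
    unfold ee
    have h1 : w.valuation F (2 : F) = 1 :=
      (HeightOneSpectrum.valuation_eq_one_iff_notMem (K := F) w).2 h2
    rw [h1, log_one]
    rfl
  have h := two_pow_ld w
  rw [hee, pow_zero, Ideal.one_eq_top] at h
  have h1 : Nat.card (𝓞 F ⧸ (⊤ : Ideal (𝓞 F))) = 1 := by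
    rw [Nat.card_eq_one_iff_unique]
    exact ⟨inferInstance, inferInstance⟩
  rw [h1] at h
  exact Nat.pow_eq_one.1 h |>.resolve_left (by norm_num)

/-- The dimension of the space of homomorphisms. -/
theorem finrank_loc (hH : IsOpen (H : Set (AbsGal K))) {Q : Ideal (𝓞 (AlgebraicClosure K))}
    (hQ : Q.IsPrime) (hb : Q ≠ ⊥) {w : HeightOneSpectrum (𝓞 (Fx H))}
    (hw : Q.comap (algebraMap (𝓞 (Fx H)) (𝓞 (AlgebraicClosure K))) = w.asIdeal)
    {D : Subgroup (AbsGal K)} (hDQ : D ≤ stabD Q) (hDH : ∀ g ∈ stabD Q, g ∈ H → g ∈ D)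
    (hC : Opn (subSys D) (H.subgroupOf D)) :
    FiniteDimensional (ZMod 2) (homs (subSys D) (H.subgroupOf D)) ∧
      Module.finrank (ZMod 2) (homs (subSys D) (H.subgroupOf D)) = ld w + 2 := by
  obtain ⟨hfin, hcard⟩ := card_loc hH hQ hb hw hDQ hDH hC
  have hfd : FiniteDimensional (ZMod 2) (homs (subSys D) (H.subgroupOf D)) :=
    Module.Finite.of_finite
  refine ⟨hfd, ?_⟩
  have h4 := Module.natCard_eq_pow_finrank (K := ZMod 2) (V := homs (subSys D) (H.subgroupOf D))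
  rw [hcard, card_LS, Nat.card_zmod, ← two_pow_ld w] at h4
  have h5 : 4 * 2 ^ ld w = 2 ^ (ld w + 2) := by
    rw [pow_add]
    ring
  rw [h5] at h4
  exact (Nat.pow_right_injective le_rfl h4).symm

end Pool.Agent.Work.MP_787500_nt.GA
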