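import Mathlib
import Pool.Agent.Work.MP_787500_nt.GA.LocCnt
import Pool.Agent.Work.MP_787500_nt.HN.LocDeg
import Pool.Agent.Work.MP_787500_nt.PA.Chain
import Pool.Agent.Work.MP_787500_nt.GA.LType

/-!
# The number of homomorphisms of all open subgroups of a decomposition group

`D = stabD Q ⊓ H₀`, `H₀` open: `finrank (homs (subSys D) C) = d * C.index + 2` for all open subgroups `C` of 2-power
index, where `d = ld (plc H₀ Q)` is the degree of the completion of `Fx H₀` over the 2-adic numbers if `Q`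
contains 2 and `0` otherwise (`countsD`). So `D` is of local type (`localType_D`).
-/

set_option autoImplicit false
set_option linter.unusedSectionVars false

namespace Pool.Agent.Work.MP_787500_nt.GA

open IsDedekindDomain NumberField WithZero
open Pool.Agent.Work.MP_787500_nt.PA (TwoSys Sm1 Sm2 homs Coc Cob Opn)
open Pool.Agent.Work.MP_787500_nt.GP (sysT stabD Fx GoodT inT subSys)
open Pool.Agent.Work.MP_787500_nt.HN

universe u

variable {K : Type u} [Field K] [NumberField K]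

private theorem two_ne' : (2 : AlgebraicClosure K) ≠ 0 := by
  have h : algebraMap K (AlgebraicClosure K) 2 ≠ 0 := (map_ne_zero _).2 two_ne_zero
  rwa [map_ofNat] at h

private theorem neg_ne' {t : AlgebraicClosure K} (ht : t ≠ 0) : -t ≠ t := by
  intro h
  have h2 : (2 : AlgebraicClosure K) * t = 0 := by linear_combination -h
  exact mul_ne_zero two_ne' ht h2

private theorem two_aux {G : Type*} [Group G] {V U : Subgroup G} (h : V.relIndex U = 2) : ∃ s ∈ U, s ∉ V ∧ (∀ g ∈ U, g ∉ V → g * s ∈ V) := by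
  obtain ⟨s, hs, hx⟩ := Subgroup.relIndex_eq_two_iff.1 h
  have h1 := hx 1 U.one_mem
  rw [one_mul] at h1
  have hsV : s ∉ V := by
    intro h2
    rcases h1 with ⟨_, h3⟩ | ⟨_, h3⟩
    · exact h3 V.one_mem
    · exact h3 h2
  refine ⟨s, hs, hsV, fun g hg hgV => ?_⟩
  rcases hx g hg with ⟨h3, _⟩ | ⟨h3, _⟩
  · exact h3
  · exact absurd h3 hgV

/-- A subgroup of index two gives a quadratic extension of fixed fields. -/
theorem qext_fx {V U : Subgroup (AbsGal K)} (hVU : V ≤ U) (hV : IsOpen (V : Set (AbsGal K)))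
    (hi : V.relIndex U = 2) (hle : Fx U ≤ Fx V) :
    letI : Algebra (Fx U) (Fx V) := (IntermediateField.inclusion hle).toRingHom.toAlgebra
    ∃ (a : (Fx U)ˣ) (t : AlgebraicClosure K), t ^ 2 = ((a : Fx U) : AlgebraicClosure K) ∧
      (∀ g ∈ U, g t = t ↔ g ∈ V) ∧ Nonempty (QExt (Fx U) (Fx V) a) := by
  classical
  let _ : Algebra (Fx U) (Fx V) := (IntermediateField.inclusion hle).toRingHom.toAlgebra
  have hal : ∀ x : Fx U, ((algebraMap (Fx U) (Fx V) x : Fx V) : AlgebraicClosure K) = x :=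
    fun x => rfl
  have hU : IsOpen (U : Set (AbsGal K)) := Subgroup.isOpen_mono hVU hV
  obtain ⟨s, hs, hsV, hx⟩ := two_aux hi
  -- cosets
  have hmul : ∀ g ∈ U, ∀ h ∈ U, g ∉ V → h ∉ V → g * h ∈ V := by
    intro g hg h hh hgV hhV
    have h1 := hx g hg hgV
    have h2 := hx h⁻¹ (U.inv_mem hh) fun h' => hhV (by simpa using V.inv_mem h')
    have h3 := V.mul_mem h1 (V.inv_mem h2)
    have e : g * s * (h⁻¹ * s)⁻¹ = g * h := by group
    rwa [e] at h3
  have hnor : ∀ g ∈ U, ∀ v ∈ V, g⁻¹ * v * g ∈ V := by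
    intro g hg v hv
    by_cases hgV : g ∈ V
    · exact V.mul_mem (V.mul_mem (V.inv_mem hgV) hv) hgV
    · refine hmul _ (U.mul_mem (U.inv_mem hg) (hVU hv)) _ hg (fun h' => hgV ?_) hgV
      have := (Subgroup.mul_mem_cancel_right V hv).1 h'
      simpa using V.inv_mem this
  obtain ⟨t, ht0, ht1, ht2⟩ := GP.exists_kum (C := U) (Subgroup.isClosed_of_isOpen U hU)
    (fun g => if g ∈ V then 0 else 1) (by
      intro g hg h hh
      by_cases h1 : g ∈ V <;> by_cases h2 : h ∈ V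
      · simp only [h1, h2, V.mul_mem h1 h2, if_true, add_zero]
      · have h3 : g * h ∉ V := fun h' => h2 ((Subgroup.mul_mem_cancel_left V h1).1 h')
        simp only [h1, h2, h3, if_true, if_false, zero_add]
      · have h3 : g * h ∉ V := fun h' => h1 ((Subgroup.mul_mem_cancel_right V h2).1 h')
        simp only [h1, h2, h3, if_true, if_false, add_zero]
      · have h3 : g * h ∈ V := hmul g hg h hh h1 h2
        simp only [h1, h2, h3, if_true, if_false]
        decide) ⟨V, hV, fun g hg => if_pos hg.2⟩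
  have htV : ∀ g ∈ U, g t = t ↔ g ∈ V := by
    intro g hg
    rw [← ht2 g hg]
    by_cases h : g ∈ V
    · simp [h]
    · simp [h]
  have hst : s t = -t := (ht1 s hs).resolve_left fun h => hsV ((htV s hs).1 h)
  have hmemV : t ∈ Fx V := GP.mem_Fx.2 fun g hg => (htV g (hVU hg)).2 hg
  have hmemU : t ^ 2 ∈ Fx U := by
    rw [GP.mem_Fx]
    intro g hg
    rw [map_pow]
    rcases ht1 g hg with h | h <;> rw [h]
    rw [neg_sq]
  have ha0 : (⟨t ^ 2, hmemU⟩ : Fx U) ≠ 0 := fun h =>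
    (pow_ne_zero 2 ht0) (congrArg (fun z : Fx U => (z : AlgebraicClosure K)) h)
  have hact : ∀ g ∈ U, ∀ x ∈ Fx V, g x ∈ Fx V := by
    intro g hg x hxV
    rw [GP.mem_Fx]
    intro v hv
    have h1 := GP.mem_Fx.1 hxV _ (hnor g hg v hv)
    have h2 : v (g x) = g ((g⁻¹ * v * g) x) := by
      have e : v * g = g * (g⁻¹ * v * g) := by group
      calc v (g x) = (v * g) x := rfl
        _ = (g * (g⁻¹ * v * g)) x := by rw [e]
        _ = g ((g⁻¹ * v * g) x) := rfl
    rw [h2, h1]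
  have hs2 : ∀ x ∈ Fx V, s (s x) = x := by
    intro x hxV
    exact GP.mem_Fx.1 hxV (s * s) (hmul s hs s hs hsV hsV)
  have hinU : ∀ x ∈ Fx V, s x = x → x ∈ Fx U := by
    intro x hxV hsx
    rw [GP.mem_Fx]
    intro g hg
    by_cases hgV : g ∈ V
    · exact GP.mem_Fx.1 hxV g hgV
    · have h1 := GP.mem_Fx.1 hxV (g * s) (hx g hg hgV)
      calc g x = g (s x) := by rw [hsx]
        _ = x := h1
  refine ⟨Units.mk0 _ ha0, t, rfl, htV, ⟨⟨⟨t, hmemV⟩, Subtype.ext rfl, ?_, ?_, ?_, ?_⟩⟩⟩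
  · -- every element
    rintro ⟨x, hxV⟩
    have hb1 : (x + s x) / 2 ∈ Fx U := by
      refine hinU _ ?_ ?_
      · have h2 : (2 : AlgebraicClosure K) ∈ Fx V := by
          have : ((2 : Fx V) : AlgebraicClosure K) ∈ Fx V := (2 : Fx V).2
          exact this
        exact (Fx V).div_mem ((Fx V).add_mem hxV (hact s hs x hxV)) h2
      · rw [map_div₀, map_add, hs2 x hxV, map_ofNat, add_comm]
    have hc1 : (x - s x) / (2 * t) ∈ Fx U := by
      refine hinU _ ?_ ?_
      · have h2 : (2 : AlgebraicClosure K) ∈ Fx V := by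
          have : ((2 : Fx V) : AlgebraicClosure K) ∈ Fx V := (2 : Fx V).2
          exact this
        exact (Fx V).div_mem ((Fx V).sub_mem hxV (hact s hs x hxV)) ((Fx V).mul_mem h2 hmemV)
      · rw [map_div₀, map_sub, hs2 x hxV, map_mul, map_ofNat, hst]
        rw [mul_neg, div_neg, ← neg_div, neg_sub]
    refine ⟨⟨_, hb1⟩, ⟨_, hc1⟩, Subtype.ext ?_⟩
    show x = (x + s x) / 2 + (x - s x) / (2 * t) * t
    have h20 : (2 : AlgebraicClosure K) ≠ 0 := two_ne'
    field_simp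
    ring
  · exact
      { toFun := fun x => ⟨s x, hact s hs x x.2⟩
        invFun := fun x => ⟨s x, hact s hs x x.2⟩
        left_inv := fun x => Subtype.ext (hs2 x x.2)
        right_inv := fun x => Subtype.ext (hs2 x x.2)
        map_mul' := fun x y => Subtype.ext (map_mul s (x : AlgebraicClosure K) y)
        map_add' := fun x y => Subtype.ext (map_add s (x : AlgebraicClosure K) y)
        commutes' := fun x => Subtype.ext (GP.mem_Fx.1 x.2 s hs) }
  · exact Subtype.ext hst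
  · rintro ⟨y, hy⟩
    have h1 : (((y : Fx U) : AlgebraicClosure K)) ^ 2 = t ^ 2 := by
      have := congrArg (fun z : (Fx U)ˣ => ((z : Fx U) : AlgebraicClosure K)) hy
      exact this
    have hsy : s ((y : Fx U) : AlgebraicClosure K) = ((y : Fx U) : AlgebraicClosure K) :=
      GP.mem_Fx.1 (y : Fx U).2 s hs
    rcases sq_eq_sq_iff_eq_or_eq_neg.1 h1 with h2 | h2
    · rw [← h2] at hst
      rw [hsy] at hst
      exact neg_ne' (by rw [h2]; exact ht0) hst.symm
    · have h3 : t = -((y : Fx U) : AlgebraicClosure K) := by rw [h2, neg_neg]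
      rw [h3, map_neg, hsy, neg_neg] at hst
      have h4 : ((y : Fx U) : AlgebraicClosure K) ≠ 0 := by
        rw [h2]
        exact neg_ne_zero.2 ht0
      exact neg_ne' h4 hst

/-- the place below -/
noncomputable def plc (H : Subgroup (AbsGal K)) [NumberField (Fx H)]
    (Q : Ideal (𝓞 (AlgebraicClosure K))) (hQ : Q.IsPrime) (hb : Q ≠ ⊥) :
    HeightOneSpectrum (𝓞 (Fx H)) :=
  ⟨Q.comap (algebraMap (𝓞 (Fx H)) (𝓞 (AlgebraicClosure K))), Ideal.comap_isPrime _ _,
    fun h => hb (Ideal.eq_bot_of_comap_eq_bot h)⟩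

/-- The local degree doubles. -/
theorem ld_double {V U : Subgroup (AbsGal K)} (hVU : V ≤ U) (hV : IsOpen (V : Set (AbsGal K)))
    [NumberField (Fx U)] [NumberField (Fx V)] (hi : V.relIndex U = 2)
    {Q : Ideal (𝓞 (AlgebraicClosure K))} (hQ : Q.IsPrime) (hb : Q ≠ ⊥)
    (hex : ∃ g ∈ stabD Q, g ∈ U ∧ g ∉ V) : ld (plc V Q hQ hb) = 2 * ld (plc U Q hQ hb) := by
  have hU : IsOpen (U : Set (AbsGal K)) := Subgroup.isOpen_mono hVU hV
  have hle : Fx U ≤ Fx V := IntermediateField.fixedField_le hVU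
  let _ : Algebra (Fx U) (Fx V) := (IntermediateField.inclusion hle).toRingHom.toAlgebra
  obtain ⟨a, t, ht, htV, ⟨q⟩⟩ := qext_fx hVU hV hi hle
  have hbel : below (Fx U) (plc V Q hQ hb) = plc U Q hQ hb := by
    apply HeightOneSpectrum.ext
    rfl
  have hns : a ∉ LS (below (Fx U) (plc V Q hQ hb)) := by
    rw [hbel]
    intro h
    obtain ⟨g, hg, hgU, hgV⟩ := hex
    have h1 := (fixed_iff hU hQ hb (w := plc U Q hQ hb) rfl ht).2 h g hg hgU
    exact hgV ((htV g hgU).1 h1)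
  have key := loc_deg q hns
  rw [hbel, ← two_pow_ld, ← two_pow_ld, ← pow_mul] at key
  have := Nat.pow_right_injective le_rfl key
  omega

private theorem open_core {D : Subgroup (AbsGal K)} {C : Subgroup D} (hC : Opn (subSys D) C)
    {H₀ : Subgroup (AbsGal K)} (hH₀ : IsOpen (H₀ : Set (AbsGal K))) :
    ∃ N : Subgroup (AbsGal K), IsOpen (N : Set (AbsGal K)) ∧ N.Normal ∧ N ≤ H₀ ∧
      N.subgroupOf D ≤ C := by
  obtain ⟨W, ⟨⟨U, hU, hUW⟩, -⟩, hle⟩ := hC
  have hU' : IsOpen ((U ⊓ H₀ : Subgroup (AbsGal K)) : Set (AbsGal K)) := hU.inter hH₀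
  have hq := Subgroup.quotient_finite_of_isOpen (U ⊓ H₀) hU'
  have hfi : (U ⊓ H₀).FiniteIndex := Subgroup.finiteIndex_of_finite_quotient
  have hfi2 : (U ⊓ H₀).normalCore.FiniteIndex := Subgroup.finiteIndex_normalCore _
  have hcl : IsClosed ((U ⊓ H₀).normalCore : Set (AbsGal K)) :=
    Subgroup.normalCore_isClosed (U ⊓ H₀) (Subgroup.isClosed_of_isOpen _ hU')
  refine ⟨(U ⊓ H₀).normalCore, Subgroup.isOpen_of_isClosed_of_finiteIndex _ hcl,
    Subgroup.normalCore_normal _, (Subgroup.normalCore_le _).trans inf_le_right,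
    fun d hd => hle (hUW ?_)⟩
  exact Subgroup.mem_subgroupOf.2 (Subgroup.normalCore_le _ (Subgroup.mem_subgroupOf.1 hd)).1

/-- the open subgroup of `AbsGal K` that belongs to `C` -/
private noncomputable def HH {D : Subgroup (AbsGal K)} (N : Subgroup (AbsGal K)) (C : Subgroup D) :
    Subgroup (AbsGal K) := C.map D.subtype ⊔ N

private theorem mem_HH {D : Subgroup (AbsGal K)} {N : Subgroup (AbsGal K)} (hN : N.Normal)
    {C : Subgroup D} {g : AbsGal K} : g ∈ HH N C ↔ ∃ c ∈ C, ∃ n ∈ N, (c : AbsGal K) * n = g := by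
  unfold HH
  rw [Subgroup.mem_sup_of_normal_right]
  constructor
  · rintro ⟨y, ⟨c, hc, rfl⟩, n, hn, rfl⟩
    exact ⟨c, hc, n, hn, rfl⟩
  · rintro ⟨c, hc, n, hn, rfl⟩
    exact ⟨c, ⟨c, hc, rfl⟩, n, hn, rfl⟩

private theorem HH_sub {D : Subgroup (AbsGal K)} {N : Subgroup (AbsGal K)} (hN : N.Normal)
    {C : Subgroup D} (hNC : N.subgroupOf D ≤ C) : (HH N C).subgroupOf D = C := by
  ext d
  rw [Subgroup.mem_subgroupOf, mem_HH hN]
  constructor
  · rintro ⟨c, hc, n, hn, h⟩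
    have h1 : n = ((c⁻¹ * d : D) : AbsGal K) := by
      rw [Subgroup.coe_mul, Subgroup.coe_inv, ← h]
      group
    have h2 : c⁻¹ * d ∈ C := hNC (Subgroup.mem_subgroupOf.2 (h1 ▸ hn))
    exact (Subgroup.mul_mem_cancel_left C (C.inv_mem hc)).1 h2
  · intro h
    exact ⟨d, h, 1, N.one_mem, mul_one _⟩

private theorem HH_open {D : Subgroup (AbsGal K)} {N : Subgroup (AbsGal K)}
    (hNo : IsOpen (N : Set (AbsGal K))) (C : Subgroup D) : IsOpen (HH N C : Set (AbsGal K)) :=
  Subgroup.isOpen_mono le_sup_right hNo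

private theorem HH_index {D : Subgroup (AbsGal K)} {N : Subgroup (AbsGal K)} (hN : N.Normal)
    {V U : Subgroup D} (hNV : N.subgroupOf D ≤ V) (hi : V.relIndex U = 2) :
    (HH N V).relIndex (HH N U) = 2 ∧ ∃ g ∈ D, g ∈ HH N U ∧ g ∉ HH N V := by
  obtain ⟨s, hs, hx⟩ := Subgroup.relIndex_eq_two_iff.1 hi
  have hmemV : ∀ d : D, (d : AbsGal K) ∈ HH N V ↔ d ∈ V := by
    intro d
    rw [← Subgroup.mem_subgroupOf, HH_sub hN hNV]
  have hNle : ∀ n ∈ N, n ∈ HH N V := fun n hn => Subgroup.mem_sup_right hn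
  constructor
  · rw [Subgroup.relIndex_eq_two_iff]
    refine ⟨s, ?_, fun b hb => ?_⟩
    · rw [mem_HH hN]
      exact ⟨s, hs, 1, N.one_mem, mul_one _⟩
    · obtain ⟨c, hc, n, hn, rfl⟩ := (mem_HH hN).1 hb
      have h1 : (c : AbsGal K) * n ∈ HH N V ↔ c ∈ V := by
        rw [Subgroup.mul_mem_cancel_right _ (hNle n hn), hmemV]
      have h2 : (c : AbsGal K) * n * s ∈ HH N V ↔ c * s ∈ V := by
        have e : (c : AbsGal K) * n * s = ((c * s : D) : AbsGal K) * ((s : AbsGal K)⁻¹ * n * s) := by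
          rw [Subgroup.coe_mul]
          group
        have h3 : (s : AbsGal K)⁻¹ * n * s ∈ N := by
          have := hN.conj_mem n hn (s : AbsGal K)⁻¹
          rwa [inv_inv] at this
        rw [e, Subgroup.mul_mem_cancel_right _ (hNle _ h3), hmemV]
      rw [h1, h2]
      exact hx c hc
  · have h1 := hx 1 U.one_mem
    rw [one_mul] at h1
    have hsV : s ∉ V := by
      intro h2
      rcases h1 with ⟨_, h3⟩ | ⟨_, h3⟩
      · exact h3 V.one_mem
      · exact h3 h2
    refine ⟨s, s.2, ?_, ?_⟩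
    · rw [mem_HH hN]
      exact ⟨s, hs, 1, N.one_mem, mul_one _⟩
    · rw [hmemV]
      exact hsV

section main

variable {Q : Ideal (𝓞 (AlgebraicClosure K))} {H₀ D : Subgroup (AbsGal K)}

private theorem loc_fin (hQ : Q.IsPrime) (hb : Q ≠ ⊥)
    (hD : ∀ g, g ∈ D ↔ g ∈ stabD Q ∧ g ∈ H₀)
    {C : Subgroup D} (hC : Opn (subSys D) C) {N : Subgroup (AbsGal K)}
    (hNo : IsOpen (N : Set (AbsGal K))) (hN : N.Normal) (hN₀ : N ≤ H₀) (hNC : N.subgroupOf D ≤ C)
    [NumberField (Fx (HH N C))] :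
    FiniteDimensional (ZMod 2) (homs (subSys D) C) ∧
      Module.finrank (ZMod 2) (homs (subSys D) C) = ld (plc (HH N C) Q hQ hb) + 2 := by
  have e := HH_sub hN hNC
  have h := finrank_loc (H := HH N C) (HH_open hNo C) hQ hb (w := plc (HH N C) Q hQ hb) rfl
    (D := D) (fun g hg => ((hD g).1 hg).1) (fun g hg hgH => (hD g).2 ⟨hg, by
      obtain ⟨c, -, n, hn, rfl⟩ := (mem_HH hN).1 hgH
      exact H₀.mul_mem ((hD c).1 c.2).2 (hN₀ hn)⟩)
    (by rw [e]; exact hC)
  rw [e] at h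
  exact h

private theorem step (hQ : Q.IsPrime) (hb : Q ≠ ⊥) (hH₀ : IsOpen (H₀ : Set (AbsGal K)))
    (hD : ∀ g, g ∈ D ↔ g ∈ stabD Q ∧ g ∈ H₀)
    {V U : Subgroup D} (hV : Opn (subSys D) V) (hVU : V ≤ U)
    (hi : V.relIndex U = 2) : ∃ m : ℕ,
      Module.finrank (ZMod 2) (homs (subSys D) U) = m + 2 ∧
      Module.finrank (ZMod 2) (homs (subSys D) V) = 2 * m + 2 := by
  obtain ⟨N, hNo, hN, hN₀, hNV⟩ := open_core hV hH₀
  have hU : Opn (subSys D) U := by
    obtain ⟨W, hW, hle⟩ := hV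
    exact ⟨W, hW, hle.trans hVU⟩
  have nU : NumberField (Fx (HH N U)) := fx_numberField (HH_open hNo U)
  have nV : NumberField (Fx (HH N V)) := fx_numberField (HH_open hNo V)
  obtain ⟨hidx, g, hgD, hgU, hgV⟩ := HH_index hN hNV hi
  have hle : HH N V ≤ HH N U := sup_le_sup_right (Subgroup.map_mono hVU) N
  have hd := ld_double hle (HH_open hNo V) hidx hQ hb ⟨g, ((hD g).1 hgD).1, hgU, hgV⟩
  refine ⟨ld (plc (HH N U) Q hQ hb), (loc_fin hQ hb hD hU hNo hN hN₀ (hNV.trans hVU)).2, ?_⟩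
  rw [(loc_fin hQ hb hD hV hNo hN hN₀ hNV).2, hd]

/-- The count for all open subgroups of `D = stabD Q ⊓ H₀`, `H₀` open. -/
theorem countsD (hQ : Q.IsPrime) (hb : Q ≠ ⊥) (hH₀ : IsOpen (H₀ : Set (AbsGal K)))
    [NumberField (Fx H₀)] (hD : ∀ g, g ∈ D ↔ g ∈ stabD Q ∧ g ∈ H₀) :
    CountsD (subSys D) (ld (plc H₀ Q hQ hb)) := by
  have hfin : ∀ C : Subgroup D, Opn (subSys D) C →
      FiniteDimensional (ZMod 2) (homs (subSys D) C) := by
    intro C hC
    obtain ⟨N, hNo, hN, hN₀, hNC⟩ := open_core hC hH₀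
    have nC : NumberField (Fx (HH N C)) := fx_numberField (HH_open hNo C)
    exact (loc_fin hQ hb hD hC hNo hN hN₀ hNC).1
  have htop : Opn (subSys D) (⊤ : Subgroup D) := by
    obtain ⟨W, hW⟩ := (subSys D).ex
    exact ⟨W, hW, le_top⟩
  set d := ld (plc H₀ Q hQ hb) with hd
  have hdtop : Module.finrank (ZMod 2) (homs (subSys D) ⊤) = d + 2 := by
    have e : H₀.subgroupOf D = ⊤ := by
      rw [Subgroup.subgroupOf_eq_top]
      exact fun g hg => ((hD g).1 hg).2
    have h := finrank_loc (H := H₀) hH₀ hQ hb (w := plc H₀ Q hQ hb) rfl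
      (D := D) (fun g hg => ((hD g).1 hg).1) (fun g hg hgH => (hD g).2 ⟨hg, hgH⟩)
      (by rw [e]; exact htop)
    rw [e] at h
    exact h.2
  refine fun C hC => ⟨hfin C hC, ?_⟩
  obtain ⟨W, hW, hWC⟩ := id hC
  -- from `W` upwards
  have key : ∀ n : ℕ, ∀ U : Subgroup D, W ≤ U → W.relIndex U = n →
      ∃ m : ℕ, Module.finrank (ZMod 2) (homs (subSys D) U) = m + 2 ∧
        Module.finrank (ZMod 2) (homs (subSys D) W) = m * W.relIndex U + 2 := by
    intro n
    induction n using Nat.strong_induction_on with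
    | _ n ih =>
      intro U hWU hn
      by_cases hne : W = U
      · subst hne
        obtain ⟨N', hNo', hN', hN₀', hNW'⟩ := open_core (C := W) ⟨W, hW, le_rfl⟩ hH₀
        have nW : NumberField (Fx (HH N' W)) := fx_numberField (HH_open hNo' W)
        refine ⟨_, (loc_fin hQ hb hD ⟨W, hW, le_rfl⟩ hNo' hN' hN₀' hNW').2, ?_⟩
        rw [Subgroup.relIndex_self, mul_one]
        exact (loc_fin hQ hb hD ⟨W, hW, le_rfl⟩ hNo' hN' hN₀' hNW').2
      · obtain ⟨V, hWV, hVU, hi, hlt⟩ := PA.exists_between hW hWU hne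
        obtain ⟨m, hm1, hm2⟩ := step hQ hb hH₀ hD ⟨W, hW, hWV⟩ hVU hi
        obtain ⟨m', hm'1, hm'2⟩ := ih _ (hn ▸ hlt) V hWV rfl
        have hmm : m' = 2 * m := by omega
        refine ⟨m, hm1, ?_⟩
        rw [hm'2, hmm, ← Subgroup.relIndex_mul_relIndex W V U hWV hVU, hi]
        ring
  obtain ⟨m, hm1, hm2⟩ := key _ C hWC rfl
  obtain ⟨m', hm'1, hm'2⟩ := key _ ⊤ le_top rfl
  have hmd : m' = d := by omega
  have hWi : W.relIndex ⊤ = W.relIndex C * C.index := by
    rw [Subgroup.relIndex_top_right, Subgroup.relIndex_mul_index hWC]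
  have hWpos : 0 < W.relIndex C := by
    refine Nat.pos_of_ne_zero fun h0 => ?_
    obtain ⟨k, hk⟩ := (subSys D).index hW
    rw [← Subgroup.relIndex_mul_index hWC, h0, zero_mul] at hk
    exact pow_ne_zero k two_ne_zero hk.symm
  rw [hm'2, hmd, hWi] at hm2
  have h3 : d * (W.relIndex C * C.index) = m * W.relIndex C := by omega
  have h4 : d * C.index = m := by
    have h5 : (d * C.index) * W.relIndex C = m * W.relIndex C := by
      rw [← h3]
      ring
    exact Nat.eq_of_mul_eq_mul_right hWpos h5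
  rw [hm1, h4]

/-- `D = stabD Q ⊓ H₀` is a group of local type. -/
theorem localType_D (hQ : Q.IsPrime) (hb : Q ≠ ⊥) (hH₀ : IsOpen (H₀ : Set (AbsGal K)))
    (hD : ∀ g, g ∈ D ↔ g ∈ stabD Q ∧ g ∈ H₀) : PA.LocalType (subSys D) := by
  have := fx_numberField hH₀
  exact localTypeD (countsD hQ hb hH₀ hD)

end main

end Pool.Agent.Work.MP_787500_nt.GA
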