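import Mathlib
import Pool.Agent.Work.MP_787500_nt.GA.CountsD
import Pool.Agent.Work.MP_787500_nt.HP.Iso
import Pool.Agent.Work.MP_787500_nt.HP.EmbGood

/-!
# Decomposition groups inside the automorphisms of `Ω`

`Ω` is an algebraic closure of a number field `F`. Every relatively open subgroup `C` of a decomposition group
`stb Q` (`Q ≠ ⊥`) that fixes `F` is of local type for `HP.fsys C` (`localType_Om`), with the counts `countsOm`.
-/

set_option autoImplicit false
set_option linter.unusedSectionVars false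

namespace Pool.Agent.Work.MP_787500_nt.GA

open IsDedekindDomain NumberField WithZero
open Pool.Agent.Work.MP_787500_nt.PA (TwoSys Sm1 Sm2 homs Coc Cob Opn LocalType)
open Pool.Agent.Work.MP_787500_nt.GP (sysT stabD Fx GoodT inT subSys)
open Pool.Agent.Work.MP_787500_nt.HN
open Pool.Agent.Work.MP_787500_nt.HP

universe u

section generic

variable {G D : Type*} [Group G] [Group D] {S : TwoSys G} {SD : TwoSys D} (e : D ≃* G)
  (h : ∀ W : Subgroup G, SD.mem (W.comap (e : D →* G)) ↔ S.mem W)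

include h

theorem iso_symm (W : Subgroup D) : S.mem (W.comap (e.symm : G →* D)) ↔ SD.mem W := by
  rw [← h]
  have : (W.comap (e.symm : G →* D)).comap (e : D →* G) = W := by
    ext x
    simp [Subgroup.mem_comap]
  rw [this]

theorem homs_mem_iso {U : Subgroup G} {ψ : G → ZMod 2} (H : ψ ∈ homs S U) :
    (fun d => ψ (e d)) ∈ homs SD (U.comap (e : D →* G)) := by
  obtain ⟨h1, h2, h3⟩ := H
  refine ⟨sm1_iso e h h1, fun g hg => h2 _ hg, fun g hg k hk => ?_⟩
  show ψ (e (g * k)) = ψ (e g) + ψ (e k)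
  rw [map_mul]
  exact h3 _ hg _ hk

theorem coc_iso {U : Subgroup G} {f : G → G → ZMod 2} (H : Coc S U f) :
    Coc SD (U.comap (e : D →* G)) (fun a b => f (e a) (e b)) := by
  refine ⟨sm2_iso e h H.1, fun a ha b hb c hc => ?_⟩
  show f (e a) (e b) + f (e (a * b)) (e c) = f (e b) (e c) + f (e a) (e (b * c))
  rw [map_mul, map_mul]
  exact H.2 _ ha _ hb _ hc

theorem cob_iso {U : Subgroup G} {f : G → G → ZMod 2} (H : Cob S U f) :
    Cob SD (U.comap (e : D →* G)) (fun a b => f (e a) (e b)) := by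
  obtain ⟨z, hz, h1⟩ := H
  refine ⟨fun d => z (e d), sm1_iso e h hz, fun a ha b hb => ?_⟩
  show f (e a) (e b) = z (e a) + z (e b) + z (e (a * b))
  rw [map_mul]
  exact h1 _ ha _ hb

theorem iso_back {A : Type*} (f : D → D → A) :
    (fun a b => (fun a b => f (e.symm a) (e.symm b)) (e a) (e b)) = f := by
  funext a b
  simp

/-- the homomorphisms of corresponding subgroups -/
noncomputable def homsIso (U : Subgroup G) : homs SD (U.comap (e : D →* G)) ≃ₗ[ZMod 2] homs S U where
  toFun ψ := ⟨fun g => ψ.1 (e.symm g), by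
    have h1 := homs_mem_iso e.symm (iso_symm e h) ψ.2
    have h2 : (U.comap (e : D →* G)).comap (e.symm : G →* D) = U := by
      ext x
      simp [Subgroup.mem_comap]
    rw [h2] at h1
    exact h1⟩
  invFun φ := ⟨fun d => φ.1 (e d), homs_mem_iso e h φ.2⟩
  map_add' a b := rfl
  map_smul' c a := rfl
  left_inv ψ := by
    apply Subtype.ext
    funext d
    show ψ.1 (e.symm (e d)) = ψ.1 d
    rw [MulEquiv.symm_apply_apply]
  right_inv φ := by
    apply Subtype.ext
    funext d
    show φ.1 (e (e.symm d)) = φ.1 d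
    rw [MulEquiv.apply_symm_apply]

theorem localType_iso (H : LocalType S) : LocalType SD where
  nondeg χ hχ h0 := by
    have h1 := homs_mem_iso e.symm (iso_symm e h) (U := ⊤) hχ
    obtain ⟨ω, hω, hn⟩ := H.nondeg _ h1 fun hz => h0 (by
      funext d
      have := congrFun hz (e d)
      simpa using this)
    refine ⟨fun d => ω (e d), homs_mem_iso e h hω, fun hc => hn ?_⟩
    have h2 := cob_iso e.symm (iso_symm e h) (U := ⊤) hc
    have h3 : (fun a b => PA.cup χ (fun d => ω (e d)) (e.symm a) (e.symm b)) =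
        PA.cup (fun d => χ (e.symm d)) ω := by
      funext a b
      simp [PA.cup]
    rw [h3] at h2
    exact h2
  one f f' hf hf' hn hn' := by
    have h1 := coc_iso e.symm (iso_symm e h) (U := ⊤) hf
    have h1' := coc_iso e.symm (iso_symm e h) (U := ⊤) hf'
    have h2 := H.one _ _ h1 h1' (fun hc => hn (by
      have := cob_iso e h hc
      rw [iso_back e h f] at this
      exact this)) (fun hc => hn' (by
      have := cob_iso e h hc
      rw [iso_back e h f'] at this
      exact this))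
    have h3 := cob_iso e h h2
    have h4 : (fun a b => (fun g k => f (e.symm g) (e.symm k) + f' (e.symm g) (e.symm k)) (e a) (e b)) =
        fun g k => f g k + f' g k := by
      funext a b
      simp
    rw [h4] at h3
    exact h3

theorem countsD_iso {d : ℕ} (H : CountsD S d) : CountsD SD d := by
  intro U hU
  have hU' : Opn S (U.comap (e.symm : G →* D)) := by
    obtain ⟨W, hW, hle⟩ := hU
    exact ⟨_, (iso_symm e h W).2 hW, Subgroup.comap_mono hle⟩
  have e1 : (U.comap (e.symm : G →* D)).comap (e : D →* G) = U := by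
    ext x
    simp [Subgroup.mem_comap]
  obtain ⟨h1, h2⟩ := H _ hU'
  have l := homsIso e h (U.comap (e.symm : G →* D))
  rw [e1] at l
  refine ⟨l.symm.finiteDimensional, ?_⟩
  rw [l.finrank_eq, h2, Subgroup.index_comap_of_surjective _ e.symm.surjective]

end generic

section arith

variable {Ω : Type*} [Field Ω] {F : Type u} [Field F] [NumberField F] (α : AlgebraicClosure F ≃+* Ω)

theorem pb_ne_bot {Q : Ideal (𝓞 Ω)} (hb : Q ≠ ⊥) : pb α Q ≠ ⊥ := by
  intro h
  apply hb
  rw [eq_bot_iff]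
  intro x hx
  obtain ⟨y, rfl⟩ := (RingOfIntegers.mapRingEquiv α).surjective x
  have h1 : y ∈ pb α Q := hx
  rw [h, Ideal.mem_bot] at h1
  rw [h1, map_zero]
  exact zero_mem _

/-- the preimage of a subgroup of the image of `emb α` -/
noncomputable def cmEquiv {C : Subgroup (Ω ≃+* Ω)} (hC : C ≤ (emb α).range) : C ≃* C.comap (emb α) :=
  (MulEquiv.ofBijective (((emb α).comp (C.comap (emb α)).subtype).codRestrict C fun x => x.2) (by
    constructor
    · intro x y hxy
      have h1 := congrArg Subtype.val hxy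
      exact Subtype.ext (emb_inj α h1)
    · rintro ⟨g, hg⟩
      obtain ⟨σ, hσ⟩ := hC hg
      exact ⟨⟨σ, by rw [Subgroup.mem_comap, hσ]; exact hg⟩, Subtype.ext hσ⟩)).symm

theorem emb_cmEquiv {C : Subgroup (Ω ≃+* Ω)} (hC : C ≤ (emb α).range) (g : C) :
    emb α (cmEquiv α hC g : AbsGal F) = (g : Ω ≃+* Ω) := by
  obtain ⟨x, rfl⟩ := (cmEquiv α hC).symm.surjective g
  rw [MulEquiv.apply_symm_apply]
  rfl

theorem fsys_comap {C : Subgroup (Ω ≃+* Ω)} (hC : C ≤ (emb α).range) (W : Subgroup (C.comap (emb α))) :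
    (fsys C).mem (W.comap (cmEquiv α hC : C →* C.comap (emb α))) ↔ (subSys (C.comap (emb α))).mem W :=
  fsys_iso α (cmEquiv α hC) (emb_cmEquiv α hC) W

theorem open_of_fix' {W : Subgroup (AbsGal F)} (s : Finset Ω)
    (h : ∀ σ : AbsGal F, (∀ x ∈ s, σ (α.symm x) = α.symm x) → σ ∈ W) :
    IsOpen (W : Set (AbsGal F)) := by
  let S : Set (AlgebraicClosure F) := α.symm '' (s : Set Ω)
  have hSf : Finite S := (s.finite_toSet.image _).to_subtype
  have hfd : FiniteDimensional F (IntermediateField.adjoin F S) :=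
    IntermediateField.finiteDimensional_adjoin fun x _ => Algebra.IsIntegral.isIntegral x
  refine Subgroup.isOpen_mono (H₁ := (IntermediateField.adjoin F S).fixingSubgroup) ?_
    (IntermediateField.fixingSubgroup_isOpen _)
  intro σ hσ
  exact h σ fun x hx => (IntermediateField.mem_fixingSubgroup_iff _ _).1 hσ _
    (IntermediateField.subset_adjoin _ _ ⟨x, hx, rfl⟩)

theorem open_comap {W : Subgroup (Ω ≃+* Ω)} (hW : OpnQ W) :
    IsOpen (W.comap (emb α) : Set (AbsGal F)) := by
  obtain ⟨s, hs⟩ := hW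
  refine open_of_fix' α s fun σ hσ => ?_
  rw [Subgroup.mem_comap]
  refine hs _ fun x hx => ?_
  rw [emb_apply, hσ x hx, RingEquiv.apply_symm_apply]

/-- a relatively open subgroup of a decomposition group is cut out by an open subgroup -/
theorem exists_cut {Q : Ideal (𝓞 Ω)} {C : Subgroup (Ω ≃+* Ω)} (hC : C ≤ stb Q)
    (hop : ∃ W : Subgroup (Ω ≃+* Ω), OpnQ W ∧ stb Q ⊓ (emb α).range ⊓ W ≤ C) :
    ∃ H₀ : Subgroup (AbsGal F), IsOpen (H₀ : Set (AbsGal F)) ∧
      ∀ g, g ∈ C.comap (emb α) ↔ g ∈ stabD (pb α Q) ∧ g ∈ H₀ := by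
  obtain ⟨W, hWo', hW⟩ := hop
  have hWo : IsOpen (W.comap (emb α) : Set (AbsGal F)) := open_comap α hWo'
  set U := W.comap (emb α) with hU
  have hq := Subgroup.quotient_finite_of_isOpen U hWo
  have hfi : U.FiniteIndex := Subgroup.finiteIndex_of_finite_quotient
  have hfi2 : U.normalCore.FiniteIndex := Subgroup.finiteIndex_normalCore _
  have hcl : IsClosed (U.normalCore : Set (AbsGal F)) :=
    Subgroup.normalCore_isClosed U (Subgroup.isClosed_of_isOpen _ hWo)
  have hN : IsOpen (U.normalCore : Set (AbsGal F)) := Subgroup.isOpen_of_isClosed_of_finiteIndex _ hcl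
  refine ⟨C.comap (emb α) ⊔ U.normalCore, Subgroup.isOpen_mono le_sup_right hN, fun g => ?_⟩
  constructor
  · intro hg
    exact ⟨(emb_stb α).1 (hC hg), (le_sup_left : C.comap (emb α) ≤ _) hg⟩
  · rintro ⟨hg1, hg2⟩
    rw [Subgroup.mem_sup_of_normal_right] at hg2
    obtain ⟨y, hy, n, hn, rfl⟩ := hg2
    refine (C.comap (emb α)).mul_mem hy ?_
    have hy' : y ∈ stabD (pb α Q) := (emb_stb α).1 (hC hy)
    have hn' : n ∈ stabD (pb α Q) := ((stabD (pb α Q)).mul_mem_cancel_left hy').1 hg1
    exact hW ⟨⟨(emb_stb α).2 hn', n, rfl⟩, (Subgroup.normalCore_le U hn : n ∈ U)⟩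

/-- A relatively open subgroup of a decomposition group is of local type. -/
theorem localType_Om {Q : Ideal (𝓞 Ω)} (hQ : Q.IsPrime) (hb : Q ≠ ⊥) {C : Subgroup (Ω ≃+* Ω)}
    (hC : C ≤ stb Q) (hC' : C ≤ (emb α).range)
    (hop : ∃ W : Subgroup (Ω ≃+* Ω), OpnQ W ∧ stb Q ⊓ (emb α).range ⊓ W ≤ C) :
    LocalType (fsys C) := by
  obtain ⟨H₀, hH₀, hD⟩ := exists_cut α hC hop
  exact localType_iso (cmEquiv α hC') (fsys_comap α hC')
    (localType_D (pb_prime α hQ) (pb_ne_bot α hb) hH₀ hD)

/-- every automorphism fixes the rational numbers -/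
theorem range_rat (α : AlgebraicClosure ℚ ≃+* Ω) : (emb α).range = ⊤ := by
  rw [eq_top_iff]
  intro g _
  rw [MonoidHom.mem_range, emb_iff]
  intro x
  rw [eq_ratCast, map_ratCast, map_ratCast]

/-- A relatively open subgroup of a decomposition group over the rational numbers is of local type. -/
theorem localType_rat (α : AlgebraicClosure ℚ ≃+* Ω) {Q : Ideal (𝓞 Ω)} (hQ : Q.IsPrime) (hb : Q ≠ ⊥)
    {C : Subgroup (Ω ≃+* Ω)} (hC : C ≤ stb Q)
    (hop : ∃ W : Subgroup (Ω ≃+* Ω), OpnQ W ∧ stb Q ⊓ W ≤ C) : LocalType (fsys C) := by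
  refine localType_Om α hQ hb hC ?_ ?_
  · rw [range_rat]
    exact le_top
  · obtain ⟨W, hW, hle⟩ := hop
    exact ⟨W, hW, le_trans (by rw [range_rat, inf_top_eq]) hle⟩

end arith

end Pool.Agent.Work.MP_787500_nt.GA
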