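import Mathlib
import Pool.Agent.Work.MP_787500_nt.GA.OmLoc
import Pool.Agent.Work.MP_787500_nt.GA.FieldC
import Pool.Agent.Work.MP_787500_nt.GA.Kum
import Pool.Agent.Work.MP_787500_nt.KR.Sys

/-!
# Open subgroups of a Galois group: the dictionary

`G` is embedded by `e₀` in the group of automorphisms of `Ω`; `F₀` is its system of all open normal subgroups that
contain the inertia groups outside `T` (`Emd`; `emdK`, `emdQ` for the two groups of interest). `C ≤ G` is an open subgroup that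
contains a member of `F₀`, and `F` is a number field whose absolute Galois group is `C` (`range (emb α) = C.map e₀`).
The system `two (res F₀ C)` is the system `sysT F T` (`sys_iff`).
-/

set_option autoImplicit false
set_option linter.unusedSectionVars false

namespace Pool.Agent.Work.MP_787500_nt.GA

open IsDedekindDomain NumberField WithZero
open Pool.Agent.Work.MP_787500_nt.PA (TwoSys Sm1 Sm2 homs Coc Cob Opn LocalType)
open Pool.Agent.Work.MP_787500_nt.GP (sysT stabD Fx GoodT inT subSys)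
open Pool.Agent.Work.MP_787500_nt.HN
open Pool.Agent.Work.MP_787500_nt.HP
open Pool.Agent.Work.MP_787500_nt.KR (FSys two res fullK fullQ)

universe u

/-! ## Conjugate primes -/

section conj

variable {Ω : Type*} [Field Ω]

/-- the prime `a Q` -/
noncomputable def cj (a : Ω ≃+* Ω) (Q : Ideal (𝓞 Ω)) : Ideal (𝓞 Ω) :=
  Q.comap (og a⁻¹ : 𝓞 Ω →+* 𝓞 Ω)

theorem mem_cj {a : Ω ≃+* Ω} {Q : Ideal (𝓞 Ω)} {x : 𝓞 Ω} : x ∈ cj a Q ↔ og a⁻¹ x ∈ Q := Iff.rfl

theorem cj_prime {a : Ω ≃+* Ω} {Q : Ideal (𝓞 Ω)} (hQ : Q.IsPrime) : (cj a Q).IsPrime := by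
  have := hQ
  exact Ideal.comap_isPrime _ _

theorem cj_one (Q : Ideal (𝓞 Ω)) : cj 1 Q = Q := by
  ext x
  rw [mem_cj, inv_one, og_one]

theorem cj_mul (a b : Ω ≃+* Ω) (Q : Ideal (𝓞 Ω)) : cj (a * b) Q = cj a (cj b Q) := by
  ext x
  rw [mem_cj, mem_cj, mem_cj, mul_inv_rev, og_mul]

theorem nat_mem_cj {a : Ω ≃+* Ω} {Q : Ideal (𝓞 Ω)} (n : ℕ) :
    (n : 𝓞 Ω) ∈ cj a Q ↔ (n : 𝓞 Ω) ∈ Q := by
  rw [mem_cj, map_natCast]

theorem two_mem_cj {a : Ω ≃+* Ω} {Q : Ideal (𝓞 Ω)} :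
    (2 : 𝓞 Ω) ∈ cj a Q ↔ (2 : 𝓞 Ω) ∈ Q := by
  have := nat_mem_cj (a := a) (Q := Q) 2
  rwa [Nat.cast_ofNat] at this

theorem stb_cj {a g : Ω ≃+* Ω} {Q : Ideal (𝓞 Ω)} : g ∈ stb (cj a Q) ↔ a⁻¹ * g * a ∈ stb Q := by
  rw [mem_stb, mem_stb]
  constructor
  · intro h x
    have h1 := h (og a x)
    rw [mem_cj, mem_cj, ← og_mul, ← og_mul, ← og_mul, inv_mul_cancel, og_one] at h1
    rw [mul_assoc]
    exact h1
  · intro h x
    have h1 := h (og a⁻¹ x)
    rw [← og_mul] at h1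
    rw [mem_cj, mem_cj, h1, ← og_mul]
    have : a⁻¹ * g * a * a⁻¹ = a⁻¹ * g := by group
    rw [this]

theorem inr_cj {a g : Ω ≃+* Ω} {Q : Ideal (𝓞 Ω)} : g ∈ inr (cj a Q) ↔ a⁻¹ * g * a ∈ inr Q := by
  rw [mem_inr, mem_inr]
  constructor
  · intro h x
    have h1 := h (og a x)
    rw [mem_cj, map_sub, ← og_mul, ← og_mul, ← og_mul, inv_mul_cancel, og_one] at h1
    rw [mul_assoc]
    exact h1
  · intro h x
    have h1 := h (og a⁻¹ x)
    rw [mem_cj, map_sub, ← og_mul]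
    have : a⁻¹ * g * a * a⁻¹ = a⁻¹ * g := by group
    rwa [← og_mul, this] at h1

theorem cj_eq_iff {a : Ω ≃+* Ω} {Q : Ideal (𝓞 Ω)} : cj a Q = Q ↔ a ∈ stb Q := by
  constructor
  · intro h
    rw [mem_stb]
    intro x
    constructor
    · intro hx
      rw [← h, mem_cj, og_inv']
      exact hx
    · intro hx
      rw [← h, mem_cj, og_inv'] at hx
      exact hx
  · intro h
    ext x
    rw [mem_cj, (mem_stb.1 h) (og a⁻¹ x), og_inv]

end conj

/-! ## The two groups -/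

/-- `G` inside the group of automorphisms of `Ω`, and the system of all open normal subgroups that contain the
inertia groups at the primes that contain neither 2 nor an element of `T` -/
structure Emd {G : Type*} [Group G] {Ω : Type*} [Field Ω] (e₀ : G →* (Ω ≃+* Ω)) (F₀ : FSys G)
    (T : Finset ℕ) : Prop where
  inj : Function.Injective e₀
  sys : ∀ W : Subgroup G, F₀.mem W ↔ W.Normal ∧ W.index ≠ 0 ∧
    (∃ s : Finset Ω, ∀ g, (∀ x ∈ s, e₀ g x = x) → g ∈ W) ∧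
    ∀ Q : Ideal (𝓞 Ω), Q.IsPrime → (2 : 𝓞 Ω) ∉ Q → (∀ l ∈ T, (l : 𝓞 Ω) ∉ Q) →
      ∀ g, e₀ g ∈ inr Q → g ∈ W

/-- an open subgroup contains all automorphisms that fix a certain finite set -/
theorem exists_fin {Ω : Type*} [Field Ω] {F : Type*} [Field F] (α : AlgebraicClosure F ≃+* Ω)
    {U : Subgroup (AbsGal F)} (hU : IsOpen (U : Set (AbsGal F))) :
    ∃ s : Finset Ω, ∀ σ, (∀ x ∈ s, emb α σ x = x) → σ ∈ U := by
  classical
  obtain ⟨E, hE, hEU⟩ := (krullTopology_mem_nhds_one_iff F (AlgebraicClosure F) U).1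
    (hU.mem_nhds U.one_mem)
  let b := Module.finBasis F E
  refine ⟨Finset.univ.image fun i => α (b i : AlgebraicClosure F), fun g hg => ?_⟩
  apply hEU
  rw [SetLike.mem_coe, IntermediateField.mem_fixingSubgroup_iff]
  have hb : ∀ i, g (b i : AlgebraicClosure F) = b i := by
    intro i
    have h1 := hg (α (b i : AlgebraicClosure F))
      (Finset.mem_image_of_mem _ (Finset.mem_univ i))
    rw [emb_apply, RingEquiv.symm_apply_apply] at h1
    exact α.injective h1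
  intro x hx
  have h2 := b.sum_repr ⟨x, hx⟩
  have h3 : x = ∑ i, b.repr ⟨x, hx⟩ i • (b i : AlgebraicClosure F) := by
    have h4 := congrArg (fun y : E => (y : AlgebraicClosure F)) h2
    simp only [AddSubmonoidClass.coe_finsetSum, IntermediateField.coe_smul] at h4
    exact h4.symm
  rw [h3, map_sum]
  refine Finset.sum_congr rfl fun i _ => ?_
  rw [Algebra.smul_def, map_mul, AlgEquiv.commutes, hb]

theorem emdK {Ω : Type*} [Field Ω] {K : Type u} [Field K] [NumberField K]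
    (α₀ : AlgebraicClosure K ≃+* Ω) (T : Finset ℕ) : Emd (emb α₀) (fullK (K := K) T) T where
  inj := emb_inj α₀
  sys W := by
    constructor
    · intro h
      refine ⟨h.1, (fullK T).index h, exists_fin α₀ h.2.1, fun Q hQ h2 hT g hg => ?_⟩
      refine h.2.2 g ⟨pb α₀ Q, pb_prime α₀ hQ, fun h3 => h2 ?_, fun l hl h3 => hT l hl ?_,
        (emb_inr α₀).1 hg⟩
      · have h4 := (pb_nat α₀ (Q := Q) 2).1
        rw [Nat.cast_ofNat, Nat.cast_ofNat] at h4
        exact h4 h3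
      · exact (pb_nat α₀ l).1 h3
    · rintro ⟨h1, h2, ⟨s, hs⟩, h4⟩
      refine ⟨h1, open_of_fix' α₀ s fun σ hσ => hs σ fun x hx => ?_, fun σ hσ => ?_⟩
      · rw [emb_apply, hσ x hx, RingEquiv.apply_symm_apply]
      · obtain ⟨P, hP, hP2, hPT, hi⟩ := hσ
        obtain ⟨Q, hQ, rfl⟩ := exists_pb α₀ hP
        refine h4 Q hQ (fun h2 => hP2 ?_) (fun l hl h2 => hPT l hl ((pb_nat α₀ l).2 h2)) σ
          ((emb_inr α₀).2 hi)
        have h3 := (pb_nat α₀ (Q := Q) 2).2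
        rw [Nat.cast_ofNat, Nat.cast_ofNat] at h3
        exact h3 h2

theorem emdQ {Ω : Type u} [Field Ω] (T : Finset ℕ) :
    Emd (MonoidHom.id (Ω ≃+* Ω)) (fullQ Ω (T : Set ℕ)) T where
  inj := fun _ _ h => h
  sys W := by
    constructor
    · rintro ⟨⟨⟨s, hs⟩, h1, h2⟩, h3⟩
      exact ⟨h1, h2, ⟨s, hs⟩, fun Q hQ h4 h5 g hg => h3 Q hQ h4 (fun l hl => h5 l hl) hg⟩
    · rintro ⟨h1, h2, ⟨s, hs⟩, h3⟩
      exact ⟨⟨⟨s, hs⟩, h1, h2⟩, fun Q hQ h4 h5 g hg => h3 Q hQ h4 (fun l hl => h5 l hl) g hg⟩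

/-! ## The system of an open subgroup -/

section dict

variable {G : Type*} [Group G] {Ω : Type*} [Field Ω] {e₀ : G →* (Ω ≃+* Ω)} {F₀ : FSys G}
  {T : Finset ℕ} {C : Subgroup G} {F : Type u} [Field F] [NumberField F]
  {α : AlgebraicClosure F ≃+* Ω}

/-- `C` is the absolute Galois group of `F` -/
noncomputable def ceq (hinj : Function.Injective e₀) (hα : (emb α).range = C.map e₀) :
    C ≃* AbsGal F :=
  ((C.equivMapOfInjective e₀ hinj).trans (MulEquiv.subgroupCongr hα.symm)).trans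
    (MonoidHom.ofInjective (emb_inj α)).symm

theorem emb_ceq (hinj : Function.Injective e₀) (hα : (emb α).range = C.map e₀) (c : C) :
    emb α (ceq hinj hα c) = e₀ c := by
  unfold ceq
  rw [MulEquiv.trans_apply, MonoidHom.apply_ofInjective_symm]
  rfl

theorem e₀_ceq_symm (hinj : Function.Injective e₀) (hα : (emb α).range = C.map e₀) (σ : AbsGal F) :
    e₀ ((ceq hinj hα).symm σ) = emb α σ := by
  rw [← emb_ceq hinj hα, MulEquiv.apply_symm_apply]

/-- `g` fixes the elements of `s` -/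
private theorem core_opn {W : Subgroup G} (hW : W.index ≠ 0) {s : Finset Ω}
    (hs : ∀ g, (∀ x ∈ s, e₀ g x = x) → g ∈ W) :
    ∃ s' : Finset Ω, ∀ g, (∀ x ∈ s', e₀ g x = x) → g ∈ W.normalCore := by
  classical
  have hfi : W.FiniteIndex := ⟨hW⟩
  have hfin : Finite (G ⧸ W) := Subgroup.finite_quotient_of_finiteIndex
  have := Fintype.ofFinite (G ⧸ W)
  refine ⟨Finset.univ.biUnion fun q : G ⧸ W => s.image fun x => e₀ q.out x, fun g hg b => ?_⟩
  -- `b g b⁻¹ ∈ W`; write `b⁻¹ = a w`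
  set a := ((b⁻¹ : G) : G ⧸ W).out with ha
  have h1 : a⁻¹ * b⁻¹ ∈ W := by
    rw [← QuotientGroup.eq]
    exact QuotientGroup.out_eq' _
  have h2 : a⁻¹ * g * a ∈ W := by
    apply hs
    intro x hx
    have h3 := hg (e₀ a x) (Finset.mem_biUnion.2 ⟨_, Finset.mem_univ _, Finset.mem_image_of_mem _ hx⟩)
    rw [map_mul, map_mul]
    show e₀ a⁻¹ (e₀ g (e₀ a x)) = x
    rw [h3, ← RingAut.mul_apply, ← map_mul, inv_mul_cancel, map_one]
    rfl
  have h4 : b * g * b⁻¹ = (a⁻¹ * b⁻¹)⁻¹ * (a⁻¹ * g * a) * (a⁻¹ * b⁻¹) := by group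
  rw [h4]
  exact W.mul_mem (W.mul_mem (W.inv_mem h1) h2) h1

/-- The system of `C` is the system of `F`. -/
theorem sys_iff (H : Emd e₀ F₀ T) (hC : ∃ W, F₀.mem W ∧ W ≤ C) (hα : (emb α).range = C.map e₀)
    (V : Subgroup (AbsGal F)) :
    (two (res F₀ C)).mem (V.comap (ceq H.inj hα : C →* AbsGal F)) ↔ (sysT F T).mem V := by
  classical
  set e := ceq H.inj hα with he
  have hmap : (V.comap (e : C →* AbsGal F)).map (e : C →* AbsGal F) = V :=
    Subgroup.map_comap_eq_self_of_surjective e.surjective V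
  have hidx : (V.comap (e : C →* AbsGal F)).index = V.index :=
    Subgroup.index_comap_of_surjective V e.surjective
  have hsym : ∀ σ, e₀ (e.symm σ) = emb α σ := e₀_ceq_symm H.inj hα
  constructor
  · rintro ⟨h1, ⟨V₁, ⟨h2, W₁, hW₁, h3⟩, h4⟩, k, hk⟩
    obtain ⟨hn, hi, ⟨s, hs⟩, hin⟩ := (H.sys W₁).1 hW₁
    have key : ∀ σ : AbsGal F, ((e.symm σ : C) : G) ∈ W₁ → σ ∈ V := by
      intro σ hσ
      have h5 : e.symm σ ∈ V.comap (e : C →* AbsGal F) := h4 (h3 (Subgroup.mem_subgroupOf.2 hσ))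
      rw [Subgroup.mem_comap] at h5
      simpa using h5
    have hVn : V.Normal := by
      rw [← hmap]
      exact Subgroup.Normal.map h1 _ e.surjective
    refine ⟨hVn, open_of_fix' α s fun σ hσ => key σ (hs _ fun x hx => ?_), le_top, fun g _ => ⟨k, ?_⟩,
      fun σ hσ => ?_⟩
    · rw [hsym, emb_apply, hσ x hx, RingEquiv.apply_symm_apply]
    · rw [← hk, hidx]
      exact Subgroup.pow_index_mem V g
    · obtain ⟨P, hP, hP2, hPT, hi⟩ := hσ
      obtain ⟨Q, hQ, rfl⟩ := exists_pb α hP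
      refine key σ (hin Q hQ (fun h2 => hP2 ?_) (fun l hl h2 => hPT l hl ((pb_nat α l).2 h2)) _ ?_)
      · have h3 := (pb_nat α (Q := Q) 2).2
        rw [Nat.cast_ofNat, Nat.cast_ofNat] at h3
        exact h3 h2
      · rw [hsym]
        exact (emb_inr α).2 hi
  · intro hV
    have hV' : GoodT F T V := hV
    have hVn := hV'.normal
    obtain ⟨k, hk⟩ := (sysT F T).index hV
    obtain ⟨s, hs⟩ := exists_fin α hV'.isOpen
    obtain ⟨W₀, hW₀, hW₀C⟩ := hC
    obtain ⟨-, hi₀, ⟨s₀, hs₀⟩, hin₀⟩ := (H.sys W₀).1 hW₀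
    -- the image in `G`
    set V' : Subgroup C := V.comap (e : C →* AbsGal F) with hV'def
    have hmem : ∀ c : C, c ∈ V' ↔ e c ∈ V := fun c => Iff.rfl
    set V'' : Subgroup G := V'.map C.subtype with hV''def
    have hmem' : ∀ g : G, g ∈ V'' ↔ ∃ h : g ∈ C, e ⟨g, h⟩ ∈ V := by
      intro g
      constructor
      · rintro ⟨c, hc, rfl⟩
        exact ⟨c.2, hc⟩
      · rintro ⟨h, h'⟩
        exact ⟨⟨g, h⟩, h', rfl⟩
    have hCi : C.index ≠ 0 := fun h0 =>
      hi₀ (Nat.eq_zero_of_zero_dvd (h0 ▸ Subgroup.index_dvd_of_le hW₀C))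
    have hidx'' : V''.index ≠ 0 := by
      rw [hV''def, Subgroup.index_map_subtype, hidx, hk]
      exact mul_ne_zero (by positivity) hCi
    have hfix : ∀ g, (∀ x ∈ s ∪ s₀, e₀ g x = x) → g ∈ V'' := by
      intro g hg
      have hgC : g ∈ C := hW₀C (hs₀ g fun x hx => hg x (Finset.mem_union_right _ hx))
      rw [hmem']
      refine ⟨hgC, hs _ fun x hx => ?_⟩
      rw [he, emb_ceq H.inj hα ⟨g, hgC⟩]
      exact hg x (Finset.mem_union_left _ hx)
    obtain ⟨s', hs'⟩ := core_opn hidx'' hfix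
    have hcore : F₀.mem V''.normalCore := by
      rw [H.sys]
      have hfi : V''.FiniteIndex := ⟨hidx''⟩
      have hfi2 : V''.normalCore.FiniteIndex := Subgroup.finiteIndex_normalCore _
      refine ⟨Subgroup.normalCore_normal _, hfi2.index_ne_zero, ⟨s', hs'⟩,
        fun Q hQ h2 hT g hg b => ?_⟩
      have hg' : e₀ (b * g * b⁻¹) ∈ inr (cj (e₀ b) Q) := by
        rw [inr_cj, map_mul, map_mul, map_inv]
        have : (e₀ b)⁻¹ * (e₀ b * e₀ g * (e₀ b)⁻¹) * e₀ b = e₀ g := by group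
        rw [this]
        exact hg
      have hgood2 : (2 : 𝓞 Ω) ∉ cj (e₀ b) Q := fun h => h2 (two_mem_cj.1 h)
      have hgoodT : ∀ l ∈ T, (l : 𝓞 Ω) ∉ cj (e₀ b) Q := fun l hl h => hT l hl ((nat_mem_cj l).1 h)
      have hbC : b * g * b⁻¹ ∈ C := hW₀C (hin₀ _ (cj_prime hQ) hgood2 hgoodT _ hg')
      rw [hmem']
      refine ⟨hbC, hV'.inertia _ ⟨pb α (cj (e₀ b) Q), pb_prime α (cj_prime hQ), fun h => hgood2 ?_,
        fun l hl h => hgoodT l hl ((pb_nat α l).1 h), ?_⟩⟩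
      · have h4 := (pb_nat α (Q := cj (e₀ b) Q) 2).1
        rw [Nat.cast_ofNat, Nat.cast_ofNat] at h4
        exact h4 h
      · rw [← emb_inr, he, emb_ceq H.inj hα ⟨_, hbC⟩]
        exact hg'
    refine ⟨inferInstance, ⟨V', ⟨inferInstance, _, hcore, fun c hc => ?_⟩, le_rfl⟩, k, ?_⟩
    · have h5 := Subgroup.normalCore_le V'' (Subgroup.mem_subgroupOf.1 hc)
      rw [hmem'] at h5
      exact h5.2
    · rw [hidx, hk]

end dict

end Pool.Agent.Work.MP_787500_nt.GA
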