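import Mathlib
import Pool.Agent.Work.MP_787500_nt.GA.Core
import Pool.Agent.Work.MP_787500_nt.HN.ShaT
import Pool.Agent.Work.MP_787500_nt.HP.ShaK

/-!
# Open subgroups of a Galois group: local-global principles

`sha_core`, `inj_core`: the local-global principles for `C` from those of `F`. `LCo e₀ Q f`: `f` is a coboundary on the
decomposition group of `Q` in `C`.
-/

set_option autoImplicit false
set_option linter.unusedSectionVars false

namespace Pool.Agent.Work.MP_787500_nt.GA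

open IsDedekindDomain NumberField WithZero
open Pool.Agent.Work.MP_787500_nt.PA (TwoSys Sm1 Sm2 homs Coc Cob Opn LocalType)
open Pool.Agent.Work.MP_787500_nt.GP (sysT stabD Fx GoodT inT subSys)
open Pool.Agent.Work.MP_787500_nt.HN
open Pool.Agent.Work.MP_787500_nt.HP
open Pool.Agent.Work.MP_787500_nt.KR (FSys two res fullK fullQ)

universe u

/-- `Q` contains 2 or an element of `T` -/
def Ab {Ω : Type*} [Field Ω] (T : Finset ℕ) (Q : Ideal (𝓞 Ω)) : Prop :=
  (2 : 𝓞 Ω) ∈ Q ∨ ∃ l ∈ T, (l : 𝓞 Ω) ∈ Q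

theorem ab_cj {Ω : Type*} [Field Ω] {T : Finset ℕ} {Q : Ideal (𝓞 Ω)} {a : Ω ≃+* Ω} :
    Ab T (cj a Q) ↔ Ab T Q := by
  unfold Ab
  rw [two_mem_cj]
  simp only [nat_mem_cj]

theorem ab_pb {Ω : Type*} [Field Ω] {F : Type*} [Field F] (α : AlgebraicClosure F ≃+* Ω)
    {T : Finset ℕ} {Q : Ideal (𝓞 Ω)} : Ab T (pb α Q) ↔ Ab T Q := by
  unfold Ab
  have h := pb_nat α (Q := Q) 2
  rw [Nat.cast_ofNat, Nat.cast_ofNat] at h
  rw [h]
  simp only [pb_nat]

section dict

variable {G : Type*} [Group G] {Ω : Type*} [Field Ω] {e₀ : G →* (Ω ≃+* Ω)} {F₀ : FSys G}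
  {T : Finset ℕ} {C : Subgroup G}

/-- `f` is a coboundary on the decomposition group of `Q` in `C` -/
def LCo (e₀ : G →* (Ω ≃+* Ω)) {C : Subgroup G} (Q : Ideal (𝓞 Ω)) (f : C → C → ZMod 2) : Prop :=
  ∃ z : C → ZMod 2, (∃ s : Finset Ω, ∀ g w : C, e₀ g ∈ stb Q → e₀ w ∈ stb Q →
      (∀ x ∈ s, e₀ w x = x) → z (g * w) = z g) ∧
    ∀ g h : C, e₀ g ∈ stb Q → e₀ h ∈ stb Q → f g h = z g + z h + z (g * h)

section field

variable {F : Type u} [Field F] [NumberField F] {α : AlgebraicClosure F ≃+* Ω}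

theorem LCo.lcob (hinj : Function.Injective e₀) (hα : (emb α).range = C.map e₀) {Q : Ideal (𝓞 Ω)}
    {f : C → C → ZMod 2} (h : LCo e₀ Q f) :
    LCob (stabD (pb α Q)) (fun a b => f ((ceq hinj hα).symm a) ((ceq hinj hα).symm b)) := by
  obtain ⟨z, ⟨s, hs⟩, hz⟩ := h
  have hsym : ∀ σ, e₀ ((ceq hinj hα).symm σ) = emb α σ := e₀_ceq_symm hinj hα
  have hst : ∀ σ, σ ∈ stabD (pb α Q) → e₀ ((ceq hinj hα).symm σ) ∈ stb Q := by
    intro σ hσ
    rw [hsym]
    exact (emb_stb α).2 hσ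
  let U : Subgroup (AbsGal F) :=
    { carrier := {σ | ∀ x ∈ s, emb α σ x = x}
      mul_mem' := by
        intro a b ha hb x hx
        rw [map_mul]
        show emb α a (emb α b x) = x
        rw [hb x hx, ha x hx]
      one_mem' := fun x _ => by rw [map_one]; rfl
      inv_mem' := by
        intro a ha x hx
        rw [map_inv]
        show (emb α a)⁻¹ x = x
        conv_lhs => rw [← ha x hx]
        show ((emb α a)⁻¹ * emb α a) x = x
        rw [inv_mul_cancel]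
        rfl }
  refine ⟨fun σ => z ((ceq hinj hα).symm σ), ⟨U, ?_, fun g hg w hw => ?_⟩, fun g hg k hk => ?_⟩
  · refine open_of_fix' α s fun σ hσ => ?_
    intro x hx
    rw [emb_apply, hσ x hx, RingEquiv.apply_symm_apply]
  · show z ((ceq hinj hα).symm (g * w)) = _
    rw [map_mul]
    refine hs _ _ (hst g hg) (hst w hw.1) fun x hx => ?_
    rw [hsym]
    exact hw.2 x hx
  · show f _ _ = z _ + z _ + z ((ceq hinj hα).symm (g * k))
    rw [map_mul]
    exact hz _ _ (hst g hg) (hst k hk)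

/-- The local-global principle for classes of degree 2 for an open subgroup. -/
theorem sha_core [IsTotallyComplex F] (H : Emd e₀ F₀ T) (hC : ∃ W, F₀.mem W ∧ W ≤ C)
    (hα : (emb α).range = C.map e₀) (hodd : OddT F T) {f : C → C → ZMod 2}
    (hf : Coc (two (res F₀ C)) ⊤ f)
    (hl : ∀ Q : Ideal (𝓞 Ω), Q.IsPrime → Ab T Q → LCo e₀ Q f) : Cob (two (res F₀ C)) ⊤ f := by
  have hs := sys_iff H hC hα
  have hs' := iso_symm (ceq H.inj hα) hs
  have h1 := coc_iso (ceq H.inj hα).symm hs' (U := ⊤) hf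
  have h2 := sha_sysT hodd h1 fun P hP hPl => by
    obtain ⟨Q, hQ, rfl⟩ := exists_pb α hP
    exact (hl Q hQ ((ab_pb α).1 hPl)).lcob H.inj hα
  have h3 := cob_iso (ceq H.inj hα) hs (U := ⊤) h2
  rw [iso_back (ceq H.inj hα) hs f] at h3
  exact h3

/-- The local-global principle for homomorphisms for an open subgroup. -/
theorem inj_core (H : Emd e₀ F₀ T) (hC : ∃ W, F₀.mem W ∧ W ≤ C)
    (hα : (emb α).range = C.map e₀) (hI : InjT F T) {ω : C → ZMod 2}
    (hω : ω ∈ homs (two (res F₀ C)) ⊤)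
    (hl : ∀ Q : Ideal (𝓞 Ω), Q.IsPrime → Ab T Q → ∀ c : C, e₀ c ∈ stb Q → ω c = 0) : ω = 0 := by
  have hs := sys_iff H hC hα
  have hs' := iso_symm (ceq H.inj hα) hs
  have h1 := homs_mem_iso (ceq H.inj hα).symm hs' (U := ⊤) hω
  have h2 := hI _ h1 fun P hP hPl g hg => by
    obtain ⟨Q, hQ, rfl⟩ := exists_pb α hP
    refine hl Q hQ ((ab_pb α).1 hPl) _ ?_
    show e₀ ((ceq H.inj hα).symm g) ∈ stb Q
    rw [e₀_ceq_symm H.inj hα]
    exact (emb_stb α).2 hg
  funext c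
  have h3 := congrFun h2 (ceq H.inj hα c)
  simpa using h3

theorem finrank_core (H : Emd e₀ F₀ T) (hC : ∃ W, F₀.mem W ∧ W ≤ C)
    (hα : (emb α).range = C.map e₀) :
    Module.finrank (ZMod 2) (homs (two (res F₀ C)) ⊤) = Module.finrank (ZMod 2) (homs (sysT F T) ⊤) :=
  homs_iso (ceq H.inj hα) (sys_iff H hC hα)

theorem findim_core (H : Emd e₀ F₀ T) (hC : ∃ W, F₀.mem W ∧ W ≤ C)
    (hα : (emb α).range = C.map e₀) (hfin : FiniteDimensional (ZMod 2) (homs (sysT F T) (⊤ : Subgroup (AbsGal F)))) :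
    FiniteDimensional (ZMod 2) (homs (two (res F₀ C)) ⊤) :=
  (homsIso (ceq H.inj hα) (sys_iff H hC hα) ⊤).symm.finiteDimensional

end field

/-! ## Conjugation -/

/-- the local condition at conjugate primes -/
theorem LCo.conj (H : Emd e₀ F₀ T) {Q : Ideal (𝓞 Ω)} {f : C → C → ZMod 2}
    (hf : Coc (two (res F₀ C)) ⊤ f) (h : LCo e₀ Q f) (c : C) : LCo e₀ (cj (e₀ c) Q) f := by
  classical
  obtain ⟨⟨W, ⟨hn, ⟨V₁, ⟨-, W₁, hW₁, h3⟩, h4⟩, -⟩, hfW⟩, hcoc⟩ := hf
  obtain ⟨-, -, ⟨s₁, hs₁⟩, -⟩ := (H.sys W₁).1 hW₁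
  have hWs : ∀ w : C, (∀ x ∈ s₁, e₀ w x = x) → w ∈ W := fun w hw =>
    h4 (h3 (Subgroup.mem_subgroupOf.2 (hs₁ _ hw)))
  obtain ⟨z, ⟨s, hs⟩, hz⟩ := h
  have hst : ∀ g : C, e₀ g ∈ stb (cj (e₀ c) Q) → e₀ (c⁻¹ * g * c : C) ∈ stb Q := by
    intro g hg
    rw [stb_cj] at hg
    push_cast
    rw [map_mul, map_mul, map_inv]
    exact hg
  have hcoc' : ∀ g h k, f g h + f (g * h) k = f h k + f g (h * k) :=
    fun g h k => hcoc g trivial h trivial k trivial
  refine ⟨fun x => z (c⁻¹ * x * c) + (f x c + f c (c⁻¹ * x * c)),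
    ⟨s.image (e₀ c) ∪ s₁ ∪ s₁.image (e₀ c), fun g w hg hw hfix => ?_⟩, fun x y hx hy => ?_⟩
  · have e1 : c⁻¹ * (g * w) * c = (c⁻¹ * g * c) * (c⁻¹ * w * c) := by group
    have hcw : ∀ (s' : Finset Ω), (∀ x ∈ s'.image (e₀ c), e₀ w x = x) →
        ∀ x ∈ s', e₀ (c⁻¹ * w * c : C) x = x := by
      intro s' h5 x hx
      push_cast
      rw [map_mul, map_mul, map_inv]
      show (e₀ c)⁻¹ (e₀ w (e₀ c x)) = x
      rw [h5 _ (Finset.mem_image_of_mem _ hx)]
      show ((e₀ c)⁻¹ * e₀ c) x = x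
      rw [inv_mul_cancel]
      rfl
    have h6 : z (c⁻¹ * (g * w) * c) = z (c⁻¹ * g * c) := by
      rw [e1]
      exact hs _ _ (hst g hg) (hst w hw) (hcw s fun x hx => hfix x (by
        simp only [Finset.mem_union]
        exact Or.inl (Or.inl hx)))
    have hwW : w ∈ W := hWs w fun x hx => hfix x (by
      simp only [Finset.mem_union]
      exact Or.inl (Or.inr hx))
    have hwW' : c⁻¹ * w * c ∈ W := hWs _ (hcw s₁ fun x hx => hfix x (by
      simp only [Finset.mem_union]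
      exact Or.inr hx))
    have h7 : f (g * w) c = f g c := by
      have := hfW g c w hwW 1 W.one_mem
      rwa [mul_one] at this
    have h8 : f c (c⁻¹ * (g * w) * c) = f c (c⁻¹ * g * c) := by
      rw [e1]
      have := hfW c (c⁻¹ * g * c) 1 W.one_mem _ hwW'
      rwa [mul_one] at this
    simp only
    rw [h6, h7, h8]
  · have e1 : c⁻¹ * (x * y) * c = (c⁻¹ * x * c) * (c⁻¹ * y * c) := by group
    have h5 := hz _ _ (hst x hx) (hst y hy)
    set a := c⁻¹ * x * c with ha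
    set b := c⁻¹ * y * c with hb
    have hca : c * a = x * c := by rw [ha]; group
    have hcb : c * b = y * c := by rw [hb]; group
    -- cocycle identities
    have k1 := hcoc' x y c
    have k2 := hcoc' x c b
    have k3 := hcoc' c a b
    rw [hca] at k3
    rw [hcb] at k2
    rw [← e1] at k3 h5
    simp only
    rw [← ha, ← hb]
    have two : ∀ t : ZMod 2, t + t = 0 := fun t => CharTwo.add_self_eq_zero t
    linear_combination h5 + k1 + k2 - k3 - two (f a b) - two (f x c) -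
      two (f c (c⁻¹ * (x * y) * c)) - two (f (x * y) c) + two (f x (y * c))

end dict

end Pool.Agent.Work.MP_787500_nt.GA
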