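import Mathlib
import Pool.Agent.Work.MP_787500_nt.GA.Core2

/-!
# The places of the fixed field of an open subgroup and the orbits of the decomposition groups

`card_places`: `V` a transitive `G`-set with stabilizer `C`, `𝔓 i` representatives of the primes above 2 and `T` modulo `G`. The number of
places of `F` above 2 and `T` is the sum over `i` of the number of orbits of the decomposition group of `𝔓 i` on `V`.
-/

set_option autoImplicit false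
set_option linter.unusedSectionVars false

namespace Pool.Agent.Work.MP_787500_nt.GA

open IsDedekindDomain NumberField WithZero
open Pool.Agent.Work.MP_787500_nt.PA (TwoSys Sm1 Sm2 homs Coc Cob Opn LocalType)
open Pool.Agent.Work.MP_787500_nt.GP (sysT stabD Fx GoodT inT subSys)
open Pool.Agent.Work.MP_787500_nt.HN
open Pool.Agent.Work.MP_787500_nt.HP
open Pool.Agent.Work.MP_787500_nt.KR (FSys two res fullK fullQ)

universe u

section defs

variable {G : Type*} [Group G] {Ω : Type*} [Field Ω]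

/-- the decomposition group of `Q` in `G` -/
def dG (e₀ : G →* (Ω ≃+* Ω)) (Q : Ideal (𝓞 Ω)) : Subgroup G := (stb Q).comap e₀

theorem mem_dG {e₀ : G →* (Ω ≃+* Ω)} {Q : Ideal (𝓞 Ω)} {g : G} : g ∈ dG e₀ Q ↔ e₀ g ∈ stb Q := Iff.rfl

/-- `𝔓` represents the primes above 2 and `T` modulo `G` -/
structure Plc (e₀ : G →* (Ω ≃+* Ω)) (T : Finset ℕ) {I : Type*} (𝔓 : I → Ideal (𝓞 Ω)) : Prop where
  prime : ∀ i, (𝔓 i).IsPrime
  ne : ∀ i, 𝔓 i ≠ ⊥
  mem : ∀ i, Ab T (𝔓 i)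
  cover : ∀ Q : Ideal (𝓞 Ω), Q.IsPrime → Q ≠ ⊥ → Ab T Q → ∃ i g, Q = cj (e₀ g) (𝔓 i)
  uniq : ∀ i i' g, cj (e₀ g) (𝔓 i) = 𝔓 i' → i = i'

end defs

section conj

variable {Ω : Type*} [Field Ω]

theorem cj_ne_bot {a : Ω ≃+* Ω} {Q : Ideal (𝓞 Ω)} (h : Q ≠ ⊥) : cj a Q ≠ ⊥ := by
  intro h0
  apply h
  have h1 : cj a⁻¹ (cj a Q) = Q := by rw [← cj_mul, inv_mul_cancel, cj_one]
  rw [← h1, h0, eq_bot_iff]
  intro x hx
  rw [mem_cj, Ideal.mem_bot] at hx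
  rw [Ideal.mem_bot]
  exact (map_eq_zero_iff _ (og a⁻¹⁻¹).injective).1 hx

theorem cj_inj {a : Ω ≃+* Ω} {Q Q' : Ideal (𝓞 Ω)} (h : cj a Q = cj a Q') : Q = Q' := by
  have h1 := congrArg (cj a⁻¹) h
  rwa [← cj_mul, ← cj_mul, inv_mul_cancel, cj_one, cj_one] at h1

end conj

section field

variable {Ω : Type*} [Field Ω] {F : Type u} [Field F] [NumberField F]
  (α : AlgebraicClosure F ≃+* Ω)

theorem pb_inj {Q Q' : Ideal (𝓞 Ω)} (h : pb α Q = pb α Q') : Q = Q' := by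
  ext x
  obtain ⟨y, rfl⟩ := (RingOfIntegers.mapRingEquiv α).surjective x
  exact SetLike.ext_iff.1 h y

/-- the place of `F` below `Q` -/
noncomputable def blw {Q : Ideal (𝓞 Ω)} (hQ : Q.IsPrime) (hb : Q ≠ ⊥) : HeightOneSpectrum (𝓞 F) :=
  ⟨(pb α Q).comap (algebraMap (𝓞 F) (𝓞 (AlgebraicClosure F))), by
      have := pb_prime α hQ
      exact Ideal.comap_isPrime _ _,
    fun h => by
      have := pb_prime α hQ
      exact pb_ne_bot α hb (Ideal.eq_bot_of_comap_eq_bot h)⟩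

theorem mem_blw {Q : Ideal (𝓞 Ω)} (hQ : Q.IsPrime) (hb : Q ≠ ⊥) (y : 𝓞 F) :
    y ∈ (blw α hQ hb).asIdeal ↔
      RingOfIntegers.mapRingEquiv α (algebraMap (𝓞 F) (𝓞 (AlgebraicClosure F)) y) ∈ Q := Iff.rfl

open scoped Pointwise in
theorem blw_eq_iff {Q Q' : Ideal (𝓞 Ω)} (hQ : Q.IsPrime) (hb : Q ≠ ⊥) (hQ' : Q'.IsPrime)
    (hb' : Q' ≠ ⊥) : blw α hQ hb = blw α hQ' hb' ↔ ∃ σ : AbsGal F, Q' = cj (emb α σ) Q := by
  constructor
  · intro h
    have h1 : (pb α Q).comap (algebraMap (𝓞 F) (𝓞 (AlgebraicClosure F))) =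
        (pb α Q').comap (algebraMap (𝓞 F) (𝓞 (AlgebraicClosure F))) :=
      congrArg HeightOneSpectrum.asIdeal h
    have := pb_prime α hQ
    have := pb_prime α hQ'
    obtain ⟨g, hg⟩ := exists_smul_eq (F := F) (pb α Q) (pb α Q') h1
    refine ⟨g, pb_inj α ?_⟩
    rw [hg]
    ext x
    rw [Ideal.mem_pointwise_smul_iff_inv_smul_mem, mem_pb, mem_pb, mem_cj, ← map_inv, og_emb]
  · rintro ⟨σ, rfl⟩
    apply HeightOneSpectrum.ext
    ext y
    rw [mem_blw, mem_blw, mem_cj, ← map_inv, og_emb]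
    have h1 : σ⁻¹ • algebraMap (𝓞 F) (𝓞 (AlgebraicClosure F)) y =
        algebraMap (𝓞 F) (𝓞 (AlgebraicClosure F)) y := by
      apply RingOfIntegers.ext
      exact (σ⁻¹).commutes (algebraMap (𝓞 F) F y)
    rw [h1]

theorem exists_blw (v : HeightOneSpectrum (𝓞 F)) :
    ∃ (Q : Ideal (𝓞 Ω)) (hQ : Q.IsPrime) (hb : Q ≠ ⊥), blw α hQ hb = v := by
  obtain ⟨P, hP, hPb, hPv⟩ := exists_prime_above v
  obtain ⟨Q, hQ, rfl⟩ := exists_pb α hP
  refine ⟨Q, hQ, ?_, HeightOneSpectrum.ext hPv⟩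
  rintro rfl
  apply hPb
  rw [eq_bot_iff]
  intro x hx
  rw [mem_pb, Ideal.mem_bot] at hx
  rw [Ideal.mem_bot]
  exact (map_eq_zero_iff _ (RingOfIntegers.mapRingEquiv α).injective).1 hx

/-- `v` contains 2 or an element of `T` -/
def AbF (T : Finset ℕ) (v : HeightOneSpectrum (𝓞 F)) : Prop :=
  (2 : 𝓞 F) ∈ v.asIdeal ∨ ∃ l ∈ T, (l : 𝓞 F) ∈ v.asIdeal

theorem abF_blw {T : Finset ℕ} {Q : Ideal (𝓞 Ω)} (hQ : Q.IsPrime) (hb : Q ≠ ⊥) :
    AbF T (blw α hQ hb) ↔ Ab T Q := by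
  unfold AbF Ab
  have h1 : ∀ n : ℕ, (n : 𝓞 F) ∈ (blw α hQ hb).asIdeal ↔ (n : 𝓞 Ω) ∈ Q := fun n => by
    rw [mem_blw, map_natCast, map_natCast]
  have h2 := h1 2
  rw [Nat.cast_ofNat, Nat.cast_ofNat] at h2
  rw [h2]
  simp only [h1]

end field

section main

variable {G : Type*} [Group G] {Ω : Type*} [Field Ω] {e₀ : G →* (Ω ≃+* Ω)}
  {T : Finset ℕ} {C : Subgroup G} {F : Type u} [Field F] [NumberField F]
  {α : AlgebraicClosure F ≃+* Ω} {I : Type*} [Fintype I] {𝔓 : I → Ideal (𝓞 Ω)}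
  {V : Type*} [MulAction G V] [Finite V] {v0 : V}

theorem blw_C (hα : (emb α).range = C.map e₀) {Q Q' : Ideal (𝓞 Ω)} (hQ : Q.IsPrime) (hb : Q ≠ ⊥)
    (hQ' : Q'.IsPrime) (hb' : Q' ≠ ⊥) :
    blw α hQ hb = blw α hQ' hb' ↔ ∃ c ∈ C, Q' = cj (e₀ c) Q := by
  rw [blw_eq_iff]
  constructor
  · rintro ⟨σ, h⟩
    have h1 : emb α σ ∈ (emb α).range := ⟨σ, rfl⟩
    rw [hα] at h1
    obtain ⟨c, hc, hcσ⟩ := h1
    exact ⟨c, hc, by rw [hcσ]; exact h⟩
  · rintro ⟨c, hc, h⟩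
    have h1 : e₀ c ∈ C.map e₀ := ⟨c, hc, rfl⟩
    rw [← hα] at h1
    obtain ⟨σ, hσ⟩ := h1
    exact ⟨σ, by rw [hσ]; exact h⟩

/-- The number of places above 2 and `T` of the fixed field. -/
theorem card_places (hα : (emb α).range = C.map e₀) (hP : Plc e₀ T 𝔓)
    (hst : MulAction.stabilizer G v0 = C) (htr : ∀ x : V, ∃ g : G, g • v0 = x) :
    Nat.card {v : HeightOneSpectrum (𝓞 F) // AbF T v} =
      ∑ i, Nat.card (MulAction.orbitRel.Quotient (dG e₀ (𝔓 i)) V) := by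
  classical
  choose γ hγ using htr
  have hγ' : ∀ x : V, (γ x)⁻¹ • x = v0 := fun x => inv_smul_eq_iff.2 (hγ x).symm
  have hmemC : ∀ g : G, g ∈ C ↔ g • v0 = v0 := fun g => by
    rw [← hst, MulAction.mem_stabilizer_iff]
  have hQp : ∀ (i : I) (x : V), (cj (e₀ (γ x)⁻¹) (𝔓 i)).IsPrime := fun i x => cj_prime (hP.prime i)
  have hQb : ∀ (i : I) (x : V), cj (e₀ (γ x)⁻¹) (𝔓 i) ≠ ⊥ := fun i x => cj_ne_bot (hP.ne i)
  have key : ∀ (i i' : I) (x x' : V), blw α (hQp i x) (hQb i x) = blw α (hQp i' x') (hQb i' x') ↔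
      i = i' ∧ ∃ d ∈ dG e₀ (𝔓 i), d • x = x' := by
    intro i i' x x'
    rw [blw_C hα]
    constructor
    · rintro ⟨c, hc, h⟩
      have h1 : 𝔓 i' = cj (e₀ (γ x' * c * (γ x)⁻¹)) (𝔓 i) := by
        have h2 := congrArg (cj (e₀ (γ x'))) h
        rw [← cj_mul, ← cj_mul, ← cj_mul, ← map_mul, mul_inv_cancel, map_one, cj_one,
          ← map_mul, ← map_mul] at h2
        rw [h2, mul_assoc]
      have hi := hP.uniq i i' _ h1.symm
      subst hi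
      refine ⟨rfl, γ x' * c * (γ x)⁻¹, cj_eq_iff.1 h1.symm, ?_⟩
      rw [mul_smul, mul_smul, hγ', (hmemC c).1 hc, hγ]
    · rintro ⟨rfl, d, hd, hdx⟩
      refine ⟨(γ x')⁻¹ * d * γ x, ?_, ?_⟩
      · rw [hmemC, mul_smul, mul_smul, hγ, hdx, hγ']
      · rw [← cj_mul, ← map_mul]
        have e1 : (γ x')⁻¹ * d * γ x * (γ x)⁻¹ = (γ x')⁻¹ * d := by group
        rw [e1, map_mul, cj_mul, cj_eq_iff.2 (mem_dG.1 hd)]
  let ψ : (Σ i, MulAction.orbitRel.Quotient (dG e₀ (𝔓 i)) V) →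
      {v : HeightOneSpectrum (𝓞 F) // AbF T v} := fun p =>
    Quotient.lift (s := MulAction.orbitRel (dG e₀ (𝔓 p.1)) V)
      (fun x => ⟨blw α (hQp p.1 x) (hQb p.1 x), (abF_blw α _ _).2 (ab_cj.2 (hP.mem p.1))⟩)
      (by
        intro x x' h
        obtain ⟨d, hd⟩ := (MulAction.orbitRel_apply.1 h)
        apply Subtype.ext
        refine ((key p.1 p.1 x' x).2 ⟨rfl, d, d.2, hd⟩).symm) p.2
  have hψ : ∀ (i : I) (x : V), (ψ ⟨i, Quotient.mk _ x⟩).1 = blw α (hQp i x) (hQb i x) := fun i x => rfl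
  have hbij : Function.Bijective ψ := by
    constructor
    · rintro ⟨i, q⟩ ⟨i', q'⟩ h
      induction q using Quotient.inductionOn with
      | h x =>
      induction q' using Quotient.inductionOn with
      | h x' =>
      have h1 := congrArg Subtype.val h
      rw [hψ, hψ, key] at h1
      obtain ⟨rfl, d, hd, hdx⟩ := h1
      congr 1
      have h3 : (MulAction.orbitRel (dG e₀ (𝔓 i)) V) x' x :=
        MulAction.orbitRel_apply.2 ⟨⟨d, hd⟩, hdx⟩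
      exact Quotient.sound (Setoid.symm' _ h3)
    · rintro ⟨v, hv⟩
      obtain ⟨Q, hQ, hb, rfl⟩ := exists_blw α v
      obtain ⟨i, g, rfl⟩ := hP.cover Q hQ hb ((abF_blw α hQ hb).1 hv)
      refine ⟨⟨i, Quotient.mk _ (g⁻¹ • v0)⟩, Subtype.ext ?_⟩
      rw [hψ, blw_C hα]
      refine ⟨g * γ (g⁻¹ • v0), ?_, ?_⟩
      · rw [hmemC, mul_smul, hγ, smul_inv_smul]
      · rw [← cj_mul, ← map_mul, mul_inv_cancel_right]
  rw [← Nat.card_congr (Equiv.ofBijective ψ hbij), Nat.card_sigma]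

end main

end Pool.Agent.Work.MP_787500_nt.GA
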