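import Mathlib
import Pool.Agent.Work.MP_787500_nt.GA.FieldC

/-!
# Involutions of an algebraic closure of the rational numbers are complex conjugations

`exists_iota`: for an involution `c` of `Ω` there is an embedding `ι` of `Ω` in the complex numbers with `ι (c x) = conj (ι x)`.
(The fixed field of `c` is real closed; its order, given by the squares, is archimedean.)
-/

set_option autoImplicit false
set_option linter.unusedSectionVars false

namespace Pool.Agent.Work.MP_787500_nt.GA

open NumberField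
open Pool.Agent.Work.MP_787500_nt.HP

universe u

section

variable {Ω : Type u} [Field Ω] [CharZero Ω] [IsAlgClosed Ω] {c : Ω ≃+* Ω}

/-- the fixed field -/
def fxc (c : Ω ≃+* Ω) : Subfield Ω where
  carrier := {x | c x = x}
  mul_mem' := fun {a b} ha hb => by
    show c (a * b) = a * b
    rw [map_mul, show c a = a from ha, show c b = b from hb]
  one_mem' := map_one c
  add_mem' := fun {a b} ha hb => by
    show c (a + b) = a + b
    rw [map_add, show c a = a from ha, show c b = b from hb]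
  zero_mem' := map_zero c
  neg_mem' := fun {a} ha => by
    show c (-a) = -a
    rw [map_neg, show c a = a from ha]
  inv_mem' := fun a ha => by
    show c a⁻¹ = a⁻¹
    rw [map_inv₀, show c a = a from ha]

theorem mem_fxc {x : Ω} : x ∈ fxc c ↔ c x = x := Iff.rfl

theorem exists_sq (x : Ω) : ∃ y : Ω, y ^ 2 = x := IsAlgClosed.exists_pow_nat_eq x (by norm_num)

theorem c_sqrt {x y : Ω} (hx : c x = x) (hy : y ^ 2 = x) : c y = y ∨ c y = -y := by
  apply sq_eq_sq_iff_eq_or_eq_neg.1
  rw [← map_pow, hy, hx]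

theorem c_i (hc : ∀ x, c (c x) = x) (hne : ∃ x, c x ≠ x) {i : Ω} (hi : i ^ 2 = -1) : c i = -i := by
  rcases c_sqrt (c := c) (x := -1) (by rw [map_neg, map_one]) hi with h | h
  · exfalso
    obtain ⟨x, hx⟩ := hne
    obtain ⟨β, hβ⟩ := exists_sq (x - c x)
    have hδ : x - c x ≠ 0 := sub_ne_zero.2 (Ne.symm hx)
    have hcδ : c (x - c x) = -(x - c x) := by rw [map_sub, hc]; ring
    have hN : c (β * c β) = β * c β := by rw [map_mul, hc, mul_comm]
    have hN2 : (β * c β) ^ 2 = (i * (x - c x)) ^ 2 := by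
      rw [mul_pow, mul_pow, ← map_pow, hβ, hcδ, hi]
      ring
    have h2 : ∀ z : Ω, z = -z → z = 0 := fun z hz => by
      have h3 : 2 * z = 0 := by linear_combination hz
      exact (mul_eq_zero.1 h3).resolve_left two_ne_zero
    have hi0 : i ≠ 0 := by
      rintro rfl
      norm_num at hi
    rcases sq_eq_sq_iff_eq_or_eq_neg.1 hN2 with h1 | h1
    · have h3 : c (i * (x - c x)) = i * (x - c x) := by rw [← h1, hN]
      rw [map_mul, h, hcδ] at h3
      exact mul_ne_zero hi0 hδ (h2 _ (by linear_combination -h3))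
    · have h3 : c (-(i * (x - c x))) = -(i * (x - c x)) := by rw [← h1, hN]
      rw [map_neg, map_mul, h, hcδ] at h3
      exact mul_ne_zero hi0 hδ (h2 _ (by linear_combination h3))
  · exact h

theorem sq_or_neg (hc : ∀ x, c (c x) = x) (hne : ∃ x, c x ≠ x) {x : Ω} (hx : c x = x) :
    (∃ y, c y = y ∧ y ^ 2 = x) ∨ ∃ y, c y = y ∧ y ^ 2 = -x := by
  obtain ⟨i, hi⟩ := exists_sq (-1 : Ω)
  have hci := c_i hc hne hi
  obtain ⟨y, hy⟩ := exists_sq x
  rcases c_sqrt hx hy with h | h
  · exact Or.inl ⟨y, h, hy⟩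
  · refine Or.inr ⟨i * y, ?_, ?_⟩
    · rw [map_mul, hci, h]
      ring
    · rw [mul_pow, hi, hy]
      ring

theorem sum_sq (hc : ∀ x, c (c x) = x) (hne : ∃ x, c x ≠ x) {a b : Ω} (ha : c a = a) (hb : c b = b) :
    ∃ y, c y = y ∧ y ^ 2 = a ^ 2 + b ^ 2 := by
  obtain ⟨i, hi⟩ := exists_sq (-1 : Ω)
  have hci := c_i hc hne hi
  obtain ⟨w, hw⟩ := exists_sq (a + i * b)
  refine ⟨w * c w, by rw [map_mul, hc, mul_comm], ?_⟩
  rw [mul_pow, ← map_pow, hw, map_add, map_mul, hci, ha, hb]
  linear_combination -b ^ 2 * hi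

theorem sq_neg_zero (hc : ∀ x, c (c x) = x) (hne : ∃ x, c x ≠ x) {y z : Ω} (hy : c y = y)
    (hz : c z = z) (h : y ^ 2 = -z ^ 2) : y = 0 := by
  by_contra hy0
  have hz0 : z ≠ 0 := by
    rintro rfl
    apply hy0
    have : y ^ 2 = 0 := by rw [h]; ring
    exact pow_eq_zero_iff (two_ne_zero) |>.1 this
  have h1 : (y / z) ^ 2 = -1 := by
    rw [div_pow, h]
    field_simp
  have h2 := c_i hc hne h1
  rw [map_div₀, hy, hz] at h2
  have h3 : 2 * (y / z) = 0 := by linear_combination h2
  have h4 := (mul_eq_zero.1 h3).resolve_left two_ne_zero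
  exact (div_ne_zero hy0 hz0) h4

/-- the cone of the squares -/
def sqCone (hc : ∀ x, c (c x) = x) (hne : ∃ x, c x ≠ x) : RingCone (fxc c) where
  carrier := {x | ∃ y : fxc c, y ^ 2 = x}
  mul_mem' := by
    rintro _ _ ⟨a, rfl⟩ ⟨b, rfl⟩
    exact ⟨a * b, by ring⟩
  one_mem' := ⟨1, by ring⟩
  zero_mem' := ⟨0, by ring⟩
  add_mem' := by
    rintro _ _ ⟨a, rfl⟩ ⟨b, rfl⟩
    obtain ⟨y, hy, h⟩ := sum_sq hc hne a.2 b.2
    exact ⟨⟨y, hy⟩, Subtype.ext h⟩
  eq_zero_of_mem_of_neg_mem' := by
    rintro _ ⟨a, rfl⟩ ⟨b, hb⟩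
    have h1 : (a : Ω) ^ 2 = -(b : Ω) ^ 2 := by
      have := congrArg (fun z : fxc c => (z : Ω)) hb
      push_cast at this
      rw [this, neg_neg]
    have h2 := sq_neg_zero hc hne a.2 b.2 h1
    have h3 : a = 0 := Subtype.ext h2
    rw [h3]
    ring

theorem sqCone_total (hc : ∀ x, c (c x) = x) (hne : ∃ x, c x ≠ x) :
    HasMemOrNegMem (sqCone hc hne) where
  mem_or_neg_mem x := by
    rcases sq_or_neg hc hne x.2 with ⟨y, hy, h⟩ | ⟨y, hy, h⟩
    · exact Or.inl ⟨⟨y, hy⟩, Subtype.ext h⟩
    · exact Or.inr ⟨⟨y, hy⟩, Subtype.ext h⟩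

end

/-- An ordered field that is algebraic over the integers is archimedean. -/
theorem archimedean_of_alg {R : Type*} [Field R] [LinearOrder R] [IsStrictOrderedRing R]
    (h : ∀ x : R, ∃ p : Polynomial ℤ, p ≠ 0 ∧ p.eval₂ (Int.castRingHom R) x = 0) : Archimedean R := by
  rw [archimedean_iff_nat_le]
  intro x
  obtain ⟨p, hp, hpx⟩ := h x
  set d := p.natDegree with hd
  set S : ℕ := ∑ i ∈ Finset.range d, (p.coeff i).natAbs with hS
  by_cases hx : x ≤ 1
  · exact ⟨1, by simpa using hx⟩
  push Not at hx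
  refine ⟨S, ?_⟩
  have hx0 : (0 : R) < x := lt_trans zero_lt_one hx
  rw [Polynomial.eval₂_eq_sum_range, Finset.sum_range_succ, ← hd] at hpx
  have hlead : (1 : R) ≤ |(p.coeff d : R)| := by
    have h1 : p.coeff d ≠ 0 := Polynomial.leadingCoeff_ne_zero.2 hp
    have h2 : (1 : ℤ) ≤ |p.coeff d| := Int.one_le_abs h1
    rw [← Int.cast_abs]
    exact_mod_cast h2
  have hd0 : d ≠ 0 := by
    intro h0
    rw [h0] at hpx
    simp only [Finset.range_zero, Finset.sum_empty, zero_add, pow_zero, mul_one] at hpx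
    rw [h0] at hlead
    have : (p.coeff 0 : R) = 0 := hpx
    rw [this, abs_zero] at hlead
    exact absurd hlead (not_le.2 zero_lt_one)
  obtain ⟨e, he⟩ := Nat.exists_eq_succ_of_ne_zero hd0
  have h1 : |(p.coeff d : R)| * x ^ d ≤ S * x ^ e := by
    have h2 : (p.coeff d : R) * x ^ d = -∑ i ∈ Finset.range d, (p.coeff i : R) * x ^ i := by
      have h3 : (∑ i ∈ Finset.range d, (Int.castRingHom R) (p.coeff i) * x ^ i) +
          (Int.castRingHom R) (p.coeff d) * x ^ d = 0 := hpx
      simp only [eq_intCast] at h3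
      linear_combination h3
    have h4 : |(p.coeff d : R)| * x ^ d = |(p.coeff d : R) * x ^ d| := by
      rw [abs_mul, abs_of_pos (pow_pos hx0 d)]
    rw [h4, h2, abs_neg]
    refine (Finset.abs_sum_le_sum_abs _ _).trans ?_
    rw [hS, Nat.cast_sum, Finset.sum_mul]
    refine Finset.sum_le_sum fun i hi => ?_
    rw [abs_mul, abs_of_pos (pow_pos hx0 i)]
    have h5 : |(p.coeff i : R)| = ((p.coeff i).natAbs : R) := by
      rw [← Int.cast_abs, Int.abs_eq_natAbs]
      simp
    rw [h5]
    refine mul_le_mul_of_nonneg_left ?_ (Nat.cast_nonneg _)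
    refine pow_le_pow_right₀ hx.le ?_
    have := Finset.mem_range.1 hi
    omega
  have h2 : x ^ d ≤ S * x ^ e := by
    refine le_trans ?_ h1
    exact le_mul_of_one_le_left (pow_pos hx0 d).le hlead
  rw [he, Nat.succ_eq_add_one, pow_succ, mul_comm] at h2
  exact le_of_mul_le_mul_right h2 (pow_pos hx0 e)

/-- An involution is a complex conjugation. -/
theorem exists_iota {Ω : Type u} [Field Ω] [CharZero Ω] [IsAlgClosed Ω] (halg : Alg Ω)
    {c : Ω ≃+* Ω} (hc : ∀ x, c (c x) = x) (hne : ∃ x, c x ≠ x) :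
    ∃ ι : Ω →+* ℂ, ∀ x, ι (c x) = (starRingEnd ℂ) (ι x) := by
  classical
  have htot := sqCone_total hc hne
  let _ : LinearOrder (fxc c) := LinearOrder.mkOfAddGroupCone (sqCone hc hne)
  have hor : IsOrderedRing (fxc c) := IsOrderedRing.mkOfCone (sqCone hc hne)
  have hsor : IsStrictOrderedRing (fxc c) := IsOrderedRing.toIsStrictOrderedRing _
  have harch : Archimedean (fxc c) := archimedean_of_alg fun x => by
    obtain ⟨p, hp, hpx⟩ := halg (x : Ω)
    refine ⟨p, hp, ?_⟩
    apply Subtype.ext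
    have h1 : ((fxc c).subtype) (p.eval₂ (Int.castRingHom (fxc c)) x) =
        p.eval₂ (Int.castRingHom Ω) (x : Ω) := by
      rw [Polynomial.hom_eval₂]
      congr 1
    rw [hpx] at h1
    exact h1
  let φ : fxc c →+*o ℝ := ConditionallyCompleteLinearOrderedField.inducedOrderRingHom (fxc c) ℝ
  obtain ⟨i, hi⟩ := exists_sq (-1 : Ω)
  have hci := c_i hc hne hi
  have hi0 : i ≠ 0 := by
    rintro rfl
    norm_num at hi
  -- coordinates
  have hre : ∀ x : Ω, c ((x + c x) / 2) = (x + c x) / 2 := fun x => by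
    rw [map_div₀, map_add, hc, map_ofNat, add_comm]
  have him : ∀ x : Ω, c ((x - c x) / (2 * i)) = (x - c x) / (2 * i) := fun x => by
    rw [map_div₀, map_sub, hc, map_mul, map_ofNat, hci]
    field_simp
    ring
  let re : Ω → fxc c := fun x => ⟨(x + c x) / 2, hre x⟩
  let im : Ω → fxc c := fun x => ⟨(x - c x) / (2 * i), him x⟩
  have hre' : ∀ x, (re x : Ω) = (x + c x) / 2 := fun x => rfl
  have him' : ∀ x, (im x : Ω) = (x - c x) / (2 * i) := fun x => rfl
  have h2 : (2 : Ω) ≠ 0 := two_ne_zero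
  have re_add : ∀ x y, re (x + y) = re x + re y := fun x y => Subtype.ext (by
    push_cast
    rw [hre', hre', hre', map_add]
    ring)
  have im_add : ∀ x y, im (x + y) = im x + im y := fun x y => Subtype.ext (by
    push_cast
    rw [him', him', him', map_add]
    ring)
  have re_mul : ∀ x y, re (x * y) = re x * re y - im x * im y := fun x y => Subtype.ext (by
    push_cast
    rw [hre', hre', hre', him', him', map_mul]
    field_simp
    rw [hi]
    ring)
  have im_mul : ∀ x y, im (x * y) = re x * im y + im x * re y := fun x y => Subtype.ext (by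
    push_cast
    rw [hre', hre', him', him', him', map_mul]
    field_simp
    ring)
  have re_one : re 1 = 1 := Subtype.ext (by
    push_cast
    rw [hre', map_one]
    norm_num)
  have im_one : im 1 = 0 := Subtype.ext (by
    push_cast
    rw [him', map_one]
    simp)
  have re_c : ∀ x, re (c x) = re x := fun x => Subtype.ext (by
    rw [hre', hre', hc, add_comm])
  have im_c : ∀ x, im (c x) = -im x := fun x => Subtype.ext (by
    push_cast
    rw [him', him', hc]
    ring)
  have re_zero : re 0 = 0 := Subtype.ext (by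
    push_cast
    rw [hre', map_zero]
    norm_num)
  have im_zero : im 0 = 0 := Subtype.ext (by
    push_cast
    rw [him', map_zero]
    simp)
  let ι : Ω →+* ℂ :=
    { toFun := fun x => ⟨φ (re x), φ (im x)⟩
      map_one' := by
        rw [re_one, im_one, map_one, map_zero]
        rfl
      map_zero' := by
        rw [re_zero, im_zero, map_zero]
        rfl
      map_add' := fun x y => by
        rw [re_add, im_add, map_add, map_add]
        rfl
      map_mul' := fun x y => by
        rw [re_mul, im_mul, map_sub, map_add, map_mul, map_mul, map_mul, map_mul]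
        apply Complex.ext <;> simp }
  refine ⟨ι, fun x => ?_⟩
  show (⟨φ (re (c x)), φ (im (c x))⟩ : ℂ) = (starRingEnd ℂ) ⟨φ (re x), φ (im x)⟩
  rw [re_c, im_c, map_neg]
  rfl

end Pool.Agent.Work.MP_787500_nt.GA
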