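import Mathlib
import Pool.Agent.Work.MP_787500_nt.GA.Conj

/-!
# The degree and the real places of the fixed field of an open subgroup

`index_emb`: the index of the absolute Galois group of `F` in the group of automorphisms of `Ω` is the degree of `F`. `card_real`:
the number of real places of `F` is the number of fixed points of `c` on `Aut Ω / C`.
-/

set_option autoImplicit false
set_option linter.unusedSectionVars false

namespace Pool.Agent.Work.MP_787500_nt.GA

open NumberField
open Pool.Agent.Work.MP_787500_nt.HP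

universe u

section

variable {Ω : Type*} [Field Ω] {F : Type u} [Field F] [NumberField F]
  (α : AlgebraicClosure F ≃+* Ω)

/-- the automorphisms over the rational numbers -/
noncomputable def autQ : (AlgebraicClosure F ≃ₐ[ℚ] AlgebraicClosure F) →* (Ω ≃+* Ω) where
  toFun σ := (α.symm.trans (σ : AlgebraicClosure F ≃+* AlgebraicClosure F)).trans α
  map_one' := by
    ext x
    exact α.apply_symm_apply x
  map_mul' σ τ := by
    ext x
    show α (σ (τ (α.symm x))) = α (σ (α.symm (α (τ (α.symm x)))))
    rw [α.symm_apply_apply]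

theorem autQ_apply (σ : AlgebraicClosure F ≃ₐ[ℚ] AlgebraicClosure F) (x : Ω) :
    autQ α σ x = α (σ (α.symm x)) := rfl

theorem autQ_surj : Function.Surjective (autQ α) := by
  intro g
  refine ⟨AlgEquiv.ofRingEquiv (f := (α.trans g).trans α.symm) (fun x => ?_), ?_⟩
  · rw [eq_ratCast, map_ratCast]
  · ext x
    rw [autQ_apply]
    show α (α.symm (g (α (α.symm x)))) = g x
    rw [α.apply_symm_apply, α.apply_symm_apply]

theorem index_emb : (emb α).range.index = Module.finrank ℚ F := by
  have halg : Algebra.IsAlgebraic ℚ (AlgebraicClosure F) := Algebra.IsAlgebraic.trans ℚ F _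
  have hcl : IsAlgClosure ℚ (AlgebraicClosure F) := ⟨inferInstance, halg⟩
  have hgal : IsGalois ℚ (AlgebraicClosure F) := IsAlgClosure.isGalois ℚ (AlgebraicClosure F)
  let j : F →ₐ[ℚ] AlgebraicClosure F := IsScalarTower.toAlgHom ℚ F (AlgebraicClosure F)
  have h1 := IntermediateField.finrank_eq_fixingSubgroup_index (F := ℚ) (E' := AlgebraicClosure F)
    j.fieldRange
  have h2 : Module.finrank ℚ j.fieldRange = Module.finrank ℚ F :=
    (AlgEquiv.ofInjectiveField j).symm.toLinearEquiv.finrank_eq
  have h3 : (emb α).range.comap (autQ α) = j.fieldRange.fixingSubgroup := by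
    ext σ
    rw [Subgroup.mem_comap, MonoidHom.mem_range, emb_iff, IntermediateField.mem_fixingSubgroup_iff]
    constructor
    · rintro h _ ⟨y, rfl⟩
      have h4 := h y
      rw [autQ_apply, α.symm_apply_apply] at h4
      exact α.injective h4
    · intro h y
      rw [autQ_apply, α.symm_apply_apply]
      exact congrArg α (h _ ⟨y, rfl⟩)
  rw [← h2, h1, ← h3, Subgroup.index_comap_of_surjective _ (autQ_surj α)]

theorem card_trans {G V : Type*} [Group G] [MulAction G V] {v0 : V}
    (htr : ∀ x : V, ∃ g : G, g • v0 = x) : Nat.card V = (MulAction.stabilizer G v0).index := by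
  rw [MulAction.index_stabilizer]
  have : MulAction.orbit G v0 = Set.univ := by
    rw [Set.eq_univ_iff_forall]
    intro x
    obtain ⟨g, hg⟩ := htr x
    exact ⟨g, hg⟩
  rw [this, Set.ncard_univ]

/-- The number of real places is the number of fixed points of `c`. -/
theorem card_real {V : Type*} [MulAction (Ω ≃+* Ω) V] {v0 : V}
    (hst : MulAction.stabilizer (Ω ≃+* Ω) v0 = (emb α).range)
    (htr : ∀ x : V, ∃ g : Ω ≃+* Ω, g • v0 = x) {c : Ω ≃+* Ω} {ι : Ω →+* ℂ}
    (hι : ∀ x, ι (c x) = (starRingEnd ℂ) (ι x)) :
    Nat.card {x : V // c • x = x} = InfinitePlace.nrRealPlaces F := by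
  classical
  have hV : Nat.card V = Module.finrank ℚ F := by
    rw [card_trans htr, hst, index_emb α]
  have hVpos : 0 < Nat.card V := by
    rw [hV]
    exact Module.finrank_pos
  have hfin : Finite V := (Nat.card_pos_iff.1 hVpos).2
  have := Fintype.ofFinite V
  choose γ hγ using htr
  have hmem : ∀ g : Ω ≃+* Ω, g • v0 = v0 ↔ ∀ z : F, g (α (algebraMap F _ z)) = α (algebraMap F _ z) := by
    intro g
    rw [← emb_iff, ← MonoidHom.mem_range, ← hst, MulAction.mem_stabilizer_iff]
  have hcomp : ∀ g g' : Ω ≃+* Ω, g • v0 = g' • v0 ↔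
      ∀ z : F, g (α (algebraMap F _ z)) = g' (α (algebraMap F _ z)) := by
    intro g g'
    have h1 : g • v0 = g' • v0 ↔ (g'⁻¹ * g) • v0 = v0 := by
      rw [mul_smul, inv_smul_eq_iff]
    rw [h1, hmem]
    refine forall_congr' fun z => ?_
    constructor
    · intro h
      have h2 := congrArg g' h
      have h3 : g' ((g'⁻¹ * g) (α (algebraMap F _ z))) = (g' * (g'⁻¹ * g)) (α (algebraMap F _ z)) := rfl
      rw [h3, mul_inv_cancel_left] at h2
      exact h2
    · intro h
      show g'⁻¹ (g (α (algebraMap F _ z))) = _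
      rw [h]
      show (g'⁻¹ * g') (α (algebraMap F _ z)) = _
      rw [inv_mul_cancel]
      rfl
  let ψ : V → (F →+* ℂ) := fun x =>
    (ι.comp (γ x : Ω →+* Ω)).comp ((α : AlgebraicClosure F →+* Ω).comp (algebraMap F _))
  have hψ : ∀ x z, ψ x z = ι (γ x (α (algebraMap F _ z))) := fun x z => rfl
  have hinj : Function.Injective ψ := by
    intro x y h
    rw [← hγ x, ← hγ y, hcomp]
    intro z
    have := congrArg (fun φ : F →+* ℂ => φ z) h
    exact ι.injective this
  have hbij : Function.Bijective ψ := by
    rw [Fintype.bijective_iff_injective_and_card]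
    refine ⟨hinj, ?_⟩
    rw [NumberField.Embeddings.card F ℂ, ← hV, Nat.card_eq_fintype_card]
  have hfix : ∀ x, c • x = x ↔ ComplexEmbedding.IsReal (ψ x) := by
    intro x
    rw [ComplexEmbedding.isReal_iff]
    have h1 : c • x = x ↔ (c * γ x) • v0 = γ x • v0 := by
      rw [mul_smul, hγ]
    rw [h1, hcomp]
    constructor
    · intro h
      ext z
      rw [ComplexEmbedding.conjugate_coe_eq, hψ, ← hι]
      exact congrArg ι (h z)
    · intro h z
      have h2 := congrArg (fun φ : F →+* ℂ => φ z) h
      simp only [ComplexEmbedding.conjugate_coe_eq] at h2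
      rw [hψ, ← hι] at h2
      exact ι.injective h2
  rw [← InfinitePlace.card_real_embeddings, ← Nat.card_eq_fintype_card]
  exact Nat.card_congr ((Equiv.ofBijective ψ hbij).subtypeEquiv hfix)

end

end Pool.Agent.Work.MP_787500_nt.GA
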