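import Mathlib
import Pool.Agent.Work.MP_787500_nt.GA.Plac
import Pool.Agent.Work.MP_787500_nt.GA.RealPl
import Pool.Agent.Work.MP_787500_nt.GA.Good

/-!
# The number of homomorphisms of an open subgroup, the local-global principle

All statements are in terms of `G`, `C`, a transitive `G`-set `V` with stabilizer `C`, and the primes `𝔓 i`. `nPl e₀ 𝔓 V` is the number of places.
-/

set_option autoImplicit false
set_option linter.unusedSectionVars false

namespace Pool.Agent.Work.MP_787500_nt.GA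

open IsDedekindDomain NumberField WithZero
open Pool.Agent.Work.MP_787500_nt.PA (TwoSys Sm1 Sm2 homs Coc Cob Opn LocalType)
open Pool.Agent.Work.MP_787500_nt.GP (sysT stabD Fx GoodT inT subSys)
open Pool.Agent.Work.MP_787500_nt.HN
open Pool.Agent.Work.MP_787500_nt.HP
open Pool.Agent.Work.MP_787500_nt.KR (FSys two res fullK fullQ)

universe u v

/-- the number of pairs of an index `i` and an orbit of the decomposition group of `𝔓 i` on `V` -/
noncomputable def nPl {G : Type*} [Group G] {Ω : Type*} [Field Ω] (e₀ : G →* (Ω ≃+* Ω))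
    {I : Type*} [Fintype I] (𝔓 : I → Ideal (𝓞 Ω)) (V : Type*) [MulAction G V] : ℕ :=
  ∑ i, Nat.card (MulAction.orbitRel.Quotient (dG e₀ (𝔓 i)) V)

section gen

variable {G : Type*} [Group G] {Ω : Type*} [Field Ω] {e₀ : G →* (Ω ≃+* Ω)} {F₀ : FSys G}
  {T : Finset ℕ} {C : Subgroup G} {F : Type u} [Field F] [NumberField F]
  {α : AlgebraicClosure F ≃+* Ω} {I : Type*} [Fintype I] {𝔓 : I → Ideal (𝓞 Ω)}
  {V : Type*} [MulAction G V] [Finite V] {v0 : V}

theorem exists_A (hα : (emb α).range = C.map e₀) (hP : Plc e₀ T 𝔓)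
    (hst : MulAction.stabilizer G v0 = C) (htr : ∀ x : V, ∃ g : G, g • v0 = x)
    (hT : ∀ l ∈ T, l ≠ 0) : ∃ A : Finset (HeightOneSpectrum (𝓞 F)),
      (∀ v : HeightOneSpectrum (𝓞 F), v ∈ A ↔ (2 : 𝓞 F) ∈ v.asIdeal ∨
        ∃ l ∈ T, (l : 𝓞 F) ∈ v.asIdeal) ∧ A.card = nPl e₀ 𝔓 V := by
  obtain ⟨A, hA⟩ := exists_AT F hT
  refine ⟨A, hA, ?_⟩
  rw [nPl, ← card_places hα hP hst htr]
  exact (Nat.subtype_card A hA).symm

/-- The lower bound for the number of homomorphisms. -/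
theorem le_core (H : Emd e₀ F₀ T) (hC : ∃ W, F₀.mem W ∧ W ≤ C)
    (hα : (emb α).range = C.map e₀) (hP : Plc e₀ T 𝔓)
    (hst : MulAction.stabilizer G v0 = C) (htr : ∀ x : V, ∃ g : G, g • v0 = x)
    (hT : ∀ l ∈ T, l ≠ 0) :
    FiniteDimensional (ZMod 2) (homs (two (res F₀ C)) (⊤ : Subgroup C)) ∧
    InfinitePlace.nrRealPlaces F + InfinitePlace.nrComplexPlaces F + nPl e₀ 𝔓 V ≤
      Module.finrank (ZMod 2) (homs (two (res F₀ C)) (⊤ : Subgroup C)) := by
  obtain ⟨A, hA, hAc⟩ := exists_A hα hP hst htr hT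
  obtain ⟨hfin, -⟩ := card_homs (K := F) hA
  have hfd : FiniteDimensional (ZMod 2) (homs (sysT F T) (⊤ : Subgroup (AbsGal F))) :=
    Module.Finite.of_finite
  refine ⟨findim_core H hC hα hfd, ?_⟩
  rw [finrank_core H hC hα, ← hAc]
  exact le_finrank_homs hA

/-- The upper bound implies that the class number is odd away from 2 and `T`. -/
theorem oddT_core (H : Emd e₀ F₀ T) (hC : ∃ W, F₀.mem W ∧ W ≤ C)
    (hα : (emb α).range = C.map e₀) (hP : Plc e₀ T 𝔓)
    (hst : MulAction.stabilizer G v0 = C) (htr : ∀ x : V, ∃ g : G, g • v0 = x)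
    (hT : ∀ l ∈ T, l ≠ 0)
    (hle : Module.finrank (ZMod 2) (homs (two (res F₀ C)) (⊤ : Subgroup C)) ≤
      InfinitePlace.nrRealPlaces F + InfinitePlace.nrComplexPlaces F + nPl e₀ 𝔓 V) : OddT F T := by
  obtain ⟨A, hA, hAc⟩ := exists_A hα hP hst htr hT
  refine oddT_of_finrank hA ?_
  rw [← finrank_core H hC hα, hAc]
  exact hle

end gen

/-! ## Over a quadratic field -/

section quad

variable {Ω : Type v} [Field Ω] [CharZero Ω] [IsAlgClosed Ω]

/-- a number field whose group is contained in that of `K` contains `K` -/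
theorem exists_hom {K : Type*} [Field K] [NumberField K] {F : Type*} [Field F] [NumberField F]
    {α₀ : AlgebraicClosure K ≃+* Ω} {α : AlgebraicClosure F ≃+* Ω}
    (hle : (emb α).range ≤ (emb α₀).range) :
    ∃ j : K →+* F, ∀ x, α (algebraMap F (AlgebraicClosure F) (j x)) =
      α₀ (algebraMap K (AlgebraicClosure K) x) := by
  have h1 : ∀ x : K, ∃ y : F, algebraMap F (AlgebraicClosure F) y =
      α.symm (α₀ (algebraMap K (AlgebraicClosure K) x)) := by
    intro x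
    refine mem_base_of_fixed (F := F) fun σ => ?_
    have h2 : emb α σ ∈ (emb α₀).range := hle ⟨σ, rfl⟩
    rw [MonoidHom.mem_range, emb_iff] at h2
    have h3 := h2 x
    rw [emb_apply] at h3
    exact α.injective (by rw [h3, α.apply_symm_apply])
  choose j hj using h1
  have hinj : Function.Injective (algebraMap F (AlgebraicClosure F)) :=
    FaithfulSMul.algebraMap_injective _ _
  refine ⟨{ toFun := j, map_one' := ?_, map_mul' := ?_, map_zero' := ?_, map_add' := ?_ }, fun x => ?_⟩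
  · apply hinj
    rw [hj, map_one, map_one, map_one, map_one]
  · intro x y
    apply hinj
    rw [hj, map_mul, map_mul, map_mul, map_mul, hj, hj]
  · apply hinj
    rw [hj, map_zero, map_zero, map_zero, map_zero]
  · intro x y
    apply hinj
    rw [hj, map_add, map_add, map_add, map_add, hj, hj]
  · show α (algebraMap F (AlgebraicClosure F) (j x)) = _
    rw [hj, α.apply_symm_apply]

theorem complex_of_le {K : Type*} [Field K] [NumberField K] [IsTotallyComplex K] {F : Type*}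
    [Field F] [NumberField F] {α₀ : AlgebraicClosure K ≃+* Ω} {α : AlgebraicClosure F ≃+* Ω}
    (hle : (emb α).range ≤ (emb α₀).range) : IsTotallyComplex F := by
  obtain ⟨j, -⟩ := exists_hom hle
  let _ : Algebra K F := j.toAlgebra
  exact isTotallyComplex_of_algebra K F

theorem opn_range {K : Type*} [Field K] [NumberField K] (α₀ : AlgebraicClosure K ≃+* Ω) :
    OpnQ (emb α₀).range := by
  classical
  let b := Module.finBasis ℚ K
  refine ⟨Finset.univ.image fun i => α₀ (algebraMap K (AlgebraicClosure K) (b i)), fun g hg => ?_⟩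
  rw [MonoidHom.mem_range, emb_iff]
  intro x
  have h1 := b.sum_repr x
  rw [← h1, map_sum, map_sum, map_sum]
  refine Finset.sum_congr rfl fun i _ => ?_
  rw [Algebra.smul_def, map_mul, map_mul, map_mul, eq_ratCast, map_ratCast, map_ratCast, map_ratCast,
    hg _ (Finset.mem_image_of_mem _ (Finset.mem_univ i))]

theorem opn_map {K : Type u} [Field K] [NumberField K] (α₀ : AlgebraicClosure K ≃+* Ω) {T : Finset ℕ}
    {C : Subgroup (AbsGal K)} (hC : ∃ W, (fullK (K := K) T).mem W ∧ W ≤ C) :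
    OpnQ (C.map (emb α₀)) := by
  classical
  obtain ⟨W, hW, hWC⟩ := hC
  obtain ⟨-, -, ⟨s, hs⟩, -⟩ := ((emdK α₀ T).sys W).1 hW
  obtain ⟨s', hs'⟩ := opn_range α₀
  refine ⟨s ∪ s', fun g hg => ?_⟩
  obtain ⟨σ, rfl⟩ := hs' g fun x hx => hg x (Finset.mem_union_right _ hx)
  exact ⟨σ, hWC (hs σ fun x hx => hg x (Finset.mem_union_left _ hx)), rfl⟩

end quad

section quadK

variable {Ω : Type u} [Field Ω] [CharZero Ω] [IsAlgClosed Ω] {K : Type u} [Field K] [NumberField K]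
  [IsTotallyComplex K] {T : Finset ℕ} {I : Type*} [Fintype I] {𝔓 : I → Ideal (𝓞 Ω)}
  {V : Type*} [MulAction (AbsGal K) V] [Finite V] {v0 : V}

/-- Over an imaginary quadratic field: the lower bound for the number of homomorphisms of `C`, and the
local-global principle if this bound is sharp. -/
theorem coreK (halg : Alg Ω) (α₀ : AlgebraicClosure K ≃+* Ω) (h2 : Module.finrank ℚ K = 2)
    (hT : ∀ l ∈ T, l ≠ 0) {C : Subgroup (AbsGal K)} (hC : ∃ W, (fullK (K := K) T).mem W ∧ W ≤ C)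
    (hP : Plc (emb α₀) T 𝔓) (hst : MulAction.stabilizer (AbsGal K) v0 = C)
    (htr : ∀ x : V, ∃ g : AbsGal K, g • v0 = x) :
    FiniteDimensional (ZMod 2) (homs (two (res (fullK (K := K) T) C)) (⊤ : Subgroup C)) ∧
    Nat.card V + nPl (emb α₀) 𝔓 V ≤
      Module.finrank (ZMod 2) (homs (two (res (fullK (K := K) T) C)) (⊤ : Subgroup C)) ∧
    (Module.finrank (ZMod 2) (homs (two (res (fullK (K := K) T) C)) (⊤ : Subgroup C)) ≤
        Nat.card V + nPl (emb α₀) 𝔓 V →
      ∀ f : C → C → ZMod 2, Coc (two (res (fullK (K := K) T) C)) ⊤ f →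
        (∀ Q : Ideal (𝓞 Ω), Q.IsPrime → Ab T Q → LCo (emb α₀) Q f) →
        Cob (two (res (fullK (K := K) T) C)) ⊤ f) := by
  obtain ⟨F, _, _, α, hα⟩ := exists_field halg (opn_map α₀ hC)
  have hle : (emb α).range ≤ (emb α₀).range := by
    rw [hα]
    exact Subgroup.map_le_range _ _
  have hcpx : IsTotallyComplex F := complex_of_le hle
  have hr : InfinitePlace.nrRealPlaces F + InfinitePlace.nrComplexPlaces F = Nat.card V := by
    have h3 : InfinitePlace.nrRealPlaces F = 0 := IsTotallyComplex.nrRealPlaces_eq_zero F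
    have h4 := InfinitePlace.card_add_two_mul_card_eq_rank F
    have h5 := index_emb α
    rw [hα, Subgroup.index_map_of_injective _ (emb_inj α₀), index_emb α₀, h2, ← hst,
      ← card_trans htr] at h5
    omega
  obtain ⟨h6, h7⟩ := le_core (emdK α₀ T) hC hα hP hst htr hT
  rw [hr] at h7
  refine ⟨h6, h7, fun h8 f hf hl => ?_⟩
  have hodd := oddT_core (emdK α₀ T) hC hα hP hst htr hT (by rw [hr]; exact h8)
  exact sha_core (emdK α₀ T) hC hα hodd hf hl

end quadK

/-! ## Over the rational numbers -/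

section rat

variable {Ω : Type u} [Field Ω] [CharZero Ω] [IsAlgClosed Ω]
  {T : Finset ℕ} {I : Type*} [Fintype I] {𝔓 : I → Ideal (𝓞 Ω)}
  {V : Type*} [MulAction (Ω ≃+* Ω) V] [Finite V] {v0 : V}

theorem opn_of {C : Subgroup (Ω ≃+* Ω)} (hC : ∃ W, (fullQ Ω (T : Set ℕ)).mem W ∧ W ≤ C) : OpnQ C := by
  obtain ⟨W, ⟨⟨⟨s, hs⟩, -⟩, -⟩, hWC⟩ := hC
  exact ⟨s, fun g hg => hWC (hs g hg)⟩

/-- Over the rational numbers: the lower bound for the number of homomorphisms of `C`. -/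
theorem coreQ (halg : Alg Ω) {c : Ω ≃+* Ω} (hc : ∀ x, c (c x) = x) (hne : ∃ x, c x ≠ x)
    (hT : ∀ l ∈ T, l ≠ 0) {C : Subgroup (Ω ≃+* Ω)}
    (hC : ∃ W, (fullQ Ω (T : Set ℕ)).mem W ∧ W ≤ C)
    (hP : Plc (MonoidHom.id (Ω ≃+* Ω)) T 𝔓) (hst : MulAction.stabilizer (Ω ≃+* Ω) v0 = C)
    (htr : ∀ x : V, ∃ g : Ω ≃+* Ω, g • v0 = x) :
    FiniteDimensional (ZMod 2) (homs (two (res (fullQ Ω (T : Set ℕ)) C)) (⊤ : Subgroup C)) ∧
    Nat.card V + Nat.card {x : V // c • x = x} + 2 * nPl (MonoidHom.id (Ω ≃+* Ω)) 𝔓 V ≤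
      2 * Module.finrank (ZMod 2) (homs (two (res (fullQ Ω (T : Set ℕ)) C)) (⊤ : Subgroup C)) := by
  obtain ⟨F, _, _, α, hα'⟩ := exists_field halg (opn_of hC)
  have hα : (emb α).range = C.map (MonoidHom.id (Ω ≃+* Ω)) := by
    rw [Subgroup.map_id]
    exact hα'
  obtain ⟨ι, hι⟩ := exists_iota halg hc hne
  obtain ⟨h6, h7⟩ := le_core (emdQ T) hC hα hP hst htr hT
  refine ⟨h6, ?_⟩
  have h3 := card_real α (hst.trans hα'.symm) htr hι
  have h4 := InfinitePlace.card_add_two_mul_card_eq_rank F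
  have h5 := index_emb α
  rw [hα', ← hst, ← card_trans htr] at h5
  omega

/-- Over the rational numbers, for a subgroup of the group of an imaginary quadratic field: the local-global
principle. -/
theorem coreQ_sha (halg : Alg Ω) {K : Type*} [Field K] [NumberField K] [IsTotallyComplex K]
    (α₀ : AlgebraicClosure K ≃+* Ω) (hT : ∀ l ∈ T, l ≠ 0) {C : Subgroup (Ω ≃+* Ω)}
    (hC : ∃ W, (fullQ Ω (T : Set ℕ)).mem W ∧ W ≤ C) (hCK : C ≤ (emb α₀).range)
    (hP : Plc (MonoidHom.id (Ω ≃+* Ω)) T 𝔓) (hst : MulAction.stabilizer (Ω ≃+* Ω) v0 = C)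
    (htr : ∀ x : V, ∃ g : Ω ≃+* Ω, g • v0 = x)
    (hle : 2 * Module.finrank (ZMod 2) (homs (two (res (fullQ Ω (T : Set ℕ)) C)) (⊤ : Subgroup C)) ≤
      Nat.card V + 2 * nPl (MonoidHom.id (Ω ≃+* Ω)) 𝔓 V)
    {f : C → C → ZMod 2} (hf : Coc (two (res (fullQ Ω (T : Set ℕ)) C)) ⊤ f)
    (hl : ∀ Q : Ideal (𝓞 Ω), Q.IsPrime → Ab T Q → LCo (MonoidHom.id (Ω ≃+* Ω)) Q f) :
    Cob (two (res (fullQ Ω (T : Set ℕ)) C)) ⊤ f := by
  obtain ⟨F, _, _, α, hα'⟩ := exists_field halg (opn_of hC)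
  have hα : (emb α).range = C.map (MonoidHom.id (Ω ≃+* Ω)) := by
    rw [Subgroup.map_id]
    exact hα'
  have hcpx : IsTotallyComplex F := complex_of_le (hα'.trans_le hCK)
  have h3 : InfinitePlace.nrRealPlaces F = 0 := IsTotallyComplex.nrRealPlaces_eq_zero F
  have h4 := InfinitePlace.card_add_two_mul_card_eq_rank F
  have h5 := index_emb α
  rw [hα', ← hst, ← card_trans htr] at h5
  have hodd := oddT_core (emdQ T) hC hα hP hst htr hT (by omega)
  exact sha_core (emdQ T) hC hα hodd hf hl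

end rat

/-! ## The choice of `T` -/

section choice

variable {Ω : Type u} [Field Ω] [CharZero Ω] [IsAlgClosed Ω] {G : Type*} [Group G]
  {e₀ : G →* (Ω ≃+* Ω)}

/-- For a suitable finite set `T₁` of primes that split in the quadratic field and do not divide `N`: homomorphisms of `C` that
vanish on all decomposition groups at 2 and at `T ⊇ T₁` are zero. -/
theorem exists_T (halg : Alg Ω) {C : Subgroup G}
    (hC : OpnQ (C.map e₀)) {K : Type*} [Field K] [NumberField K] (α₀ : AlgebraicClosure K ≃+* Ω)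
    (hCK : C.map e₀ ≤ (emb α₀).range) {D : ℕ} {s : K} (hs : s ^ 2 = -(D : K)) {N : ℕ} (hN : N ≠ 0)
    (hDN : 2 * D ∣ N) :
    ∃ T₁ : Finset ℕ, (∀ l ∈ T₁, l.Prime ∧ ¬ l ∣ N ∧ Spl D l) ∧
      ∀ T : Finset ℕ, T₁ ⊆ T → (∀ l ∈ T, l ≠ 0) → ∀ F₀ : FSys G, Emd e₀ F₀ T →
        (∃ W, F₀.mem W ∧ W ≤ C) → ∀ ω ∈ homs (two (res F₀ C)) (⊤ : Subgroup C),
          (∀ Q : Ideal (𝓞 Ω), Q.IsPrime → Ab T Q → ∀ c : C, e₀ c ∈ stb Q → ω c = 0) → ω = 0 := by
  obtain ⟨F, _, _, α, hα⟩ := exists_field halg hC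
  obtain ⟨j, -⟩ := exists_hom (α₀ := α₀) (α := α) (hα.trans_le hCK)
  obtain ⟨T₁, h1, h2⟩ := exists_injT F hN
  refine ⟨T₁, fun l hl => ⟨(h1 l hl).1, (h1 l hl).2.1, ?_⟩, fun T hT h0 F₀ H hCF ω hω hloc => ?_⟩
  · have h3 : (j s) ^ 2 = -(D : F) := by rw [← map_pow, hs, map_neg, map_natCast]
    exact (h1 l hl).splitD h3 hDN
  · exact inj_core H hCF hα (h2 T hT h0) hω hloc

end choice

end Pool.Agent.Work.MP_787500_nt.GA
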