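import Pool.Agent.Work.MP_787500_nt.GA.ZetaDeg
import Pool.Agent.Work.MP_787500_nt.HN.Places

/-!
# Places of degree one that do not split in a quadratic extension

Let `F` be a number field, `a` not a square in `F`. There are infinitely many places `w` of `F` whose norm is a
prime number and where `a` is not a local square. Otherwise nearly all places of degree one split in
`E = F (√a)` (`deg_split`), so `ZG F s ^ 2 ≤ ZZt E s` (`zeta_ineq`), and `ZZt F s ≤ C * ZG F s` (`zeta_good`), but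
both zeta functions have a simple pole at `1`.
-/

set_option autoImplicit false

namespace Pool.Agent.Work.MP_787500_nt.GA

open IsDedekindDomain NumberField WithZero UniqueFactorizationMonoid
open Pool.Agent.Work.MP_787500_nt.HN

noncomputable section

universe u

variable {F E : Type u} [Field F] [NumberField F] [Field E] [NumberField E] [Algebra F E] {a : Fˣ}

/-- A place of prime norm where `a` is a local square splits into two places of the same norm. -/
theorem deg_split (q : QExt F E a) {w : HeightOneSpectrum (𝓞 F)} (hw : (Ideal.absNorm w.asIdeal).Prime)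
    (h : a ∈ LS w) : ∃ Q Q' : HeightOneSpectrum (𝓞 E), Q ≠ Q' ∧ below F Q = w ∧ below F Q' = w ∧
      Ideal.absNorm Q.asIdeal = Ideal.absNorm w.asIdeal ∧
      Ideal.absNorm Q'.asIdeal = Ideal.absNorm w.asIdeal := by
  classical
  obtain ⟨Q, Q', hne, hQ, hQ'⟩ := (split_iff q w).1 h
  refine ⟨Q, Q', hne, hQ, hQ', ?_⟩
  set l := Ideal.absNorm w.asIdeal with hl
  have hlw : (l : 𝓞 F) ∈ w.asIdeal := Ideal.absNorm_mem w.asIdeal
  have hmem : ∀ P : HeightOneSpectrum (𝓞 E), below F P = w → (l : 𝓞 E) ∈ P.asIdeal := by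
    intro P hP
    have h1 : (l : 𝓞 F) ∈ (below F P).asIdeal := by rw [hP]; exact hlw
    have h2 : algebraMap (𝓞 F) (𝓞 E) (l : 𝓞 F) ∈ P.asIdeal := h1
    rwa [map_natCast] at h2
  have hdvd : ∀ P : HeightOneSpectrum (𝓞 E), below F P = w →
      P.asIdeal ∣ w.asIdeal.map (algebraMap (𝓞 F) (𝓞 E)) := by
    intro P hP
    rw [Ideal.dvd_iff_le, Ideal.map_le_iff_le_comap]
    have h1 : (below F P).asIdeal = P.asIdeal.comap (algebraMap (𝓞 F) (𝓞 E)) := rfl
    rw [← h1, hP]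
  have h1 : ∏ I ∈ ({Q.asIdeal, Q'.asIdeal} : Finset (Ideal (𝓞 E))), I ∣
      w.asIdeal.map (algebraMap (𝓞 F) (𝓞 E)) := by
    refine Finset.prod_primes_dvd _ ?_ ?_
    · intro I hI
      rcases Finset.mem_insert.1 hI with rfl | hI
      · exact (Ideal.prime_iff_isPrime Q.ne_bot).2 Q.isPrime
      · rw [Finset.mem_singleton.1 hI]
        exact (Ideal.prime_iff_isPrime Q'.ne_bot).2 Q'.isPrime
    · intro I hI
      rcases Finset.mem_insert.1 hI with rfl | hI
      · exact hdvd Q hQ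
      · rw [Finset.mem_singleton.1 hI]
        exact hdvd Q' hQ'
  rw [Finset.prod_pair fun e => hne (HeightOneSpectrum.ext e)] at h1
  have h2 := map_dvd Ideal.absNorm h1
  rw [map_mul, Ideal.absNorm_algebraMap, ← IsFractionRing.finrank_eq (𝓞 F) F (𝓞 E) E, q.finrank.1,
    ← hl] at h2
  obtain ⟨k, hk, hk'⟩ := absNorm_eq_pow hw (hmem Q hQ)
  obtain ⟨m, hm, hm'⟩ := absNorm_eq_pow hw (hmem Q' hQ')
  rw [hk', hm', ← pow_add] at h2
  have h3 := (Nat.pow_dvd_pow_iff_le_right hw.one_lt).1 h2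
  have hk1 : k = 1 := by omega
  have hm1 : m = 1 := by omega
  rw [hk', hm', hk1, hm1, pow_one]
  exact ⟨rfl, rfl⟩

private lemma zt_multiset {α β : Type*} [DecidableEq β] {g₁ g₂ : α → β} {c : β → α} {s t : Multiset α}
    (h1 : ∀ p ∈ s, c (g₁ p) = p) (h1' : ∀ p ∈ s, g₁ (c (g₁ p)) = g₁ p)
    (h2 : ∀ p ∈ t, g₁ (c (g₂ p)) ≠ g₂ p) :
    ((s.map g₁ + t.map g₂).filter fun q => g₁ (c q) = q).map c = s := by
  rw [Multiset.filter_add]
  have e1 : (s.map g₁).filter (fun q => g₁ (c q) = q) = s.map g₁ := by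
    rw [Multiset.filter_eq_self]
    intro q hq
    obtain ⟨p, hp, rfl⟩ := Multiset.mem_map.1 hq
    exact h1' p hp
  have e2 : (t.map g₂).filter (fun q => g₁ (c q) = q) = 0 := by
    rw [Multiset.filter_eq_nil]
    intro q hq
    obtain ⟨p, hp, rfl⟩ := Multiset.mem_map.1 hq
    exact h2 p hp
  rw [e1, e2, add_zero, Multiset.map_map]
  conv_rhs => rw [← Multiset.map_id s]
  exact Multiset.map_congr rfl fun p hp => h1 p hp

theorem zeta_ineq {G : HeightOneSpectrum (𝓞 F) → Prop}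
    (h : ∀ P : HeightOneSpectrum (𝓞 F), G P → ∃ Q₁ Q₂ : HeightOneSpectrum (𝓞 E), Q₁ ≠ Q₂ ∧
      below F Q₁ = P ∧ below F Q₂ = P ∧
      Ideal.absNorm Q₁.asIdeal = Ideal.absNorm P.asIdeal ∧
      Ideal.absNorm Q₂.asIdeal = Ideal.absNorm P.asIdeal) (s : ℝ) :
    ZG F G s * ZG F G s ≤ ZZt E s := by
  classical
  set c : Ideal (𝓞 E) → Ideal (𝓞 F) := fun Q => Q.comap (algebraMap (𝓞 F) (𝓞 E)) with hc
  have hex : ∀ I : Ideal (𝓞 F), ∃ Q : Ideal (𝓞 E) × Ideal (𝓞 E),
      (∃ P : HeightOneSpectrum (𝓞 F), P.asIdeal = I ∧ G P) →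
      Prime Q.1 ∧ Prime Q.2 ∧ Q.1 ≠ Q.2 ∧ c Q.1 = I ∧ c Q.2 = I ∧
      Ideal.absNorm Q.1 = Ideal.absNorm I ∧ Ideal.absNorm Q.2 = Ideal.absNorm I := by
    intro I
    by_cases hI : ∃ P : HeightOneSpectrum (𝓞 F), P.asIdeal = I ∧ G P
    · obtain ⟨P, rfl, hP⟩ := hI
      obtain ⟨Q₁, Q₂, hne, h1, h2, h3, h4⟩ := h P hP
      refine ⟨⟨Q₁.asIdeal, Q₂.asIdeal⟩, fun _ => ⟨?_, ?_, ?_, ?_, ?_, h3, h4⟩⟩
      · exact (Ideal.prime_iff_isPrime Q₁.ne_bot).2 Q₁.isPrime
      · exact (Ideal.prime_iff_isPrime Q₂.ne_bot).2 Q₂.isPrime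
      · exact fun e => hne (HeightOneSpectrum.ext e)
      · rw [← h1]; rfl
      · rw [← h2]; rfl
    · exact ⟨⟨⊥, ⊥⟩, fun h => absurd h hI⟩
  choose g hg using hex
  set S : Type u := {I : Ideal (𝓞 F) // I ≠ ⊥ ∧ ∀ P : HeightOneSpectrum (𝓞 F), P.asIdeal ∣ I → G P}
    with hS
  have hgood : ∀ I : S, ∀ p ∈ normalizedFactors I.1, ∃ P : HeightOneSpectrum (𝓞 F), P.asIdeal = p ∧ G P := by
    intro I p hp
    have hprime : Prime p := prime_of_normalized_factor p hp
    have hp0 : p ≠ ⊥ := hprime.ne_zero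
    have hpp : p.IsPrime := (Ideal.prime_iff_isPrime hp0).1 hprime
    exact ⟨⟨p, hpp, hp0⟩, rfl, I.2.2 ⟨p, hpp, hp0⟩ (dvd_of_mem_normalizedFactors hp)⟩
  set m : S × S → Multiset (Ideal (𝓞 E)) := fun x =>
    (normalizedFactors x.1.1).map (fun p => (g p).1) + (normalizedFactors x.2.1).map (fun p => (g p).2)
    with hm
  have hmp : ∀ x, ∀ q ∈ m x, Prime q := by
    intro x q hq
    rw [hm, Multiset.mem_add] at hq
    rcases hq with hq | hq
    · obtain ⟨p, hp, rfl⟩ := Multiset.mem_map.1 hq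
      exact (hg p (hgood x.1 p hp)).1
    · obtain ⟨p, hp, rfl⟩ := Multiset.mem_map.1 hq
      exact (hg p (hgood x.2 p hp)).2.1
  have hm0 : ∀ x, (m x).prod ≠ ⊥ := by
    intro x
    rw [← Ideal.zero_eq_bot]
    refine Multiset.prod_ne_zero ?_
    intro h0
    exact (hmp x 0 h0).ne_zero rfl
  set Φ : S × S → {I : Ideal (𝓞 E) // I ≠ ⊥} := fun x => ⟨(m x).prod, hm0 x⟩ with hΦ
  have hrec1 : ∀ x, ((m x).filter fun q => (g (c q)).1 = q).map c = normalizedFactors x.1.1 := by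
    intro x
    refine zt_multiset (g₁ := fun p => (g p).1) (g₂ := fun p => (g p).2) ?_ ?_ ?_
    · intro p hp
      exact (hg p (hgood x.1 p hp)).2.2.2.1
    · intro p hp
      show (g (c (g p).1)).1 = (g p).1
      rw [(hg p (hgood x.1 p hp)).2.2.2.1]
    · intro p hp
      show (g (c (g p).2)).1 ≠ (g p).2
      rw [(hg p (hgood x.2 p hp)).2.2.2.2.1]
      exact (hg p (hgood x.2 p hp)).2.2.1
  have hrec2 : ∀ x, ((m x).filter fun q => (g (c q)).2 = q).map c = normalizedFactors x.2.1 := by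
    intro x
    have h0 : m x = (normalizedFactors x.2.1).map (fun p => (g p).2) +
        (normalizedFactors x.1.1).map (fun p => (g p).1) := add_comm _ _
    rw [h0]
    refine zt_multiset (g₁ := fun p => (g p).2) (g₂ := fun p => (g p).1) ?_ ?_ ?_
    · intro p hp
      exact (hg p (hgood x.2 p hp)).2.2.2.2.1
    · intro p hp
      show (g (c (g p).2)).2 = (g p).2
      rw [(hg p (hgood x.2 p hp)).2.2.2.2.1]
    · intro p hp
      show (g (c (g p).1)).2 ≠ (g p).1
      rw [(hg p (hgood x.1 p hp)).2.2.2.1]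
      exact (hg p (hgood x.1 p hp)).2.2.1.symm
  have hinj : Function.Injective Φ := by
    intro x y hxy
    have h1 : (m x).prod = (m y).prod := congrArg Subtype.val hxy
    have h2 : m x = m y := by
      rw [← normalizedFactors_prod_of_prime (hmp x), h1, normalizedFactors_prod_of_prime (hmp y)]
    have h3 : normalizedFactors x.1.1 = normalizedFactors y.1.1 := by
      rw [← hrec1 x, ← hrec1 y, h2]
    have h4 : normalizedFactors x.2.1 = normalizedFactors y.2.1 := by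
      rw [← hrec2 x, ← hrec2 y, h2]
    refine Prod.ext (Subtype.ext ?_) (Subtype.ext ?_)
    · rw [← Ideal.prod_normalizedFactors_eq_self x.1.2.1, h3,
        Ideal.prod_normalizedFactors_eq_self y.1.2.1]
    · rw [← Ideal.prod_normalizedFactors_eq_self x.2.2.1, h4,
        Ideal.prod_normalizedFactors_eq_self y.2.2.1]
  have hnorm : ∀ x, Ideal.absNorm (Φ x).1 = Ideal.absNorm x.1.1 * Ideal.absNorm x.2.1 := by
    intro x
    show Ideal.absNorm (m x).prod = _
    rw [hm, Multiset.prod_add, map_mul, map_multiset_prod, map_multiset_prod, Multiset.map_map,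
      Multiset.map_map]
    congr 1
    · conv_rhs => rw [← Ideal.prod_normalizedFactors_eq_self x.1.2.1, map_multiset_prod]
      congr 1
      exact Multiset.map_congr rfl fun p hp => (hg p (hgood x.1 p hp)).2.2.2.2.2.1
    · conv_rhs => rw [← Ideal.prod_normalizedFactors_eq_self x.2.2.1, map_multiset_prod]
      congr 1
      exact Multiset.map_congr rfl fun p hp => (hg p (hgood x.2 p hp)).2.2.2.2.2.2
  have hprod : ZG F G s * ZG F G s = ∑' x : S × S,
      ENNReal.ofReal ((Ideal.absNorm (Φ x).1 : ℝ) ^ (-s)) := by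
    have h1 : ∀ x : S × S, ENNReal.ofReal ((Ideal.absNorm (Φ x).1 : ℝ) ^ (-s)) =
        ENNReal.ofReal ((Ideal.absNorm x.1.1 : ℝ) ^ (-s)) *
          ENNReal.ofReal ((Ideal.absNorm x.2.1 : ℝ) ^ (-s)) := by
      intro x
      rw [hnorm, Nat.cast_mul, Real.mul_rpow (Nat.cast_nonneg _) (Nat.cast_nonneg _),
        ENNReal.ofReal_mul (by positivity)]
    rw [tsum_congr h1]
    rw [ENNReal.tsum_prod (f := fun (I J : S) => ENNReal.ofReal ((Ideal.absNorm I.1 : ℝ) ^ (-s)) *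
      ENNReal.ofReal ((Ideal.absNorm J.1 : ℝ) ^ (-s)))]
    simp only [ENNReal.tsum_mul_left, ENNReal.tsum_mul_right]
    rfl
  rw [hprod]
  exact ENNReal.tsum_comp_le_tsum_of_injective hinj
    (fun I => ENNReal.ofReal ((Ideal.absNorm I.1 : ℝ) ^ (-s)))

theorem density {F : Type u} [Field F] [NumberField F] {a : Fˣ} (ha : a ∉ sq F)
    (S : Finset (HeightOneSpectrum (𝓞 F))) :
    ∃ w ∉ S, (Ideal.absNorm w.asIdeal).Prime ∧ a ∉ LS w := by
  by_contra hcon
  push Not at hcon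
  obtain ⟨E, _, _, _, ⟨q⟩, -⟩ := exists_qext ha
  set G : HeightOneSpectrum (𝓞 F) → Prop := fun P => (Ideal.absNorm P.asIdeal).Prime ∧ P ∉ S with hG
  obtain ⟨C, hC, h3⟩ := zeta_good (L := F) G (sum_bad S)
  obtain ⟨κ, hκ, hL⟩ := zeta_lim F
  obtain ⟨κ', hκ', hM⟩ := zeta_lim E
  have hine : ∀ s, ZG F G s * ZG F G s ≤ ZZt E s := fun s => zeta_ineq
    (fun P hP => deg_split q hP.1 (hcon P hP.2 hP.1)) s
  have h1 : ∀ s : ℝ, 1 < s → (ZZt F s).toReal * (ZZt F s).toReal ≤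
      C.toReal * C.toReal * (ZZt E s).toReal := by
    intro s hs
    rw [← ENNReal.toReal_mul, ← ENNReal.toReal_mul, ← ENNReal.toReal_mul]
    refine ENNReal.toReal_mono (ENNReal.mul_ne_top (ENNReal.mul_ne_top hC hC) (zeta_fin _ s hs)) ?_
    calc ZZt F s * ZZt F s ≤ (C * ZG F G s) * (C * ZG F G s) := mul_le_mul' (h3 s hs) (h3 s hs)
      _ = C * C * (ZG F G s * ZG F G s) := by ring
      _ ≤ C * C * ZZt E s := mul_le_mul_right (hine s) _
  have h2 : Filter.Tendsto (fun s : ℝ => ((s - 1) * (ZZt F s).toReal) * ((s - 1) * (ZZt F s).toReal))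
      (nhdsWithin 1 (Set.Ioi 1)) (nhds (κ * κ)) := hL.mul hL
  have h4 : Filter.Tendsto (fun s : ℝ => C.toReal * C.toReal *
      ((s - 1) * ((s - 1) * (ZZt E s).toReal))) (nhdsWithin 1 (Set.Ioi 1))
      (nhds (C.toReal * C.toReal * ((1 - 1) * κ'))) := by
    refine Filter.Tendsto.const_mul _ (Filter.Tendsto.mul ?_ hM)
    have : Filter.Tendsto (fun s : ℝ => s - 1) (nhds 1) (nhds (1 - 1)) :=
      (continuous_id.sub continuous_const).tendsto 1
    exact this.mono_left nhdsWithin_le_nhds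
  have h5 : κ * κ ≤ C.toReal * C.toReal * ((1 - 1) * κ') := by
    refine le_of_tendsto_of_tendsto h2 h4 ?_
    filter_upwards [self_mem_nhdsWithin] with s hs
    have hs' : (1 : ℝ) < s := hs
    have h6 := mul_le_mul_of_nonneg_left (h1 s hs') (mul_self_nonneg (s - 1))
    nlinarith [h6]
  have h6 : 0 < κ * κ := mul_pos hκ hκ
  simp at h5
  linarith

/-- The places where a nonzero integer is not a unit are finitely many. -/
theorem finite_mem {N : ℕ} (hN : N ≠ 0) :
    {w : HeightOneSpectrum (𝓞 F) | (N : 𝓞 F) ∈ w.asIdeal}.Finite := by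
  have h0 : Ideal.span {(N : 𝓞 F)} ≠ ⊥ := by
    rw [Ne, Ideal.span_singleton_eq_bot]
    exact_mod_cast hN
  refine (Ideal.finite_factors h0).subset fun w hw => ?_
  rw [Set.mem_ofPred_eq, Ideal.dvd_iff_le, Ideal.span_singleton_le_iff_mem]
  exact hw

/-- `density` with a prime number that does not divide `N`. -/
theorem density_nat {F : Type u} [Field F] [NumberField F] {a : Fˣ} (ha : a ∉ sq F)
    (S : Finset (HeightOneSpectrum (𝓞 F))) {N : ℕ} (hN : N ≠ 0) :
    ∃ (w : HeightOneSpectrum (𝓞 F)) (l : ℕ), w ∉ S ∧ l.Prime ∧ ¬ l ∣ N ∧ (l : 𝓞 F) ∈ w.asIdeal ∧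
      Ideal.absNorm w.asIdeal = l ∧ a ∉ LS w := by
  classical
  obtain ⟨w, hw, hp, h⟩ := density ha (S ∪ (finite_mem (F := F) hN).toFinset)
  rw [Finset.mem_union, not_or, Set.Finite.mem_toFinset] at hw
  refine ⟨w, _, hw.1, hp, fun hd => hw.2 ?_, Ideal.absNorm_mem w.asIdeal, rfl, h⟩
  obtain ⟨k, hk⟩ := hd
  show (N : 𝓞 F) ∈ w.asIdeal
  rw [hk, Nat.cast_mul]
  exact Ideal.mul_mem_right _ _ (Ideal.absNorm_mem w.asIdeal)

end

end Pool.Agent.Work.MP_787500_nt.GA
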