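import Mathlib
import Pool.Agent.Work.MP_787500_nt.GA.CountsD

/-!
# The local degree is multiplied by the index of the decomposition groups

`ld_normal`: `N ≤ H` open, `N` normal: `ld (plc N Q) = ld (plc H Q) * N.relIndex (H ⊓ stabD Q)`.
`ld_index`: the same for all open `H' ≤ H`.
-/

set_option autoImplicit false
set_option linter.unusedSectionVars false

namespace Pool.Agent.Work.MP_787500_nt.GA

open IsDedekindDomain NumberField WithZero
open Pool.Agent.Work.MP_787500_nt.PA (TwoSys Sm1 Sm2 homs Coc Cob Opn)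
open Pool.Agent.Work.MP_787500_nt.GP (sysT stabD Fx GoodT inT subSys)
open Pool.Agent.Work.MP_787500_nt.HN

universe u

theorem ld_mul {F E : Type u} [Field F] [NumberField F] [Field E] [NumberField E] [Algebra F E]
    {v : HeightOneSpectrum (𝓞 F)} {w : HeightOneSpectrum (𝓞 E)}
    (h : w.asIdeal.comap (algebraMap (𝓞 F) (𝓞 E)) = v.asIdeal) :
    ld w = ld v * (w.asIdeal.ramificationIdx (𝓞 F) * w.asIdeal.inertiaDeg (𝓞 F)) := by
  have hlo : w.asIdeal.LiesOver v.asIdeal := ⟨h.symm⟩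
  have hram : v.asIdeal.ramificationIdx' w.asIdeal = w.asIdeal.ramificationIdx (𝓞 F) :=
    Ideal.ramificationIdx'_eq_ramificationIdx v.asIdeal w.asIdeal v.ne_bot
  have hin : v.asIdeal.inertiaDeg' w.asIdeal = w.asIdeal.inertiaDeg (𝓞 F) := by
    have := v.isMaximal
    have := w.isMaximal
    exact Ideal.inertiaDeg'_eq_inertiaDeg v.asIdeal w.asIdeal
  set e := w.asIdeal.ramificationIdx (𝓞 F) with he
  set f := w.asIdeal.inertiaDeg (𝓞 F) with hf
  have h1 := HeightOneSpectrum.valuation_liesOver (K := F) E v w (2 : F)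
  have h0 : algebraMap F E (2 : F) = (2 : E) := map_ofNat _ 2
  rw [hram, h0, val_two, val_two, ← exp_nsmul] at h1
  have h2 : ee w = e * ee v := by
    have h3 := exp_injective h1
    rw [smul_neg, neg_inj, nsmul_eq_mul] at h3
    exact_mod_cast h3.symm
  have h3 : Ideal.absNorm w.asIdeal = Ideal.absNorm v.asIdeal ^ f := by
    rw [← hin]
    exact Ideal.absNorm_eq_pow_inertiaDeg'_of_liesOver w.asIdeal v.asIdeal v.isPrime v.ne_bot
  have h4 : Nat.card (𝓞 E ⧸ w.asIdeal ^ ee w) = Nat.card (𝓞 F ⧸ v.asIdeal ^ ee v) ^ (e * f) := by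
    rw [← Submodule.cardQuot_apply, ← Submodule.cardQuot_apply, ← Ideal.absNorm_apply,
      ← Ideal.absNorm_apply, map_pow, map_pow, h3, h2, ← pow_mul, ← pow_mul]
    congr 1
    ring
  rw [← two_pow_ld, ← two_pow_ld, ← pow_mul] at h4
  exact Nat.pow_right_injective le_rfl h4

variable {K : Type u} [Field K] [NumberField K]

open scoped Pointwise in
/-- primes above the same prime of `Fx W` are conjugate under `W` -/
theorem exists_conjW {W : Subgroup (AbsGal K)} (hW : IsOpen (W : Set (AbsGal K)))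
    [NumberField (Fx W)] {P Q : Ideal (𝓞 (AlgebraicClosure K))} (hP : P.IsPrime) (hQ : Q.IsPrime)
    (h : P.comap (algebraMap (𝓞 (Fx W)) (𝓞 (AlgebraicClosure K))) =
      Q.comap (algebraMap (𝓞 (Fx W)) (𝓞 (AlgebraicClosure K)))) :
    ∃ u ∈ W, ∀ x, x ∈ Q ↔ u⁻¹ • x ∈ P := by
  obtain ⟨g, hg⟩ := exists_smul_eq (F := Fx W) P Q h
  refine ⟨g.restrictScalars K, ?_, fun x => ?_⟩
  · have h1 : g.restrictScalars K ∈ (Fx W).fixingSubgroup := by
      rw [IntermediateField.mem_fixingSubgroup_iff]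
      intro x hx
      exact g.commutes ⟨x, hx⟩
    exact (SetLike.ext_iff.1 (fx_fixing hW) _).1 h1
  · rw [hg, Ideal.mem_pointwise_smul_iff_inv_smul_mem]
    rfl

open scoped Pointwise in
theorem ld_normal {N H : Subgroup (AbsGal K)} (hN : N.Normal) (hNo : IsOpen (N : Set (AbsGal K)))
    (hNH : N ≤ H) [NumberField (Fx N)] [NumberField (Fx H)]
    {Q : Ideal (𝓞 (AlgebraicClosure K))} (hQ : Q.IsPrime) (hb : Q ≠ ⊥) :
    ld (plc N Q hQ hb) = ld (plc H Q hQ hb) * N.relIndex (H ⊓ stabD Q) := by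
  have hHo : IsOpen (H : Set (AbsGal K)) := Subgroup.isOpen_mono hNH hNo
  have hle : Fx H ≤ Fx N := IntermediateField.fixedField_le hNH
  let _ : Algebra (Fx H) (Fx N) := (IntermediateField.inclusion hle).toRingHom.toAlgebra
  have hal : ∀ x : Fx H, ((algebraMap (Fx H) (Fx N) x : Fx N) : AlgebraicClosure K) = x :=
    fun x => rfl
  have hst : IsScalarTower K (Fx H) (Fx N) := IsScalarTower.of_algebraMap_eq fun x => rfl
  have hst2 : IsScalarTower (Fx H) (Fx N) (AlgebraicClosure K) :=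
    IsScalarTower.of_algebraMap_eq fun x => rfl
  have hgalK : IsGalois K (Fx N) := by
    rw [← InfiniteGalois.normal_iff_isGalois, fx_fixing hNo]
    exact hN
  have hgal : IsGalois (Fx H) (Fx N) := IsGalois.tower_top_of_isGalois K (Fx H) (Fx N)
  have hD : H ⊓ stabD Q ≤ (Fx H).fixingSubgroup := by
    rw [fx_fixing hHo]
    exact inf_le_left
  let ρ : (H ⊓ stabD Q : Subgroup (AbsGal K)) →* (Fx N ≃ₐ[Fx H] Fx N) :=
    (AlgEquiv.restrictNormalHom (Fx N)).comp
      ((IntermediateField.fixingSubgroupEquiv (Fx H)).toMonoidHom.comp (Subgroup.inclusion hD))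
  have hρ : ∀ σ x, ((ρ σ x : Fx N) : AlgebraicClosure K) = (σ : AbsGal K) (x : AlgebraicClosure K) :=
    fun σ x => AlgEquiv.restrictNormal_commutes
      (IntermediateField.fixingSubgroupEquiv (Fx H) (Subgroup.inclusion hD σ)) (Fx N) x
  have hmemN : ∀ g : AbsGal K, g ∈ N ↔ ∀ x ∈ Fx N, g x = x := by
    intro g
    have h1 := SetLike.ext_iff.1 (fx_fixing hNo) g
    rw [← h1, IntermediateField.mem_fixingSubgroup_iff]
  -- the kernel
  have hker : ρ.ker = N.subgroupOf (H ⊓ stabD Q) := by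
    ext σ
    rw [MonoidHom.mem_ker, Subgroup.mem_subgroupOf, hmemN]
    constructor
    · intro h x hx
      have h1 := hρ σ ⟨x, hx⟩
      rw [h] at h1
      exact h1.symm
    · intro h
      ext x
      rw [hρ σ x]
      exact h x x.2
  set w := plc N Q hQ hb with hw
  have hmemw : ∀ y : 𝓞 (Fx N), y ∈ w.asIdeal ↔
      algebraMap (𝓞 (Fx N)) (𝓞 (AlgebraicClosure K)) y ∈ Q := fun y => Iff.rfl
  have hρO : ∀ (σ : (H ⊓ stabD Q : Subgroup (AbsGal K))) (y : 𝓞 (Fx N)),
      algebraMap (𝓞 (Fx N)) (𝓞 (AlgebraicClosure K)) (ρ σ • y) =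
        (σ : AbsGal K) • algebraMap (𝓞 (Fx N)) (𝓞 (AlgebraicClosure K)) y :=
    fun σ y => RingOfIntegers.ext (hρ σ y)
  -- the image
  have hrange : ρ.range = MulAction.stabilizer (Fx N ≃ₐ[Fx H] Fx N) w.asIdeal := by
    ext τ
    constructor
    · rintro ⟨σ, rfl⟩
      rw [MulAction.mem_stabilizer_iff]
      ext y
      rw [Ideal.mem_pointwise_smul_iff_inv_smul_mem, ← map_inv, hmemw, hmemw, hρO]
      have h1 := (σ.2.2 : (σ : AbsGal K) ∈ stabD Q)
      have h2 := (stabD Q).inv_mem h1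
      exact (h2 _).symm
    · intro hτ
      rw [MulAction.mem_stabilizer_iff] at hτ
      obtain ⟨σ₀, hσ₀⟩ := AlgEquiv.restrictNormalHom_surjective (F := Fx H) (K₁ := Fx N)
        (AlgebraicClosure K) τ
      have hσ₀' : ∀ x : Fx N, σ₀ (x : AlgebraicClosure K) = ((τ x : Fx N) : AlgebraicClosure K) := by
        intro x
        rw [← hσ₀]
        exact (AlgEquiv.restrictNormal_commutes σ₀ (Fx N) x).symm
      -- `σ₁` as an element of the absolute Galois group
      set σ₁ : AbsGal K := σ₀.restrictScalars K with hσ₁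
      have hσ₁x : ∀ x, σ₁ x = σ₀ x := fun x => rfl
      have hσ₁H : σ₁ ∈ H := by
        have h1 : σ₁ ∈ (Fx H).fixingSubgroup := by
          rw [IntermediateField.mem_fixingSubgroup_iff]
          intro x hx
          exact σ₀.commutes ⟨x, hx⟩
        exact (SetLike.ext_iff.1 (fx_fixing hHo) _).1 h1
      have hσO : ∀ y : 𝓞 (Fx N), σ₁ • algebraMap (𝓞 (Fx N)) (𝓞 (AlgebraicClosure K)) y =
          algebraMap (𝓞 (Fx N)) (𝓞 (AlgebraicClosure K)) (τ • y) :=
        fun y => RingOfIntegers.ext (hσ₀' y)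
      -- the prime `σ₁⁻¹ Q` is above `w`
      obtain ⟨u, hu, hux⟩ := exists_conjW hNo (P := σ₁ • Q) (Q := Q) (by
        have := hQ
        infer_instance) hQ (by
        ext y
        rw [Ideal.mem_comap, Ideal.mem_comap, Ideal.mem_pointwise_smul_iff_inv_smul_mem]
        have h3 : σ₁⁻¹ • algebraMap (𝓞 (Fx N)) (𝓞 (AlgebraicClosure K)) y =
            algebraMap (𝓞 (Fx N)) (𝓞 (AlgebraicClosure K)) (τ⁻¹ • y) := by
          rw [inv_smul_eq_iff, hσO, smul_inv_smul]
        rw [h3, ← hmemw, ← hmemw]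
        have h4 : y ∈ τ • w.asIdeal ↔ y ∈ w.asIdeal := by rw [hτ]
        rw [Ideal.mem_pointwise_smul_iff_inv_smul_mem] at h4
        exact h4)
      have hmD : u * σ₁ ∈ stabD Q := by
        rw [GP.mem_stabD]
        intro x
        have h5 := hux ((u * σ₁) • x)
        rw [Ideal.mem_pointwise_smul_iff_inv_smul_mem, mul_smul, inv_smul_smul, inv_smul_smul] at h5
        rw [mul_smul]
        exact h5.symm
      refine ⟨⟨u * σ₁, H.mul_mem (hNH hu) hσ₁H, hmD⟩, ?_⟩
      ext x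
      rw [hρ]
      show u (σ₁ (x : AlgebraicClosure K)) = _
      rw [hσ₁x, hσ₀']
      exact (hmemN u).1 hu _ (τ x).2
  have hlie : w.asIdeal.LiesOver (plc H Q hQ hb).asIdeal := ⟨by
    ext y
    rfl⟩
  have hc := Ideal.card_stabilizer_eq (G := (Fx N ≃ₐ[Fx H] Fx N)) (plc H Q hQ hb).asIdeal w.asIdeal
  rw [Ideal.ramificationIdxIn_eq_ramificationIdx _ w.asIdeal (Fx N ≃ₐ[Fx H] Fx N),
    Ideal.inertiaDegIn_eq_inertiaDeg _ w.asIdeal (Fx N ≃ₐ[Fx H] Fx N), ← hrange] at hc
  have h1 : ρ.ker.index = Nat.card ρ.range := Subgroup.index_ker ρ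
  rw [hker] at h1
  have h2 := ld_mul (v := plc H Q hQ hb) (w := w) (by
    ext y
    rfl)
  rw [h2, ← hc, ← h1]
  rfl

/-- The local degree is multiplied by the index of the decomposition groups. -/
theorem ld_index {H' H : Subgroup (AbsGal K)} (hH' : IsOpen (H' : Set (AbsGal K)))
    (hle : H' ≤ H) [NumberField (Fx H')] [NumberField (Fx H)]
    {Q : Ideal (𝓞 (AlgebraicClosure K))} (hQ : Q.IsPrime) (hb : Q ≠ ⊥) :
    ld (plc H' Q hQ hb) = ld (plc H Q hQ hb) * H'.relIndex (H ⊓ stabD Q) := by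
  have hq := Subgroup.quotient_finite_of_isOpen H' hH'
  have hfi : H'.FiniteIndex := Subgroup.finiteIndex_of_finite_quotient
  have hfi2 : H'.normalCore.FiniteIndex := Subgroup.finiteIndex_normalCore _
  have hcl : IsClosed (H'.normalCore : Set (AbsGal K)) :=
    Subgroup.normalCore_isClosed H' (Subgroup.isClosed_of_isOpen _ hH')
  have hNo : IsOpen (H'.normalCore : Set (AbsGal K)) :=
    Subgroup.isOpen_of_isClosed_of_finiteIndex _ hcl
  set N := H'.normalCore with hN
  have hNn : N.Normal := Subgroup.normalCore_normal _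
  have hNH' : N ≤ H' := Subgroup.normalCore_le _
  have nN : NumberField (Fx N) := fx_numberField hNo
  have h1 := ld_normal hNn hNo hNH' hQ hb
  have h2 := ld_normal hNn hNo (hNH'.trans hle) hQ hb
  rw [h2] at h1
  have e1 : N.relIndex (H' ⊓ stabD Q) = (N ⊓ stabD Q).relIndex (H' ⊓ stabD Q) := by
    rw [← Subgroup.inf_relIndex_right N]
    congr 1
    ext x
    constructor
    · rintro ⟨h, h', h''⟩
      exact ⟨h, h''⟩
    · rintro ⟨h, h'⟩
      exact ⟨h, hNH' h, h'⟩
  have e2 : N.relIndex (H ⊓ stabD Q) = (N ⊓ stabD Q).relIndex (H ⊓ stabD Q) := by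
    rw [← Subgroup.inf_relIndex_right N]
    congr 1
    ext x
    constructor
    · rintro ⟨h, h', h''⟩
      exact ⟨h, h''⟩
    · rintro ⟨h, h'⟩
      exact ⟨h, hle (hNH' h), h'⟩
  have e3 : H'.relIndex (H ⊓ stabD Q) = (H' ⊓ stabD Q).relIndex (H ⊓ stabD Q) := by
    rw [← Subgroup.inf_relIndex_right H']
    congr 1
    ext x
    constructor
    · rintro ⟨h, h', h''⟩
      exact ⟨h, h''⟩
    · rintro ⟨h, h'⟩
      exact ⟨h, hle h, h'⟩
  have e4 : (N ⊓ stabD Q).relIndex (H' ⊓ stabD Q) * (H' ⊓ stabD Q).relIndex (H ⊓ stabD Q) =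
      (N ⊓ stabD Q).relIndex (H ⊓ stabD Q) :=
    Subgroup.relIndex_mul_relIndex _ _ _ (inf_le_inf_right _ hNH') (inf_le_inf_right _ hle)
  have hne : (N ⊓ stabD Q).relIndex (H' ⊓ stabD Q) ≠ 0 := by
    rw [← e1]
    intro h0
    have h3 : N.relIndex (H' ⊓ stabD Q) ∣ N.index := Subgroup.relIndex_dvd_index_of_normal _ _
    rw [h0] at h3
    exact hfi2.index_ne_zero (Nat.eq_zero_of_zero_dvd h3)
  rw [e1, e2, ← e4] at h1
  rw [e3]
  have h5 : (N ⊓ stabD Q).relIndex (H' ⊓ stabD Q) * ld (plc H' Q hQ hb) =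
      (N ⊓ stabD Q).relIndex (H' ⊓ stabD Q) *
        (ld (plc H Q hQ hb) * (H' ⊓ stabD Q).relIndex (H ⊓ stabD Q)) := by
    rw [mul_comm, ← h1]
    ring
  exact Nat.eq_of_mul_eq_mul_left (Nat.pos_of_ne_zero hne) h5

end Pool.Agent.Work.MP_787500_nt.GA
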