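import Mathlib
import Pool.Agent.Work.MP_787500_nt.GA.CountsD
import Pool.Agent.Work.MP_787500_nt.GA.Kum
import Pool.Agent.Work.MP_787500_nt.HN.CardTwo

/-!
# Local counts for the places of the base field, and their sum

`finrank (homs (subSys (stabD Q)) C) = ld v * C.index + 2` for the place `v` of `K` below `Q` (`countsK`); the sum of
`ld v` over the places above 2 is the degree of `K` (`sum_ld`).
-/

set_option autoImplicit false
set_option linter.unusedSectionVars false

namespace Pool.Agent.Work.MP_787500_nt.GA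

open IsDedekindDomain NumberField WithZero
open Pool.Agent.Work.MP_787500_nt.PA (TwoSys Sm1 Sm2 homs Coc Cob Opn)
open Pool.Agent.Work.MP_787500_nt.GP (sysT stabD Fx GoodT inT subSys)
open Pool.Agent.Work.MP_787500_nt.HN

universe u

variable {K : Type u} [Field K] [NumberField K]

private theorem zmod_ne' {a : ZMod 2} (h : a ≠ 0) : a = 1 := by
  revert a
  decide

private theorem top_opn {G : Type*} [Group G] (S : TwoSys G) : Opn S ⊤ := by
  obtain ⟨W, hW⟩ := S.ex
  exact ⟨W, hW, le_top⟩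

private noncomputable def kchi (Q : Ideal (𝓞 (AlgebraicClosure K))) (x : Kˣ) : stabD Q → ZMod 2 :=
  fun d => chi x (d : AbsGal K)

private theorem exists_sqrt (x : K) : ∃ t : AlgebraicClosure K, t ^ 2 = algebraMap K _ x :=
  ⟨_, GP.rt_sq _⟩

private theorem kchi_mem (Q : Ideal (𝓞 (AlgebraicClosure K))) (x : Kˣ) :
    kchi Q x ∈ homs (subSys (stabD Q)) ⊤ := by
  obtain ⟨t, ht⟩ := exists_sqrt (x : K)
  refine homs_subSys (top_opn _) (fun d hd => absurd trivial hd) (fun d _ e _ => ?_)
    ⟨MulAction.stabilizer (AbsGal K) t, stabilizer_isOpen_of_isIntegral _, fun d _ hd => ?_⟩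
  · exact chi_hom x d e
  · exact (chi_eq_zero_iff_root ht d).2 hd

/-- The number of homomorphisms of the decomposition group of `Q`. -/
theorem card_locK {Q : Ideal (𝓞 (AlgebraicClosure K))} (hQ : Q.IsPrime) (hb : Q ≠ ⊥)
    {v : HeightOneSpectrum (𝓞 K)}
    (hQv : Q.comap (algebraMap (𝓞 K) (𝓞 (AlgebraicClosure K))) = v.asIdeal) :
    Nat.card (homs (subSys (stabD Q)) ⊤) = (LS v).index := by
  classical
  let Ψ : Kˣ →* Multiplicative (homs (subSys (stabD Q)) (⊤ : Subgroup (stabD Q))) :=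
    { toFun := fun x => Multiplicative.ofAdd ⟨kchi Q x, kchi_mem Q x⟩
      map_one' := by
        apply Multiplicative.toAdd.injective
        apply Subtype.ext
        funext d
        exact congrFun chi_one (d : AbsGal K)
      map_mul' := by
        intro x y
        apply Multiplicative.toAdd.injective
        apply Subtype.ext
        funext d
        exact congrFun (chi_mul x y) (d : AbsGal K) }
  have hker : Ψ.ker = LS v := by
    ext x
    rw [MonoidHom.mem_ker, ← chi_loc hQ hb hQv]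
    constructor
    · intro h g hg
      have h1 := congrArg (fun z : Multiplicative (homs (subSys (stabD Q)) (⊤ : Subgroup (stabD Q))) =>
        ((Multiplicative.toAdd z : homs (subSys (stabD Q)) (⊤ : Subgroup (stabD Q))) :
          stabD Q → ZMod 2)) h
      exact congrFun h1 ⟨g, hg⟩
    · intro h
      apply Multiplicative.toAdd.injective
      apply Subtype.ext
      funext d
      exact h d d.2
  have hsurj : Function.Surjective Ψ := by
    intro ω
    obtain ⟨⟨W, ⟨⟨U, hU, hUW⟩, -⟩, hsm⟩, -, hmul⟩ := (Multiplicative.toAdd ω).2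
    set ψ : stabD Q → ZMod 2 := ((Multiplicative.toAdd ω :
      homs (subSys (stabD Q)) (⊤ : Subgroup (stabD Q))) : stabD Q → ZMod 2) with hψ
    let lam : AbsGal K → ZMod 2 := fun g => if h : g ∈ stabD Q then ψ ⟨g, h⟩ else 0
    have hlam : ∀ (g : AbsGal K) (h : g ∈ stabD Q), lam g = ψ ⟨g, h⟩ := fun g h => dif_pos h
    have hone : ψ 1 = 0 := by
      have := hmul 1 (Subgroup.mem_top _) 1 (Subgroup.mem_top _)
      rw [mul_one] at this
      simpa using this
    obtain ⟨t, ht0, ht1, ht2⟩ := GP.exists_kum (C := stabD Q) (GP.stabD_closed Q) lam (by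
      intro g hg h hh
      rw [hlam g hg, hlam h hh, hlam (g * h) ((stabD Q).mul_mem hg hh)]
      exact hmul ⟨g, hg⟩ (Subgroup.mem_top _) ⟨h, hh⟩ (Subgroup.mem_top _))
      ⟨U, hU, by
        intro g hg
        rw [hlam g hg.1]
        have h1 : (⟨g, hg.1⟩ : stabD Q) ∈ W := hUW (Subgroup.mem_subgroupOf.2 hg.2)
        have h2 := hsm 1 _ h1
        rwa [one_mul, hone] at h2⟩
    have hopen : IsOpen ((⊤ : Subgroup (AbsGal K)) : Set (AbsGal K)) := isOpen_univ
    have hNF : NumberField (Fx (⊤ : Subgroup (AbsGal K))) := fx_numberField hopen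
    obtain ⟨x, hx⟩ := exists_root hopen hQ hb ht0 fun g hg _ => ht1 g hg
    obtain ⟨y, hy⟩ := mem_base_of_fixed (F := K) (Ω := AlgebraicClosure K)
      (x := ((x : Fx (⊤ : Subgroup (AbsGal K))) : AlgebraicClosure K))
      (fun σ => GP.mem_Fx.1 (x : Fx (⊤ : Subgroup (AbsGal K))).2 σ trivial)
    have hy0 : y ≠ 0 := by
      rintro rfl
      rw [map_zero] at hy
      exact x.ne_zero (ZeroMemClass.coe_eq_zero.1 hy.symm)
    refine ⟨Units.mk0 y hy0, ?_⟩
    apply Multiplicative.toAdd.injective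
    apply Subtype.ext
    funext d
    obtain ⟨t', ht'⟩ := exists_sqrt ((Units.mk0 y hy0 : Kˣ) : K)
    have h1 : kchi Q (Units.mk0 y hy0) d = 0 ↔ ψ d = 0 := by
      show chi (Units.mk0 y hy0) (d : AbsGal K) = 0 ↔ _
      rw [chi_eq_zero_iff_root ht', hx t' (by rw [ht', Units.val_mk0, hy]) d d.2 trivial,
        ← ht2 d d.2, hlam d d.2]
    show kchi Q (Units.mk0 y hy0) d = ψ d
    by_cases h3 : ψ d = 0
    · rw [h3, h1.2 h3]
    · rw [zmod_ne' h3, zmod_ne' fun h => h3 (h1.1 h)]
  have h1 : Ψ.ker.index = Nat.card Ψ.range := Subgroup.index_ker Ψ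
  rw [MonoidHom.range_eq_top.2 hsurj, Subgroup.card_top, hker] at h1
  have h3 : Nat.card (Multiplicative (homs (subSys (stabD Q)) (⊤ : Subgroup (stabD Q)))) =
      Nat.card (homs (subSys (stabD Q)) (⊤ : Subgroup (stabD Q))) :=
    Nat.card_congr Multiplicative.toAdd
  rw [← h3, ← h1]

/-- The count for all open subgroups of a decomposition group. -/
theorem countsK {Q : Ideal (𝓞 (AlgebraicClosure K))} (hQ : Q.IsPrime) (hb : Q ≠ ⊥)
    {v : HeightOneSpectrum (𝓞 K)}
    (hQv : Q.comap (algebraMap (𝓞 K) (𝓞 (AlgebraicClosure K))) = v.asIdeal)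
    : CountsD (subSys (stabD Q)) (ld v) := by
  have hopen : IsOpen ((⊤ : Subgroup (AbsGal K)) : Set (AbsGal K)) := isOpen_univ
  have hNF : NumberField (Fx (⊤ : Subgroup (AbsGal K))) := fx_numberField hopen
  have hd := countsD (D := stabD Q) hQ hb hopen fun g => by simp
  set d := ld (plc (⊤ : Subgroup (AbsGal K)) Q hQ hb)
  have htop := hd ⊤ (top_opn _)
  have := htop.1
  have h1 := card_locK hQ hb hQv
  have h4 := Module.natCard_eq_pow_finrank (K := ZMod 2)
    (V := homs (subSys (stabD Q)) (⊤ : Subgroup (stabD Q)))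
  rw [h1, card_LS, Nat.card_zmod, ← two_pow_ld v, htop.2, Subgroup.index_top, mul_one] at h4
  have h5 : 4 * 2 ^ ld v = 2 ^ (ld v + 2) := by
    rw [pow_add]
    ring
  rw [h5] at h4
  have h6 := Nat.pow_right_injective le_rfl h4
  have h7 : ld v = d := by omega
  rw [h7]
  exact hd

theorem finrank_locK {Q : Ideal (𝓞 (AlgebraicClosure K))} (hQ : Q.IsPrime) (hb : Q ≠ ⊥)
    {v : HeightOneSpectrum (𝓞 K)}
    (hQv : Q.comap (algebraMap (𝓞 K) (𝓞 (AlgebraicClosure K))) = v.asIdeal) :
    Module.finrank (ZMod 2) (homs (subSys (stabD Q)) ⊤) = ld v + 2 := by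
  rw [(countsK hQ hb hQv ⊤ (top_opn _)).2, Subgroup.index_top, mul_one]

theorem localType_K {Q : Ideal (𝓞 (AlgebraicClosure K))} (hQ : Q.IsPrime) (hb : Q ≠ ⊥) :
    PA.LocalType (subSys (stabD Q)) := by
  have hopen : IsOpen ((⊤ : Subgroup (AbsGal K)) : Set (AbsGal K)) := isOpen_univ
  exact localType_D (D := stabD Q) hQ hb hopen fun g => by simp

theorem sum_ld {A : Finset (HeightOneSpectrum (𝓞 K))} (hA : Dy A) :
    ∑ w ∈ A, ld w = Module.finrank ℚ K := by
  have h := prod_card_two hA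
  have h1 : ∏ w ∈ A, Nat.card (𝓞 K ⧸ w.asIdeal ^ ee w) = ∏ w ∈ A, 2 ^ ld w :=
    Finset.prod_congr rfl fun w _ => (two_pow_ld w).symm
  rw [h1, Finset.prod_pow_eq_pow_sum] at h
  exact Nat.pow_right_injective le_rfl h

/-- The sum of the local dimensions. -/
theorem sum_loc {A : Finset (HeightOneSpectrum (𝓞 K))} (hA : Dy A)
    (P : HeightOneSpectrum (𝓞 K) → Ideal (𝓞 (AlgebraicClosure K)))
    (hP : ∀ v ∈ A, (P v).IsPrime ∧ P v ≠ ⊥ ∧
      (P v).comap (algebraMap (𝓞 K) (𝓞 (AlgebraicClosure K))) = v.asIdeal) :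
    ∑ v ∈ A, Module.finrank (ZMod 2) (homs (subSys (stabD (P v))) ⊤) =
      Module.finrank ℚ K + 2 * A.card := by
  rw [Finset.sum_congr rfl fun v hv => finrank_locK (hP v hv).1 (hP v hv).2.1 (hP v hv).2.2,
    Finset.sum_add_distrib, sum_ld hA, Finset.sum_const, smul_eq_mul, mul_comm]

end Pool.Agent.Work.MP_787500_nt.GA
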