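import Mathlib
import Pool.Agent.Work.MP_787500_nt.GA.LdIdx
import Pool.Agent.Work.MP_787500_nt.GA.SumLoc
import Pool.Agent.Work.MP_787500_nt.GA.OmLoc
import Pool.Agent.Work.MP_787500_nt.GA.Core
import Pool.Agent.Work.MP_787500_nt.GA.Density
import Pool.Agent.Work.MP_787500_nt.KR.UDefs
import Pool.Agent.Work.MP_787500_nt.HP.Splt

/-!
# The counts for all open subgroups of decomposition groups

`countsF_K`: `KR.CountsF (fullD (stabD Q)) (ld v)`; `countsF_Q`: `KR.CountsF (fullC (stb Q)) d`, `d = 1` if `Q` contains 2, else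
`d = 0`; `countsF_split`: `KR.CountsF (fullD (stabD (pb α Q))) d` if `stb Q ≤ range (emb α)`.
-/

set_option autoImplicit false
set_option linter.unusedSectionVars false

namespace Pool.Agent.Work.MP_787500_nt.GA

open IsDedekindDomain NumberField WithZero
open Pool.Agent.Work.MP_787500_nt.PA (TwoSys Sm1 Sm2 homs Coc Cob LocalType)
open Pool.Agent.Work.MP_787500_nt.GP (sysT stabD Fx GoodT inT subSys)
open Pool.Agent.Work.MP_787500_nt.HN
open Pool.Agent.Work.MP_787500_nt.HP
open Pool.Agent.Work.MP_787500_nt.KR (FSys two res fullK fullQ fullD fullC CountsF)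

universe u

theorem two_res_mem {G : Type*} [Group G] {F : FSys G} {C : Subgroup G} {V : Subgroup C} :
    (two (res F C)).mem V ↔ V.Normal ∧ (∃ W, F.mem W ∧ W.subgroupOf C ≤ V) ∧
      ∃ k : ℕ, V.index = 2 ^ k := by
  constructor
  · rintro ⟨h1, ⟨V₁, ⟨-, W, hW, h2⟩, h3⟩, h4⟩
    exact ⟨h1, ⟨W, hW, h2.trans h3⟩, h4⟩
  · rintro ⟨h1, ⟨W, hW, h2⟩, h4⟩
    exact ⟨h1, ⟨V, ⟨h1, W, hW, h2⟩, le_rfl⟩, h4⟩

section iso

variable {D D' : Type*} [Group D] [Group D'] {F : FSys D} {F' : FSys D'} (e : D ≃* D')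
  (h : ∀ W : Subgroup D', F.mem (W.comap (e : D →* D')) ↔ F'.mem W)

include h

theorem two_res_iso {C : Subgroup D} {C' : Subgroup D'} (f : C ≃* C')
    (hf : ∀ c : C, ((f c : C') : D') = e c) (V : Subgroup C') :
    (two (res F C)).mem (V.comap (f : C →* C')) ↔ (two (res F' C')).mem V := by
  have hmap : (V.comap (f : C →* C')).map (f : C →* C') = V :=
    Subgroup.map_comap_eq_self_of_surjective f.surjective V
  have hnorm : (V.comap (f : C →* C')).Normal ↔ V.Normal := by
    constructor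
    · intro h1
      rw [← hmap]
      exact Subgroup.Normal.map h1 _ f.surjective
    · intro h1
      infer_instance
  have hidx : (V.comap (f : C →* C')).index = V.index :=
    Subgroup.index_comap_of_surjective V f.surjective
  rw [two_res_mem, two_res_mem, hnorm, hidx]
  have hsymm : ∀ W : Subgroup D, F'.mem (W.comap (e.symm : D' →* D)) ↔ F.mem W := by
    intro W
    rw [← h]
    have : (W.comap (e.symm : D' →* D)).comap (e : D →* D') = W := by
      ext x
      simp [Subgroup.mem_comap]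
    rw [this]
  constructor
  · rintro ⟨h1, ⟨W, hW, h2⟩, h3⟩
    refine ⟨h1, ⟨_, (hsymm W).2 hW, fun c hc => ?_⟩, h3⟩
    obtain ⟨x, rfl⟩ := f.surjective c
    rw [Subgroup.mem_subgroupOf, Subgroup.mem_comap] at hc
    have hx : (x : D) ∈ W := by
      rw [hf] at hc
      simpa using hc
    exact h2 (Subgroup.mem_subgroupOf.2 hx)
  · rintro ⟨h1, ⟨W, hW, h2⟩, h3⟩
    refine ⟨h1, ⟨_, (h W).2 hW, fun c hc => ?_⟩, h3⟩
    rw [Subgroup.mem_comap]
    apply h2
    rw [Subgroup.mem_subgroupOf] at hc ⊢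
    show ((f c : C') : D') ∈ W
    rw [hf]
    exact hc

theorem countsF_iso {d : ℕ} (H : CountsF F' d) : CountsF F d := by
  rintro C ⟨W, hW, hWC⟩
  set C' : Subgroup D' := C.map (e : D →* D') with hC'
  have hidx : C'.index = C.index := by
    rw [hC', Subgroup.map_equiv_eq_comap_symm]
    exact Subgroup.index_comap_of_surjective C e.symm.surjective
  have hWm : F'.mem (W.map (e : D →* D')) := by
    rw [← h]
    have : (W.map (e : D →* D')).comap (e : D →* D') = W :=
      Subgroup.comap_map_eq_self_of_injective e.injective W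
    rw [this]
    exact hW
  obtain ⟨h1, h2⟩ := H C' ⟨_, hWm, Subgroup.map_mono hWC⟩
  let f : C ≃* C' := C.equivMapOfInjective (e : D →* D') e.injective
  have hs := two_res_iso e h f (fun c => rfl)
  have l := homsIso f hs ⊤
  rw [Subgroup.comap_top] at l
  exact ⟨l.symm.finiteDimensional, by rw [← hidx, ← h2]; exact l.finrank_eq⟩

end iso

section fullD

variable {K : Type u} [Field K] [NumberField K]

theorem two_res_fullD {D : Subgroup (AbsGal K)} {C : Subgroup D} {C' : Subgroup (AbsGal K)}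
    (f : C ≃* C') (hf : ∀ c : C, ((f c : C') : AbsGal K) = ((c : D) : AbsGal K)) (V : Subgroup C') :
    (two (res (fullD D) C)).mem (V.comap (f : C →* C')) ↔ (subSys C').mem V := by
  have hmap : (V.comap (f : C →* C')).map (f : C →* C') = V :=
    Subgroup.map_comap_eq_self_of_surjective f.surjective V
  have hnorm : (V.comap (f : C →* C')).Normal ↔ V.Normal := by
    constructor
    · intro h1
      rw [← hmap]
      exact Subgroup.Normal.map h1 _ f.surjective
    · intro h1
      infer_instance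
  have hidx : (V.comap (f : C →* C')).index = V.index :=
    Subgroup.index_comap_of_surjective V f.surjective
  rw [two_res_mem, hnorm, hidx]
  constructor
  · rintro ⟨h1, ⟨W, ⟨-, -, U, hU, hUW⟩, h2⟩, h3⟩
    refine ⟨⟨U, hU, fun c hc => ?_⟩, h1, h3⟩
    obtain ⟨x, rfl⟩ := f.surjective c
    rw [Subgroup.mem_subgroupOf, hf] at hc
    exact h2 (Subgroup.mem_subgroupOf.2 (hUW (Subgroup.mem_subgroupOf.2 hc)))
  · rintro ⟨⟨U, hU, hUV⟩, h1, h3⟩
    have hq := Subgroup.quotient_finite_of_isOpen U hU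
    have hfi : U.FiniteIndex := Subgroup.finiteIndex_of_finite_quotient
    have hfi2 : U.normalCore.FiniteIndex := Subgroup.finiteIndex_normalCore _
    have hcl : IsClosed (U.normalCore : Set (AbsGal K)) :=
      Subgroup.normalCore_isClosed U (Subgroup.isClosed_of_isOpen _ hU)
    have hNo : IsOpen (U.normalCore : Set (AbsGal K)) :=
      Subgroup.isOpen_of_isClosed_of_finiteIndex _ hcl
    refine ⟨h1, ⟨U.normalCore.subgroupOf D, ⟨inferInstance, ?_, U.normalCore, hNo, le_rfl⟩,
      fun c hc => ?_⟩, h3⟩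
    · intro h0
      have h4 : U.normalCore.relIndex D ∣ U.normalCore.index :=
        Subgroup.relIndex_dvd_index_of_normal _ _
      rw [show U.normalCore.relIndex D = 0 from h0] at h4
      exact hfi2.index_ne_zero (Nat.eq_zero_of_zero_dvd h4)
    · rw [Subgroup.mem_comap]
      apply hUV
      rw [Subgroup.mem_subgroupOf] at hc ⊢
      rw [Subgroup.mem_subgroupOf] at hc
      show ((f c : C') : AbsGal K) ∈ U
      rw [hf]
      exact Subgroup.normalCore_le _ hc

/-- an open subgroup of a decomposition group is cut out by an open subgroup -/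
theorem exists_cutK {D : Subgroup (AbsGal K)} {C : Subgroup D} (hC : KR.Opn (fullD D) C) :
    ∃ H₀ : Subgroup (AbsGal K), IsOpen (H₀ : Set (AbsGal K)) ∧ H₀.subgroupOf D = C := by
  obtain ⟨W, ⟨hWn, -, U, hU, hUW⟩, hWC⟩ := hC
  have hq := Subgroup.quotient_finite_of_isOpen U hU
  have hfi : U.FiniteIndex := Subgroup.finiteIndex_of_finite_quotient
  have hfi2 : U.normalCore.FiniteIndex := Subgroup.finiteIndex_normalCore _
  have hcl : IsClosed (U.normalCore : Set (AbsGal K)) :=
    Subgroup.normalCore_isClosed U (Subgroup.isClosed_of_isOpen _ hU)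
  have hNo : IsOpen (U.normalCore : Set (AbsGal K)) :=
    Subgroup.isOpen_of_isClosed_of_finiteIndex _ hcl
  refine ⟨C.map D.subtype ⊔ U.normalCore, Subgroup.isOpen_mono le_sup_right hNo, ?_⟩
  ext d
  rw [Subgroup.mem_subgroupOf, Subgroup.mem_sup_of_normal_right]
  constructor
  · rintro ⟨y, ⟨c, hc, rfl⟩, n, hn, h⟩
    have h1 : n = ((c⁻¹ * d : D) : AbsGal K) := by
      rw [Subgroup.coe_mul, Subgroup.coe_inv, ← h]
      simp
    have h2 : c⁻¹ * d ∈ C := hWC (hUW (Subgroup.mem_subgroupOf.2 (h1 ▸ Subgroup.normalCore_le U hn)))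
    exact (Subgroup.mul_mem_cancel_left C (C.inv_mem hc)).1 h2
  · intro h
    exact ⟨d, ⟨d, h, rfl⟩, 1, U.normalCore.one_mem, mul_one _⟩

/-- The counts for all open subgroups of a decomposition group. -/
theorem countsF_K {Q : Ideal (𝓞 (AlgebraicClosure K))} (hQ : Q.IsPrime) (hb : Q ≠ ⊥)
    {v : HeightOneSpectrum (𝓞 K)}
    (hQv : Q.comap (algebraMap (𝓞 K) (𝓞 (AlgebraicClosure K))) = v.asIdeal) :
    CountsF (fullD (stabD Q)) (ld v) := by
  intro C hC
  obtain ⟨H₀, hH₀, hHC⟩ := exists_cutK hC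
  have hNF : NumberField (Fx H₀) := fx_numberField hH₀
  have hopen : IsOpen ((⊤ : Subgroup (AbsGal K)) : Set (AbsGal K)) := isOpen_univ
  have hNT : NumberField (Fx (⊤ : Subgroup (AbsGal K))) := fx_numberField hopen
  have hldv : ld (plc (⊤ : Subgroup (AbsGal K)) Q hQ hb) = ld v := by
    have h1 := countsD (D := stabD Q) hQ hb hopen (fun g => by simp)
    have h2 := countsK hQ hb hQv
    have htop : PA.Opn (subSys (stabD Q)) (⊤ : Subgroup (stabD Q)) := by
      obtain ⟨W, hW⟩ := (subSys (stabD Q)).ex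
      exact ⟨W, hW, le_top⟩
    have h3 := (h1 ⊤ htop).2
    rw [(h2 ⊤ htop).2, Subgroup.index_top] at h3
    omega
  have hld := ld_index hH₀ le_top hQ hb
  rw [hldv, top_inf_eq] at hld
  have hidx : H₀.relIndex (stabD Q) = C.index := by
    rw [Subgroup.relIndex, hHC]
  rw [hidx] at hld
  -- the group
  set D' : Subgroup (AbsGal K) := C.map (stabD Q).subtype with hD'
  let f : C ≃* D' := C.equivMapOfInjective (stabD Q).subtype (stabD Q).subtype_injective
  have hDmem : ∀ g, g ∈ D' ↔ g ∈ stabD Q ∧ g ∈ H₀ := by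
    intro g
    constructor
    · rintro ⟨c, hc, rfl⟩
      have hc' : c ∈ C := hc
      rw [← hHC, Subgroup.mem_subgroupOf] at hc'
      exact ⟨c.2, hc'⟩
    · rintro ⟨h1, h2⟩
      refine ⟨⟨g, h1⟩, ?_, rfl⟩
      show (⟨g, h1⟩ : stabD Q) ∈ C
      rw [← hHC, Subgroup.mem_subgroupOf]
      exact h2
  have h1 := countsD (D := D') hQ hb hH₀ hDmem
  have htop : PA.Opn (subSys D') (⊤ : Subgroup D') := by
    obtain ⟨W, hW⟩ := (subSys D').ex
    exact ⟨W, hW, le_top⟩
  obtain ⟨h2, h3⟩ := h1 ⊤ htop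
  rw [Subgroup.index_top, mul_one, hld] at h3
  have hs := two_res_fullD (D := stabD Q) f (fun c => rfl)
  have l := homsIso f hs ⊤
  rw [Subgroup.comap_top] at l
  exact ⟨l.symm.finiteDimensional, by rw [← h3]; exact l.finrank_eq⟩

end fullD

section omega

variable {Ω : Type*} [Field Ω] {F : Type u} [Field F] [NumberField F] (α : AlgebraicClosure F ≃+* Ω)

theorem fullC_iso {C : Subgroup (Ω ≃+* Ω)} {D : Subgroup (AbsGal F)} (e : C ≃* D)
    (he : ∀ g, emb α (e g : AbsGal F) = (g : Ω ≃+* Ω)) (W : Subgroup D) :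
    (fullC C).mem (W.comap (e : C →* D)) ↔ (fullD D).mem W := by
  have hmap : (W.comap (e : C →* D)).map (e : C →* D) = W :=
    Subgroup.map_comap_eq_self_of_surjective e.surjective W
  have hnorm : (W.comap (e : C →* D)).Normal ↔ W.Normal := by
    constructor
    · intro h1
      rw [← hmap]
      exact Subgroup.Normal.map h1 _ e.surjective
    · intro h1
      infer_instance
  have hidx : (W.comap (e : C →* D)).index = W.index :=
    Subgroup.index_comap_of_surjective W e.surjective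
  show ((∃ s : Finset Ω, ∀ g : C, (∀ x ∈ s, (g : Ω ≃+* Ω) x = x) →
      g ∈ W.comap (e : C →* D)) ∧ (W.comap (e : C →* D)).Normal ∧
      (W.comap (e : C →* D)).index ≠ 0) ↔
    (W.Normal ∧ W.index ≠ 0 ∧ ∃ U : Subgroup (AbsGal F), IsOpen (U : Set (AbsGal F)) ∧
      U.subgroupOf D ≤ W)
  rw [hnorm, hidx]
  constructor
  · rintro ⟨⟨s, hs⟩, h1, h2⟩
    let U : Subgroup (AbsGal F) :=
      { carrier := {σ | ∀ x ∈ s, emb α σ x = x}
        mul_mem' := by
          intro a b ha hb x hx
          rw [map_mul]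
          show emb α a (emb α b x) = x
          rw [hb x hx, ha x hx]
        one_mem' := fun x _ => by rw [map_one]; rfl
        inv_mem' := by
          intro a ha x hx
          rw [map_inv]
          show (emb α a)⁻¹ x = x
          conv_lhs => rw [← ha x hx]
          show ((emb α a)⁻¹ * emb α a) x = x
          rw [inv_mul_cancel]
          rfl }
    refine ⟨h1, h2, U, ?_, fun d hd => ?_⟩
    · refine open_of_fix' α s fun σ hσ => ?_
      intro x hx
      rw [emb_apply, hσ x hx, RingEquiv.apply_symm_apply]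
    · have h3 := hs (e.symm d) fun x hx => by
        have h4 : ((e.symm d : C) : Ω ≃+* Ω) = emb α (d : AbsGal F) := by
          rw [← he, MulEquiv.apply_symm_apply]
        rw [h4]
        exact (Subgroup.mem_subgroupOf.1 hd : (d : AbsGal F) ∈ U) x hx
      rw [Subgroup.mem_comap] at h3
      simpa using h3
  · rintro ⟨h1, h2, U, hU, hUW⟩
    obtain ⟨s, hs⟩ := exists_fin α hU
    refine ⟨⟨s, fun g hg => ?_⟩, h1, h2⟩
    rw [Subgroup.mem_comap]
    refine hUW (Subgroup.mem_subgroupOf.2 (hs _ fun x hx => ?_))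
    show emb α (e g : AbsGal F) x = x
    rw [he]
    exact hg x hx

/-- The counts are the same for the decomposition group of `Q` in the automorphisms of `Ω` and in the absolute
Galois group of `F` if the decomposition group fixes `F`. -/
theorem countsF_emb {Q : Ideal (𝓞 Ω)} (hle : stb Q ≤ (emb α).range) {d : ℕ} :
    CountsF (fullC (stb Q)) d ↔ CountsF (fullD (stabD (pb α Q))) d := by
  have hD : (stb Q).comap (emb α) = stabD (pb α Q) := by
    ext σ
    exact emb_stb α
  have key : CountsF (fullC (stb Q)) d ↔ CountsF (fullD ((stb Q).comap (emb α))) d := by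
    constructor
    · intro H
      refine countsF_iso (cmEquiv α hle).symm (fun W => ?_) H
      rw [← fullC_iso α (cmEquiv α hle) (emb_cmEquiv α hle)]
      have : (W.comap ((cmEquiv α hle).symm : _ →* stb Q)).comap
          ((cmEquiv α hle) : stb Q →* (stb Q).comap (emb α)) = W := by
        ext x
        simp [Subgroup.mem_comap]
      rw [this]
    · exact countsF_iso (cmEquiv α hle) (fullC_iso α (cmEquiv α hle) (emb_cmEquiv α hle))
  rw [key, hD]

end omega

section rat

/-- the local degree of the rational numbers at 2 -/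
theorem ld_rat {v : HeightOneSpectrum (𝓞 ℚ)} (h : (2 : 𝓞 ℚ) ∈ v.asIdeal) : ld v = 1 := by
  classical
  have hfin : {w : HeightOneSpectrum (𝓞 ℚ) | ((2 : ℕ) : 𝓞 ℚ) ∈ w.asIdeal}.Finite := finite_mem two_ne_zero
  set A := hfin.toFinset with hA
  have hmem : ∀ w, w ∈ A ↔ (2 : 𝓞 ℚ) ∈ w.asIdeal := fun w => by
    rw [hA, Set.Finite.mem_toFinset, Set.mem_ofPred_eq, Nat.cast_ofNat]
  have h1 := sum_ld (A := A) fun w hw => (hmem w).2 hw
  rw [Module.finrank_self] at h1
  have h2 : ld v ≤ ∑ w ∈ A, ld w := Finset.single_le_sum (f := ld) (fun _ _ => Nat.zero_le _) ((hmem v).2 h)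
  rw [h1] at h2
  have h3 : ld v ≠ 0 := by
    intro h0
    have h4 := two_pow_ld v
    rw [h0, pow_zero] at h4
    have hee : ee v ≠ 0 := by
      intro he
      have h5 := val_two v
      rw [he, Nat.cast_zero, neg_zero, exp_zero] at h5
      have h6 := (HeightOneSpectrum.valuation_lt_one_iff_mem (K := ℚ) v (2 : 𝓞 ℚ)).2 h
      have h6' : v.valuation ℚ (2 : ℚ) < 1 := h6
      rw [h5] at h6'
      exact lt_irrefl _ h6'
    have h7 : v.asIdeal ^ ee v ≠ ⊤ := by
      intro h8
      have h9 : v.asIdeal ^ ee v ≤ v.asIdeal := Ideal.pow_le_self hee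
      rw [h8] at h9
      exact v.isPrime.ne_top (top_le_iff.1 h9)
    have : Nontrivial (𝓞 ℚ ⧸ v.asIdeal ^ ee v) := Ideal.Quotient.nontrivial_iff.2 h7
    have h10 := (Nat.card_eq_one_iff_unique.1 h4.symm).1
    exact false_of_nontrivial_of_subsingleton (𝓞 ℚ ⧸ v.asIdeal ^ ee v)
  omega

open scoped Classical in
/-- The counts for all open subgroups of a decomposition group over the rational numbers. -/
theorem countsF_Q {Ω : Type*} [Field Ω] (α : AlgebraicClosure ℚ ≃+* Ω) {Q : Ideal (𝓞 Ω)}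
    (hQ : Q.IsPrime) (hb : Q ≠ ⊥) :
    CountsF (fullC (stb Q)) (if (2 : 𝓞 Ω) ∈ Q then 1 else 0) := by
  have hle : stb Q ≤ (emb α).range := by
    rw [range_rat]
    exact le_top
  rw [countsF_emb α hle]
  have hQ' := pb_prime α hQ
  have hb' := pb_ne_bot α hb
  let v : HeightOneSpectrum (𝓞 ℚ) :=
    ⟨(pb α Q).comap (algebraMap (𝓞 ℚ) (𝓞 (AlgebraicClosure ℚ))), Ideal.comap_isPrime _ _,
      fun h => hb' (Ideal.eq_bot_of_comap_eq_bot h)⟩
  have h1 := countsF_K hQ' hb' (v := v) rfl
  have h2 : ld v = if (2 : 𝓞 Ω) ∈ Q then 1 else 0 := by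
    have h3 : (2 : 𝓞 ℚ) ∈ v.asIdeal ↔ (2 : 𝓞 Ω) ∈ Q := by
      have h4 := pb_nat α (Q := Q) 2
      rw [Nat.cast_ofNat, Nat.cast_ofNat] at h4
      rw [← h4]
      show algebraMap (𝓞 ℚ) (𝓞 (AlgebraicClosure ℚ)) 2 ∈ pb α Q ↔ _
      rw [map_ofNat]
    split_ifs with h
    · exact ld_rat (h3.2 h)
    · exact ld_odd fun h5 => h (h3.1 h5)
  rw [← h2]
  exact h1

open scoped Classical in
/-- The counts over a number field for a prime that splits completely. -/
theorem countsF_split {Ω : Type*} [Field Ω] (α₀ : AlgebraicClosure ℚ ≃+* Ω) {F : Type u} [Field F]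
    [NumberField F] (α : AlgebraicClosure F ≃+* Ω) {Q : Ideal (𝓞 Ω)} (hQ : Q.IsPrime) (hb : Q ≠ ⊥)
    (hle : stb Q ≤ (emb α).range) :
    CountsF (fullD (stabD (pb α Q))) (if (2 : 𝓞 Ω) ∈ Q then 1 else 0) :=
  (countsF_emb α hle).1 (countsF_Q α₀ hQ hb)

end rat

end Pool.Agent.Work.MP_787500_nt.GA
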