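import Mathlib
import Pool.Agent.Work.MP_787500_nt.GA.Counts
import Pool.Agent.Work.MP_787500_nt.GA.CountsF
import Pool.Agent.Work.MP_787500_nt.KR.ADefs

/-!
# The hypotheses of `KR` on classes modulo 2

`Fam e₀ 𝔓 SD j`: the local groups are the decomposition groups of the primes `𝔓 i` in `G`. `injC_of`, `shaC_of`: the
local-global principles `KR.InjC`, `KR.ShaC`. `plcQ`: the standard primes over the rational numbers. `nPl_eq`: the
number of places in terms of `KR.orb`.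
-/

set_option autoImplicit false
set_option linter.unusedSectionVars false

namespace Pool.Agent.Work.MP_787500_nt.GA

open IsDedekindDomain NumberField WithZero
open Pool.Agent.Work.MP_787500_nt.PA (TwoSys homs Coc Cob LocalType)
open Pool.Agent.Work.MP_787500_nt.GP (sysT stabD Fx GoodT inT subSys)
open Pool.Agent.Work.MP_787500_nt.HN
open Pool.Agent.Work.MP_787500_nt.HP
open Pool.Agent.Work.MP_787500_nt.KR (FSys two res fullK fullQ fullD fullC CountsF Sm1 orb InjC ShaC)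

universe u

section fam

variable {G : Type*} [Group G] {Ω : Type*} [Field Ω] {e₀ : G →* (Ω ≃+* Ω)} {F₀ : FSys G}
  {T : Finset ℕ} {C : Subgroup G} {I : Type*} [Fintype I] {𝔓 : I → Ideal (𝓞 Ω)}
  {D : I → Type*} [∀ i, Group (D i)] {SD : ∀ i, FSys (D i)} {j : ∀ i, D i →* G}

/-- the local groups are the decomposition groups of the primes `𝔓 i`, the members of the systems are
open -/
structure Fam (e₀ : G →* (Ω ≃+* Ω)) (𝔓 : I → Ideal (𝓞 Ω)) (SD : ∀ i, FSys (D i))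
    (j : ∀ i, D i →* G) : Prop where
  rng : ∀ i, (j i).range = dG e₀ (𝔓 i)
  opn : ∀ i W, (SD i).mem W → ∃ s : Finset Ω, ∀ d, (∀ x ∈ s, e₀ (j i d) x = x) → d ∈ W

theorem ab_ne_bot [CharZero Ω] (hT : ∀ l ∈ T, l ≠ 0) {Q : Ideal (𝓞 Ω)} (h : Ab T Q) : Q ≠ ⊥ := by
  rintro rfl
  have h1 : ∀ n : ℕ, (n : 𝓞 Ω) ∈ (⊥ : Ideal (𝓞 Ω)) → n = 0 := by
    intro n hn
    rw [Ideal.mem_bot] at hn
    exact_mod_cast hn
  rcases h with h | ⟨l, hl, h⟩
  · have := h1 2 (by rw [Nat.cast_ofNat]; exact h)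
    omega
  · exact hT l hl (h1 l h)

theorem conj_rng (h : ∀ i, (j i).range = dG e₀ (𝔓 i)) (i : I) (g c : G)
    (hc : e₀ c ∈ stb (cj (e₀ g) (𝔓 i))) : ∃ d : D i, g * j i d * g⁻¹ = c := by
  have h1 : g⁻¹ * c * g ∈ dG e₀ (𝔓 i) := by
    rw [mem_dG, map_mul, map_mul, map_inv]
    exact stb_cj.1 hc
  rw [← h i] at h1
  obtain ⟨d, hd⟩ := h1
  exact ⟨d, by rw [hd]; group⟩

theorem injC_of [CharZero Ω] (hP : Plc e₀ T 𝔓) (hT : ∀ l ∈ T, l ≠ 0)
    (hj : ∀ i, (j i).range = dG e₀ (𝔓 i))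
    (h : ∀ ω ∈ homs (two (res F₀ C)) (⊤ : Subgroup C),
      (∀ Q : Ideal (𝓞 Ω), Q.IsPrime → Ab T Q → ∀ c : C, e₀ c ∈ stb Q → ω c = 0) → ω = 0) :
    InjC F₀ C j := by
  intro ω hω hl
  refine h ω hω fun Q hQ hA c hc => ?_
  obtain ⟨i, g, rfl⟩ := hP.cover Q hQ (ab_ne_bot hT hA) hA
  obtain ⟨d, hd⟩ := conj_rng hj i g c hc
  have h1 : g * j i d * g⁻¹ ∈ C := hd ▸ c.2
  have h2 : c = ⟨g * j i d * g⁻¹, h1⟩ := Subtype.ext hd.symm
  rw [h2]
  exact hl i g d h1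

theorem shaC_of [CharZero Ω] (hP : Plc e₀ T 𝔓) (hT : ∀ l ∈ T, l ≠ 0) (hF : Fam e₀ 𝔓 SD j)
    (h : ∀ f : C → C → ZMod 2, Coc (two (res F₀ C)) ⊤ f →
      (∀ Q : Ideal (𝓞 Ω), Q.IsPrime → Ab T Q → LCo e₀ Q f) → Cob (two (res F₀ C)) ⊤ f) :
    ShaC F₀ C SD j := by
  classical
  intro f hf hl
  refine h f hf fun Q hQ hA => ?_
  obtain ⟨i, g, rfl⟩ := hP.cover Q hQ (ab_ne_bot hT hA) hA
  obtain ⟨z, ⟨W, hW, hz⟩, hzf⟩ := hl i g
  obtain ⟨s, hs⟩ := hF.opn i W hW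
  have hex : ∀ c : C, ∃ d : D i, e₀ c ∈ stb (cj (e₀ g) (𝔓 i)) → g * j i d * g⁻¹ = c := by
    intro c
    by_cases hc : e₀ c ∈ stb (cj (e₀ g) (𝔓 i))
    · obtain ⟨d, hd⟩ := conj_rng hF.rng i g c hc
      exact ⟨d, fun _ => hd⟩
    · exact ⟨1, fun h => absurd h hc⟩
  choose δ hδ using hex
  have hj : ∀ (d d' : D i) (w : D i), j i (d * w) = j i d' → w ∈ W → z d = z d' := by
    intro d d' w h1 hw
    have h2 : (d * w)⁻¹ * d' ∈ W := by
      refine hs _ fun x _ => ?_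
      rw [map_mul, map_inv, h1, inv_mul_cancel, map_one]
      rfl
    rw [← hz d w hw, ← hz (d * w) _ h2, mul_inv_cancel_left]
  refine ⟨fun c => z (δ c), ⟨s.image (e₀ g), fun a w ha hw hfix => ?_⟩, fun a b ha hb => ?_⟩
  · have haw : e₀ ((a * w : C) : G) ∈ stb (cj (e₀ g) (𝔓 i)) := by
      rw [Subgroup.coe_mul, map_mul]
      exact (stb _).mul_mem ha hw
    have e1 := hδ a ha
    have e2 := hδ w hw
    have e3 := hδ (a * w) haw
    have hw' : δ w ∈ W := by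
      refine hs _ fun x hx => ?_
      have h4 : j i (δ w) = g⁻¹ * w * g := by rw [← e2]; group
      rw [h4, map_mul, map_mul, map_inv]
      show (e₀ g)⁻¹ (e₀ w (e₀ g x)) = x
      rw [hfix _ (Finset.mem_image_of_mem _ hx)]
      show ((e₀ g)⁻¹ * e₀ g) x = x
      rw [inv_mul_cancel]
      rfl
    refine (hj (δ a) (δ (a * w)) (δ w) ?_ hw').symm
    have h5 : g * j i (δ a * δ w) * g⁻¹ = g * j i (δ (a * w)) * g⁻¹ := by
      rw [e3, map_mul, Subgroup.coe_mul, ← e1, ← e2]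
      group
    exact mul_left_cancel (mul_right_cancel h5)
  · have hab : e₀ ((a * b : C) : G) ∈ stb (cj (e₀ g) (𝔓 i)) := by
      rw [Subgroup.coe_mul, map_mul]
      exact (stb _).mul_mem ha hb
    have e1 := hδ a ha
    have e2 := hδ b hb
    have e3 := hδ (a * b) hab
    have ha' : g * j i (δ a) * g⁻¹ ∈ C := e1 ▸ a.2
    have hb' : g * j i (δ b) * g⁻¹ ∈ C := e2 ▸ b.2
    have h1 := hzf (δ a) (δ b) ha' hb'
    have ea : (⟨g * j i (δ a) * g⁻¹, ha'⟩ : C) = a := Subtype.ext e1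
    have eb : (⟨g * j i (δ b) * g⁻¹, hb'⟩ : C) = b := Subtype.ext e2
    rw [ea, eb] at h1
    rw [h1]
    congr 1
    refine hj _ _ 1 ?_ W.one_mem
    rw [mul_one]
    have h5 : g * j i (δ a * δ b) * g⁻¹ = g * j i (δ (a * b)) * g⁻¹ := by
      rw [e3, map_mul, Subgroup.coe_mul, ← e1, ← e2]
      group
    exact mul_left_cancel (mul_right_cancel h5)

theorem nPl_eq (hj : ∀ i, (j i).range = dG e₀ (𝔓 i)) (V : Type*) [MulAction G V] :
    nPl e₀ 𝔓 V = ∑ i, orb (j i) V := by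
  unfold nPl orb
  refine Finset.sum_congr rfl fun i _ => ?_
  rw [hj i]

end fam

end Pool.Agent.Work.MP_787500_nt.GA
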