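import Mathlib
import Pool.Agent.Work.MP_787500_nt.GA.Glue

/-!
# The standard primes

`plcQ`: the primes `PP P` represent all primes above 2 and `T` modulo all automorphisms; `plcK`: over a quadratic field in which 2 and the elements of `T` split, the primes `PP P w` and their conjugates by an automorphism `c`
that is not trivial on `K`.
-/

set_option autoImplicit false
set_option linter.unusedSectionVars false

namespace Pool.Agent.Work.MP_787500_nt.GA

open IsDedekindDomain NumberField WithZero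
open Pool.Agent.Work.MP_787500_nt.PA (TwoSys homs Coc Cob LocalType)
open Pool.Agent.Work.MP_787500_nt.GP (sysT stabD Fx GoodT inT subSys)
open Pool.Agent.Work.MP_787500_nt.HN
open Pool.Agent.Work.MP_787500_nt.HP
open Pool.Agent.Work.MP_787500_nt.KR (FSys two res fullK fullQ fullD fullC CountsF Sm1 orb InjC ShaC)

universe u

theorem exists_ratEquiv {Ω : Type u} [Field Ω] [CharZero Ω] [IsAlgClosed Ω] (halg : Alg Ω) :
    Nonempty (AlgebraicClosure ℚ ≃+* Ω) := by
  have hQ := algQ halg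
  have hcl0 : IsAlgClosure ℚ Ω := ⟨inferInstance, hQ⟩
  have hcl1 : IsAlgClosure ℚ (AlgebraicClosure ℚ) :=
    ⟨inferInstance, algQ (alg_closure ℚ)⟩
  exact ⟨(IsAlgClosure.equiv ℚ (AlgebraicClosure ℚ) Ω).toRingEquiv⟩

theorem int_rat (x : 𝓞 ℚ) : ∃ m : ℤ, x = (m : 𝓞 ℚ) := by
  refine ⟨Rat.ringOfIntegersEquiv x, ?_⟩
  have h3 := Rat.ringOfIntegersEquiv.symm_apply_apply x
  rw [← h3]
  simp

/-- two primes that contain the same prime number are conjugate -/
theorem exists_cj {Ω : Type u} [Field Ω] [CharZero Ω] [IsAlgClosed Ω] (halg : Alg Ω) {l : ℕ}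
    (hl : l.Prime) {Q Q' : Ideal (𝓞 Ω)} (hQ : Q.IsPrime) (hQ' : Q'.IsPrime) (hlQ : (l : 𝓞 Ω) ∈ Q)
    (hlQ' : (l : 𝓞 Ω) ∈ Q') : ∃ g : Ω ≃+* Ω, Q' = cj g Q := by
  obtain ⟨α⟩ := exists_ratEquiv halg
  have hT : ∀ n ∈ ({l} : Finset ℕ), n ≠ 0 := by
    intro n hn
    rw [Finset.mem_singleton.1 hn]
    exact hl.ne_zero
  have hb : Q ≠ ⊥ := ab_ne_bot hT (Or.inr ⟨l, Finset.mem_singleton_self l, hlQ⟩)
  have hb' : Q' ≠ ⊥ := ab_ne_bot hT (Or.inr ⟨l, Finset.mem_singleton_self l, hlQ'⟩)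
  have h1 : blw α hQ hb = blw α hQ' hb' := by
    apply HeightOneSpectrum.ext
    ext x
    obtain ⟨m, rfl⟩ := int_rat x
    rw [mem_blw, mem_blw, map_intCast, map_intCast, nat_mem hl hQ hlQ, nat_mem hl hQ' hlQ']
  obtain ⟨σ, hσ⟩ := (blw_eq_iff α hQ hb hQ' hb').1 h1
  exact ⟨emb α σ, hσ⟩

section std

variable {Ω : Type u} [Field Ω] [CharZero Ω] {T : Finset ℕ} {P : ℕ → Ideal (𝓞 Ω)}

/-- the prime number that belongs to an index -/
def pOf : Option T → ℕ
  | none => 2
  | some l => l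

theorem pOf_prime (hP : IsP T P) (w : Option T) : (pOf w).Prime := by
  match w with
  | none => exact Nat.prime_two
  | some l => exact hP.prime l l.2

theorem pOf_mem (hP : IsP T P) (w : Option T) : (pOf w : 𝓞 Ω) ∈ HP.PP P w := by
  match w with
  | none => exact hP.mem 2 (Or.inr rfl)
  | some l => exact hP.mem l (Or.inl l.2)

theorem PP_prime (hP : IsP T P) (w : Option T) : (HP.PP P w).IsPrime := by
  match w with
  | none => exact hP.isPrime 2 (Or.inr rfl)
  | some l => exact hP.isPrime l (Or.inl l.2)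

theorem pOf_inj (hP : IsP T P) {w w' : Option T} (h : pOf w = pOf w') : w = w' := by
  match w, w' with
  | none, none => rfl
  | none, some l => exact absurd (show (l : ℕ) = 2 from h.symm) (hP.odd l l.2)
  | some l, none => exact absurd (show (l : ℕ) = 2 from h) (hP.odd l l.2)
  | some l, some l' => exact congrArg some (Subtype.ext h)

theorem PP_ab (hP : IsP T P) (w : Option T) : Ab T (HP.PP P w) := by
  match w with
  | none =>
    left
    have := hP.mem 2 (Or.inr rfl)
    rw [Nat.cast_ofNat] at this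
    exact this
  | some l => exact Or.inr ⟨l, l.2, hP.mem l (Or.inl l.2)⟩

theorem isP_ne (hP : IsP T P) : ∀ l ∈ T, l ≠ 0 := fun l hl => (hP.prime l hl).ne_zero

theorem PP_ne (hP : IsP T P) (w : Option T) : HP.PP P w ≠ ⊥ := ab_ne_bot (isP_ne hP) (PP_ab hP w)

theorem ab_pOf (hP : IsP T P) {Q : Ideal (𝓞 Ω)} (h : Ab T Q) : ∃ w : Option T, (pOf w : 𝓞 Ω) ∈ Q := by
  rcases h with h | ⟨l, hl, h⟩
  · exact ⟨none, by
      show ((2 : ℕ) : 𝓞 Ω) ∈ Q
      rw [Nat.cast_ofNat]
      exact h⟩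
  · exact ⟨some ⟨l, hl⟩, h⟩

theorem PP_two (hP : IsP T P) (w : Option T) : (2 : 𝓞 Ω) ∈ HP.PP P w ↔ w = none := by
  constructor
  · intro h
    have h1 : ((2 : ℤ) : 𝓞 Ω) ∈ HP.PP P w := by
      rw [Int.cast_ofNat]
      exact h
    rw [nat_mem (pOf_prime hP w) (PP_prime hP w) (pOf_mem hP w)] at h1
    have h2 : pOf w ∣ 2 := by exact_mod_cast h1
    have h3 := (Nat.prime_dvd_prime_iff_eq (pOf_prime hP w) Nat.prime_two).1 h2
    exact pOf_inj (P := P) hP (w' := none) h3
  · rintro rfl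
    have := pOf_mem hP none
    rwa [show (pOf (none : Option T)) = 2 from rfl, Nat.cast_ofNat] at this

theorem cj_PP_uniq (hP : IsP T P) {w w' : Option T} {g : Ω ≃+* Ω}
    (h : cj g (HP.PP P w) = HP.PP P w') : w = w' := by
  have h1 : ((pOf w : ℕ) : 𝓞 Ω) ∈ HP.PP P w' := by
    rw [← h, nat_mem_cj]
    exact pOf_mem hP w
  have h2 : (((pOf w : ℕ) : ℤ) : 𝓞 Ω) ∈ HP.PP P w' := by
    rw [Int.cast_natCast]
    exact h1
  rw [nat_mem (pOf_prime hP w') (PP_prime hP w') (pOf_mem hP w')] at h2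
  have h3 : pOf w' ∣ pOf w := by exact_mod_cast h2
  exact (pOf_inj hP ((Nat.prime_dvd_prime_iff_eq (pOf_prime hP w') (pOf_prime hP w)).1 h3)).symm

/-- The standard primes over the rational numbers. -/
theorem plcQ [IsAlgClosed Ω] (halg : Alg Ω) (hP : IsP T P) :
    Plc (MonoidHom.id (Ω ≃+* Ω)) T (fun w : Option T => HP.PP P w) where
  prime := PP_prime hP
  ne := PP_ne hP
  mem := PP_ab hP
  cover Q hQ _ hA := by
    obtain ⟨w, hw⟩ := ab_pOf hP hA
    obtain ⟨g, hg⟩ := exists_cj halg (pOf_prime hP w) (PP_prime hP w) hQ (pOf_mem hP w) hw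
    exact ⟨w, g, hg⟩
  uniq w w' g h := cj_PP_uniq hP h

/-- The standard primes over a quadratic field. -/
theorem plcK [IsAlgClosed Ω] (halg : Alg Ω) {K : Type u} [Field K] [NumberField K] {D : ℕ} {s : K}
    (hK : IsQ K D s) (α : AlgebraicClosure K ≃+* Ω) {c : Ω ≃+* Ω}
    (hc : c (α (algebraMap K (AlgebraicClosure K) s)) = -α (algebraMap K (AlgebraicClosure K) s))
    (hT : ∀ l ∈ T, Spl D l) (hP : IsP T P) :
    Plc (emb α) T (fun i : Option T × Bool => if i.2 then cj c (HP.PP P i.1) else HP.PP P i.1) := by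
  set t := α (algebraMap K (AlgebraicClosure K) s) with ht
  have ht0 : t ≠ -t := by
    intro h
    have h1 : t = 0 := by
      have h2 : (2 : Ω) * t = 0 := by linear_combination h
      exact (mul_eq_zero.1 h2).resolve_left two_ne_zero
    rw [ht, map_eq_zero_iff _ α.injective,
      map_eq_zero_iff _ (FaithfulSMul.algebraMap_injective K (AlgebraicClosure K))] at h1
    have h3 := hK.sq
    rw [h1] at h3
    have h4 : (D : K) = 0 := by
      rw [zero_pow two_ne_zero] at h3
      exact neg_eq_zero.1 h3.symm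
    have h5 := hK.mod
    have h6 : D = 0 := by exact_mod_cast h4
    omega
  have hcn : ¬ ∃ σ, emb α σ = c := by
    rw [emb_sq α hK]
    intro h
    rw [← ht] at h
    exact ht0 (h.symm.trans hc)
  have hcut : ∀ g : Ω ≃+* Ω, (∃ σ, emb α σ = g) ∨ ∃ σ, g = emb α σ * c := by
    intro g
    rcases sq_or α hK g with h | h
    · exact Or.inl ((emb_sq α hK g).2 h)
    · right
      have h1 : ∃ σ, emb α σ = g * c⁻¹ := by
        rw [emb_sq α hK]
        rw [← ht] at h ⊢
        have h2 : c⁻¹ t = -t := by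
          have h3 : c⁻¹ (c t) = t := by
            show (c⁻¹ * c) t = t
            rw [inv_mul_cancel]
            rfl
          rw [hc, map_neg] at h3
          exact neg_eq_iff_eq_neg.1 h3
        show g (c⁻¹ t) = t
        rw [h2, map_neg, h, neg_neg]
      obtain ⟨σ, hσ⟩ := h1
      exact ⟨σ, by rw [hσ, inv_mul_cancel_right]⟩
  have hstb : ∀ w : Option T, ∀ g ∈ stb (HP.PP P w), ∃ σ, emb α σ = g := by
    intro w g hg
    match w with
    | none => exact stb_le α hK (l := 2) (Or.inl rfl) (PP_prime hP none) (pOf_mem hP none) hg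
    | some l =>
      exact stb_le α hK (l := l) (Or.inr (hT l l.2)) (PP_prime hP (some l)) (pOf_mem hP (some l)) hg
  refine ⟨fun i => ?_, fun i => ?_, fun i => ?_, fun Q hQ _ hA => ?_, ?_⟩
  · split_ifs
    · exact cj_prime (PP_prime hP _)
    · exact PP_prime hP _
  · split_ifs
    · exact cj_ne_bot (PP_ne hP _)
    · exact PP_ne hP _
  · split_ifs
    · exact ab_cj.2 (PP_ab hP _)
    · exact PP_ab hP _
  · obtain ⟨w, hw⟩ := ab_pOf hP hA
    obtain ⟨g, hg⟩ := exists_cj halg (pOf_prime hP w) (PP_prime hP w) hQ (pOf_mem hP w) hw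
    rcases hcut g with ⟨σ, hσ⟩ | ⟨σ, hσ⟩
    · exact ⟨(w, false), σ, by
        simp only [Bool.false_eq_true, if_false]
        rw [hg, hσ]⟩
    · exact ⟨(w, true), σ, by
        simp only [if_true]
        rw [hg, hσ, cj_mul]⟩
  · rintro ⟨w, b⟩ ⟨w', b'⟩ σ h
    dsimp only at h
    cases b <;> cases b' <;> simp only [Bool.false_eq_true, if_false, if_true] at h
    · rw [cj_PP_uniq hP h]
    · exfalso
      have h1 : cj (c⁻¹ * emb α σ) (HP.PP P w) = HP.PP P w' := by
        rw [cj_mul, h, ← cj_mul, inv_mul_cancel, cj_one]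
      have h2 := cj_PP_uniq hP h1
      subst h2
      obtain ⟨τ, hτ⟩ := hstb w _ (cj_eq_iff.1 h1)
      exact hcn ⟨σ * τ⁻¹, by rw [map_mul, map_inv, hτ]; group⟩
    · exfalso
      have h1 : cj (emb α σ * c) (HP.PP P w) = HP.PP P w' := by rw [cj_mul, h]
      have h2 := cj_PP_uniq hP h1
      subst h2
      obtain ⟨τ, hτ⟩ := hstb w _ (cj_eq_iff.1 h1)
      exact hcn ⟨σ⁻¹ * τ, by rw [map_mul, map_inv, hτ]; group⟩
    · have h1 : cj (c⁻¹ * emb α σ * c) (HP.PP P w) = HP.PP P w' := by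
        rw [cj_mul, cj_mul, h, ← cj_mul, inv_mul_cancel, cj_one]
      rw [cj_PP_uniq hP h1]

end std

end Pool.Agent.Work.MP_787500_nt.GA
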