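import Mathlib
import Pool.Agent.Work.MP_787500_nt.GA.PlcStd
import Pool.Agent.Work.MP_787500_nt.HP.PlCount

/-!
# The hypotheses of `KR` on classes modulo 2 over an imaginary quadratic field

`class_K`: for an open subgroup `C` there is a finite set `T₁` of primes that split such that for all `T ⊇ T₁`: finite
dimension, `KR.InjC`, the lower bound for the number of homomorphisms, and `KR.ShaC` if the bound is sharp.
`lt_fullD`, `fin_fullD`: the fields `lt`, `fin` of `KR.LocB`; `cnt_fullD`: `KR.CountsF`.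
-/

set_option autoImplicit false
set_option linter.unusedSectionVars false

namespace Pool.Agent.Work.MP_787500_nt.GA

open IsDedekindDomain NumberField WithZero
open Pool.Agent.Work.MP_787500_nt.PA (TwoSys homs Coc Cob LocalType)
open Pool.Agent.Work.MP_787500_nt.GP (sysT stabD Fx GoodT inT subSys)
open Pool.Agent.Work.MP_787500_nt.HN
open Pool.Agent.Work.MP_787500_nt.HP
open Pool.Agent.Work.MP_787500_nt.KR (FSys two res fullK fullQ fullD fullC CountsF Sm1 orb InjC ShaC)

universe u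

/-! ## Local groups -/

section loc

variable {K : Type u} [Field K] [NumberField K]

/-- An open subgroup of a decomposition group is of local type. -/
theorem lt_fullD {Q : Ideal (𝓞 (AlgebraicClosure K))} (hQ : Q.IsPrime) (hb : Q ≠ ⊥)
    {C : Subgroup (stabD Q)} (hC : KR.Opn (fullD (stabD Q)) C) :
    LocalType (two (res (fullD (stabD Q)) C)) := by
  obtain ⟨H₀, hH₀, hHC⟩ := exists_cutK hC
  set D' : Subgroup (AbsGal K) := C.map (stabD Q).subtype with hD'
  let f : C ≃* D' := C.equivMapOfInjective (stabD Q).subtype (stabD Q).subtype_injective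
  have hDmem : ∀ g, g ∈ D' ↔ g ∈ stabD Q ∧ g ∈ H₀ := by
    intro g
    constructor
    · rintro ⟨c, hc, rfl⟩
      have hc' : c ∈ C := hc
      rw [← hHC, Subgroup.mem_subgroupOf] at hc'
      exact ⟨c.2, hc'⟩
    · rintro ⟨h1, h2⟩
      refine ⟨⟨g, h1⟩, ?_, rfl⟩
      show (⟨g, h1⟩ : stabD Q) ∈ C
      rw [← hHC, Subgroup.mem_subgroupOf]
      exact h2
  exact localType_iso f (two_res_fullD (D := stabD Q) f (fun c => rfl))
    (localType_D hQ hb hH₀ hDmem)

theorem pb_refl (Q : Ideal (𝓞 (AlgebraicClosure K))) :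
    pb (RingEquiv.refl (AlgebraicClosure K)) Q = Q := by
  ext x
  rw [mem_pb]
  have h : RingOfIntegers.mapRingEquiv (RingEquiv.refl (AlgebraicClosure K)) x = x :=
    RingOfIntegers.ext rfl
  rw [h]

theorem emb_refl_stb {Q : Ideal (𝓞 (AlgebraicClosure K))} {σ : AbsGal K} :
    emb (RingEquiv.refl (AlgebraicClosure K)) σ ∈ stb Q ↔ σ ∈ stabD Q := by
  rw [emb_stb, pb_refl]

theorem dG_refl (Q : Ideal (𝓞 (AlgebraicClosure K))) :
    dG (emb (RingEquiv.refl (AlgebraicClosure K))) Q = stabD Q := by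
  ext σ
  rw [mem_dG, emb_refl_stb]

end loc

section quad

variable {K : Type u} [Field K] [NumberField K] {D : ℕ} {s : K}
  {c : AlgebraicClosure K ≃+* AlgebraicClosure K} {κ : AbsGal K →* AbsGal K} {T : Finset ℕ}
  {P : ℕ → Ideal (𝓞 (AlgebraicClosure K))}

theorem stb_le_refl (hK : IsQ K D s) (hT : ∀ l ∈ T, Spl D l) (hP : IsP T P) (w : Option T) :
    stb (HP.PP P w) ≤ (emb (RingEquiv.refl (AlgebraicClosure K))).range := by
  intro g hg
  match w with
  | none =>
    exact stb_le _ hK (l := 2) (Or.inl rfl) (PP_prime hP none) (pOf_mem hP none) hg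
  | some l =>
    exact stb_le _ hK (l := l) (Or.inr (hT l l.2)) (PP_prime hP (some l)) (pOf_mem hP (some l)) hg

open scoped Classical in
/-- The counts for the decomposition groups. -/
theorem cnt_fullD (hK : IsQ K D s) (hT : ∀ l ∈ T, Spl D l) (hP : IsP T P) (w : Option T) :
    CountsF (fullD (stabD (HP.PP P w))) (if w = none then 1 else 0) := by
  obtain ⟨α₀⟩ := exists_ratEquiv (alg_closure K)
  have h := countsF_split α₀ (RingEquiv.refl (AlgebraicClosure K)) (PP_prime hP w) (PP_ne hP w)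
    (stb_le_refl hK hT hP w)
  rw [pb_refl] at h
  convert h using 1
  exact if_congr (PP_two hP w).symm rfl rfl

theorem fin_fullD (hK : IsQ K D s) (hT : ∀ l ∈ T, Spl D l) (hP : IsP T P) (w : Option T)
    (C : Subgroup (stabD (HP.PP P w))) (hC : KR.Opn (fullD (stabD (HP.PP P w))) C) :
    FiniteDimensional (ZMod 2) (homs (two (res (fullD (stabD (HP.PP P w))) C)) (⊤ : Subgroup C)) :=
  (cnt_fullD hK hT hP w C hC).1

/-- the homomorphisms from the local groups -/
noncomputable def jK (κ : AbsGal K →* AbsGal K) (P : ℕ → Ideal (𝓞 (AlgebraicClosure K))) (i : Option T × Bool) :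
    stabD (HP.PP P i.1) →* AbsGal K :=
  if i.2 then κ.comp (stabD (HP.PP P i.1)).subtype else (stabD (HP.PP P i.1)).subtype

theorem jK_false (w : Option T) : jK κ P (w, false) = (stabD (HP.PP P w)).subtype := rfl

theorem jK_true (w : Option T) : jK κ P (w, true) = κ.comp (stabD (HP.PP P w)).subtype := rfl

/-- the primes of the places -/
noncomputable def pK (c : AlgebraicClosure K ≃+* AlgebraicClosure K)
    (P : ℕ → Ideal (𝓞 (AlgebraicClosure K))) (i : Option T × Bool) :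
    Ideal (𝓞 (AlgebraicClosure K)) :=
  if i.2 then cj c (HP.PP P i.1) else HP.PP P i.1

theorem pK_false (w : Option T) : pK c P (w, false) = HP.PP P w := rfl

theorem pK_true (w : Option T) : pK c P (w, true) = cj c (HP.PP P w) := rfl

theorem emb_kap (hκ : ∀ (σ : AbsGal K) (x : AlgebraicClosure K), κ σ x = c (σ (c x)))
    (σ : AbsGal K) : emb (RingEquiv.refl (AlgebraicClosure K)) (κ σ) =
      c * emb (RingEquiv.refl (AlgebraicClosure K)) σ * c := by
  ext x
  exact hκ σ x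

theorem c_inv (hc : PA.IsConj s c) : c⁻¹ = c := by
  rw [inv_eq_iff_mul_eq_one]
  ext x
  exact hc.sq x

theorem kap_kap (hc : PA.IsConj s c)
    (hκ : ∀ (σ : AbsGal K) (x : AlgebraicClosure K), κ σ x = c (σ (c x))) (g : AbsGal K) :
    κ (κ g) = g := by
  ext x
  rw [hκ, hκ, hc.sq, hc.sq]

theorem famK (hc : PA.IsConj s c)
    (hκ : ∀ (σ : AbsGal K) (x : AlgebraicClosure K), κ σ x = c (σ (c x)))
    {SD : ∀ i : Option T × Bool, FSys (stabD (HP.PP P i.1))}
    (hSD : ∀ i W, (SD i).mem W → ∃ W₁, (fullD (stabD (HP.PP P i.1))).mem W₁ ∧ W₁ ≤ W) :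
    Fam (emb (RingEquiv.refl (AlgebraicClosure K))) (pK c P) SD (jK κ P) where
  rng := by
    rintro ⟨w, b⟩
    cases b
    · rw [jK_false, pK_false, dG_refl, Subgroup.range_subtype]
    · rw [jK_true, pK_true]
      ext σ
      rw [mem_dG, stb_cj, c_inv hc, ← emb_kap hκ, emb_refl_stb]
      constructor
      · rintro ⟨d, rfl⟩
        show κ (κ d) ∈ _
        rw [kap_kap hc hκ]
        exact d.2
      · intro h
        exact ⟨⟨κ σ, h⟩, kap_kap hc hκ σ⟩
  opn := by
    rintro ⟨w, b⟩ W hW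
    obtain ⟨W₁, ⟨-, -, U, hU, hUW⟩, hle⟩ := hSD _ W hW
    obtain ⟨s', hs'⟩ := exists_fin (RingEquiv.refl (AlgebraicClosure K)) hU
    classical
    cases b
    · refine ⟨s', fun d hd => hle (hUW (Subgroup.mem_subgroupOf.2 (hs' _ hd)))⟩
    · refine ⟨s'.image c, fun d hd => hle (hUW (Subgroup.mem_subgroupOf.2 (hs' _ fun x hx => ?_)))⟩
      have h1 := hd _ (Finset.mem_image_of_mem c hx)
      rw [jK_true] at h1
      change emb (RingEquiv.refl (AlgebraicClosure K)) (κ (d : AbsGal K)) (c x) = c x at h1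
      rw [emb_kap hκ] at h1
      change c (emb (RingEquiv.refl (AlgebraicClosure K)) (d : AbsGal K) (c (c x))) = c x at h1
      rw [hc.sq] at h1
      exact c.injective h1

theorem fullK_mono {T₀ T : Finset ℕ} (h : T₀ ⊆ T) {W : Subgroup (AbsGal K)}
    (hW : (fullK (K := K) T₀).mem W) : (fullK (K := K) T).mem W := by
  refine ⟨hW.1, hW.2.1, fun σ hσ => hW.2.2 σ ?_⟩
  obtain ⟨Q, hQ, h2, h3, h4⟩ := hσ
  exact ⟨Q, hQ, h2, fun l hl => h3 l (h hl), h4⟩

/-- THE HYPOTHESES ON CLASSES MODULO 2 OVER `K`. -/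
theorem class_K (hK : IsQ K D s) (hc : PA.IsConj s c)
    (hκ : ∀ (σ : AbsGal K) (x : AlgebraicClosure K), κ σ x = c (σ (c x))) {T₀ : Finset ℕ}
    (hT₀ : ∀ l ∈ T₀, Spl D l) {C : Subgroup (AbsGal K)} (hC : KR.Opn (fullK (K := K) T₀) C) :
    ∃ T₁ : Finset ℕ, T₀ ⊆ T₁ ∧ (∀ l ∈ T₁, Spl D l) ∧ ∀ T : Finset ℕ, T₁ ⊆ T →
      (∀ l ∈ T, Spl D l) → ∀ P : ℕ → Ideal (𝓞 (AlgebraicClosure K)), IsP T P →
      KR.Opn (fullK (K := K) T) C ∧
      FiniteDimensional (ZMod 2) (homs (two (res (fullK (K := K) T) C)) (⊤ : Subgroup C)) ∧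
      InjC (fullK (K := K) T) C (jK κ P : ∀ i : Option T × Bool, stabD (HP.PP P i.1) →* AbsGal K) ∧
      C.index + ∑ i : Option T × Bool, orb (jK κ P i) (AbsGal K ⧸ C) ≤
        Module.finrank (ZMod 2) (homs (two (res (fullK (K := K) T) C)) (⊤ : Subgroup C)) ∧
      (Module.finrank (ZMod 2) (homs (two (res (fullK (K := K) T) C)) (⊤ : Subgroup C)) ≤
          C.index + ∑ i : Option T × Bool, orb (jK κ P i) (AbsGal K ⧸ C) →
        ∀ SD : ∀ i : Option T × Bool, FSys (stabD (HP.PP P i.1)),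
          (∀ i W, (SD i).mem W → ∃ W₁, (fullD (stabD (HP.PP P i.1))).mem W₁ ∧ W₁ ≤ W) →
          ShaC (fullK (K := K) T) C SD (jK κ P)) := by
  classical
  have hcx : IsTotallyComplex K := totallyComplex hK
  have halg := alg_closure K
  have hD0 : D ≠ 0 := by
    rintro rfl
    have := hK.mod
    omega
  set α₀ := RingEquiv.refl (AlgebraicClosure K) with hα₀
  obtain ⟨T₂, h1, h2⟩ := exists_T halg (e₀ := emb α₀) (C := C) (opn_map α₀ hC) α₀
    (Subgroup.map_le_range _ _) hK.sq (N := 2 * D) (by positivity) dvd_rfl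
  refine ⟨T₀ ∪ T₂, Finset.subset_union_left, fun l hl => ?_, fun T hT hTs P hP => ?_⟩
  · rcases Finset.mem_union.1 hl with hl | hl
    · exact hT₀ l hl
    · exact (h1 l hl).2.2
  have hT0 : T₀ ⊆ T := Finset.subset_union_left.trans hT
  have hT2 : T₂ ⊆ T := Finset.subset_union_right.trans hT
  have hCT : KR.Opn (fullK (K := K) T) C := by
    obtain ⟨W, hW, hWC⟩ := hC
    exact ⟨W, fullK_mono hT0 hW, hWC⟩
  have hne : ∀ l ∈ T, l ≠ 0 := isP_ne hP
  have hplc : Plc (emb α₀) T (pK c P : Option T × Bool → Ideal (𝓞 (AlgebraicClosure K))) :=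
    plcK halg hK α₀ hc.neg hTs hP
  have hfinq : Finite (AbsGal K ⧸ C) := by
    obtain ⟨W, hW, hWC⟩ := hC
    exact Subgroup.quotient_finite_of_isOpen C (Subgroup.isOpen_mono hWC hW.2.1)
  have hst : MulAction.stabilizer (AbsGal K) ((1 : AbsGal K) : AbsGal K ⧸ C) = C :=
    MulAction.stabilizer_quotient C
  have htr : ∀ x : AbsGal K ⧸ C, ∃ g : AbsGal K, g • ((1 : AbsGal K) : AbsGal K ⧸ C) = x :=
    fun x => MulAction.exists_smul_eq _ _ _
  have hrng : ∀ i : Option T × Bool, (jK κ P i).range = dG (emb α₀) (pK c P i) :=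
    (famK hc hκ (SD := fun i => fullD (stabD (HP.PP P i.1))) fun i W hW => ⟨W, hW, le_rfl⟩).rng
  obtain ⟨h3, h4, h5⟩ := coreK halg α₀ hK.deg hne hCT hplc hst htr
  have hidx : Nat.card (AbsGal K ⧸ C) = C.index := rfl
  rw [hidx, nPl_eq hrng] at h4 h5
  refine ⟨hCT, h3, injC_of hplc hne hrng (h2 T hT2 hne _ (emdK α₀ T) hCT), h4,
    fun h6 SD hSD => ?_⟩
  exact shaC_of hplc hne (famK hc hκ hSD) (h5 h6)

end quad

end Pool.Agent.Work.MP_787500_nt.GA
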