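import Mathlib
import Pool.Agent.Work.MP_787500_nt.GA.PlcStd

/-!
# The number of homomorphisms over the rational numbers

`finrank_rat`: the dimension of the space of homomorphisms of the automorphisms of `Ω` to `ZMod 2` that are unramified outside 2
and `T` is the number of elements of `T` plus 2.
-/

set_option autoImplicit false
set_option linter.unusedSectionVars false

namespace Pool.Agent.Work.MP_787500_nt.GA

open IsDedekindDomain NumberField WithZero
open Pool.Agent.Work.MP_787500_nt.PA (TwoSys homs Coc Cob LocalType)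
open Pool.Agent.Work.MP_787500_nt.GP (sysT stabD Fx GoodT inT subSys)
open Pool.Agent.Work.MP_787500_nt.HN
open Pool.Agent.Work.MP_787500_nt.HP
open Pool.Agent.Work.MP_787500_nt.KR (FSys two res fullK fullQ fullD fullC CountsF Sm1 orb InjC ShaC)

universe u

theorem oddT_of_pid {F : Type u} [Field F] [NumberField F] [hp : IsPrincipalIdealRing (𝓞 F)]
    (T : Finset ℕ) : OddT F T := by
  intro v _ _
  obtain ⟨π, hπ⟩ := hp.principal v.asIdeal
  have hπ' : v.asIdeal = Ideal.span {π} := hπ
  have h0 : π ≠ 0 := by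
    rintro rfl
    apply v.ne_bot
    rw [hπ', Ideal.span_singleton_eq_bot]
  have hinj : Function.Injective (algebraMap (𝓞 F) F) := FaithfulSMul.algebraMap_injective _ _
  refine ⟨algebraMap (𝓞 F) F π, fun h => h0 (hinj (by rw [h, map_zero])), ?_, fun w hw _ _ => ?_⟩
  · rw [HeightOneSpectrum.valuation_of_algebraMap, v.intValuation_singleton h0 hπ']
    rintro ⟨x, hx⟩
    have hx0 : x ≠ 0 := by
      rintro rfl
      simp at hx
    have h1 := congrArg WithZero.log hx
    rw [WithZero.log_mul hx0 hx0, WithZero.log_exp] at h1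
    omega
  · have h1 : π ∉ w.asIdeal := by
      intro h
      apply hw
      have h2 : v.asIdeal ≤ w.asIdeal := by
        rw [hπ', Ideal.span_singleton_le_iff_mem]
        exact h
      apply HeightOneSpectrum.ext
      have hv : v.asIdeal.IsMaximal := v.isMaximal
      exact (hv.eq_of_le w.isPrime.ne_top h2).symm
    have h2 : w.valuation F (algebraMap (𝓞 F) F π) = 1 := by
      rw [HeightOneSpectrum.valuation_of_algebraMap]
      exact (HeightOneSpectrum.intValuation_eq_one_iff (v := w)).2 h1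
    rw [h2]
    exact ⟨1, (mul_one 1).symm⟩

theorem oddT_rat (T : Finset ℕ) : OddT ℚ T := by
  have : IsPrincipalIdealRing (𝓞 ℚ) := classNumber_eq_one_iff.1 Rat.classNumber_eq
  exact oddT_of_pid T

theorem two_res_top {G : Type*} [Group G] (F : FSys G) (V : Subgroup G) :
    (two (res F ⊤)).mem (V.comap (Subgroup.topEquiv : (⊤ : Subgroup G) ≃* G).toMonoidHom) ↔
      (two F).mem V := by
  set e : (⊤ : Subgroup G) ≃* G := Subgroup.topEquiv with he
  have hmap : (V.comap e.toMonoidHom).map e.toMonoidHom = V :=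
    Subgroup.map_comap_eq_self_of_surjective e.surjective V
  have hnorm : (V.comap e.toMonoidHom).Normal ↔ V.Normal := by
    constructor
    · intro h1
      rw [← hmap]
      exact Subgroup.Normal.map h1 _ e.surjective
    · intro h1
      infer_instance
  have hidx : (V.comap e.toMonoidHom).index = V.index :=
    Subgroup.index_comap_of_surjective V e.surjective
  rw [two_res_mem, hnorm, hidx]
  constructor
  · rintro ⟨h1, ⟨W, hW, h2⟩, h3⟩
    refine ⟨h1, ⟨W, hW, fun g hg => ?_⟩, h3⟩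
    exact h2 (x := (⟨g, trivial⟩ : (⊤ : Subgroup G))) (Subgroup.mem_subgroupOf.2 hg)
  · rintro ⟨h1, ⟨W, hW, h2⟩, h3⟩
    exact ⟨h1, ⟨W, hW, fun c hc => h2 (Subgroup.mem_subgroupOf.1 hc)⟩, h3⟩

/-- The number of homomorphisms over the rational numbers. -/
theorem finrank_rat {Ω : Type u} [Field Ω] [CharZero Ω] [IsAlgClosed Ω] (halg : Alg Ω)
    {T : Finset ℕ} {P : ℕ → Ideal (𝓞 Ω)} (hP : IsP T P) :
    FiniteDimensional (ZMod 2) (homs (two (fullQ Ω (T : Set ℕ))) (⊤ : Subgroup (Ω ≃+* Ω))) ∧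
    Module.finrank (ZMod 2) (homs (two (fullQ Ω (T : Set ℕ))) (⊤ : Subgroup (Ω ≃+* Ω))) =
      T.card + 2 := by
  classical
  obtain ⟨α⟩ := exists_ratEquiv halg
  have hC : ∃ W, (fullQ Ω (T : Set ℕ)).mem W ∧ W ≤ (⊤ : Subgroup (Ω ≃+* Ω)) := by
    obtain ⟨W, hW⟩ := (fullQ Ω (T : Set ℕ)).ex
    exact ⟨W, hW, le_top⟩
  have hα : (emb α).range = (⊤ : Subgroup (Ω ≃+* Ω)).map (MonoidHom.id (Ω ≃+* Ω)) := by
    rw [Subgroup.map_id, range_rat]
  let V := (Ω ≃+* Ω) ⧸ (⊤ : Subgroup (Ω ≃+* Ω))
  have hsub : Subsingleton V := QuotientGroup.subsingleton_quotient_top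
  have hfinV : Finite V := Finite.of_subsingleton
  have hst : MulAction.stabilizer (Ω ≃+* Ω) ((1 : Ω ≃+* Ω) : V) = ⊤ :=
    MulAction.stabilizer_quotient _
  have htr : ∀ x : V, ∃ g : Ω ≃+* Ω, g • ((1 : Ω ≃+* Ω) : V) = x :=
    fun x => MulAction.exists_smul_eq _ _ _
  obtain ⟨A, hA, hAc⟩ := exists_A (F := ℚ) hα (plcQ halg hP) hst htr (isP_ne hP)
  have h1 := finrank_homs (K := ℚ) (oddT_rat T) hA
  have h2 : nPl (MonoidHom.id (Ω ≃+* Ω)) (fun w : Option T => HP.PP P w) V = T.card + 1 := by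
    unfold nPl
    have h3 : ∀ w : Option T, Nat.card (MulAction.orbitRel.Quotient
        (dG (MonoidHom.id (Ω ≃+* Ω)) (HP.PP P w)) V) = 1 := by
      intro w
      rw [Nat.card_eq_one_iff_unique]
      refine ⟨⟨fun a b => ?_⟩, ⟨Quotient.mk _ ((1 : Ω ≃+* Ω) : V)⟩⟩
      induction a using Quotient.inductionOn with
      | h a =>
      induction b using Quotient.inductionOn with
      | h b => rw [Subsingleton.elim a b]
    refine (Finset.sum_congr rfl fun w _ => h3 w).trans ?_
    rw [Finset.sum_const, Finset.card_univ, smul_eq_mul, mul_one, Fintype.card_option,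
      Fintype.card_coe]
  have h4 := InfinitePlace.card_add_two_mul_card_eq_rank ℚ
  rw [Module.finrank_self] at h4
  have h5 := finrank_core (emdQ T) hC hα
  obtain ⟨hfin, -⟩ := card_homs (K := ℚ) hA
  have hfd : FiniteDimensional (ZMod 2) (homs (sysT ℚ T) (⊤ : Subgroup (AbsGal ℚ))) :=
    Module.Finite.of_finite
  have h6 := findim_core (emdQ T) hC hα hfd
  have l := homsIso (S := two (fullQ Ω (T : Set ℕ)))
    (SD := two (res (fullQ Ω (T : Set ℕ)) ⊤)) (Subgroup.topEquiv)
    (fun V => two_res_top (fullQ Ω (T : Set ℕ)) V) ⊤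
  rw [Subgroup.comap_top] at l
  refine ⟨l.finiteDimensional, ?_⟩
  rw [← l.finrank_eq, h5, h1, hAc, h2]
  omega

end Pool.Agent.Work.MP_787500_nt.GA
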