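import Mathlib
import Pool.Agent.Work.MP_787500_nt.GA.RatCnt
import Pool.Agent.Work.MP_787500_nt.GA.GlueK
import Pool.Agent.Work.MP_787500_nt.RQ.Basic

/-!
# The local hypotheses over the rational numbers

`lt_fullC`: open subgroups of a decomposition group over the rational numbers are of local type. `locB_Q`: the local hypotheses `KR.LocB` from
`RQ.LocF`.
-/

set_option autoImplicit false
set_option linter.unusedSectionVars false

namespace Pool.Agent.Work.MP_787500_nt.GA

open IsDedekindDomain NumberField WithZero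
open Pool.Agent.Work.MP_787500_nt.PA (TwoSys homs LocalType)
open Pool.Agent.Work.MP_787500_nt.GP (A0 hf IsAct d0 d1 d2 tw sysT stabD Fx GoodT inT subSys)
open Pool.Agent.Work.MP_787500_nt.HN
open Pool.Agent.Work.MP_787500_nt.HP
open Pool.Agent.Work.MP_787500_nt.KR (FSys ofTwo big two res fullK fullQ fullD fullC CountsF Sm1 orb
  InjC ShaC LocB)
open Pool.Agent.Work.MP_787500_nt.RQ (LocF)

universe u

section iso

variable {D D' : Type*} [Group D] [Group D'] {F : FSys D} {F' : FSys D'} (e : D ≃* D')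
  (h : ∀ W : Subgroup D', F.mem (W.comap (e : D →* D')) ↔ F'.mem W)

include h

theorem lt_iso (H : ∀ C' : Subgroup D', KR.Opn F' C' → LocalType (two (res F' C')))
    (C : Subgroup D) (hC : KR.Opn F C) : LocalType (two (res F C)) := by
  obtain ⟨W, hW, hWC⟩ := hC
  set C' : Subgroup D' := C.map (e : D →* D') with hC'
  have hWm : F'.mem (W.map (e : D →* D')) := by
    rw [← h]
    have : (W.map (e : D →* D')).comap (e : D →* D') = W :=
      Subgroup.comap_map_eq_self_of_injective e.injective W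
    rw [this]
    exact hW
  have h1 := H C' ⟨_, hWm, Subgroup.map_mono hWC⟩
  let f : C ≃* C' := C.equivMapOfInjective (e : D →* D') e.injective
  exact localType_iso f (two_res_iso e h f (fun c => rfl)) h1

end iso

/-- An open subgroup of a decomposition group over the rational numbers is of local type. -/
theorem lt_fullC {Ω : Type*} [Field Ω] (α : AlgebraicClosure ℚ ≃+* Ω) {Q : Ideal (𝓞 Ω)}
    (hQ : Q.IsPrime) (hb : Q ≠ ⊥) (C : Subgroup (stb Q)) (hC : KR.Opn (fullC (stb Q)) C) :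
    LocalType (two (res (fullC (stb Q)) C)) := by
  have hle : stb Q ≤ (emb α).range := by
    rw [range_rat]
    exact le_top
  have hD : (stb Q).comap (emb α) = stabD (pb α Q) := by
    ext σ
    exact emb_stb α
  have key : ∀ C' : Subgroup ((stb Q).comap (emb α)), KR.Opn (fullD ((stb Q).comap (emb α))) C' →
      LocalType (two (res (fullD ((stb Q).comap (emb α))) C')) := by
    rw [hD]
    intro C' hC'
    exact lt_fullD (pb_prime α hQ) (pb_ne_bot α hb) hC'
  exact lt_iso (cmEquiv α hle) (fullC_iso α (cmEquiv α hle) (emb_cmEquiv α hle)) key C hC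

open scoped Classical in
theorem finrank_fsys {Ω : Type*} [Field Ω] (α : AlgebraicClosure ℚ ≃+* Ω) {Q : Ideal (𝓞 Ω)}
    (hQ : Q.IsPrime) (hb : Q ≠ ⊥) :
    FiniteDimensional (ZMod 2) (homs (fsys (stb Q)) (⊤ : Subgroup (stb Q))) ∧
    Module.finrank (ZMod 2) (homs (fsys (stb Q)) (⊤ : Subgroup (stb Q))) =
      (if (2 : 𝓞 Ω) ∈ Q then 1 else 0) + 2 := by
  have hC : KR.Opn (fullC (stb Q)) (⊤ : Subgroup (stb Q)) := by
    obtain ⟨W, hW⟩ := (fullC (stb Q)).ex
    exact ⟨W, hW, le_top⟩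
  obtain ⟨h1, h2⟩ := countsF_Q α hQ hb ⊤ hC
  rw [Subgroup.index_top, mul_one] at h2
  have l := homsIso (S := two (fullC (stb Q)))
    (SD := two (res (fullC (stb Q)) ⊤)) (Subgroup.topEquiv)
    (fun V => two_res_top (fullC (stb Q)) V) ⊤
  rw [Subgroup.comap_top, KR.two_fullC] at l
  exact ⟨l.finiteDimensional, by rw [← h2]; exact l.symm.finrank_eq⟩

theorem fin_big {G : Type*} [Group G] (F : FSys G) (N : Subgroup G) : RQ.Fin (big F N) F :=
  fun _ hW => hW.2.1

theorem fin_two_big {G : Type*} [Group G] (F : FSys G) (N : Subgroup G) :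
    RQ.Fin (ofTwo (two F)) (big F N) :=
  fun W hW => ⟨W, KR.two_le_big F N hW, le_rfl⟩

theorem fin_fsys_big {Ω : Type*} [Field Ω] (C : Subgroup (Ω ≃+* Ω)) (N : Subgroup C) :
    RQ.Fin (ofTwo (fsys C)) (big (fullC C) N) := by
  rw [← KR.two_fullC]
  exact fin_two_big _ _

/-- `KR.LocH` for the big system from the full system -/
theorem locH_big {Ω : Type*} [Field Ω] [CharZero Ω] [IsAlgClosed Ω] {C : Subgroup (Ω ≃+* Ω)}
    {iv : (C → C → A0) → A0} (h : KR.LocH (fullC C) (fun d : C => cyQ (d : Ω ≃+* Ω)) iv)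
    (N : Subgroup C) : KR.LocH (big (fullC C) N) (fun d : C => cyQ (d : Ω ≃+* Ω)) iv where
  char := (fin_fsys_big C N).char (RQ.char_ofTwo (isChar_stb C))
  add f f' hf' hf'' := h.add f f' ((fin_big _ _).z2 hf') ((fin_big _ _).z2 hf'')
  cob z hz := h.cob z ((fin_big _ _).sm1 hz)

/-- The local hypotheses over the rational numbers. -/
theorem locB_Q {Ω : Type*} [Field Ω] [CharZero Ω] [IsAlgClosed Ω] (α : AlgebraicClosure ℚ ≃+* Ω)
    {Q : Ideal (𝓞 Ω)} (hQ : Q.IsPrime) (hb : Q ≠ ⊥) {iv ivF : (stb Q → stb Q → A0) → A0}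
    (hG : GP.LocH (fsys (stb Q)) (fun d : stb Q => cyQ (d : Ω ≃+* Ω)) iv)
    (hF : LocF (stb Q) iv ivF) (N : Subgroup (stb Q)) :
    LocB (fullC (stb Q)) N (fun d : stb Q => cyQ (d : Ω ≃+* Ω)) ivF where
  toLocH := locH_big hF.loc N
  fin C hC := by
    classical
    exact (countsF_Q α hQ hb C hC).1
  lt := lt_fullC α hQ hb
  ex := by
    classical
    obtain ⟨h1, h2⟩ := finrank_fsys α hQ hb
    have h3 : 0 < Module.finrank (ZMod 2) (homs (fsys (stb Q)) (⊤ : Subgroup (stb Q))) := by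
      rw [h2]
      omega
    have h4 : Nontrivial (homs (fsys (stb Q)) (⊤ : Subgroup (stb Q))) := Module.nontrivial_of_finrank_pos h3
    obtain ⟨ψ, hψ⟩ := exists_ne (0 : homs (fsys (stb Q)) (⊤ : Subgroup (stb Q)))
    obtain ⟨φ, hφ, h5⟩ : ∃ φ ∈ homs (fsys (stb Q)) (⊤ : Subgroup (stb Q)),
        iv (fun a b => hf ((ψ : stb Q → ZMod 2) a * φ b)) ≠ 0 := by
      by_contra hcon
      push Not at hcon
      exact hψ (Subtype.ext (hG.nondeg _ ψ.2 hcon))
    have hcoc : PA.Coc (fsys (stb Q)) ⊤ (fun a b => (ψ : stb Q → ZMod 2) a * φ b) := by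
      obtain ⟨⟨W, hW, h6⟩, -, h7⟩ := ψ.2
      obtain ⟨⟨W', hW', h6'⟩, -, h7'⟩ := hφ
      refine ⟨⟨W ⊓ W', (fsys (stb Q)).inf hW hW', fun g k w hw w' hw' => ?_⟩,
        fun g _ k _ l _ => ?_⟩
      · show (ψ : stb Q → ZMod 2) (g * w) * φ (k * w') = (ψ : stb Q → ZMod 2) g * φ k
        rw [h6 g w hw.1, h6' k w' hw'.2]
      · show (ψ : stb Q → ZMod 2) g * φ k + (ψ : stb Q → ZMod 2) (g * k) * φ l =
          (ψ : stb Q → ZMod 2) k * φ l + (ψ : stb Q → ZMod 2) g * φ (k * l)
        rw [h7 g trivial k trivial, h7' k trivial l trivial]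
        ring
    refine ⟨fun a b => (ψ : stb Q → ZMod 2) a * φ b, (fin_fsys_big _ _).coc (RQ.coc_ofTwo.2 hcoc), ?_⟩
    have h6 : ivF (fun a b => hf ((ψ : stb Q → ZMod 2) a * φ b)) =
        iv (fun a b => hf ((ψ : stb Q → ZMod 2) a * φ b)) := hF.ext _
      (RQ.coc_hf (RQ.char_ofTwo (isChar_stb (stb Q))) (RQ.coc_ofTwo.2 hcoc))
    rw [h6]
    exact h5

end Pool.Agent.Work.MP_787500_nt.GA
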