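import Mathlib
import Pool.Agent.Work.MP_787500_nt.KR.PDefs
import Pool.Agent.Work.MP_787500_nt.GP.F01_Card

/-!
# The local group at infinity

`D = {1, c}` with `c * c = 1`, `χ c = -1`. The invariant is `f ↦ f c c + f 1 1`. `locH_real`, `lDual_real`: the local hypotheses
and local duality for all finite pairs.
-/

set_option autoImplicit false
set_option linter.unusedSectionVars false

namespace Pool.Agent.Work.MP_787500_nt.GA

open Pool.Agent.Work.MP_787500_nt.GP (A0 half hf IsAct d0 d1 d2 tw cup11 cup02 perpL perp_perp)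
open Pool.Agent.Work.MP_787500_nt.KR

/-- the invariant at infinity -/
noncomputable def invR {D : Type*} [Group D] (c : D) (f : D → D → A0) : A0 := f c c + f 1 1

section real

variable {D : Type*} [Group D] {c : D} {SD : FSys D} {χ : D → ℤ_[2]}

/-- `D` consists of `1` and `c`, the character is `-1` on `c` -/
structure IsReal (c : D) (SD : FSys D) (χ : D → ℤ_[2]) : Prop where
  sq : c * c = 1
  all : ∀ d : D, d = 1 ∨ d = c
  bot : SD.mem ⊥
  one : χ 1 = 1
  neg : χ c = -1

theorem IsReal.sm1 (h : IsReal c SD χ) {A : Type*} (f : D → A) : Sm1 SD f :=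
  ⟨⊥, h.bot, fun g w hw => by rw [Subgroup.mem_bot.1 hw, mul_one]⟩

theorem IsReal.sm2 (h : IsReal c SD χ) {A : Type*} (f : D → D → A) : Sm2 SD f :=
  ⟨⊥, h.bot, fun g k w hw w' hw' => by
    rw [Subgroup.mem_bot.1 hw, Subgroup.mem_bot.1 hw', mul_one, mul_one]⟩

theorem IsReal.fin (h : IsReal c SD χ) : Finite D := by
  classical
  refine Finite.of_surjective (fun b : Bool => if b then c else 1) fun d => ?_
  rcases h.all d with rfl | rfl
  · exact ⟨false, rfl⟩
  · exact ⟨true, rfl⟩

theorem isChar_real (h : IsReal c SD χ) : IsChar SD χ where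
  one := h.one
  mul a b := by
    rcases h.all a with rfl | rfl <;> rcases h.all b with rfl | rfl
    · rw [mul_one, h.one, mul_one]
    · rw [one_mul, h.one, one_mul]
    · rw [mul_one, h.one, mul_one]
    · rw [h.sq, h.one, h.neg]
      ring
  cont n := ⟨⊥, h.bot, fun g w hw => by
    rw [Subgroup.mem_bot.1 hw, mul_one, sub_self]
    exact dvd_zero _⟩
  odd g := by
    rcases h.all g with rfl | rfl
    · rw [h.one, sub_self]
      exact dvd_zero _
    · rw [h.neg]
      exact ⟨-1, by ring⟩

theorem locH_real (h : IsReal c SD χ) : LocH SD χ (invR c) where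
  char := isChar_real h
  add f f' _ _ := by
    show f c c + f' c c + (f 1 1 + f' 1 1) = f c c + f 1 1 + (f' c c + f' 1 1)
    exact add_add_add_comm _ _ _ _
  cob z _ := by
    show (z c + χ c • z c - z (c * c)) + (z 1 + χ 1 • z 1 - z (1 * 1)) = 0
    rw [h.sq, h.neg, h.one, neg_one_smul, one_smul, mul_one]
    abel

variable {M M' : Type*} [AddCommGroup M] [AddCommGroup M'] [Finite M] [Finite M']
  {ρ : D → M → M} {ρ' : D → M' → M'} {B : M →+ M' →+ A0}

/-- adjoint maps: the image is the annihilator of the kernel -/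
theorem im_of_perp {φ : M →+ M} {φ' : M' →+ M'} (hnd : ∀ m, (∀ m', B m m' = 0) → m = 0)
    (hnd' : ∀ m', (∀ m, B m m' = 0) → m' = 0) (hadj : ∀ m m', B (φ m) m' = B m (φ' m')) {x : M}
    (hx : ∀ m', φ' m' = 0 → B x m' = 0) : ∃ m, φ m = x := by
  have h1 : perpL B.flip (perpL B φ.range) = φ.range :=
    perp_perp B φ.range fun a ha => by rw [hnd a ha]; exact φ.range.zero_mem
  have h2 : x ∈ perpL B.flip (perpL B φ.range) := by
    intro m' hm'
    refine hx m' (hnd' _ fun m => ?_)
    rw [← hadj]
    exact hm' _ ⟨m, rfl⟩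
  rw [h1] at h2
  obtain ⟨m, hm⟩ := h2
  exact ⟨m, hm⟩

/-- the endomorphism `m ↦ n • m + c m` -/
def actZ (h : IsAct ρ) (n : ℤ) (g : D) : M →+ M :=
  AddMonoidHom.mk' (fun m => n • m + ρ g m) fun a b => by
    rw [smul_add, h.add]
    abel

theorem actZ_apply (h : IsAct ρ) (n : ℤ) (g : D) (m : M) : actZ h n g m = n • m + ρ g m := rfl

theorem adj_real (h : IsReal c SD χ) (hp : Pair SD χ ρ ρ' B) (n : ℤ) (m : M) (m' : M') :
    B (actZ hp.act n c m) m' = B m (-actZ hp.act' (-n) c m') := by
  rw [actZ_apply, actZ_apply, map_add, AddMonoidHom.add_apply, map_zsmul,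
    AddMonoidHom.zsmul_apply, map_neg, map_add, map_zsmul, neg_smul]
  have h1 := hp.eqv c m (ρ' c m')
  rw [← hp.act'.mul, h.sq, hp.act'.one, h.neg, neg_one_smul] at h1
  rw [h1]
  abel

theorem z1_real (h : IsReal c SD χ) (hρ : IsAct ρ) {x : D → M} :
    Z1 SD ρ x ↔ x 1 = 0 ∧ x c + ρ c (x c) = 0 := by
  constructor
  · rintro ⟨-, h1⟩
    have e1 : x 1 = 0 := by
      have := h1 1 1
      rw [mul_one, hρ.one] at this
      exact left_eq_add.1 this
    refine ⟨e1, ?_⟩
    have := h1 c c
    rw [h.sq, e1] at this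
    exact this.symm
  · rintro ⟨h1, h2⟩
    refine ⟨h.sm1 x, fun a b => ?_⟩
    rcases h.all a with rfl | rfl <;> rcases h.all b with rfl | rfl
    · rw [mul_one, h1, hρ.zero, add_zero]
    · rw [one_mul, h1, hρ.one, zero_add]
    · rw [mul_one, h1, hρ.zero, add_zero]
    · rw [h.sq, h1, h2]

theorem d0_real (h : IsReal c SD χ) (hρ : IsAct ρ) {x : D → M} (h1 : x 1 = 0) {m : M}
    (hm : x c = ρ c m - m) : x = d0 ρ m := by
  funext d
  rcases h.all d with rfl | rfl
  · rw [h1, d0, hρ.one, sub_self]
  · rw [hm, d0]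

theorem z2_real (h : IsReal c SD χ) (hρ : IsAct ρ) {F : D → D → M} (hF : Z2 SD ρ F) :
    (∀ b, F 1 b = F 1 1) ∧ (∀ a, F a 1 = ρ a (F 1 1)) ∧ ρ c (F c c + F 1 1) = F c c + F 1 1 := by
  have key := hF.2
  simp only [d2] at key
  have e1 : ∀ b, F 1 b = F 1 1 := by
    intro b
    have h1 := key 1 1 b
    rw [hρ.one, one_mul, one_mul, sub_self, zero_add] at h1
    exact sub_eq_zero.1 h1
  have e2 : ∀ a, F a 1 = ρ a (F 1 1) := by
    intro a
    have h1 := key a 1 1
    rw [mul_one, mul_one, sub_add_cancel] at h1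
    exact (sub_eq_zero.1 h1).symm
  refine ⟨e1, e2, ?_⟩
  have h1 := key c c c
  rw [h.sq, e1 c, e2 c] at h1
  rw [hρ.add]
  have h2 : ρ c (F c c) + ρ c (F 1 1) = F c c + F 1 1 +
      (ρ c (F c c) - F 1 1 + ρ c (F 1 1) - F c c) := by abel
  rw [h2, h1, add_zero]

theorem b2_real (h : IsReal c SD χ) (hρ : IsAct ρ) {F : D → D → M} (hF : Z2 SD ρ F) {m : M}
    (hm : F c c + F 1 1 = m + ρ c m) : B2 SD ρ F := by
  classical
  obtain ⟨e1, e2, -⟩ := z2_real h hρ hF
  by_cases hc1 : c = 1
  · exfalso
    have h2 := h.neg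
    rw [hc1, h.one] at h2
    have h3 : (2 : ℤ_[2]) = 0 := by linear_combination h2
    exact two_ne_zero h3
  refine ⟨fun d => if d = 1 then F 1 1 else m, h.sm1 _, ?_⟩
  funext a b
  rcases h.all a with rfl | rfl <;> rcases h.all b with rfl | rfl
  · simp only [d1, mul_one, if_true, hρ.one]
    abel
  · simp only [d1, one_mul, if_true, if_neg hc1, hρ.one]
    rw [e1]
    abel
  · simp only [d1, mul_one, if_true, if_neg hc1]
    rw [e2]
    abel
  · simp only [d1, h.sq, if_true, if_neg hc1]
    rw [← hm]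
    abel

theorem lDual_real (h : IsReal c SD χ) (hp : Pair SD χ ρ ρ' B) : LDual SD (invR c) ρ ρ' B := by
  have hfin := h.fin
  refine ⟨inferInstance, inferInstance, fun x hx h0 => ?_, fun y hy h0 => ?_, fun F hF h0 => ?_⟩
  · obtain ⟨h1, h2⟩ := (z1_real h hp.act).1 hx
    obtain ⟨m, hm⟩ := im_of_perp (φ := actZ hp.act (-1) c) (φ' := -actZ hp.act' 1 c) hp.nd hp.nd'
      (fun m m' => by
        have := adj_real h hp (-1) m m'
        rwa [neg_neg] at this) (x := x c) (fun m' hm' => by
        have hm2 : m' + ρ' c m' = 0 := by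
          have h3 : -(actZ hp.act' 1 c m') = 0 := hm'
          rw [actZ_apply, one_smul, neg_eq_zero] at h3
          exact h3
        have hm3 : ρ' c m' = -m' := by
          rw [eq_neg_iff_add_eq_zero, add_comm]
          exact hm2
        classical
        by_cases hc1 : c = 1
        · have h4 : x c = 0 := by rw [hc1, h1]
          rw [h4, map_zero, AddMonoidHom.zero_apply]
        have hy : Z1 SD ρ' (fun d => if d = 1 then (0 : M') else m') := by
          rw [z1_real h hp.act']
          simp only [if_true, if_neg hc1]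
          exact ⟨trivial, hm2⟩
        have h4 := h0 _ hy
        have h5 : B (x c) (ρ' c m') + B (x 1) (ρ' 1 0) = 0 := by
          have h6 : invR c (cup11 ρ' B x (fun d => if d = 1 then (0 : M') else m')) =
              B (x c) (ρ' c (if c = 1 then (0 : M') else m')) +
                B (x 1) (ρ' 1 (if (1 : D) = 1 then (0 : M') else m')) := rfl
          rw [h6, if_neg hc1, if_pos rfl] at h4
          exact h4
        rw [h1, map_zero, AddMonoidHom.zero_apply, add_zero, hm3, map_neg, neg_eq_zero] at h5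
        exact h5)
    refine ⟨m, d0_real h hp.act h1 ?_⟩
    rw [← hm, actZ_apply, neg_one_smul]
    abel
  · obtain ⟨h1, h2⟩ := (z1_real h hp.act').1 hy
    have h3 : ρ' c (y c) = -y c := by
      rw [eq_neg_iff_add_eq_zero, add_comm]
      exact h2
    obtain ⟨m, hm⟩ := im_of_perp (B := B.flip) (φ := actZ hp.act' (-1) c)
      (φ' := -actZ hp.act 1 c) hp.nd' hp.nd
      (fun m' m => by
        have := adj_real h hp 1 m m'
        show B m (actZ hp.act' (-1) c m') = B (-actZ hp.act 1 c m) m'
        rw [map_neg, AddMonoidHom.neg_apply, this, map_neg, neg_neg]) (x := y c) (fun m hm => by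
        have hm2 : m + ρ c m = 0 := by
          have h3 : -(actZ hp.act 1 c m) = 0 := hm
          rw [actZ_apply, one_smul, neg_eq_zero] at h3
          exact h3
        classical
        by_cases hc1 : c = 1
        · have h4 : y c = 0 := by rw [hc1, h1]
          rw [h4, map_zero, AddMonoidHom.zero_apply]
        have hx : Z1 SD ρ (fun d => if d = 1 then (0 : M) else m) := by
          rw [z1_real h hp.act]
          simp only [if_true, if_neg hc1]
          exact ⟨trivial, hm2⟩
        have h4 := h0 _ hx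
        have h6 : invR c (cup11 ρ' B (fun d => if d = 1 then (0 : M) else m) y) =
            B (if c = 1 then (0 : M) else m) (ρ' c (y c)) +
              B (if (1 : D) = 1 then (0 : M) else m) (ρ' 1 (y 1)) := rfl
        rw [h6, if_neg hc1, if_pos rfl, map_zero, AddMonoidHom.zero_apply, add_zero, h3, map_neg,
          neg_eq_zero] at h4
        exact h4)
    refine ⟨m, d0_real h hp.act' h1 ?_⟩
    rw [← hm, actZ_apply, neg_one_smul]
    abel
  · obtain ⟨e1, e2, e3⟩ := z2_real h hp.act' hF
    obtain ⟨m, hm⟩ := im_of_perp (B := B.flip) (φ := actZ hp.act' 1 c)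
      (φ' := -actZ hp.act (-1) c) hp.nd' hp.nd
      (fun m' m => by
        have := adj_real h hp (-1) m m'
        show B m (actZ hp.act' 1 c m') = B (-actZ hp.act (-1) c m) m'
        rw [neg_neg] at this
        rw [map_neg, AddMonoidHom.neg_apply, this, map_neg, neg_neg]) (x := F c c + F 1 1)
      (fun m hm => by
        have hm2 : ρ c m = m := by
          have h3 : -(actZ hp.act (-1) c m) = 0 := hm
          rw [actZ_apply, neg_one_smul, neg_eq_zero, neg_add_eq_zero] at h3
          exact h3.symm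
        have h4 := h0 m fun d => by
          rcases h.all d with rfl | rfl
          · exact hp.act.one m
          · exact hm2
        have h6 : invR c (cup02 B m F) = B m (F c c) + B m (F 1 1) := rfl
        rw [h6, ← map_add] at h4
        exact h4)
    refine b2_real h hp.act' hF (m := m) ?_
    rw [← hm, actZ_apply, one_smul]

end real

end Pool.Agent.Work.MP_787500_nt.GA
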