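import Mathlib
import Pool.Agent.Work.MP_787500_nt.KR.ADefs
import Pool.Agent.Work.MP_787500_nt.KR.F06

/-!
# Sha in degree 2 of the submodule of a self-dual extension

`0 → A → B → A → 0` is an exact sequence of finite self-dual modules, with adjoint maps `i`, `N`. `sha_ext`: if Sha in degree 1 of
`A` is zero, the middle part of the duality holds for `B`, and Sha in degree 2 of `B` is zero, then Sha in degree 2 of
`A` is zero.
-/

set_option autoImplicit false
set_option linter.unusedSectionVars false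

namespace Pool.Agent.Work.MP_787500_nt.GA

open Pool.Agent.Work.MP_787500_nt.GP (A0 half hf IsAct d0 d1 d2 tw cup11 cup01 cup02 perpL perp_perp)
open Pool.Agent.Work.MP_787500_nt.KR

section pairing

variable {D : Type*} [Group D] {SD : FSys D} {χ : D → ℤ_[2]} {iv : (D → D → A0) → A0}
  {M M' : Type*} [AddCommGroup M] [AddCommGroup M'] {ρ : D → M → M} {ρ' : D → M' → M'}
  {B : M →+ M' →+ A0}

theorem iv_add_left (L : LocH SD χ iv) (hp : Pair SD χ ρ ρ' B) {x x' : D → M} {y : D → M'}
    (hx : Z1 SD ρ x) (hx' : Z1 SD ρ x') (hy : Z1 SD ρ' y) :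
    iv (cup11 ρ' B (x + x') y) = iv (cup11 ρ' B x y) + iv (cup11 ρ' B x' y) := by
  rw [← L.add _ _ (cup11_Z2 hp hx hy) (cup11_Z2 hp hx' hy)]
  congr 1
  funext s t
  show B (x s + x' s) _ = B (x s) _ + B (x' s) _
  rw [map_add, AddMonoidHom.add_apply]

theorem iv_add_right (L : LocH SD χ iv) (hp : Pair SD χ ρ ρ' B) {x : D → M} {y y' : D → M'}
    (hx : Z1 SD ρ x) (hy : Z1 SD ρ' y) (hy' : Z1 SD ρ' y') :
    iv (cup11 ρ' B x (y + y')) = iv (cup11 ρ' B x y) + iv (cup11 ρ' B x y') := by
  rw [← L.add _ _ (cup11_Z2 hp hx hy) (cup11_Z2 hp hx hy')]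
  congr 1
  funext s t
  show B (x s) (ρ' s (y t + y' t)) = _
  rw [hp.act'.add, map_add]
  rfl

/-- the local pairing of the cocycles -/
noncomputable def pZ (L : LocH SD χ iv) (hp : Pair SD χ ρ ρ' B) :
    z1s SD hp.act →+ z1s SD hp.act' →+ A0 :=
  AddMonoidHom.mk' (fun x => AddMonoidHom.mk' (fun y => iv (cup11 ρ' B (x : D → M) (y : D → M')))
      (fun y y' => iv_add_right L hp x.2 y.2 y'.2))
    (fun x x' => by
      refine DFunLike.ext _ _ fun y => ?_
      exact iv_add_left L hp x.2 x'.2 y.2)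

theorem pZ_apply (L : LocH SD χ iv) (hp : Pair SD χ ρ ρ' B) (x : z1s SD hp.act)
    (y : z1s SD hp.act') : pZ L hp x y = iv (cup11 ρ' B (x : D → M) (y : D → M')) := rfl

end pairing

section ext

variable {G : Type*} [Group G] {S : FSys G} {I : Type*} [Fintype I] {D : I → Type*}
  [∀ i, Group (D i)] {SD : ∀ i, FSys (D i)} {j : ∀ i, D i →* G} {χ : G → ℤ_[2]}
  {inv : ∀ i, (D i → D i → A0) → A0} {A M : Type*} [AddCommGroup A] [AddCommGroup M] [Finite A]
  [Finite M] {ρ : G → A → A} {σ : G → M → M} {βA : A →+ A →+ A0} {βM : M →+ M →+ A0}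

/-- an exact sequence `0 → A → M → A → 0` with adjoint maps -/
structure Ex (ρ : G → A → A) (σ : G → M → M) (βA : A →+ A →+ A0) (βM : M →+ M →+ A0)
    (e : A →+ M) (N : M →+ A) : Prop where
  einj : Function.Injective e
  nsurj : Function.Surjective N
  ne : ∀ a, N (e a) = 0
  ker : ∀ m, N m = 0 → ∃ a, e a = m
  eqv_e : ∀ g a, e (ρ g a) = σ g (e a)
  eqv_n : ∀ g m, N (σ g m) = ρ g (N m)
  adj : ∀ a m, βM (e a) m = βA a (N m)

variable {e : A →+ M} {N : M →+ A}

theorem Ex.z1_e (h : Ex ρ σ βA βM e N) {T : FSys G} {x : G → A} (hx : Z1 T ρ x) :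
    Z1 T σ (fun g => e (x g)) := by
  obtain ⟨⟨W, hW, h1⟩, h2⟩ := hx
  refine ⟨⟨W, hW, fun g w hw => congrArg e (h1 g w hw)⟩, fun a b => ?_⟩
  show e (x (a * b)) = e (x a) + σ a (e (x b))
  rw [h2, map_add, h.eqv_e]

theorem Ex.z1_n (h : Ex ρ σ βA βM e N) {T : FSys G} {x : G → M} (hx : Z1 T σ x) :
    Z1 T ρ (fun g => N (x g)) := by
  obtain ⟨⟨W, hW, h1⟩, h2⟩ := hx
  refine ⟨⟨W, hW, fun g w hw => congrArg N (h1 g w hw)⟩, fun a b => ?_⟩
  show N (x (a * b)) = N (x a) + ρ a (N (x b))
  rw [h2, map_add, h.eqv_n]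

theorem Ex.n_d0 (h : Ex ρ σ βA βM e N) (m : M) (g : G) : N (d0 σ m g) = d0 ρ (N m) g := by
  simp only [d0, map_sub, h.eqv_n]

theorem Ex.comp (h : Ex ρ σ βA βM e N) {D : Type*} [Group D] (j : D →* G) :
    Ex (fun d => ρ (j d)) (fun d => σ (j d)) βA βM e N :=
  ⟨h.einj, h.nsurj, h.ne, h.ker, fun g => h.eqv_e (j g), fun g => h.eqv_n (j g), h.adj⟩

/-- Sha in degree 2 of `A` from the duality for `M`. -/
theorem sha_ext (H : GlobH S SD j χ inv) (hA : Pair S χ ρ ρ βA) (hM : Pair S χ σ σ βM)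
    (hx : Ex ρ σ βA βM e N)
    (hl : ∀ i, LDual (SD i) (inv i) (fun d => ρ (j i d)) (fun d => ρ (j i d)) βA)
    (hinj : ∀ x, Z1 S ρ x → (∀ i, ∃ m, ∀ d, x (j i d) = d0 (fun d => ρ (j i d)) m d) →
      ∃ m, x = d0 ρ m)
    (hmid : Mid S SD j inv σ σ βM) (hsha : Sha2 S SD j σ) : Sha2 S SD j ρ := by
  classical
  intro f hf hloc
  have hAi : ∀ i, Pair (SD i) (fun d => χ (j i d)) (fun d => ρ (j i d)) (fun d => ρ (j i d)) βA :=
    fun i => hA.comp (H.jsm i)
  have hMi : ∀ i, Pair (SD i) (fun d => χ (j i d)) (fun d => σ (j i d)) (fun d => σ (j i d)) βM :=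
    fun i => hM.comp (H.jsm i)
  have hxi : ∀ i, Ex (fun d => ρ (j i d)) (fun d => σ (j i d)) βA βM e N := fun i => hx.comp (j i)
  choose x hxs hxf using hloc
  -- the class dies in `M`
  obtain ⟨y, hy, hyf⟩ := hsha (fun a b => e (f a b)) (by
      obtain ⟨⟨W, hW, h1⟩, h2⟩ := hf
      refine ⟨⟨W, hW, fun a b w hw w' hw' => congrArg e (h1 a b w hw w' hw')⟩, fun a b c => ?_⟩
      have := congrArg e (h2 a b c)
      simp only [d2, map_sub, map_add, map_zero, hx.eqv_e] at this
      exact this) (fun i => by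
      refine ⟨fun d => e (x i d), ?_, ?_⟩
      · obtain ⟨W, hW, h1⟩ := hxs i
        exact ⟨W, hW, fun g w hw => congrArg e (h1 g w hw)⟩
      · funext a b
        have := congrFun (congrFun (hxf i) a) b
        show e (f (j i a) (j i b)) = _
        rw [this]
        simp only [d1, map_sub, map_add, hx.eqv_e])
  -- `b = N y`
  have hb : Z1 S ρ (fun g => N (y g)) := by
    constructor
    · obtain ⟨W, hW, h1⟩ := hy
      exact ⟨W, hW, fun g w hw => congrArg N (h1 g w hw)⟩
    · intro a c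
      have h1 := congrArg N (congrFun (congrFun hyf a) c)
      simp only [d1, map_sub, map_add, hx.ne, hx.eqv_n] at h1
      exact (sub_eq_zero.1 h1.symm).symm
  -- the local lifts
  have hw : ∀ i, Z1 (SD i) (fun d => σ (j i d)) (fun d => y (j i d) - e (x i d)) := by
    intro i
    constructor
    · obtain ⟨W, hW, h1⟩ := hxs i
      obtain ⟨W', hW', h2⟩ := hy
      obtain ⟨V, hV, h3⟩ := H.jsm i W' hW'
      refine ⟨W ⊓ V, (SD i).inf hW hV, fun g w hw => ?_⟩
      show y (j i (g * w)) - e (x i (g * w)) = y (j i g) - e (x i g)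
      rw [h1 g w hw.1, map_mul, h2 _ _ (h3 w hw.2)]
    · intro a c
      have h1 := congrFun (congrFun hyf (j i a)) (j i c)
      have h2 := congrFun (congrFun (hxf i) a) c
      simp only [d1] at h1 h2
      rw [h2] at h1
      simp only [map_sub, map_add, hx.eqv_e] at h1
      show y (j i (a * c)) - e (x i (a * c)) =
        y (j i a) - e (x i a) + σ (j i a) (y (j i c) - e (x i c))
      rw [map_mul, IsAct.sub' hM.act]
      have h3 : y (j i a * j i c) = y (j i a) + σ (j i a) (y (j i c)) -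
          (e (x i a) + σ (j i a) (e (x i c)) - e (x i (a * c))) := by
        rw [h1]
        abel
      rw [h3]
      abel
  -- finite duality
  have hfin : ∀ i, Finite (z1s (SD i) (hAi i).act) := fun i => (hl i).fin
  let L := ∀ i, z1s (SD i) (hAi i).act
  let β : L →+ L →+ A0 :=
    AddMonoidHom.mk' (fun c => AddMonoidHom.mk' (fun y => ∑ i, pZ (H.loc i) (hAi i) (c i) (y i))
        (fun y y' => by
          rw [← Finset.sum_add_distrib]
          exact Finset.sum_congr rfl fun i _ => map_add (pZ (H.loc i) (hAi i) (c i)) _ _))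
      (fun c c' => by
        refine DFunLike.ext _ _ fun y => ?_
        show ∑ i, pZ (H.loc i) (hAi i) ((c + c') i) (y i) =
          ∑ i, pZ (H.loc i) (hAi i) (c i) (y i) + ∑ i, pZ (H.loc i) (hAi i) (c' i) (y i)
        rw [← Finset.sum_add_distrib]
        refine Finset.sum_congr rfl fun i _ => ?_
        have h0 : (c + c') i = c i + c' i := rfl
        rw [h0, map_add, AddMonoidHom.add_apply])
  have hβ : ∀ c y : L, β c y = ∑ i, inv i (cup11 (fun d => ρ (j i d)) βA (c i : D i → A)
      (y i : D i → A)) := fun c y => rfl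
  let Λ : AddSubgroup L :=
    { carrier := {z | ∃ (l : G → M) (m : I → A), Z1 S σ l ∧
        ∀ i d, (z i : D i → A) d = N (l (j i d)) + d0 (fun d => ρ (j i d)) (m i) d}
      add_mem' := by
        rintro z z' ⟨l, m, hl1, h1⟩ ⟨l', m', hl1', h1'⟩
        refine ⟨fun g => l g + l' g, fun i => m i + m' i, Z1.add hM.act hl1 hl1', fun i d => ?_⟩
        show (z i : D i → A) d + (z' i : D i → A) d = _
        rw [h1, h1', map_add]
        simp only [d0, hA.act.add]
        abel
      zero_mem' := ⟨0, 0, (z1s S hM.act).zero_mem, fun i d => by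
        show (0 : A) = N 0 + (ρ (j i d) 0 - 0)
        rw [map_zero, hA.act.zero, sub_zero, add_zero]⟩
      neg_mem' := by
        rintro z ⟨l, m, hl1, h1⟩
        refine ⟨fun g => -l g, fun i => -m i, Z1.neg hM.act hl1, fun i d => ?_⟩
        show -(z i : D i → A) d = _
        rw [h1, map_neg]
        simp only [d0, hA.act.neg]
        abel }
  have hK : ∀ a : L, (∀ a', β.flip a a' = 0) → a ∈ Λ := by
    intro a ha
    have h1 : ∀ i, ∃ m, (a i : D i → A) = d0 (fun d => ρ (j i d)) m := by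
      intro i
      refine (hl i).one' _ (a i).2 fun z hz => ?_
      have h2 := ha (Pi.single i (⟨z, hz⟩ : z1s (SD i) (hAi i).act))
      have h3 : β.flip a (Pi.single i (⟨z, hz⟩ : z1s (SD i) (hAi i).act)) =
          ∑ i', pZ (H.loc i') (hAi i') ((Pi.single i (⟨z, hz⟩ : z1s (SD i) (hAi i).act) : L) i')
            (a i') := rfl
      rw [h3, Finset.sum_eq_single i] at h2
      · rw [Pi.single_eq_same] at h2
        exact h2
      · intro i' _ hi'
        rw [Pi.single_eq_of_ne hi', map_zero, AddMonoidHom.zero_apply]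
      · intro h4
        exact absurd (Finset.mem_univ i) h4
    choose m hm using h1
    refine ⟨0, m, (z1s S hM.act).zero_mem, fun i d => ?_⟩
    rw [hm i]
    simp
  have hpp := perp_perp β.flip Λ hK
  -- the local family
  let bl : L := fun i => ⟨fun d => N (y (j i d)), hb.comp (H.jsm i)⟩
  have hbl : bl ∈ Λ := by
    rw [← hpp]
    intro c hc
    -- `c` is orthogonal to `Λ`
    have h1 : ∀ l, Z1 S σ l →
        ∑ i, inv i (cup11 (fun d => σ (j i d)) βM (fun d => e ((c i : D i → A) d))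
          (fun d => l (j i d))) = 0 := by
      intro l hl1
      have h2 := hc (fun i => ⟨fun d => N (l (j i d)), (hx.z1_n hl1).comp (H.jsm i)⟩ : L)
        ⟨l, 0, hl1, fun i d => by
          show N (l (j i d)) = _
          simp [d0, hA.act.zero]⟩
      have h3 : β.flip (fun i => ⟨fun d => N (l (j i d)), (hx.z1_n hl1).comp (H.jsm i)⟩ : L) c =
          ∑ i, inv i (cup11 (fun d => ρ (j i d)) βA (c i : D i → A)
            (fun d => N (l (j i d)))) := rfl
      rw [h3] at h2
      rw [← h2]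
      refine Finset.sum_congr rfl fun i _ => ?_
      congr 1
      funext s t
      show βM (e _) (σ _ _) = βA _ (ρ _ (N _))
      rw [hx.adj, hx.eqv_n]
    obtain ⟨X, Y, hX, hXY⟩ := hmid (fun i d => e ((c i : D i → A) d))
      (fun i => (hxi i).z1_e (c i).2) h1
    -- `N X` is locally trivial
    obtain ⟨a, ha⟩ := hinj (fun g => N (X g)) (hx.z1_n hX) fun i => by
      refine ⟨N (Y i), fun d => ?_⟩
      have h2 := congrArg N (hXY i d)
      rw [hx.ne, map_sub] at h2
      have h3 : N (d0 (fun d => σ (j i d)) (Y i) d) = d0 (fun d => ρ (j i d)) (N (Y i)) d :=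
        (hxi i).n_d0 (Y i) d
      rw [h3] at h2
      exact (sub_eq_zero.1 h2.symm)
    obtain ⟨b, rfl⟩ := hx.nsurj a
    have hX' : ∀ g, N (X g - d0 σ b g) = 0 := by
      intro g
      have h2 := congrFun ha g
      rw [map_sub, hx.n_d0]
      exact sub_eq_zero.2 h2
    choose ω hω using fun g => hx.ker _ (hX' g)
    have hX1 : Z1 S σ (fun g => X g - d0 σ b g) := by
      have h2 := Z1.add hM.act hX (Z1.neg hM.act (d0_Z1 hM.act hM.sm b))
      simpa only [sub_eq_add_neg] using h2
    have hω1 : Z1 S ρ ω := by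
      obtain ⟨⟨W, hW, h2⟩, h3⟩ := hX1
      refine ⟨⟨W, hW, fun g w hw => hx.einj ?_⟩, fun s t => hx.einj ?_⟩
      · rw [hω, hω]
        exact h2 g w hw
      · rw [map_add, hx.eqv_e, hω, hω, hω]
        exact h3 s t
    have hci : ∀ i d, e ((c i : D i → A) d - ω (j i d)) =
        d0 (fun d => σ (j i d)) (b - Y i) d := by
      intro i d
      rw [map_sub, hω, hXY i d]
      simp only [d0]
      rw [IsAct.sub' hM.act]
      abel
    -- the sum
    show ∑ i, inv i (cup11 (fun d => ρ (j i d)) βA (c i : D i → A) (fun d => N (y (j i d)))) = 0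
    have h4 : ∀ i, inv i (cup11 (fun d => ρ (j i d)) βA (c i : D i → A)
        (fun d => N (y (j i d)))) = inv i (cup11 (fun d => ρ (j i d)) βA (fun d => ω (j i d))
        (fun d => N (y (j i d)))) := by
      intro i
      have hc1 : Z1 (SD i) (fun d => ρ (j i d)) (fun d => (c i : D i → A) d - ω (j i d)) := by
        have h2 := Z1.add (hAi i).act (c i).2 (Z1.neg (hAi i).act (hω1.comp (H.jsm i)))
        simpa only [sub_eq_add_neg] using h2
      have h5 := iv_add_left (H.loc i) (hAi i) (hω1.comp (H.jsm i)) hc1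
        (y := fun d => N (y (j i d))) (hb.comp (H.jsm i))
      have h6 : (fun d => ω (j i d)) + (fun d => (c i : D i → A) d - ω (j i d)) =
          (c i : D i → A) := by
        funext d
        show ω (j i d) + ((c i : D i → A) d - ω (j i d)) = _
        abel
      rw [h6] at h5
      rw [h5]
      have h7 : inv i (cup11 (fun d => ρ (j i d)) βA (fun d => (c i : D i → A) d - ω (j i d))
          (fun d => N (y (j i d)))) = 0 := by
        have h8 : cup11 (fun d => ρ (j i d)) βA (fun d => (c i : D i → A) d - ω (j i d))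
            (fun d => N (y (j i d))) = cup11 (fun d => σ (j i d)) βM
            (d0 (fun d => σ (j i d)) (b - Y i)) (fun d => y (j i d) - e (x i d)) := by
          funext s t
          show βA _ (ρ _ (N _)) = βM _ (σ _ _)
          rw [← hci, hx.adj, hx.eqv_n]
          show βA _ (ρ _ (N _)) = βA _ (ρ _ (N (y (j i t) - e (x i t))))
          rw [map_sub, map_sub, hx.ne, sub_zero]
        rw [h8]
        exact f06_left (H.loc i) (hMi i) _ (hw i)
      rw [h7, add_zero]
    rw [Finset.sum_congr rfl fun i _ => h4 i]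
    exact H.recip (cup11 ρ βA ω (fun g => N (y g))) (cup11_Z2 hA hω1 hb)
  -- correction
  obtain ⟨l, m, hl1, hlm⟩ := hbl
  obtain ⟨a, ha⟩ := hinj (fun g => N (y g) - N (l g)) (by
      have h2 := Z1.add hA.act hb (Z1.neg hA.act (hx.z1_n hl1))
      simpa only [sub_eq_add_neg] using h2) fun i => ⟨m i, fun d => by
      have h3 : N (y (j i d)) = N (l (j i d)) + d0 (fun d => ρ (j i d)) (m i) d := hlm i d
      show N (y (j i d)) - N (l (j i d)) = _
      rw [h3]
      abel⟩
  obtain ⟨b, rfl⟩ := hx.nsurj a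
  have hl2 : Z1 S σ (fun g => l g + d0 σ b g) := Z1.add hM.act hl1 (d0_Z1 hM.act hM.sm b)
  have hN : ∀ g, N (y g - (l g + d0 σ b g)) = 0 := by
    intro g
    have h2 := congrFun ha g
    rw [map_sub, map_add, hx.n_d0, ← h2]
    abel
  choose z hz using fun g => hx.ker _ (hN g)
  refine ⟨z, ?_, ?_⟩
  · obtain ⟨W, hW, h1⟩ := hy
    obtain ⟨⟨W', hW', h2⟩, -⟩ := hl2
    refine ⟨W ⊓ W', S.inf hW hW', fun g w hw => hx.einj ?_⟩
    rw [hz, hz, h1 g w hw.1]
    have := h2 g w hw.2
    simp only at this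
    rw [this]
  · funext s t
    apply hx.einj
    have h1 : e (f s t) = d1 σ y s t := congrFun (congrFun hyf s) t
    have h2 : l (s * t) + d0 σ b (s * t) = l s + d0 σ b s + σ s (l t + d0 σ b t) := hl2.2 s t
    rw [h1]
    simp only [d1, map_sub, map_add, hx.eqv_e, hz]
    rw [h2, IsAct.sub' hM.act]
    abel

end ext

end Pool.Agent.Work.MP_787500_nt.GA
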