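import Mathlib
import Pool.Agent.Work.MP_787500_nt.GA.ShaExt
import Pool.Agent.Work.MP_787500_nt.KR.A6_Base

/-!
# Duality for the permutation module in the presence of real places

`ex_perm`: for `C' ≤ C` of index 2 the permutation modules of `G ⧸ C`, `G ⧸ C'` form a self-dual extension. `base_real`: the hypotheses
`BaseU` for the permutation module of `C` from the local-global principles for homomorphisms of `C` and `C'` and for
2-cocycles of `C'`, and from the numbers of classes.
-/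

set_option autoImplicit false
set_option linter.unusedSectionVars false

namespace Pool.Agent.Work.MP_787500_nt.GA

open Pool.Agent.Work.MP_787500_nt.GP (A0 half hf hf_add hf_zero smul_hf IsAct d0 d1 d2 tw cup11 cup01 cup02
  perpL perp_perp)
open Pool.Agent.Work.MP_787500_nt.PA (TwoSys homs)
open Pool.Agent.Work.MP_787500_nt.KR

/-! ## The extension of permutation modules -/

section perm

variable {G V V' : Type*} [Group G] [MulAction G V] [MulAction G V'] [Fintype V] [Fintype V']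
  {π : V' → V}

/-- functions on `V` as functions on `V'` -/
def eP (π : V' → V) : (V → ZMod 2) →+ (V' → ZMod 2) :=
  AddMonoidHom.mk' (fun f v' => f (π v')) fun _ _ => rfl

open scoped Classical in
/-- the sum over the fibres -/
noncomputable def nP (π : V' → V) : (V' → ZMod 2) →+ (V → ZMod 2) :=
  AddMonoidHom.mk' (fun m v => ∑ v' with π v' = v, m v') fun m m' => by
    funext v
    exact Finset.sum_add_distrib

/-- every fibre has exactly two elements -/
def Two2 (π : V' → V) : Prop := ∀ v, ∃ a b, a ≠ b ∧ ∀ v', π v' = v ↔ v' = a ∨ v' = b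

theorem nP_apply {m : V' → ZMod 2} {v : V} {a b : V'} (hab : a ≠ b)
    (h : ∀ v', π v' = v ↔ v' = a ∨ v' = b) : nP π m v = m a + m b := by
  classical
  show ∑ v' with π v' = v, m v' = _
  have e : (Finset.univ.filter fun v' => π v' = v) = {a, b} := by
    ext v'
    rw [Finset.mem_filter, h, Finset.mem_insert, Finset.mem_singleton]
    exact ⟨fun h => h.2, fun h => ⟨Finset.mem_univ _, h⟩⟩
  have e2 : ∑ v' with π v' = v, m v' = ∑ v' ∈ ({a, b} : Finset V'), m v' := by
    rw [← e]
  rw [e2, Finset.sum_pair hab]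

theorem hf_sum {ι : Type*} (s : Finset ι) (f : ι → ZMod 2) : hf (∑ i ∈ s, f i) = ∑ i ∈ s, hf (f i) := by
  classical
  induction s using Finset.induction_on with
  | empty => rw [Finset.sum_empty, Finset.sum_empty, hf_zero]
  | insert a s ha ih => rw [Finset.sum_insert ha, Finset.sum_insert ha, hf_add, ih]

theorem ex_perm (hπ : ∀ (g : G) v', π (g • v') = g • π v') (h2 : Two2 π)
    {βV : (V → ZMod 2) →+ (V → ZMod 2) →+ A0} {βV' : (V' → ZMod 2) →+ (V' → ZMod 2) →+ A0}
    (hV : ∀ f f', βV f f' = ∑ v, hf (f v * f' v))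
    (hV' : ∀ f f', βV' f f' = ∑ v, hf (f v * f' v)) :
    Ex (prm : G → (V → ZMod 2) → V → ZMod 2) (prm : G → (V' → ZMod 2) → V' → ZMod 2) βV βV'
      (eP π) (nP π) := by
  classical
  have hsurj : Function.Surjective π := by
    intro v
    obtain ⟨a, b, -, h⟩ := h2 v
    exact ⟨a, (h a).2 (Or.inl rfl)⟩
  choose a b hab hfib using h2
  have hπa : ∀ v, π (a v) = v := fun v => (hfib v (a v)).2 (Or.inl rfl)
  have hπb : ∀ v, π (b v) = v := fun v => (hfib v (b v)).2 (Or.inr rfl)
  have hN : ∀ m v, nP π m v = m (a v) + m (b v) := fun m v => nP_apply (hab v) (hfib v)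
  refine ⟨fun f f' h => ?_, fun f => ?_, fun f => ?_, fun m hm => ?_, fun g f => ?_, fun g m => ?_,
    fun f m => ?_⟩
  · funext v
    have := congrFun h (a v)
    change f (π (a v)) = f' (π (a v)) at this
    rwa [hπa] at this
  · refine ⟨fun v' => if v' = a (π v') then f (π v') else 0, ?_⟩
    funext v
    rw [hN, hπa, hπb, if_pos rfl, if_neg (hab v).symm, add_zero]
  · funext v
    rw [hN]
    show f (π (a v)) + f (π (b v)) = 0
    rw [hπa, hπb]
    exact CharTwo.add_self_eq_zero _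
  · refine ⟨fun v => m (a v), ?_⟩
    funext v'
    show m (a (π v')) = m v'
    have h3 := congrFun hm (π v')
    rw [hN] at h3
    have h4 : ∀ x y : ZMod 2, x + y = 0 → x = y := by decide
    rcases (hfib (π v') v').1 rfl with h5 | h5
    · rw [← h5]
    · rw [h4 _ _ h3, ← h5]
  · funext v'
    show f (g⁻¹ • π v') = f (π (g⁻¹ • v'))
    rw [hπ]
  · funext v
    show ∑ v' with π v' = v, m (g⁻¹ • v') = ∑ v' with π v' = g⁻¹ • v, m v'
    refine Finset.sum_bij (fun v' _ => g⁻¹ • v') (fun v' hv => ?_) (fun v₁ _ v₂ _ h => ?_)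
      (fun v' hv => ?_) (fun v' _ => rfl)
    · rw [Finset.mem_filter] at hv ⊢
      exact ⟨Finset.mem_univ _, by rw [hπ, hv.2]⟩
    · exact smul_left_cancel _ h
    · rw [Finset.mem_filter] at hv
      exact ⟨g • v', Finset.mem_filter.2 ⟨Finset.mem_univ _, by rw [hπ, hv.2, smul_inv_smul]⟩,
        inv_smul_smul _ _⟩
  · rw [hV, hV']
    have h3 : ∀ v, hf (f v * nP π m v) = ∑ v' with π v' = v, hf (f (π v') * m v') := by
      intro v
      show hf (f v * ∑ v' with π v' = v, m v') = _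
      rw [Finset.mul_sum, hf_sum]
      refine Finset.sum_congr rfl fun v' hv => ?_
      rw [(Finset.mem_filter.1 hv).2]
    rw [Finset.sum_congr rfl fun v _ => h3 v]
    exact (Finset.sum_fiberwise Finset.univ π (fun v' => hf (f (π v') * m v'))).symm

end perm

/-! ## Cosets -/

section cosets

variable {G : Type*} [Group G] {C C' : Subgroup G}

theorem qm_smul (h : C' ≤ C) (g : G) (v : G ⧸ C') :
    Subgroup.quotientMapOfLE h (g • v) = g • Subgroup.quotientMapOfLE h v := by
  induction v using QuotientGroup.induction_on with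
  | H x => rfl

theorem qm_two (h : C' ≤ C) (h2 : C'.relIndex C = 2) : Two2 (Subgroup.quotientMapOfLE h) := by
  obtain ⟨c, hc, hcC⟩ : ∃ c ∈ C, c ∉ C' := by
    by_contra hcon
    push Not at hcon
    have h3 : C ≤ C' := hcon
    rw [Subgroup.relIndex_eq_one.2 h3] at h2
    omega
  have key : ∀ x ∈ C, x ∈ C' ∨ c⁻¹ * x ∈ C' := by
    intro x hx
    by_cases hxC : x ∈ C'
    · exact Or.inl hxC
    · right
      have h3 := Subgroup.mul_mem_iff_of_index_two (H := C'.subgroupOf C) h2
        (a := (⟨c, hc⟩ : C)⁻¹) (b := ⟨x, hx⟩)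
      have h4 : (⟨c, hc⟩ : C)⁻¹ ∉ C'.subgroupOf C := by
        rw [Subgroup.inv_mem_iff, Subgroup.mem_subgroupOf]
        exact hcC
      have h5 : (⟨x, hx⟩ : C) ∉ C'.subgroupOf C := by
        rw [Subgroup.mem_subgroupOf]
        exact hxC
      have h6 := h3.2 ⟨fun h => absurd h h4, fun h => absurd h h5⟩
      exact Subgroup.mem_subgroupOf.1 h6
  intro v
  induction v using QuotientGroup.induction_on with
  | H g =>
  refine ⟨(g : G ⧸ C'), ((g * c : G) : G ⧸ C'), ?_, fun v' => ?_⟩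
  · intro h3
    rw [QuotientGroup.eq] at h3
    exact hcC (by simpa using h3)
  · induction v' using QuotientGroup.induction_on with
    | H x =>
    have e : Subgroup.quotientMapOfLE h (x : G ⧸ C') = (x : G ⧸ C) := rfl
    rw [e, eq_comm, QuotientGroup.eq]
    constructor
    · intro h3
      rcases key _ h3 with h4 | h4
      · left
        rw [eq_comm, QuotientGroup.eq]
        exact h4
      · right
        rw [eq_comm, QuotientGroup.eq, mul_inv_rev, mul_assoc]
        exact h4
    · rintro (h3 | h3)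
      · rw [eq_comm, QuotientGroup.eq] at h3
        exact h h3
      · rw [eq_comm, QuotientGroup.eq, mul_inv_rev, mul_assoc] at h3
        have := C.mul_mem hc (h h3)
        rwa [mul_inv_cancel_left] at this

theorem indB_mB {S : FSys G} {χ : G → ℤ_[2]} (hχ : IsChar S χ) [Fintype (G ⧸ C)]
    (f f' : G ⧸ C → ZMod 2) : indB (traQ C) χ mB f f' = ∑ v, hf (f v * f' v) := by
  rw [indB_apply]
  refine Finset.sum_congr rfl fun v _ => ?_
  rw [mB_apply, smul_hf (hχ.odd _)]

end cosets

/-! ## The permutation module -/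

section base

variable {G : Type*} [Group G] {F : FSys G} {N₀ C C' : Subgroup G} {I : Type*} [Fintype I]
  {D : I → Type*} [∀ i, Group (D i)] {SD : ∀ i, FSys (D i)} {j : ∀ i, D i →* G} {χ : G → ℤ_[2]}
  {inv : ∀ i, (D i → D i → A0) → A0}

theorem perm_pair' [Fintype (G ⧸ C)] (hχ : IsChar (big F N₀) χ)
    (hT : (traQ C).Sm (big F N₀) (ofTwo (two (res F C)))) :
    Pair (big F N₀) χ prm prm (indB (traQ C) χ mB) :=
  ind_pair hχ hT (tr2_pair (S := ofTwo (two (res F C))) (χ := fun c : C => χ c)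
    ⟨hχ.one, fun g h => hχ.mul g h, (char_res hχ hT).cont, fun g => hχ.odd g⟩)

theorem sh1_perm [Finite (G ⧸ C)] (hT : (traQ C).Sm (big F N₀) (ofTwo (two (res F C))))
    (hi : InjC F C j) {x : G → G ⧸ C → ZMod 2} (hx : Z1 (big F N₀) prm x)
    (h0 : ∀ i, ∃ f, ∀ d, x (j i d) = d0 (fun d => prm (j i d)) f d) : ∃ f, x = d0 prm f :=
  sh1_zero hT hi hx h0

theorem g1_perm' [Fintype (G ⧸ C)] (hχ : IsChar (big F N₀) χ)
    (hT : (traQ C).Sm (big F N₀) (ofTwo (two (res F C))))
    (hfin : FiniteDimensional (ZMod 2) (homs (two (res F C)) (⊤ : Subgroup C)))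
    (hi : InjC F C j) :
    g1 (big F N₀) j (prm_act : IsAct (prm : G → (G ⧸ C → ZMod 2) → _ → ZMod 2)) =
      2 ^ Module.finrank (ZMod 2) (homs (two (res F C)) (⊤ : Subgroup C)) := by
  rw [← h1_tr2 _ hfin, ← h1_ind hT tr2_act]
  have e : sh1 (big F N₀) j (prm_act : IsAct (prm : G → (G ⧸ C → ZMod 2) → _ → ZMod 2)) =
      b1s (prm_act : IsAct (prm : G → (G ⧸ C → ZMod 2) → _ → ZMod 2)) := by
    ext x
    constructor
    · rintro ⟨h1, h2⟩
      exact sh1_zero hT hi h1 h2
    · rintro ⟨m, rfl⟩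
      have hp := perm_pair' hχ hT
      exact ⟨d0_Z1 prm_act hp.sm m, fun i => ⟨m, fun d => rfl⟩⟩
  show (sh1 (big F N₀) j _).relIndex (z1s (big F N₀) _) = _
  rw [e]
  rfl

/-- the inequality from reciprocity -/
theorem perm_le' [Fintype (G ⧸ C)] (H : GlobH (big F N₀) SD j χ inv)
    (hT : (traQ C).Sm (big F N₀) (ofTwo (two (res F C))))
    (hf : Finite {x : G → G ⧸ C → ZMod 2 // Z1 (big F N₀) prm x})
    (hfin : FiniteDimensional (ZMod 2) (homs (two (res F C)) (⊤ : Subgroup C)))
    (hl : ∀ i, LDual (SD i) (inv i) (fun d => prm (j i d)) (fun d => prm (j i d))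
      (indB (traQ C) χ mB))
    (hi : InjC F C j) {r : ℕ}
    (hr : ∏ i, h1 (SD i) (prm_act.comp (j i) :
      IsAct fun d => (prm (j i d) : (G ⧸ C → ZMod 2) → _ → ZMod 2)) ≤ 2 ^ r) :
    2 * Module.finrank (ZMod 2) (homs (two (res F C)) (⊤ : Subgroup C)) ≤ r := by
  have hp := perm_pair' H.char hT
  have k1 := cnt_le H hp hl hf hf
  have e := g1_perm' H.char hT hfin hi
  have e2 := congrArg₂ (· * ·) e e
  simp only [← pow_add] at e2
  replace k1 := le_trans (le_of_eq e2.symm) k1
  have h3 := (Nat.pow_le_pow_iff_right (by norm_num : 1 < 2)).1 (k1.trans hr)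
  omega

/-- the middle part of the duality -/
theorem perm_mid' [Fintype (G ⧸ C)] (H : GlobH (big F N₀) SD j χ inv)
    (hT : (traQ C).Sm (big F N₀) (ofTwo (two (res F C))))
    (hf : Finite {x : G → G ⧸ C → ZMod 2 // Z1 (big F N₀) prm x})
    (hfin : FiniteDimensional (ZMod 2) (homs (two (res F C)) (⊤ : Subgroup C)))
    (hl : ∀ i, LDual (SD i) (inv i) (fun d => prm (j i d)) (fun d => prm (j i d))
      (indB (traQ C) χ mB))
    (hi : InjC F C j) {r : ℕ}
    (hr : ∏ i, h1 (SD i) (prm_act.comp (j i) :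
      IsAct fun d => (prm (j i d) : (G ⧸ C → ZMod 2) → _ → ZMod 2)) ≤ 2 ^ r)
    (hc : r ≤ 2 * Module.finrank (ZMod 2) (homs (two (res F C)) (⊤ : Subgroup C))) :
    Mid (big F N₀) SD j inv (prm : G → (G ⧸ C → ZMod 2) → _ → ZMod 2) prm
      (indB (traQ C) χ mB) := by
  have hp := perm_pair' H.char hT
  refine mid_of_cnt H hp hl hf hf ?_
  have e := g1_perm' H.char hT hfin hi
  have e2 := congrArg₂ (· * ·) e e
  simp only [← pow_add] at e2
  refine le_trans ?_ (le_of_eq e2.symm)
  exact hr.trans (Nat.pow_le_pow_right (by norm_num) (by omega))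

/-- THE PERMUTATION MODULE in the presence of real places: `C'` has index 2 in `C`. -/
theorem base_real [Fintype (G ⧸ C)] [Fintype (G ⧸ C')] (H : GlobH (big F N₀) SD j χ inv)
    (hC : Syl F N₀ C) (hCC : C' ≤ C) (hN : N₀ ≤ C') (h2 : C'.relIndex C = 2)
    (hfin : FiniteDimensional (ZMod 2) (homs (two (res F C)) (⊤ : Subgroup C)))
    (hfin' : FiniteDimensional (ZMod 2) (homs (two (res F C')) (⊤ : Subgroup C')))
    (hl : ∀ i, LDual (SD i) (inv i) (fun d => prm (j i d)) (fun d => prm (j i d))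
      (indB (traQ C) χ mB))
    (hl' : ∀ i, LDual (SD i) (inv i) (fun d => prm (j i d)) (fun d => prm (j i d))
      (indB (traQ C') χ mB))
    (hi : InjC F C j) (hi' : InjC F C' j) {r r' : ℕ}
    (hr : ∏ i, h1 (SD i) (prm_act.comp (j i) :
      IsAct fun d => (prm (j i d) : (G ⧸ C → ZMod 2) → _ → ZMod 2)) ≤ 2 ^ r)
    (hr' : ∏ i, h1 (SD i) (prm_act.comp (j i) :
      IsAct fun d => (prm (j i d) : (G ⧸ C' → ZMod 2) → _ → ZMod 2)) ≤ 2 ^ r')
    (hc : r ≤ 2 * Module.finrank (ZMod 2) (homs (two (res F C)) (⊤ : Subgroup C)))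
    (hc' : r' ≤ 2 * Module.finrank (ZMod 2) (homs (two (res F C')) (⊤ : Subgroup C')))
    (hs' : 2 * Module.finrank (ZMod 2) (homs (two (res F C')) (⊤ : Subgroup C')) ≤ r' →
      ShaC F C' SD j) :
    BaseU (big F N₀) SD j χ inv (ind (traQ C) tr2) (ind (traQ C) tr2)
      (indB (traQ C) χ mB) := by
  have hn := hC.normal
  have hT := syl_sm hC
  have hT' : (traQ C').Sm (big F N₀) (ofTwo (two (res F C'))) := by
    refine traQ_sm hC.opn hN ?_
    obtain ⟨k, hk⟩ := hC.pow
    have h3 := Subgroup.relIndex_mul_relIndex N₀ C' C hN hCC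
    rw [h2, hk] at h3
    have h4 : N₀.relIndex C' ∣ 2 ^ k := Dvd.intro _ h3
    obtain ⟨l, -, hl⟩ := (Nat.dvd_prime_pow Nat.prime_two).1 h4
    exact ⟨l, hl⟩
  have hp := perm_pair' H.char hT
  have hp' := perm_pair' H.char hT'
  have hf : Finite {x : G → G ⧸ C → ZMod 2 // Z1 (big F N₀) prm x} := fin_Z1 hC hfin hp
  have hf' : Finite {x : G → G ⧸ C' → ZMod 2 // Z1 (big F N₀) prm x} := fin_Z1 hC hfin hp'
  have hsh : Sha2 (big F N₀) SD j (prm : G → (G ⧸ C' → ZMod 2) → _ → ZMod 2) :=
    sha_ind hT' H.jsm (hs' (perm_le' H hT' hf' hfin' hl' hi' hr'))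
  have hmid' := perm_mid' H hT' hf' hfin' hl' hi' hr' hc'
  have hx : Ex (prm : G → (G ⧸ C → ZMod 2) → _ → ZMod 2) prm (indB (traQ C) χ mB)
      (indB (traQ C') χ mB) (eP (Subgroup.quotientMapOfLE hCC))
      (nP (Subgroup.quotientMapOfLE hCC)) :=
    ex_perm (qm_smul hCC) (qm_two hCC h2) (indB_mB H.char) (indB_mB H.char)
  have hsha : Sha2 (big F N₀) SD j (prm : G → (G ⧸ C → ZMod 2) → _ → ZMod 2) :=
    sha_ext H hp hp' hx hl (fun x hx h0 => sh1_zero hT hi hx h0) hmid' hsh
  exact
    { pair := hp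
      fin := hf
      fin' := hf
      sha := hsha
      sha' := hsha
      mid := perm_mid' H hT hf hfin hl hi hr hc
      two := fun i F hF' h0 => (hl i).two F hF' h0 }

end base

end Pool.Agent.Work.MP_787500_nt.GA
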