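import Mathlib
import Pool.Agent.Work.MP_787500_nt.GA.RealLD
import Pool.Agent.Work.MP_787500_nt.KR.ADefs

/-!
# The number of classes of a permutation module at infinity

`h1_real`: the number of classes is at most `2 ^ r`, `r` the number of fixed points of `c`.
-/

set_option autoImplicit false
set_option linter.unusedSectionVars false

namespace Pool.Agent.Work.MP_787500_nt.GA

open Pool.Agent.Work.MP_787500_nt.GP (A0 half hf IsAct d0 d1 d2 tw cup11 cup02 perpL perp_perp)
open Pool.Agent.Work.MP_787500_nt.KR

variable {D G V : Type*} [Group D] [Group G] [MulAction G V] [Finite V] {j : D →* G} {c : D}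
  {SD : FSys D} {χ : D → ℤ_[2]}

theorem h1_real (h : IsReal c SD χ) :
    h1 SD (prm_act.comp j : IsAct fun d => (prm (j d) : (V → ZMod 2) → V → ZMod 2)) ≤
      2 ^ Nat.card {v : V // j c • v = v} := by
  classical
  have := Fintype.ofFinite V
  set hact : IsAct fun d => (prm (j d) : (V → ZMod 2) → V → ZMod 2) := prm_act.comp j with hact'
  let φ : z1s SD hact →+ ({v : V // j c • v = v} → ZMod 2) :=
    AddMonoidHom.mk' (fun x v => (x : D → V → ZMod 2) c v) fun x y => rfl
  have hinv : (j c)⁻¹ = j c := by
    rw [inv_eq_iff_mul_eq_one, ← map_mul, h.sq, map_one]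
  have hker : φ.ker ≤ (b1s hact).addSubgroupOf (z1s SD hact) := by
    intro x hx
    rw [AddSubgroup.mem_addSubgroupOf, mem_b1s]
    obtain ⟨h1, h2⟩ := (z1_real h hact).1 x.2
    have h0 : ∀ v, j c • v = v → (x : D → V → ZMod 2) c v = 0 := by
      intro v hv
      exact congrFun (AddMonoidHom.mem_ker.1 hx) ⟨v, hv⟩
    have h3 : ∀ v, (x : D → V → ZMod 2) c v + (x : D → V → ZMod 2) c (j c • v) = 0 := by
      intro v
      have := congrFun h2 v
      simp only [Pi.add_apply, prm, hinv, Pi.zero_apply] at this
      exact this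
    let e := Fintype.equivFin V
    refine ⟨fun v => if e v < e (j c • v) then (x : D → V → ZMod 2) c v else 0,
      d0_real h hact h1 ?_⟩
    funext v
    simp only [prm, hinv, Pi.sub_apply]
    have hcc : j c • j c • v = v := by rw [← mul_smul, ← map_mul, h.sq, map_one, one_smul]
    rw [hcc]
    have key : ∀ a b : ZMod 2, a + b = 0 → a = b - 0 := by decide
    have key2 : ∀ a : ZMod 2, a = 0 - a := by decide
    rcases lt_trichotomy (e v) (e (j c • v)) with h4 | h4 | h4
    · rw [if_neg (not_lt.2 h4.le), if_pos h4]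
      exact key2 _
    · rw [if_neg (by rw [h4]; exact lt_irrefl _), if_neg (by rw [h4]; exact lt_irrefl _), sub_self]
      exact h0 v (e.injective h4.symm)
    · rw [if_pos h4, if_neg (not_lt.2 h4.le)]
      exact key _ _ (h3 v)
  have h5 : (b1s hact).relIndex (z1s SD hact) ∣ φ.ker.index := AddSubgroup.index_dvd_of_le hker
  have h6 : φ.ker.index ∣ 2 ^ Nat.card {v : V // j c • v = v} := by
    rw [AddSubgroup.index_ker]
    have h7 : Nat.card φ.range ∣ Nat.card ({v : V // j c • v = v} → ZMod 2) :=
      AddSubgroup.card_addSubgroup_dvd_card φ.range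
    rwa [Nat.card_fun, Nat.card_zmod] at h7
  exact Nat.le_of_dvd (by positivity) (h5.trans h6)

end Pool.Agent.Work.MP_787500_nt.GA
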