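import Mathlib
import Pool.Agent.Work.MP_787500_nt.GA.LocBQ
import Pool.Agent.Work.MP_787500_nt.GA.RealCnt
import Pool.Agent.Work.MP_787500_nt.HP.Conj
import Pool.Agent.Work.MP_787500_nt.KR.M2_Mid

/-!
# The level of the rational numbers: the global hypotheses

The places are `none` (infinity) and `some w`, `w : Option T`. `HQ` are the local groups, `SQ` their systems, `iQ` the invariants. `globQ`: `KR.GlobH`; `ldQ`: local duality for all finite pairs.
-/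

set_option autoImplicit false
set_option linter.unusedSectionVars false

namespace Pool.Agent.Work.MP_787500_nt.GA

open IsDedekindDomain NumberField WithZero
open Pool.Agent.Work.MP_787500_nt.PA (TwoSys homs LocalType)
open Pool.Agent.Work.MP_787500_nt.GP (A0 hf IsAct d0 d1 d2 tw sysT stabD Fx GoodT inT subSys)
open Pool.Agent.Work.MP_787500_nt.HN
open Pool.Agent.Work.MP_787500_nt.HP
open Pool.Agent.Work.MP_787500_nt.KR (FSys ofTwo big two res fullK fullQ fullD fullC CountsF Sm1 orb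
  InjC ShaC LocB GlobH LDual Pair LocD Syl prm prm_act h1)
open Pool.Agent.Work.MP_787500_nt.RQ (LocF)

universe u v

section defs

variable {Ω : Type u} [Field Ω] {T : Finset ℕ}

/-- the local groups: `none` is the place at infinity -/
def HQ (c : Ω ≃+* Ω) (P : ℕ → Ideal (𝓞 Ω)) : Option (Option T) → Subgroup (Ω ≃+* Ω)
  | none => Subgroup.zpowers c
  | some w => stb (HP.PP P w)

/-- the inclusions -/
def jQ (c : Ω ≃+* Ω) (P : ℕ → Ideal (𝓞 Ω)) (i : Option (Option T)) : HQ c P i →* (Ω ≃+* Ω) :=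
  (HQ c P i).subtype

/-- the systems -/
def SQ (c : Ω ≃+* Ω) (P : ℕ → Ideal (𝓞 Ω)) (N₀ : Subgroup (Ω ≃+* Ω)) (i : Option (Option T)) :
    FSys (HQ c P i) :=
  big (fullC (HQ c P i)) (N₀.subgroupOf (HQ c P i))

/-- the invariants -/
noncomputable def iQ (c : Ω ≃+* Ω) (P : ℕ → Ideal (𝓞 Ω))
    (ivF : ∀ w : Option T, (stb (HP.PP P w) → stb (HP.PP P w) → A0) → A0) :
    ∀ i : Option (Option T), (HQ c P i → HQ c P i → A0) → A0
  | none => invR (⟨c, Subgroup.mem_zpowers c⟩ : Subgroup.zpowers c)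
  | some w => ivF w

theorem subgroupOf_fullC {T : Set ℕ} {W : Subgroup (Ω ≃+* Ω)} (hW : (fullQ Ω T).mem W)
    (H : Subgroup (Ω ≃+* Ω)) : (fullC H).mem (W.subgroupOf H) := by
  obtain ⟨⟨⟨s, hs⟩, hn, hi⟩, -⟩ := hW
  refine ⟨⟨s, fun g hg => hs g hg⟩, inferInstance, ?_⟩
  intro h
  have h1 : (W.subgroupOf H).index ∣ W.index := Subgroup.relIndex_dvd_index_of_normal W H
  rw [h, zero_dvd_iff] at h1
  exact hi h1

theorem jsmQ (c : Ω ≃+* Ω) (P : ℕ → Ideal (𝓞 Ω)) (N₀ : Subgroup (Ω ≃+* Ω))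
    (i : Option (Option T)) (W : Subgroup (Ω ≃+* Ω)) (hW : (big (fullQ Ω (T : Set ℕ)) N₀).mem W) :
    ∃ W', (SQ c P N₀ i).mem W' ∧ ∀ w ∈ W', jQ c P i w ∈ W := by
  obtain ⟨hn, ⟨W₁, hW₁, h2⟩, hk⟩ := hW
  exact ⟨W.comap (jQ c P i), ⟨inferInstance, ⟨_, subgroupOf_fullC hW₁ _, fun v hv => h2 hv⟩,
    KR.comap_rel (jQ c P i) W (Subgroup.map_comap_le _ _) hk⟩, fun v hv => hv⟩

theorem opn_fullC {T : Set ℕ} {N₀ : Subgroup (Ω ≃+* Ω)} (h : KR.Opn (fullQ Ω T) N₀)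
    (H : Subgroup (Ω ≃+* Ω)) : KR.Opn (fullC H) (N₀.subgroupOf H) := by
  obtain ⟨W, hW, h1⟩ := h
  exact ⟨_, subgroupOf_fullC hW H, fun v hv => h1 hv⟩

variable [CharZero Ω] [IsAlgClosed Ω]

theorem zpowers_two {c : Ω ≃+* Ω} (hc : ∀ x, c (c x) = x) (d : Subgroup.zpowers c) :
    d = 1 ∨ d = ⟨c, Subgroup.mem_zpowers c⟩ := by
  have hcc : c * c = 1 := by
    ext x
    exact hc x
  obtain ⟨d, n, rfl⟩ := d
  rcases Int.even_or_odd' n with ⟨k, rfl | rfl⟩
  · left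
    apply Subtype.ext
    show c ^ (2 * k) = 1
    rw [zpow_mul, zpow_two, hcc, one_zpow]
  · right
    apply Subtype.ext
    show c ^ (2 * k + 1) = c
    rw [zpow_add, zpow_mul, zpow_two, hcc, one_zpow, one_mul, zpow_one]

theorem isReal_inf {c : Ω ≃+* Ω} (hc : ∀ x, c (c x) = x) (hne : ∃ x, c x ≠ x)
    (P : ℕ → Ideal (𝓞 Ω)) (N₀ : Subgroup (Ω ≃+* Ω)) :
    IsReal (⟨c, Subgroup.mem_zpowers c⟩ : Subgroup.zpowers c)
      (SQ c P N₀ (none : Option (Option T))) (fun d : Subgroup.zpowers c => cyQ (d : Ω ≃+* Ω)) := by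
  have hcc : c * c = 1 := by
    ext x
    exact hc x
  have hch := RQ.char_lfull (Ω := Ω) (Subgroup.zpowers c)
  have hfin : Finite (Subgroup.zpowers c) := by
    classical
    refine Finite.of_surjective
      (fun b : Bool => if b then (⟨c, Subgroup.mem_zpowers c⟩ : Subgroup.zpowers c) else 1)
      fun d => ?_
    rcases zpowers_two hc d with rfl | rfl
    · exact ⟨false, rfl⟩
    · exact ⟨true, rfl⟩
  have hcard : Nat.card (Subgroup.zpowers c) ∣ 2 := by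
    rw [Nat.card_zpowers]
    exact orderOf_dvd_of_pow_eq_one (by rw [pow_two, hcc])
  have hbot : (big (fullC (Subgroup.zpowers c)) (N₀.subgroupOf (Subgroup.zpowers c))).mem ⊥ := by
    refine ⟨inferInstance, ⟨⊥, ⟨?_, inferInstance, ?_⟩, le_rfl⟩, ?_⟩
    · obtain ⟨x, hx⟩ := hne
      refine ⟨{x}, fun g hg => ?_⟩
      rcases zpowers_two hc g with rfl | rfl
      · exact Subgroup.one_mem _
      · exact absurd (hg x (Finset.mem_singleton_self x)) hx
    · rw [Subgroup.index_bot]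
      exact Nat.card_pos.ne'
    · have h1 : (⊥ : Subgroup (Subgroup.zpowers c)).relIndex
          (N₀.subgroupOf (Subgroup.zpowers c)) ∣ 2 ^ 1 := by
        rw [pow_one]
        refine (Subgroup.relIndex_dvd_index_of_normal _ _).trans ?_
        rw [Subgroup.index_bot]
        exact hcard
      obtain ⟨k, -, hk⟩ := (Nat.dvd_prime_pow Nat.prime_two).1 h1
      exact ⟨k, hk⟩
  exact ⟨Subtype.ext hcc, zpowers_two hc, hbot, hch.one, cyQ_conj hc hne⟩

/-- THE GLOBAL HYPOTHESES over the rational numbers. -/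
theorem globQ {c : Ω ≃+* Ω} (hc : ∀ x, c (c x) = x) (hne : ∃ x, c x ≠ x) {P : ℕ → Ideal (𝓞 Ω)}
    {ivF : ∀ w : Option T, (stb (HP.PP P w) → stb (HP.PP P w) → A0) → A0}
    (hF : ∀ w, KR.LocH (fullC (stb (HP.PP P w)))
      (fun d : stb (HP.PP P w) => cyQ (d : Ω ≃+* Ω)) (ivF w))
    (hr : ∀ f, KR.Z2 (fullQ Ω (T : Set ℕ)) (tw cyQ) f →
      ∑ w, ivF w (RQ.rs (stb (HP.PP P w)) f) + (f c c + f 1 1) = 0)
    (N₀ : Subgroup (Ω ≃+* Ω)) :
    GlobH (big (fullQ Ω (T : Set ℕ)) N₀) (SQ c P N₀) (jQ c P) cyQ (iQ c P ivF) where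
  char := by
    have h1 : RQ.Fin (ofTwo (qsys Ω (T : Set ℕ))) (big (fullQ Ω (T : Set ℕ)) N₀) := by
      rw [← KR.two_fullQ]
      exact fin_two_big _ _
    exact h1.char (RQ.char_ofTwo (isChar_cyQ _))
  jsm := jsmQ c P N₀
  loc i := by
    match i with
    | none => exact locH_real (isReal_inf hc hne P N₀)
    | some w => exact locH_big (hF w) _
  recip f hf := by
    rw [Fintype.sum_option, add_comm]
    exact hr f ((fin_big _ _).z2 hf)

/-- Local duality for all finite pairs. -/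
theorem ldQ (halg : Alg Ω) {c : Ω ≃+* Ω} (hc : ∀ x, c (c x) = x) (hne : ∃ x, c x ≠ x)
    {P : ℕ → Ideal (𝓞 Ω)} (hP : IsP T P)
    {iv ivF : ∀ w : Option T, (stb (HP.PP P w) → stb (HP.PP P w) → A0) → A0}
    (hG : ∀ w, GP.LocH (fsys (stb (HP.PP P w)))
      (fun d : stb (HP.PP P w) => cyQ (d : Ω ≃+* Ω)) (iv w))
    (hF : ∀ w, LocF (stb (HP.PP P w)) (iv w) (ivF w)) {N₀ : Subgroup (Ω ≃+* Ω)} (hn : N₀.Normal)
    (hN : KR.Opn (fullQ Ω (T : Set ℕ)) N₀) (i : Option (Option T)) {M M' : Type v}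
    [AddCommGroup M] [AddCommGroup M'] [Finite M] [Finite M']
    {ρ : (Ω ≃+* Ω) → M → M} {ρ' : (Ω ≃+* Ω) → M' → M'} {B : M →+ M' →+ A0}
    (hp : Pair (big (fullQ Ω (T : Set ℕ)) N₀) cyQ ρ ρ' B) :
    LDual (SQ c P N₀ i) (iQ c P ivF i) (fun d => ρ (jQ c P i d)) (fun d => ρ' (jQ c P i d)) B := by
  have hp' := hp.comp (jsmQ c P N₀ i)
  match i with
  | none => exact lDual_real (isReal_inf hc hne P N₀) hp'
  | some w =>
    obtain ⟨α⟩ := exists_ratEquiv halg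
    exact (KR.locD_of (locB_Q α (PP_prime hP w) (PP_ne hP w) (hG w) (hF w) _) inferInstance
      (opn_fullC hN _)).ld hp'

end defs

end Pool.Agent.Work.MP_787500_nt.GA
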