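import Mathlib
import Pool.Agent.Work.MP_787500_nt.GA.QGlob
import Pool.Agent.Work.MP_787500_nt.GA.BaseR

/-!
# The level of the rational numbers: duality

`base_Q`: the hypotheses `KR.BaseU` for the permutation module of a subgroup `C` of odd index; `dual_Q`: duality for all finite
pairs over the rational numbers.
-/

set_option autoImplicit false
set_option linter.unusedSectionVars false

namespace Pool.Agent.Work.MP_787500_nt.GA

open IsDedekindDomain NumberField WithZero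
open Pool.Agent.Work.MP_787500_nt.PA (TwoSys homs LocalType)
open Pool.Agent.Work.MP_787500_nt.GP (A0 hf IsAct d0 d1 d2 tw sysT stabD Fx GoodT inT subSys)
open Pool.Agent.Work.MP_787500_nt.HN
open Pool.Agent.Work.MP_787500_nt.HP
open Pool.Agent.Work.MP_787500_nt.KR (FSys ofTwo big two res fullK fullQ fullD fullC CountsF Sm1 orb
  InjC ShaC LocB GlobH LDual Pair LocD Syl prm prm_act h1 BaseU ind traQ tr2 indB mB)
open Pool.Agent.Work.MP_787500_nt.RQ (LocF)

universe u v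

section inj

variable {G : Type*} [Group G] {F : FSys G} {C C' : Subgroup G}

theorem injC_some {J : Type*} [Fintype J] {D : Option J → Type*} [∀ i, Group (D i)]
    {j : ∀ i, D i →* G} (h : InjC F C (fun w => j (some w))) : InjC F C j :=
  fun ω hω h0 => h ω hω fun w => h0 (some w)

theorem shaC_some {J : Type*} [Fintype J] {D : Option J → Type*} [∀ i, Group (D i)]
    {SD : ∀ i, FSys (D i)} {j : ∀ i, D i →* G}
    (h : ShaC F C (fun w => SD (some w)) (fun w => j (some w))) : ShaC F C SD j :=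
  fun f hf h0 => h f hf fun w => h0 (some w)

theorem exists_conj_mem (hodd : Odd C.index) {c : G} (hc : c * c = 1) : ∃ g, g * c * g⁻¹ ∈ C := by
  classical
  have hfin : Finite (G ⧸ C) := by
    refine Nat.finite_of_card_ne_zero ?_
    show C.index ≠ 0
    intro h0
    rw [h0] at hodd
    exact absurd hodd (by decide)
  have := Fintype.ofFinite (G ⧸ C)
  have h2 : Fact (Nat.Prime 2) := ⟨Nat.prime_two⟩
  have h1 : ¬ 2 ∣ Fintype.card (G ⧸ C) := by
    rw [← Nat.card_eq_fintype_card]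
    show ¬ 2 ∣ C.index
    rw [← even_iff_two_dvd, Nat.not_even_iff_odd]
    exact hodd
  obtain ⟨v, hv⟩ := Equiv.Perm.exists_fixed_point_of_prime (p := 2) (n := 1) h1
    (σ := MulAction.toPerm c) (by
      ext v
      rw [pow_one, pow_two]
      show c • c • v = v
      rw [← mul_smul, hc, one_smul])
  induction v using QuotientGroup.induction_on with
  | H g =>
  refine ⟨g⁻¹, ?_⟩
  have h3 : ((c * g : G) : G ⧸ C) = (g : G ⧸ C) := hv
  rw [eq_comm, QuotientGroup.eq] at h3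
  rwa [inv_inv, mul_assoc]

/-- injectivity for `C` from injectivity for the subgroup `C'` of index 2 -/
theorem injC_two {I : Type*} [Fintype I] {D : I → Type*} [∀ i, Group (D i)] {j : ∀ i, D i →* G}
    {K : Subgroup G} (hK : K.index = 2) (hCC : C' = C ⊓ K) (hi : InjC F C' j) {i : I} {d : D i}
    {g : G} (hg : g * j i d * g⁻¹ ∈ C) (hgK : g * j i d * g⁻¹ ∉ K) : InjC F C j := by
  intro ω hω h0
  obtain ⟨⟨V, hV, h1⟩, -, h3⟩ := hω
  have hle : C' ≤ C := hCC.trans_le inf_le_left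
  have hω' : (fun c : C' => ω ⟨c, hle c.2⟩) ∈ homs (two (res F C')) (⊤ : Subgroup C') := by
    refine ⟨?_, fun g hg => absurd trivial hg, fun a _ b _ =>
      h3 ⟨a, hle a.2⟩ trivial ⟨b, hle b.2⟩ trivial⟩
    obtain ⟨hn, ⟨W, hW, h2⟩, h4⟩ := two_res_mem.1 hV
    refine ⟨V.comap (Subgroup.inclusion hle), two_res_mem.2 ⟨inferInstance, ⟨W, hW, fun x hx => ?_⟩,
      ?_⟩, fun g w hw =>
      h1 ⟨g, hle g.2⟩ (Subgroup.inclusion hle w) hw⟩
    · exact h2 (Subgroup.mem_subgroupOf.2 (Subgroup.mem_subgroupOf.1 hx))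
    · obtain ⟨k, hk⟩ := h4
      have h5 : (V.comap (Subgroup.inclusion hle)).index ∣ 2 ^ k := by
        rw [Subgroup.index_comap, ← hk]
        exact Subgroup.relIndex_dvd_index_of_normal V _
      obtain ⟨l, -, hl⟩ := (Nat.dvd_prime_pow Nat.prime_two).1 h5
      exact ⟨l, hl⟩
  have h5 := hi _ hω' fun i' g' d' hd' => h0 i' g' d' (hle hd')
  have h6 : ∀ x : C, (x : G) ∈ K → ω x = 0 := by
    intro x hx
    have h7 : (x : G) ∈ C' := by
      rw [hCC]
      exact ⟨x.2, hx⟩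
    exact congrFun h5 ⟨x, h7⟩
  funext x
  by_cases hx : (x : G) ∈ K
  · exact h6 x hx
  · set y : C := ⟨g * j i d * g⁻¹, hg⟩ with hy
    have h7 : ((x * y⁻¹ : C) : G) ∈ K := by
      rw [Subgroup.coe_mul, Subgroup.coe_inv]
      rw [Subgroup.mul_mem_iff_of_index_two hK, Subgroup.inv_mem_iff]
      exact ⟨fun h => absurd h hx, fun h => absurd h hgK⟩
    have h8 := h6 _ h7
    have h9 := h3 (x * y⁻¹) trivial y trivial
    rw [inv_mul_cancel_right, h8, zero_add] at h9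
    rw [h9]
    exact h0 i g d hg

end inj

section main

variable {Ω : Type u} [Field Ω] [CharZero Ω] [IsAlgClosed Ω] {T : Finset ℕ}
  {P : ℕ → Ideal (𝓞 Ω)} {c : Ω ≃+* Ω} {N₀ C : Subgroup (Ω ≃+* Ω)}

open scoped Classical in
/-- the counts -/
theorem prod_h1 (halg : Alg Ω) (hc : ∀ x, c (c x) = x) (hne : ∃ x, c x ≠ x) (hP : IsP T P)
    (hn : N₀.Normal) (hN : KR.Opn (fullQ Ω (T : Set ℕ)) N₀) (hNC : N₀ ≤ C)
    [Finite ((Ω ≃+* Ω) ⧸ C)]
    (hsm : KR.Smooth (big (fullQ Ω (T : Set ℕ)) N₀)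
      (prm : (Ω ≃+* Ω) → ((Ω ≃+* Ω) ⧸ C → ZMod 2) → _ → ZMod 2)) :
    ∏ i : Option (Option T), h1 (SQ c P N₀ i) (prm_act.comp (jQ c P i) :
        IsAct fun d => (prm (jQ c P i d) : ((Ω ≃+* Ω) ⧸ C → ZMod 2) → _ → ZMod 2)) ≤
      2 ^ (Nat.card ((Ω ≃+* Ω) ⧸ C) + Nat.card {x : (Ω ≃+* Ω) ⧸ C // c • x = x} +
        2 * nPl (MonoidHom.id (Ω ≃+* Ω)) (fun w : Option T => HP.PP P w) ((Ω ≃+* Ω) ⧸ C)) := by
  obtain ⟨α⟩ := exists_ratEquiv halg
  rw [Fintype.prod_option]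
  have h1' := h1_real (V := (Ω ≃+* Ω) ⧸ C) (j := jQ c P (none : Option (Option T)))
    (isReal_inf hc hne P N₀ (T := T))
  have h2 : ∀ w : Option T, h1 (SQ c P N₀ (some w)) (prm_act.comp (jQ c P (some w)) :
      IsAct fun d => (prm (jQ c P (some w) d) : ((Ω ≃+* Ω) ⧸ C → ZMod 2) → _ → ZMod 2)) ≤
      2 ^ ((if w = none then 1 else 0) * Nat.card ((Ω ≃+* Ω) ⧸ C) +
        2 * orb (jQ c P (some w)) ((Ω ≃+* Ω) ⧸ C)) := by
    intro w
    refine KR.h1_perm (F := fullC (stb (HP.PP P w))) (S := SQ c P N₀ (some w))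
      (fun W hW => hW.2.1) ?_ ?_ ?_
    · have h3 := countsF_Q α (PP_prime hP w) (PP_ne hP w)
      convert h3 using 1
      exact (if_congr (PP_two hP w) rfl rfl).symm
    · obtain ⟨W, hW, hWN⟩ := hN
      refine ⟨_, subgroupOf_fullC hW _, fun w' hw' v => ?_⟩
      have h3 : jQ c P (some w) w' ∈ N₀ := hWN hw'
      induction v using QuotientGroup.induction_on with
      | H x =>
      show ((jQ c P (some w) w' * x : Ω ≃+* Ω) : (Ω ≃+* Ω) ⧸ C) = (x : (Ω ≃+* Ω) ⧸ C)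
      rw [eq_comm, QuotientGroup.eq, ← mul_assoc]
      have h4 := hn.conj_mem _ h3 x⁻¹
      rw [inv_inv] at h4
      exact hNC h4
    · exact hsm.comp (jsmQ c P N₀ (some w))
  have h3 : ∏ w : Option T, h1 (SQ c P N₀ (some w)) (prm_act.comp (jQ c P (some w)) :
      IsAct fun d => (prm (jQ c P (some w) d) : ((Ω ≃+* Ω) ⧸ C → ZMod 2) → _ → ZMod 2)) ≤
      ∏ w : Option T, 2 ^ ((if w = none then 1 else 0) * Nat.card ((Ω ≃+* Ω) ⧸ C) +
        2 * orb (jQ c P (some w)) ((Ω ≃+* Ω) ⧸ C)) :=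
    Finset.prod_le_prod' fun w _ => h2 w
  rw [Finset.prod_pow_eq_pow_sum] at h3
  have h4 : ∑ w : Option T, ((if w = none then 1 else 0) * Nat.card ((Ω ≃+* Ω) ⧸ C) +
      2 * orb (jQ c P (some w)) ((Ω ≃+* Ω) ⧸ C)) = Nat.card ((Ω ≃+* Ω) ⧸ C) +
      2 * nPl (MonoidHom.id (Ω ≃+* Ω)) (fun w : Option T => HP.PP P w) ((Ω ≃+* Ω) ⧸ C) := by
    have h5 : nPl (MonoidHom.id (Ω ≃+* Ω)) (fun w : Option T => HP.PP P w) ((Ω ≃+* Ω) ⧸ C) =
        ∑ w : Option T, orb (jQ c P (some w)) ((Ω ≃+* Ω) ⧸ C) := by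
      refine nPl_eq (j := fun w : Option T => jQ c P (some w)) (fun w => ?_) _
      show (stb (HP.PP P w)).subtype.range = _
      rw [Subgroup.range_subtype]
      rfl
    rw [h5, Finset.sum_add_distrib, ← Finset.mul_sum, ← Finset.sum_mul]
    congr 1
    rw [Fintype.sum_option]
    simp
  rw [h4] at h3
  refine (Nat.mul_le_mul h1' h3).trans (le_of_eq ?_)
  rw [← pow_add]
  congr 1
  have h6 : Nat.card {x : (Ω ≃+* Ω) ⧸ C // c • x = x} =
      Nat.card {v : (Ω ≃+* Ω) ⧸ C // jQ c P (none : Option (Option T))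
        (⟨c, Subgroup.mem_zpowers c⟩ : Subgroup.zpowers c) • v = v} := rfl
  rw [h6]
  ring

end main

end Pool.Agent.Work.MP_787500_nt.GA
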