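import Mathlib
import Pool.Agent.Work.MP_787500_nt.GA.QBase

/-!
# The level of the rational numbers: duality

`DatQ`: the hypotheses of the duality theorem over the rational numbers. `exists_datQ`: for a Sylow subgroup `C` modulo `N₀`
there is a finite set `T₁` of primes that split such that `DatQ` holds for all `T ⊇ T₁`. `DatQ.dual`: `KR.PP`, `KR.QQ`
for all finite pairs, `DatQ.ld`: local duality, `DatQ.finZ`: the cocycles are finitely many.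
-/

set_option autoImplicit false
set_option linter.unusedSectionVars false

namespace Pool.Agent.Work.MP_787500_nt.GA

open IsDedekindDomain NumberField WithZero
open Pool.Agent.Work.MP_787500_nt.PA (TwoSys homs LocalType)
open Pool.Agent.Work.MP_787500_nt.GP (A0 hf IsAct d0 d1 d2 tw sysT stabD Fx GoodT inT subSys)
open Pool.Agent.Work.MP_787500_nt.HN
open Pool.Agent.Work.MP_787500_nt.HP
open Pool.Agent.Work.MP_787500_nt.KR (FSys ofTwo big two res fullK fullQ fullD fullC CountsF Sm1 orb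
  InjC ShaC LocB GlobH LDual Pair LocD Syl prm prm_act h1 BaseU ind traQ tr2 indB mB)
open Pool.Agent.Work.MP_787500_nt.RQ (LocF)

universe u v w

section quad

variable {Ω : Type u} [Field Ω] [CharZero Ω] [IsAlgClosed Ω] {K : Type v} [Field K] [NumberField K]
  {D : ℕ} {s : K}

theorem range_index (hK : IsQ K D s) (α₀ : AlgebraicClosure K ≃+* Ω) :
    (emb α₀).range.index = 2 := (index_emb α₀).trans hK.deg

theorem range_mem (hK : IsQ K D s) (α₀ : AlgebraicClosure K ≃+* Ω) {T : Finset ℕ}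
    (hD : ∀ p : ℕ, p.Prime → p ∣ D → p ∈ T) : (fullQ Ω (T : Set ℕ)).mem (emb α₀).range := by
  have h2 := range_index hK α₀
  refine ⟨⟨opn_range α₀, Subgroup.normal_of_index_eq_two h2, by rw [h2]; norm_num⟩,
    fun Q hQ hQ2 hQT g hg => ?_⟩
  obtain ⟨σ, -, hσ⟩ := HP.inr_le α₀ hK hQ hQ2 (fun p hp hd => hQT p (hD p hp hd)) hg
  exact ⟨σ, hσ⟩

theorem conj_notMem (hK : IsQ K D s) (α₀ : AlgebraicClosure K ≃+* Ω) {c : Ω ≃+* Ω}
    (hc : ∀ x, c (c x) = x) (hne : ∃ x, c x ≠ x) : c ∉ (emb α₀).range := by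
  intro h
  have h1 := (emb_sq α₀ hK c).1 h
  have h2 : (α₀ (algebraMap K (AlgebraicClosure K) s)) ^ 2 = -((D : ℕ) : Ω) := by
    rw [← map_pow, ← map_pow, hK.sq, map_neg, map_neg, map_natCast, map_natCast]
  have h3 := conj_imag hc hne D h2
  rw [h1] at h3
  have h4 : α₀ (algebraMap K (AlgebraicClosure K) s) = 0 := self_eq_neg.1 h3
  rw [h4, zero_pow two_ne_zero] at h2
  have h5 : ((D : ℕ) : Ω) = 0 := neg_eq_zero.1 h2.symm
  have h6 : D = 0 := by exact_mod_cast h5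
  have := hK.mod
  omega

end quad

section fam

variable {Ω : Type u} [Field Ω] [CharZero Ω] {T : Finset ℕ} {P : ℕ → Ideal (𝓞 Ω)} {c : Ω ≃+* Ω}
  {N₀ : Subgroup (Ω ≃+* Ω)}

theorem famQ : Fam (MonoidHom.id (Ω ≃+* Ω)) (fun w : Option T => HP.PP P w)
    (fun w => SQ c P N₀ (some w)) (fun w => jQ c P (some w)) where
  rng w := by
    show (stb (HP.PP P w)).subtype.range = _
    rw [Subgroup.range_subtype]
    rfl
  opn w W hW := by
    obtain ⟨-, ⟨W₁, ⟨⟨s, hs⟩, -, -⟩, hle⟩, -⟩ := hW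
    exact ⟨s, fun d hd => hle (hs d hd)⟩

end fam

section dat

variable {Ω : Type u} [Field Ω] [CharZero Ω] [IsAlgClosed Ω]

/-- the hypotheses of the duality theorem over the rational numbers -/
structure DatQ (c : Ω ≃+* Ω) (T : Finset ℕ) (P : ℕ → Ideal (𝓞 Ω)) (N₀ C : Subgroup (Ω ≃+* Ω))
    [Fintype ((Ω ≃+* Ω) ⧸ C)]
    (ivF : ∀ w : Option T, (stb (HP.PP P w) → stb (HP.PP P w) → A0) → A0) : Prop where
  glob : GlobH (big (fullQ Ω (T : Set ℕ)) N₀) (SQ c P N₀) (jQ c P) cyQ (iQ c P ivF)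
  syl : Syl (fullQ Ω (T : Set ℕ)) N₀ C
  fin : FiniteDimensional (ZMod 2) (homs (two (res (fullQ Ω (T : Set ℕ)) C)) (⊤ : Subgroup C))
  base : BaseU (big (fullQ Ω (T : Set ℕ)) N₀) (SQ c P N₀) (jQ c P) cyQ (iQ c P ivF)
    (ind (traQ C) tr2) (ind (traQ C) tr2) (indB (traQ C) cyQ mB)

/-- a Sylow subgroup remains a Sylow subgroup -/
theorem fullQ_mono {T₀ T : Finset ℕ} (h : T₀ ⊆ T) {W : Subgroup (Ω ≃+* Ω)}
    (hW : (fullQ Ω (T₀ : Set ℕ)).mem W) : (fullQ Ω (T : Set ℕ)).mem W :=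
  ⟨hW.1, fun Q hQ h2 h3 => hW.2 Q hQ h2 fun l hl => h3 l (h hl)⟩

theorem syl_mono {T₀ T : Finset ℕ} (h : T₀ ⊆ T) {N₀ C : Subgroup (Ω ≃+* Ω)}
    (hC : Syl (fullQ Ω (T₀ : Set ℕ)) N₀ C) : Syl (fullQ Ω (T : Set ℕ)) N₀ C where
  normal := hC.normal
  opn := by
    obtain ⟨W, hW, h1⟩ := hC.opn
    exact ⟨W, fullQ_mono h hW, h1⟩
  le := hC.le
  pow := hC.pow
  odd := hC.odd

/-- THE BASE OF THE DUALITY OVER THE RATIONAL NUMBERS. -/
theorem exists_datQ (halg : Alg Ω) {c : Ω ≃+* Ω} (hc : ∀ x, c (c x) = x) (hne : ∃ x, c x ≠ x)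
    {K : Type v} [Field K] [NumberField K] {D : ℕ} {s : K} (hK : IsQ K D s)
    (α₀ : AlgebraicClosure K ≃+* Ω) {T₀ : Finset ℕ} {N₀ C : Subgroup (Ω ≃+* Ω)}
    [Fintype ((Ω ≃+* Ω) ⧸ C)]
    (hC : Syl (fullQ Ω (T₀ : Set ℕ)) N₀ C) (hNK : N₀ ≤ (emb α₀).range) :
    ∃ T₁ : Finset ℕ, (∀ l ∈ T₁, Spl D l) ∧ ∀ T : Finset ℕ, T₀ ⊆ T → T₁ ⊆ T →
      (∀ p : ℕ, p.Prime → p ∣ D → p ∈ T) → ∀ P : ℕ → Ideal (𝓞 Ω), IsP T P →
      ∀ iv ivF : ∀ w : Option T, (stb (HP.PP P w) → stb (HP.PP P w) → A0) → A0,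
      (∀ w, GP.LocH (fsys (stb (HP.PP P w))) (fun d : stb (HP.PP P w) => cyQ (d : Ω ≃+* Ω)) (iv w)) →
      (∀ w, LocF (stb (HP.PP P w)) (iv w) (ivF w)) →
      (∀ f, KR.Z2 (fullQ Ω (T : Set ℕ)) (tw cyQ) f →
        ∑ w, ivF w (RQ.rs (stb (HP.PP P w)) f) + (f c c + f 1 1) = 0) →
      DatQ c T P N₀ C ivF := by
  classical
  have hcx : IsTotallyComplex K := totallyComplex hK
  have hidx := range_index hK α₀
  have hKn : (emb α₀).range.Normal := Subgroup.normal_of_index_eq_two hidx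
  have hD0 : D ≠ 0 := by
    rintro rfl
    have := hK.mod
    omega
  have hcc : c * c = 1 := by
    ext x
    exact hc x
  obtain ⟨g₀, hg₀⟩ := exists_conj_mem hC.odd hcc
  have hcK := conj_notMem hK α₀ hc hne
  have hconj : ∀ g : Ω ≃+* Ω, g * c * g⁻¹ ∉ (emb α₀).range := by
    intro g h
    apply hcK
    have h1 := hKn.conj_mem _ h g⁻¹
    have h2 : g⁻¹ * (g * c * g⁻¹) * g⁻¹⁻¹ = c := by group
    rwa [h2] at h1
  set C' : Subgroup (Ω ≃+* Ω) := C ⊓ (emb α₀).range with hC'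
  have hCC : C' ≤ C := inf_le_left
  have hCK : C' ≤ (emb α₀).range := inf_le_right
  have hNC' : N₀ ≤ C' := le_inf hC.le hNK
  have hrel : C'.relIndex C = 2 := by
    rw [hC', Subgroup.inf_relIndex_left]
    have h1 : (emb α₀).range.relIndex C ∣ 2 := by
      rw [← hidx]
      exact Subgroup.relIndex_dvd_index_of_normal _ _
    rcases (Nat.dvd_prime Nat.prime_two).1 h1 with h2 | h2
    · exact absurd (Subgroup.relIndex_eq_one.1 h2 hg₀) (hconj g₀)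
    · exact h2
  have hopC : OpnQ C := by
    obtain ⟨W, hW, h1⟩ := hC.opn
    exact opn_of (T := T₀) ⟨W, hW, h1.trans hC.le⟩
  have hopC' : OpnQ C' := by
    obtain ⟨s₁, h1⟩ := hopC
    obtain ⟨s₂, h2⟩ := opn_range α₀
    exact ⟨s₁ ∪ s₂, fun g hg => ⟨h1 g fun x hx => hg x (Finset.mem_union_left _ hx),
      h2 g fun x hx => hg x (Finset.mem_union_right _ hx)⟩⟩
  obtain ⟨T₁, h1, h2⟩ := exists_T halg (e₀ := MonoidHom.id (Ω ≃+* Ω)) (C := C')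
    (by rwa [Subgroup.map_id]) α₀ (by rwa [Subgroup.map_id]) hK.sq (N := 2 * D) (by positivity)
    dvd_rfl
  refine ⟨T₁, fun l hl => (h1 l hl).2.2, fun T hT0 hT1 hTD P hP iv ivF hG hF hr => ?_⟩
  have hsyl := syl_mono hT0 hC
  have hTne := isP_ne hP
  have hplc := plcQ halg hP
  have hglob : GlobH (big (fullQ Ω (T : Set ℕ)) N₀) (SQ c P N₀) (jQ c P) cyQ (iQ c P ivF) :=
    globQ hc hne (fun w => (hF w).loc) hr N₀
  have hfq : Finite ((Ω ≃+* Ω) ⧸ C') := by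
    refine Nat.finite_of_card_ne_zero ?_
    show C'.index ≠ 0
    rw [← Subgroup.relIndex_mul_index hCC, hrel]
    have h3 : C.index ≠ 0 := by
      intro h4
      have h5 := hC.odd
      rw [h4] at h5
      exact absurd h5 (by decide)
    omega
  have := Fintype.ofFinite ((Ω ≃+* Ω) ⧸ C')
  obtain ⟨W₀, hW₀, hWN⟩ := hsyl.opn
  have hoC : ∃ W, (fullQ Ω (T : Set ℕ)).mem W ∧ W ≤ C := ⟨W₀, hW₀, hWN.trans hC.le⟩
  have hoC' : ∃ W, (fullQ Ω (T : Set ℕ)).mem W ∧ W ≤ C' := ⟨W₀, hW₀, hWN.trans hNC'⟩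
  have hT := KR.syl_sm hsyl
  have hn : N₀.Normal := hC.normal
  have hT' : (traQ C').Sm (big (fullQ Ω (T : Set ℕ)) N₀)
      (ofTwo (two (res (fullQ Ω (T : Set ℕ)) C'))) := by
    refine KR.traQ_sm hsyl.opn hNC' ?_
    obtain ⟨k, hk⟩ := hC.pow
    have h3 := Subgroup.relIndex_mul_relIndex N₀ C' C hNC' hCC
    rw [hrel, hk] at h3
    obtain ⟨l, -, hl⟩ := (Nat.dvd_prime_pow Nat.prime_two).1 (Dvd.intro _ h3)
    exact ⟨l, hl⟩
  have hp := perm_pair' hglob.char hT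
  have hp' := perm_pair' hglob.char hT'
  have hst : MulAction.stabilizer (Ω ≃+* Ω) ((1 : Ω ≃+* Ω) : (Ω ≃+* Ω) ⧸ C) = C :=
    MulAction.stabilizer_quotient C
  have hst' : MulAction.stabilizer (Ω ≃+* Ω) ((1 : Ω ≃+* Ω) : (Ω ≃+* Ω) ⧸ C') = C' :=
    MulAction.stabilizer_quotient C'
  have htr : ∀ x : (Ω ≃+* Ω) ⧸ C, ∃ g : Ω ≃+* Ω, g • ((1 : Ω ≃+* Ω) : (Ω ≃+* Ω) ⧸ C) = x :=
    fun x => MulAction.exists_smul_eq _ _ _
  have htr' : ∀ x : (Ω ≃+* Ω) ⧸ C', ∃ g : Ω ≃+* Ω, g • ((1 : Ω ≃+* Ω) : (Ω ≃+* Ω) ⧸ C') = x :=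
    fun x => MulAction.exists_smul_eq _ _ _
  obtain ⟨hfin, hcnt⟩ := coreQ halg hc hne hTne hoC hplc hst htr
  obtain ⟨hfin', hcnt'⟩ := coreQ halg hc hne hTne hoC' hplc hst' htr'
  have hfix : Nat.card {x : (Ω ≃+* Ω) ⧸ C' // c • x = x} = 0 := by
    rw [Nat.card_eq_zero]
    left
    refine ⟨fun ⟨x, hx⟩ => ?_⟩
    induction x using QuotientGroup.induction_on with
    | H g =>
    have h3 : ((c * g : Ω ≃+* Ω) : (Ω ≃+* Ω) ⧸ C') = (g : (Ω ≃+* Ω) ⧸ C') := hx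
    rw [eq_comm, QuotientGroup.eq, ← mul_assoc] at h3
    have h4 := hconj g⁻¹
    rw [inv_inv] at h4
    exact h4 (hCK h3)
  have hi' : InjC (fullQ Ω (T : Set ℕ)) C' (jQ c P : ∀ i : Option (Option T), HQ c P i →* _) :=
    injC_some (injC_of hplc hTne (famQ (c := c) (N₀ := N₀)).rng
      (h2 T hT1 hTne _ (emdQ T) hoC'))
  have hi : InjC (fullQ Ω (T : Set ℕ)) C (jQ c P : ∀ i : Option (Option T), HQ c P i →* _) :=
    injC_two hidx hC' hi' (i := none) (d := (⟨c, Subgroup.mem_zpowers c⟩ : Subgroup.zpowers c))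
      (g := g₀) hg₀ (hconj g₀)
  refine ⟨hglob, hsyl, hfin, ?_⟩
  refine base_real hglob hsyl hCC hNC' hrel hfin hfin'
    (fun i => ldQ halg hc hne hP hG hF hn hsyl.opn i hp)
    (fun i => ldQ halg hc hne hP hG hF hn hsyl.opn i hp') hi hi'
    (prod_h1 halg hc hne hP hn hsyl.opn hC.le hp.sm)
    (prod_h1 halg hc hne hP hn hsyl.opn hNC' hp'.sm) hcnt hcnt' fun hle => ?_
  refine shaC_some (shaC_of hplc hTne famQ fun f hf hl => ?_)
  rw [hfix, add_zero] at hle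
  exact coreQ_sha halg α₀ hTne hoC' hCK hplc hst' htr' hle hf hl

variable {c : Ω ≃+* Ω} {T : Finset ℕ} {P : ℕ → Ideal (𝓞 Ω)} {N₀ C : Subgroup (Ω ≃+* Ω)}
    [Fintype ((Ω ≃+* Ω) ⧸ C)]
    {ivF : ∀ w : Option T, (stb (HP.PP P w) → stb (HP.PP P w) → A0) → A0}

/-- Duality for all finite pairs. -/
theorem DatQ.dual (h : DatQ c T P N₀ C ivF)
    {tr : (((Ω ≃+* Ω) → (Ω ≃+* Ω) → (Ω ≃+* Ω) → A0) ×
      (∀ i : Option (Option T), HQ c P i → HQ c P i → A0)) →+ A0}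
    (htr : KR.IsTr (big (fullQ Ω (T : Set ℕ)) N₀) (SQ c P N₀) (jQ c P) cyQ (iQ c P ivF) tr)
    {M : Type v} {M' : Type w} [AddCommGroup M] [AddCommGroup M'] [Finite M] [Finite M']
    {ρ : (Ω ≃+* Ω) → M → M} {ρ' : (Ω ≃+* Ω) → M' → M'} {B : M →+ M' →+ A0}
    (hp : Pair (big (fullQ Ω (T : Set ℕ)) N₀) cyQ ρ ρ' B) :
    KR.PP (big (fullQ Ω (T : Set ℕ)) N₀) (SQ c P N₀) (jQ c P) tr ρ ρ' B ∧
      KR.QQ (big (fullQ Ω (T : Set ℕ)) N₀) (jQ c P) tr ρ ρ' B :=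
  KR.duality_all h.glob htr h.syl h.base hp

/-- The cocycles are finitely many. -/
theorem DatQ.finZ (h : DatQ c T P N₀ C ivF)
    {M : Type v} {M' : Type w} [AddCommGroup M] [AddCommGroup M'] [Finite M] [Finite M']
    {ρ : (Ω ≃+* Ω) → M → M} {ρ' : (Ω ≃+* Ω) → M' → M'} {B : M →+ M' →+ A0}
    (hp : Pair (big (fullQ Ω (T : Set ℕ)) N₀) cyQ ρ ρ' B) :
    Finite {x : (Ω ≃+* Ω) → M // KR.Z1 (big (fullQ Ω (T : Set ℕ)) N₀) ρ x} :=
  KR.fin_Z1 h.syl h.fin hp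

end dat

end Pool.Agent.Work.MP_787500_nt.GA
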