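import Mathlib
import Pool.Agent.Work.MP_787500_nt.GA.PlcStd
import Pool.Agent.Work.MP_787500_nt.HN.FrobLog

/-!
# Inert primes

`exists_frobQ`: a Frobenius automorphism at a prime of `𝓞 Ω`. `exists_swap`: the decomposition group at an inert prime number is not
contained in the group of the quadratic field. `plcKI`: the standard primes over a quadratic field, for a set of split and inert primes.
-/

set_option autoImplicit false
set_option linter.unusedSectionVars false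

namespace Pool.Agent.Work.MP_787500_nt.GA

open IsDedekindDomain NumberField WithZero
open Pool.Agent.Work.MP_787500_nt.PA (TwoSys homs Coc Cob LocalType)
open Pool.Agent.Work.MP_787500_nt.GP (sysT stabD Fx GoodT inT subSys)
open Pool.Agent.Work.MP_787500_nt.HN
open Pool.Agent.Work.MP_787500_nt.HP

universe u

/-- the odd prime number `l` is inert in the quadratic field of discriminant `-D` -/
def Inr (D l : ℕ) : Prop := l.Prime ∧ l ≠ 2 ∧ ¬ l ∣ D ∧ ¬ ∃ A : ℤ, (l : ℤ) ∣ A ^ 2 + D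

section frob

open scoped Pointwise in
/-- the Frobenius automorphism over a number field -/
theorem frob_gen {K : Type u} [Field K] [NumberField K] {Q : Ideal (𝓞 (AlgebraicClosure K))}
    (hQ : Q.IsPrime) (hb : Q ≠ ⊥) :
    ∃ τ ∈ stabD Q, ∀ x : 𝓞 (AlgebraicClosure K),
      τ • x - x ^ Nat.card (𝓞 K ⧸ Q.under (𝓞 K)) ∈ Q := by
  classical
  let _ : TopologicalSpace (𝓞 (AlgebraicClosure K)) := ⊥
  have : DiscreteTopology (𝓞 (AlgebraicClosure K)) := ⟨rfl⟩
  have : ContinuousSMul (AbsGal K) (𝓞 (AlgebraicClosure K)) := by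
    rw [continuousSMul_iff_stabilizer_isOpen]
    intro x
    have h1 : IsOpen (MulAction.stabilizer (AbsGal K)
        (algebraMap (𝓞 (AlgebraicClosure K)) (AlgebraicClosure K) x) : Set (AbsGal K)) :=
      stabilizer_isOpen_of_isIntegral _
    convert h1 using 1
    ext σ
    simp only [SetLike.mem_coe, MulAction.mem_stabilizer_iff]
    constructor
    · intro h
      have := congrArg (algebraMap (𝓞 (AlgebraicClosure K)) (AlgebraicClosure K)) h
      exact this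
    · intro h
      apply RingOfIntegers.ext
      exact h
  have hcomm : SMulCommClass (AbsGal K) (𝓞 K) (𝓞 (AlgebraicClosure K)) := ⟨fun g a b => by
    rw [Algebra.smul_def, Algebra.smul_def, MulSemiringAction.smul_mul]
    congr 1
    apply RingOfIntegers.ext
    exact (g : AbsGal K).commutes (algebraMap (𝓞 K) K a)⟩
  have hinv : Algebra.IsInvariant (𝓞 K) (𝓞 (AlgebraicClosure K)) (AbsGal K) := ⟨fun b hb => by
    obtain ⟨c, hc⟩ := mem_base_of_fixed (F := K) (Ω := AlgebraicClosure K)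
      (x := algebraMap (𝓞 (AlgebraicClosure K)) (AlgebraicClosure K) b) (fun σ => by
        have := congrArg (algebraMap (𝓞 (AlgebraicClosure K)) (AlgebraicClosure K)) (hb σ)
        exact this)
    have hint : IsIntegral ℤ c := by
      have h1 : IsIntegral ℤ (algebraMap K (AlgebraicClosure K) c) := by
        rw [hc]
        exact RingOfIntegers.isIntegral_coe b
      exact (isIntegral_algebraMap_iff (algebraMap K (AlgebraicClosure K)).injective).1 h1
    exact ⟨⟨c, hint⟩, RingOfIntegers.ext hc⟩⟩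
  let p : Ideal (𝓞 K) := Q.under (𝓞 K)
  have hover : Q.LiesOver p := ⟨rfl⟩
  have hp : p.IsPrime := inferInstance
  have hp0 : p ≠ ⊥ := by
    intro h
    apply hb
    exact Ideal.eq_bot_of_comap_eq_bot (R := 𝓞 K) h
  have hpm : p.IsMaximal := hp.isMaximal hp0
  have hPm : Q.IsMaximal := Ideal.IsMaximal.of_liesOver_isMaximal Q p
  have hfinq : Finite (𝓞 K ⧸ p) := Ideal.finiteQuotientOfFreeOfNeBot p hp0
  let _ : Field (𝓞 K ⧸ p) := Ideal.Quotient.field p
  let _ : Field (𝓞 (AlgebraicClosure K) ⧸ Q) := Ideal.Quotient.field Q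
  let _ : Fintype (𝓞 K ⧸ p) := Fintype.ofFinite _
  have halg : Algebra.IsAlgebraic (𝓞 K ⧸ p) (𝓞 (AlgebraicClosure K) ⧸ Q) := by
    have h1 : Algebra.IsIntegral (𝓞 K ⧸ p) (𝓞 (AlgebraicClosure K) ⧸ Q) := inferInstance
    exact h1.isAlgebraic
  obtain ⟨τ, hτ⟩ := Ideal.Quotient.stabilizerHom_surjective_of_profinite (A := 𝓞 K)
    (B := 𝓞 (AlgebraicClosure K)) (G := AbsGal K) p Q
    (FiniteField.frobeniusAlgEquivOfAlgebraic (𝓞 K ⧸ p) (𝓞 (AlgebraicClosure K) ⧸ Q))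
  refine ⟨(τ : AbsGal K), ?_, ?_⟩
  · rw [GP.mem_stabD]
    intro x
    have hs : (τ : AbsGal K) • Q = Q := τ.2
    have h1 : (τ : AbsGal K) • x ∈ (τ : AbsGal K) • Q ↔ x ∈ Q :=
      Ideal.smul_mem_pointwise_smul_iff
    rw [hs] at h1
    exact h1.symm
  · intro x
    have h6 := DFunLike.congr_fun hτ (Ideal.Quotient.mk Q x)
    rw [Ideal.Quotient.stabilizerHom_apply] at h6
    have h7 : Ideal.Quotient.mk Q ((τ : AbsGal K) • x) =
      Ideal.Quotient.mk Q x ^ Fintype.card (𝓞 K ⧸ p) := h6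
    rw [← map_pow, ← Nat.card_eq_fintype_card] at h7
    exact Ideal.Quotient.eq.1 h7

theorem card_rat {l : ℕ} (hl : l.Prime) {p : Ideal (𝓞 ℚ)} (hp : p.IsPrime)
    (hqp : (l : 𝓞 ℚ) ∈ p) : Nat.card (𝓞 ℚ ⧸ p) = l := by
  have hq0 : (l : 𝓞 ℚ) ≠ 0 := by exact_mod_cast hl.ne_zero
  have hn : Ideal.absNorm (Ideal.span {(l : 𝓞 ℚ)}) = l := by
    rw [Ideal.absNorm_span_natCast, RingOfIntegers.rank, Module.finrank_self, pow_one]
  have hI : (Ideal.span {(l : 𝓞 ℚ)}).IsPrime :=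
    Ideal.isPrime_of_irreducible_absNorm (by rw [hn]; exact hl.prime.irreducible)
  have hIm : (Ideal.span {(l : 𝓞 ℚ)}).IsMaximal :=
    hI.isMaximal (by rw [Ne, Ideal.span_singleton_eq_bot]; exact hq0)
  have hpI : Ideal.span {(l : 𝓞 ℚ)} = p :=
    hIm.eq_of_le hp.ne_top ((Ideal.span_singleton_le_iff_mem _).2 hqp)
  rw [← hpI]
  have : Ideal.absNorm (Ideal.span {(l : 𝓞 ℚ)}) = Nat.card (𝓞 ℚ ⧸ Ideal.span {(l : 𝓞 ℚ)}) := by
    rw [Ideal.absNorm_apply, Submodule.cardQuot_apply]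
  rw [← this, hn]

/-- the Frobenius automorphism over the rational numbers -/
theorem frob_rat {l : ℕ} (hl : l.Prime) {Q : Ideal (𝓞 (AlgebraicClosure ℚ))} (hQ : Q.IsPrime)
    (hlQ : (l : 𝓞 (AlgebraicClosure ℚ)) ∈ Q) :
    ∃ τ ∈ stabD Q, ∀ x : 𝓞 (AlgebraicClosure ℚ), τ • x - x ^ l ∈ Q := by
  have hb : Q ≠ ⊥ := by
    rintro rfl
    rw [Ideal.mem_bot] at hlQ
    exact hl.ne_zero (by exact_mod_cast hlQ)
  obtain ⟨τ, h1, h2⟩ := frob_gen hQ hb
  rw [card_rat hl (Ideal.comap_isPrime _ _) (Ideal.mem_comap.2 (by rw [map_natCast]; exact hlQ))] at h2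
  exact ⟨τ, h1, h2⟩

variable {Ω : Type u} [Field Ω] [CharZero Ω] [IsAlgClosed Ω]

/-- a Frobenius automorphism at a prime of `𝓞 Ω` -/
theorem exists_frobQ (halg : Alg Ω) {l : ℕ} (hl : l.Prime) {Q : Ideal (𝓞 Ω)} (hQ : Q.IsPrime)
    (hlQ : (l : 𝓞 Ω) ∈ Q) : ∃ g ∈ stb Q, ∀ x : 𝓞 Ω, og g x - x ^ l ∈ Q := by
  obtain ⟨α⟩ := exists_ratEquiv halg
  obtain ⟨τ, h1, h2⟩ := frob_rat hl (pb_prime α hQ) ((pb_nat α l).2 hlQ)
  refine ⟨emb α τ, (emb_stb α).2 h1, fun x => ?_⟩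
  obtain ⟨y, rfl⟩ := (RingOfIntegers.mapRingEquiv α).surjective x
  have h3 := h2 y
  rw [mem_pb, map_sub, map_pow, ← og_emb] at h3
  exact h3

end frob

section quad

variable {Ω : Type u} [Field Ω] [CharZero Ω] [IsAlgClosed Ω] {K : Type*} [Field K] [NumberField K]
  {D : ℕ} {s : K}

/-- The decomposition group at an inert prime number is not contained in the group of `K`. -/
theorem exists_swap (halg : Alg Ω) (hK : IsQ K D s) (α : AlgebraicClosure K ≃+* Ω) {l : ℕ}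
    (hl : Inr D l) {Q : Ideal (𝓞 Ω)} (hQ : Q.IsPrime) (hlQ : (l : 𝓞 Ω) ∈ Q) :
    ∃ g ∈ stb Q, g ∉ (emb α).range := by
  obtain ⟨hlp, hl2, hlD, hns⟩ := hl
  obtain ⟨g, h1, h2⟩ := exists_frobQ halg hlp hQ hlQ
  refine ⟨g, h1, fun h3 => hns ?_⟩
  have h4 := (emb_sq α hK g).1 h3
  have ht2 : (α (algebraMap K (AlgebraicClosure K) s)) ^ 2 = ((-(D : ℤ) : ℤ) : Ω) := by
    rw [← map_pow, ← map_pow, hK.sq]
    simp
  set t := α (algebraMap K (AlgebraicClosure K) s) with ht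
  have hint : IsIntegral ℤ t := by
    have h5 : IsIntegral ℤ (t ^ 2) := by
      rw [ht2]
      have := isIntegral_algebraMap (R := ℤ) (A := Ω) (x := (-(D : ℤ)))
      simpa using this
    exact IsIntegral.of_pow (by norm_num : 0 < 2) h5
  obtain ⟨tt, htt⟩ : ∃ tt : 𝓞 Ω, algebraMap (𝓞 Ω) Ω tt = t := ⟨⟨t, hint⟩, rfl⟩
  have htt2 : tt ^ 2 = ((-(D : ℤ) : ℤ) : 𝓞 Ω) := by
    apply RingOfIntegers.ext
    show algebraMap (𝓞 Ω) Ω (tt ^ 2) = algebraMap (𝓞 Ω) Ω _
    rw [map_pow, htt, ht2, map_intCast]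
  have hog : og g tt = tt := by
    apply RingOfIntegers.ext
    show g (algebraMap (𝓞 Ω) Ω tt) = algebraMap (𝓞 Ω) Ω tt
    rw [htt]
    exact h4
  have h5 := h2 tt
  rw [hog] at h5
  -- `t (t ^ (l - 1) - 1)` is in `Q`
  obtain ⟨m, hm⟩ := hlp.odd_of_ne_two hl2
  have h6 : tt * (((-(D : ℤ)) ^ m - 1 : ℤ) : 𝓞 Ω) ∈ Q := by
    have h7 : tt * (((-(D : ℤ)) ^ m - 1 : ℤ) : 𝓞 Ω) = -(tt - tt ^ l) := by
      rw [hm, pow_succ, pow_mul, htt2]
      push_cast
      ring
    rw [h7]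
    exact Q.neg_mem h5
  have h8 : tt ∉ Q := by
    intro h9
    have h10 : tt ^ 2 ∈ Q := by
      rw [pow_two]
      exact Q.mul_mem_left _ h9
    rw [htt2, nat_mem hlp hQ hlQ, dvd_neg] at h10
    exact hlD (by exact_mod_cast h10)
  have h11 := (hQ.mem_or_mem h6).resolve_left h8
  rw [nat_mem hlp hQ hlQ] at h11
  have hfact : Fact l.Prime := ⟨hlp⟩
  have h12 : ((-(D : ℤ) : ℤ) : ZMod l) ^ (l / 2) = 1 := by
    have h13 : l / 2 = m := by omega
    rw [h13, ← sub_eq_zero]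
    have h14 := (ZMod.intCast_zmod_eq_zero_iff_dvd _ l).2 h11
    push_cast at h14 ⊢
    exact h14
  have h15 : ((-(D : ℤ) : ℤ) : ZMod l) ≠ 0 := by
    intro h16
    rw [ZMod.intCast_zmod_eq_zero_iff_dvd, dvd_neg] at h16
    exact hlD (by exact_mod_cast h16)
  obtain ⟨r, hr⟩ := (ZMod.euler_criterion l h15).2 h12
  refine ⟨r.val, ?_⟩
  rw [← ZMod.intCast_zmod_eq_zero_iff_dvd]
  push_cast at hr ⊢
  rw [ZMod.natCast_zmod_val, pow_two, ← hr]
  ring

end quad

section std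

variable {Ω : Type u} [Field Ω] [CharZero Ω] [IsAlgClosed Ω] {P : ℕ → Ideal (𝓞 Ω)}

theorem isP_mono {R : Type*} [CommRing R] {P : ℕ → Ideal R} {T T' : Finset ℕ} (h : T ⊆ T')
    (hP : IsP T' P) : IsP T P where
  prime l hl := hP.prime l (h hl)
  odd l hl := hP.odd l (h hl)
  isPrime l hl := hP.isPrime l (hl.imp_left fun h1 => h h1)
  mem l hl := hP.mem l (hl.imp_left fun h1 => h h1)

theorem ab_mono {T T' : Finset ℕ} (h : T ⊆ T') {Q : Ideal (𝓞 Ω)} (hQ : Ab T Q) : Ab T' Q := by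
  rcases hQ with h1 | ⟨l, hl, h1⟩
  · exact Or.inl h1
  · exact Or.inr ⟨l, h hl, h1⟩

/-- a prime contains only one prime number -/
theorem prime_uniq {Q : Ideal (𝓞 Ω)} (hQ : Q.IsPrime) {l l' : ℕ} (hl : l.Prime) (hl' : l'.Prime)
    (h : (l : 𝓞 Ω) ∈ Q) (h' : (l' : 𝓞 Ω) ∈ Q) : l = l' := by
  have h1 : ((l' : ℤ) : 𝓞 Ω) ∈ Q := by
    rw [Int.cast_natCast]
    exact h'
  rw [nat_mem hl hQ h] at h1
  exact (Nat.prime_dvd_prime_iff_eq hl hl').1 (by exact_mod_cast h1)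

variable {T N : Finset ℕ}

/-- the primes of the places: `T` is the set of split primes, `N` the set of primes that do not split -/
noncomputable def pKI {Ω : Type u} [Field Ω] (c : Ω ≃+* Ω) (P : ℕ → Ideal (𝓞 Ω)) {T N : Finset ℕ} :
    (Option T × Bool) ⊕ N → Ideal (𝓞 Ω)
  | .inl i => if i.2 then cj c (HP.PP P i.1) else HP.PP P i.1
  | .inr l => P l

/-- the prime number of a place -/
def chI {T N : Finset ℕ} : (Option T × Bool) ⊕ N → ℕ
  | .inl i => pOf i.1
  | .inr l => l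

theorem chI_prime {c : Ω ≃+* Ω} (hP : IsP (T ∪ N) P) (i : (Option T × Bool) ⊕ N) :
    (chI i).Prime ∧ (pKI c P i).IsPrime ∧ (chI i : 𝓞 Ω) ∈ pKI c P i ∧ Ab (T ∪ N) (pKI c P i) := by
  have hPT : IsP T P := isP_mono Finset.subset_union_left hP
  match i with
  | .inl (w, b) =>
    have h1 : (pOf w).Prime := pOf_prime hPT w
    have h2 : Ab (T ∪ N) (HP.PP P w) := ab_mono Finset.subset_union_left (PP_ab hPT w)
    cases b
    · exact ⟨h1, PP_prime hPT w, pOf_mem hPT w, h2⟩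
    · refine ⟨h1, cj_prime (PP_prime hPT w), ?_, ab_cj.2 h2⟩
      show ((pOf w : ℕ) : 𝓞 Ω) ∈ cj c (HP.PP P w)
      rw [nat_mem_cj]
      exact pOf_mem hPT w
  | .inr l =>
    have hl : (l : ℕ) ∈ T ∪ N := Finset.mem_union_right _ l.2
    exact ⟨hP.prime l hl, hP.isPrime l (Or.inl hl), hP.mem l (Or.inl hl),
      Or.inr ⟨l, hl, hP.mem l (Or.inl hl)⟩⟩

/-- The standard primes over a quadratic field. -/
theorem plcKI (halg : Alg Ω) {K : Type u} [Field K] [NumberField K] {D : ℕ} {s : K}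
    (hK : IsQ K D s) (α : AlgebraicClosure K ≃+* Ω) {c : Ω ≃+* Ω}
    (hc : c (α (algebraMap K (AlgebraicClosure K) s)) = -α (algebraMap K (AlgebraicClosure K) s))
    (hT : ∀ l ∈ T, Spl D l) (hN : ∀ l ∈ N, ∃ g ∈ stb (P l), g ∉ (emb α).range)
    (hTN : Disjoint T N) (hP : IsP (T ∪ N) P) :
    Plc (emb α) (T ∪ N) (pKI c P : (Option T × Bool) ⊕ N → Ideal (𝓞 Ω)) := by
  have hPT : IsP T P := isP_mono Finset.subset_union_left hP
  have hplc := plcK halg hK α hc hT hPT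
  have hidx : (emb α).range.index = 2 := (index_emb α).trans hK.deg
  have hcn : c ∉ (emb α).range := by
    intro h
    have h1 := (emb_sq α hK c).1 h
    rw [hc] at h1
    have h2 : α (algebraMap K (AlgebraicClosure K) s) = 0 := self_eq_neg.1 h1.symm
    rw [map_eq_zero_iff _ α.injective,
      map_eq_zero_iff _ (FaithfulSMul.algebraMap_injective K (AlgebraicClosure K))] at h2
    have h3 := hK.sq
    rw [h2, zero_pow two_ne_zero] at h3
    have h4 : (D : K) = 0 := neg_eq_zero.1 h3.symm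
    have h5 := hK.mod
    have h6 : D = 0 := by exact_mod_cast h4
    omega
  refine ⟨fun i => (chI_prime hP i).2.1, fun i => ?_, fun i => (chI_prime hP i).2.2.2,
    fun Q hQ _ hA => ?_, ?_⟩
  · exact ab_ne_bot (isP_ne hP) (chI_prime hP i).2.2.2
  · have hA' : Ab T Q ∨ ∃ l ∈ N, (l : 𝓞 Ω) ∈ Q := by
      rcases hA with h | ⟨l, hl, h⟩
      · exact Or.inl (Or.inl h)
      · rcases Finset.mem_union.1 hl with hl | hl
        · exact Or.inl (Or.inr ⟨l, hl, h⟩)
        · exact Or.inr ⟨l, hl, h⟩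
    rcases hA' with hA' | ⟨l, hl, hlQ⟩
    · obtain ⟨i, σ, h1⟩ := hplc.cover Q hQ (ab_ne_bot (isP_ne hPT) hA') hA'
      exact ⟨.inl i, σ, h1⟩
    · have hlT : l ∈ T ∪ N := Finset.mem_union_right _ hl
      obtain ⟨g, hg⟩ := exists_cj halg (hP.prime l hlT) (hP.isPrime l (Or.inl hlT)) hQ
        (hP.mem l (Or.inl hlT)) hlQ
      obtain ⟨d, hd, hdn⟩ := hN l hl
      by_cases hgr : g ∈ (emb α).range
      · obtain ⟨σ, rfl⟩ := hgr
        exact ⟨.inr ⟨l, hl⟩, σ, hg⟩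
      · have h1 : g * d ∈ (emb α).range := by
          rw [Subgroup.mul_mem_iff_of_index_two hidx]
          exact ⟨fun h => absurd h hgr, fun h => absurd h hdn⟩
        obtain ⟨σ, hσ⟩ := h1
        refine ⟨.inr ⟨l, hl⟩, σ, ?_⟩
        show Q = cj (emb α σ) (P l)
        rw [hσ, cj_mul, cj_eq_iff.2 hd, hg]
  · intro i i' σ h
    have h1 := chI_prime (c := c) hP i
    have h2 := chI_prime (c := c) hP i'
    have h3 : chI i = chI i' := by
      refine prime_uniq h2.2.1 h1.1 h2.1 ?_ h2.2.2.1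
      rw [← h, nat_mem_cj]
      exact h1.2.2.1
    have hmix : ∀ (w : Option T) (l : N), pOf w ≠ (l : ℕ) := by
      intro w l h4
      match w with
      | none => exact hP.odd l (Finset.mem_union_right _ l.2) h4.symm
      | some m =>
        have h5 : (m : ℕ) = l := h4
        exact (Finset.disjoint_left.1 hTN m.2) (h5 ▸ l.2)
    match i, i' with
    | .inl i, .inl i' => exact congrArg Sum.inl (hplc.uniq i i' σ h)
    | .inl i, .inr l => exact absurd h3 (hmix i.1 l)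
    | .inr l, .inl i => exact absurd h3.symm (hmix i.1 l)
    | .inr l, .inr l' => exact congrArg Sum.inr (Subtype.ext h3)

end std

end Pool.Agent.Work.MP_787500_nt.GA
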