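import Mathlib
import Pool.Agent.Work.MP_787500_nt.GA.GlueK
import Pool.Agent.Work.MP_787500_nt.KR.M2_Mid

/-!
# The fields `syl`, `fin`, `inj`, `sha`, `cnt` of `KR.HypP` over an imaginary quadratic field

`class_hyp`: from `class_K` and `KR.perm_le`.
-/

set_option autoImplicit false
set_option linter.unusedSectionVars false

namespace Pool.Agent.Work.MP_787500_nt.GA

open IsDedekindDomain NumberField WithZero
open Pool.Agent.Work.MP_787500_nt.PA (TwoSys homs Coc Cob LocalType)
open Pool.Agent.Work.MP_787500_nt.GP (A0 hf IsAct sysT stabD Fx GoodT inT subSys)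
open Pool.Agent.Work.MP_787500_nt.HN
open Pool.Agent.Work.MP_787500_nt.HP
open Pool.Agent.Work.MP_787500_nt.KR (FSys big two res fullK fullQ fullD fullC CountsF Sm1 orb InjC ShaC
  GlobH LocB Syl LDual Pair)

universe u

section quad

variable {K : Type u} [Field K] [NumberField K] {D : ℕ} {s : K}
  {c : AlgebraicClosure K ≃+* AlgebraicClosure K} {κ : AbsGal K →* AbsGal K}

theorem syl_monoK {T₀ T : Finset ℕ} (h : T₀ ⊆ T) {N₀ C : Subgroup (AbsGal K)}
    (hC : Syl (fullK (K := K) T₀) N₀ C) : Syl (fullK (K := K) T) N₀ C where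
  normal := hC.normal
  opn := by
    obtain ⟨W, hW, h1⟩ := hC.opn
    exact ⟨W, fullK_mono h hW, h1⟩
  le := hC.le
  pow := hC.pow
  odd := hC.odd

theorem opn_fullD {T : Finset ℕ} {N₀ : Subgroup (AbsGal K)} (h : KR.Opn (fullK (K := K) T) N₀)
    (H : Subgroup (AbsGal K)) : ∃ W, (fullD H).mem W ∧ ∀ v ∈ W, (v : AbsGal K) ∈ N₀ := by
  obtain ⟨W, hW, h1⟩ := h
  refine ⟨W.subgroupOf H, ⟨?_, ?_, W, hW.2.1, le_rfl⟩, fun v hv => h1 hv⟩
  · have := hW.1
    infer_instance
  · intro h2
    have := hW.1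
    have h3 : (W.subgroupOf H).index ∣ W.index := Subgroup.relIndex_dvd_index_of_normal W H
    rw [h2, zero_dvd_iff] at h3
    exact (fullK T).index hW h3

open scoped Classical in
/-- THE FIELDS `syl`, `fin`, `inj`, `cnt`, `sha` OF `KR.HypP`. -/
theorem class_hyp (hK : IsQ K D s) (hc : PA.IsConj s c)
    (hκ : ∀ (σ : AbsGal K) (x : AlgebraicClosure K), κ σ x = c (σ (c x))) {T₀ : Finset ℕ}
    (hT₀ : ∀ l ∈ T₀, Spl D l) {N₀ C : Subgroup (AbsGal K)} (hC : Syl (fullK (K := K) T₀) N₀ C)
    (kN : ∀ g ∈ N₀, κ g ∈ N₀) :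
    ∃ T₁ : Finset ℕ, T₀ ⊆ T₁ ∧ (∀ l ∈ T₁, Spl D l) ∧ ∀ T : Finset ℕ, T₁ ⊆ T →
      (∀ l ∈ T, Spl D l) → ∀ P : ℕ → Ideal (𝓞 (AlgebraicClosure K)), IsP T P →
      Syl (fullK (K := K) T) N₀ C ∧
      FiniteDimensional (ZMod 2) (homs (two (res (fullK (K := K) T) C)) (⊤ : Subgroup C)) ∧
      InjC (fullK (K := K) T) C (fun i : Option T × Bool =>
        if i.2 then κ.comp (stabD (HP.PP P i.1)).subtype else (stabD (HP.PP P i.1)).subtype) ∧
      (∑ w : Option T, (2 * (if w = none then 1 else 0) * C.index +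
          2 * orb (stabD (HP.PP P w)).subtype (AbsGal K ⧸ C) +
          2 * orb (κ.comp (stabD (HP.PP P w)).subtype) (AbsGal K ⧸ C)) ≤
        2 * Module.finrank (ZMod 2) (homs (two (res (fullK (K := K) T) C)) (⊤ : Subgroup C))) ∧
      ∀ (χ : AbsGal K → ℤ_[2])
        (inv : ∀ w : Option T, (stabD (HP.PP P w) → stabD (HP.PP P w) → A0) → A0),
        (∀ g, χ (κ g) = χ g) →
        GlobH (big (fullK (K := K) T) N₀)
          (fun i : Option T × Bool => big (fullD (stabD (HP.PP P i.1)))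
            (N₀.comap (stabD (HP.PP P i.1)).subtype))
          (fun i : Option T × Bool => if i.2 then κ.comp (stabD (HP.PP P i.1)).subtype else
            (stabD (HP.PP P i.1)).subtype) χ
          (fun (i : Option T × Bool) f => if i.2 then -inv i.1 f else inv i.1 f) →
        (∀ w : Option T, LocB (fullD (stabD (HP.PP P w))) (N₀.comap (stabD (HP.PP P w)).subtype)
          (fun d => χ d) (inv w)) →
        ShaC (fullK (K := K) T) C (fun i : Option T × Bool => big (fullD (stabD (HP.PP P i.1)))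
            (N₀.comap (stabD (HP.PP P i.1)).subtype))
          (fun i : Option T × Bool => if i.2 then κ.comp (stabD (HP.PP P i.1)).subtype else
            (stabD (HP.PP P i.1)).subtype) := by
  have hopn : KR.Opn (fullK (K := K) T₀) C := by
    obtain ⟨W, hW, h1⟩ := hC.opn
    exact ⟨W, hW, h1.trans hC.le⟩
  obtain ⟨T₁, h1, h2, h3⟩ := class_K hK hc hκ hT₀ hopn
  refine ⟨T₁, h1, h2, fun T hT hTs P hP => ?_⟩
  obtain ⟨h4, h5, h6, h7, h8⟩ := h3 T hT hTs P hP
  have hsyl := syl_monoK (h1.trans hT) hC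
  have hsum : ∑ w : Option T, (2 * (if w = none then 1 else 0) * C.index +
      2 * orb (stabD (HP.PP P w)).subtype (AbsGal K ⧸ C) +
      2 * orb (κ.comp (stabD (HP.PP P w)).subtype) (AbsGal K ⧸ C)) =
      2 * (C.index + ∑ i : Option T × Bool, orb (jK κ P i) (AbsGal K ⧸ C)) := by
    have e1 : ∑ i : Option T × Bool, orb (jK κ P i) (AbsGal K ⧸ C) =
        ∑ w : Option T, (orb (stabD (HP.PP P w)).subtype (AbsGal K ⧸ C) +
          orb (κ.comp (stabD (HP.PP P w)).subtype) (AbsGal K ⧸ C)) := by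
      rw [Fintype.sum_prod_type]
      refine Finset.sum_congr rfl fun w _ => ?_
      rw [Fintype.sum_bool, add_comm]
      rfl
    rw [e1, mul_add, Finset.mul_sum]
    simp only [add_assoc]
    rw [Finset.sum_add_distrib]
    congr 1
    · rw [Fintype.sum_option]
      simp
    · refine Finset.sum_congr rfl fun w _ => ?_
      ring
  have hcnt : ∑ w : Option T, (2 * (if w = none then 1 else 0) * C.index +
      2 * orb (stabD (HP.PP P w)).subtype (AbsGal K ⧸ C) +
      2 * orb (κ.comp (stabD (HP.PP P w)).subtype) (AbsGal K ⧸ C)) ≤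
      2 * Module.finrank (ZMod 2) (homs (two (res (fullK (K := K) T) C)) (⊤ : Subgroup C)) := by
    rw [hsum]
    omega
  refine ⟨hsyl, h5, h6, hcnt, fun χ inv kchi H hL => ?_⟩
  have hfinq : Finite (AbsGal K ⧸ C) := by
    obtain ⟨W, hW, hWC⟩ := h4
    exact Subgroup.quotient_finite_of_isOpen C (Subgroup.isOpen_mono hWC hW.2.1)
  have := Fintype.ofFinite (AbsGal K ⧸ C)
  have hn := hsyl.normal
  have hp := KR.perm_pair H.char hsyl
  have hlD : ∀ w : Option T, KR.LocD.{u} (big (fullD (stabD (HP.PP P w)))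
      (N₀.comap (stabD (HP.PP P w)).subtype)) (fun d => χ d) (inv w) := by
    intro w
    refine KR.locD_of (hL w) inferInstance ?_
    obtain ⟨W, hW, h9⟩ := opn_fullD hsyl.opn (stabD (HP.PP P w))
    exact ⟨W, hW, fun v hv => h9 v hv⟩
  have hle := KR.perm_le (FD := fun i : Option T × Bool => fullD (stabD (HP.PP P i.1)))
    (dd := fun i : Option T × Bool => if i.1 = none then 1 else 0) H hsyl h5 ?_ h6
    ⟨fun i W hW => hW.2.1, fun i => cnt_fullD hK hTs hP i.1, ?_⟩
  · refine h8 ?_ _ fun i W hW => hW.2.1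
    have e2 : ∑ i : Option T × Bool, ((if i.1 = none then 1 else 0) * C.index +
        2 * orb (if i.2 then κ.comp (stabD (HP.PP P i.1)).subtype else
          (stabD (HP.PP P i.1)).subtype) (AbsGal K ⧸ C)) =
        2 * (C.index + ∑ i : Option T × Bool, orb (jK κ P i) (AbsGal K ⧸ C)) := by
      rw [← hsum, Fintype.sum_prod_type]
      refine Finset.sum_congr rfl fun w _ => ?_
      rw [Fintype.sum_bool]
      simp only [if_true, Bool.false_eq_true, if_false]
      ring
    have h9 := hle.trans (le_of_eq e2)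
    omega
  · rintro ⟨w, b⟩
    have hp' := hp.comp (H.jsm (w, b))
    cases b
    · exact (hlD w).ld hp'
    · have e : (fun d : stabD (HP.PP P w) => χ (κ d)) = fun d : stabD (HP.PP P w) => χ d := by
        funext d
        exact kchi _
      have hp2 : Pair (big (fullD (stabD (HP.PP P w))) (N₀.comap (stabD (HP.PP P w)).subtype))
          (fun d : stabD (HP.PP P w) => χ d)
          (fun d : stabD (HP.PP P w) => KR.prm (κ (d : AbsGal K)))
          (fun d : stabD (HP.PP P w) => KR.prm (κ (d : AbsGal K)))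
          (KR.indB (KR.traQ C) χ KR.mB) := by
        rw [← e]
        exact hp'
      exact ((hlD w).ld hp2).neg
  · rintro ⟨w, b⟩
    obtain ⟨W, hW, h9⟩ := opn_fullD hsyl.opn (stabD (HP.PP P w))
    refine ⟨W, hW, fun v hv => ?_⟩
    cases b
    · exact h9 v hv
    · exact kN _ (h9 v hv)

end quad

end Pool.Agent.Work.MP_787500_nt.GA
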