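import Mathlib
import Pool.Agent.Work.MP_787500_nt.GA.GlueK
import Pool.Agent.Work.MP_787500_nt.GA.Inert

/-!
# The hypotheses on classes modulo 2 over an imaginary quadratic field, with primes that do not split

The places are `(Option T × Bool) ⊕ N`: `T` is the set of split primes, `N` the set of inert primes. `class_KI` is `class_K` for these
places, `cnt_inert` is `KR.CountsF` for a decomposition group at an odd prime.
-/

set_option autoImplicit false
set_option linter.unusedSectionVars false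

namespace Pool.Agent.Work.MP_787500_nt.GA

open IsDedekindDomain NumberField WithZero
open Pool.Agent.Work.MP_787500_nt.PA (TwoSys homs Coc Cob LocalType)
open Pool.Agent.Work.MP_787500_nt.GP (sysT stabD Fx GoodT inT subSys)
open Pool.Agent.Work.MP_787500_nt.HN
open Pool.Agent.Work.MP_787500_nt.HP
open Pool.Agent.Work.MP_787500_nt.KR (FSys two res fullK fullQ fullD fullC CountsF Sm1 orb InjC ShaC)

universe u

section quad

variable {K : Type u} [Field K] [NumberField K] {D : ℕ} {s : K}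
  {c : AlgebraicClosure K ≃+* AlgebraicClosure K} {κ : AbsGal K →* AbsGal K} {T N : Finset ℕ}
  {P : ℕ → Ideal (𝓞 (AlgebraicClosure K))}

/-- The counts for the decomposition group at a prime that does not contain 2. -/
theorem cnt_odd {Q : Ideal (𝓞 (AlgebraicClosure K))} (hQ : Q.IsPrime) (hb : Q ≠ ⊥)
    (h2 : (2 : 𝓞 (AlgebraicClosure K)) ∉ Q) : CountsF (fullD (stabD Q)) 0 := by
  let v : HeightOneSpectrum (𝓞 K) :=
    ⟨Q.comap (algebraMap (𝓞 K) (𝓞 (AlgebraicClosure K))), Ideal.comap_isPrime _ _,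
      fun h => hb (Ideal.eq_bot_of_comap_eq_bot h)⟩
  have h1 := countsF_K hQ hb (v := v) rfl
  have h3 : (2 : 𝓞 K) ∉ v.asIdeal := by
    intro h
    apply h2
    have h4 : algebraMap (𝓞 K) (𝓞 (AlgebraicClosure K)) 2 ∈ Q := h
    rwa [map_ofNat] at h4
  rwa [ld_odd h3] at h1

theorem odd_notMem (hP : IsP (T ∪ N) P) (l : N) : (2 : 𝓞 (AlgebraicClosure K)) ∉ P l := by
  have hl : (l : ℕ) ∈ T ∪ N := Finset.mem_union_right _ l.2
  intro h
  refine hP.odd l hl (prime_uniq (hP.isPrime l (Or.inl hl)) (hP.prime l hl) Nat.prime_two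
    (hP.mem l (Or.inl hl)) ?_)
  rwa [Nat.cast_ofNat]

/-- The counts at a prime of `N`. -/
theorem cnt_inert (hP : IsP (T ∪ N) P) (l : N) : CountsF (fullD (stabD (P l))) 0 := by
  have hl : (l : ℕ) ∈ T ∪ N := Finset.mem_union_right _ l.2
  exact cnt_odd (hP.isPrime l (Or.inl hl))
    (ab_ne_bot (isP_ne hP) (Or.inr ⟨l, hl, hP.mem l (Or.inl hl)⟩)) (odd_notMem hP l)

/-- the local groups -/
noncomputable def DKI (P : ℕ → Ideal (𝓞 (AlgebraicClosure K))) : (Option T × Bool) ⊕ N → Subgroup (AbsGal K)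
  | .inl i => stabD (HP.PP P i.1)
  | .inr l => stabD (P l)

/-- the homomorphisms from the local groups -/
noncomputable def jKI (κ : AbsGal K →* AbsGal K) (P : ℕ → Ideal (𝓞 (AlgebraicClosure K))) :
    ∀ i : (Option T × Bool) ⊕ N, DKI P i →* AbsGal K
  | .inl i => jK κ P i
  | .inr l => (stabD (P l)).subtype

theorem famKI (hc : PA.IsConj s c)
    (hκ : ∀ (σ : AbsGal K) (x : AlgebraicClosure K), κ σ x = c (σ (c x)))
    {SD : ∀ i : (Option T × Bool) ⊕ N, FSys (DKI P i)}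
    (hSD : ∀ i W, (SD i).mem W → ∃ W₁, (fullD (DKI P i)).mem W₁ ∧ W₁ ≤ W) :
    Fam (emb (RingEquiv.refl (AlgebraicClosure K))) (pKI c P) SD (jKI κ P) where
  rng := by
    have h1 := (famK (P := P) (T := T) hc hκ (SD := fun i => fullD (stabD (HP.PP P i.1)))
      fun i W hW => ⟨W, hW, le_rfl⟩).rng
    rintro (i | l)
    · exact h1 i
    · show (stabD (P l)).subtype.range = dG _ (P l)
      rw [dG_refl, Subgroup.range_subtype]
  opn := by
    have h1 := (famK (P := P) (T := T) hc hκ (SD := fun i => SD (.inl i))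
      fun i W hW => hSD (.inl i) W hW).opn
    rintro (i | l) W hW
    · exact h1 i W hW
    · obtain ⟨W₁, ⟨-, -, U, hU, hUW⟩, hle⟩ := hSD _ W hW
      obtain ⟨s', hs'⟩ := exists_fin (RingEquiv.refl (AlgebraicClosure K)) hU
      exact ⟨s', fun d hd => hle (hUW (Subgroup.mem_subgroupOf.2 (hs' _ hd)))⟩

/-- THE HYPOTHESES ON CLASSES MODULO 2 OVER `K`, with inert primes. -/
theorem class_KI (hK : IsQ K D s) (hc : PA.IsConj s c)
    (hκ : ∀ (σ : AbsGal K) (x : AlgebraicClosure K), κ σ x = c (σ (c x))) {T₀ N : Finset ℕ}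
    (hT₀ : ∀ l ∈ T₀, Spl D l) (hN : ∀ l ∈ N, Inr D l) {C : Subgroup (AbsGal K)}
    (hC : KR.Opn (fullK (K := K) (T₀ ∪ N)) C) :
    ∃ T₁ : Finset ℕ, T₀ ⊆ T₁ ∧ (∀ l ∈ T₁, Spl D l) ∧ ∀ T : Finset ℕ, T₁ ⊆ T →
      (∀ l ∈ T, Spl D l) → ∀ P : ℕ → Ideal (𝓞 (AlgebraicClosure K)), IsP (T ∪ N) P →
      KR.Opn (fullK (K := K) (T ∪ N)) C ∧
      FiniteDimensional (ZMod 2) (homs (two (res (fullK (K := K) (T ∪ N)) C)) (⊤ : Subgroup C)) ∧
      InjC (fullK (K := K) (T ∪ N)) C
        (jKI κ P : ∀ i : (Option T × Bool) ⊕ N, DKI P i →* AbsGal K) ∧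
      C.index + ∑ i : (Option T × Bool) ⊕ N, orb (jKI κ P i) (AbsGal K ⧸ C) ≤
        Module.finrank (ZMod 2) (homs (two (res (fullK (K := K) (T ∪ N)) C)) (⊤ : Subgroup C)) ∧
      (Module.finrank (ZMod 2) (homs (two (res (fullK (K := K) (T ∪ N)) C)) (⊤ : Subgroup C)) ≤
          C.index + ∑ i : (Option T × Bool) ⊕ N, orb (jKI κ P i) (AbsGal K ⧸ C) →
        ∀ SD : ∀ i : (Option T × Bool) ⊕ N, FSys (DKI P i),
          (∀ i W, (SD i).mem W → ∃ W₁, (fullD (DKI P i)).mem W₁ ∧ W₁ ≤ W) →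
          ShaC (fullK (K := K) (T ∪ N)) C SD (jKI κ P)) := by
  classical
  have hcx : IsTotallyComplex K := totallyComplex hK
  have halg := alg_closure K
  have hD0 : D ≠ 0 := by
    rintro rfl
    have := hK.mod
    omega
  set α₀ := RingEquiv.refl (AlgebraicClosure K) with hα₀
  obtain ⟨T₂, h1, h2⟩ := exists_T halg (e₀ := emb α₀) (C := C) (opn_map α₀ hC) α₀
    (Subgroup.map_le_range _ _) hK.sq (N := 2 * D) (by positivity) dvd_rfl
  refine ⟨T₀ ∪ T₂, Finset.subset_union_left, fun l hl => ?_, fun T hT hTs P hP => ?_⟩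
  · rcases Finset.mem_union.1 hl with hl | hl
    · exact hT₀ l hl
    · exact (h1 l hl).2.2
  have hT0 : T₀ ⊆ T := Finset.subset_union_left.trans hT
  have hT2 : T₂ ⊆ T := Finset.subset_union_right.trans hT
  have hCT : KR.Opn (fullK (K := K) (T ∪ N)) C := by
    obtain ⟨W, hW, hWC⟩ := hC
    exact ⟨W, fullK_mono (Finset.union_subset_union_left hT0) hW, hWC⟩
  have hdis : Disjoint T N := by
    rw [Finset.disjoint_left]
    intro l hl hl'
    exact (hN l hl').2.2.2 (hTs l hl).2.2.2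
  have hne : ∀ l ∈ T ∪ N, l ≠ 0 := isP_ne hP
  have hplc : Plc (emb α₀) (T ∪ N)
      (pKI c P : (Option T × Bool) ⊕ N → Ideal (𝓞 (AlgebraicClosure K))) :=
    plcKI halg hK α₀ hc.neg hTs (fun l hl => by
      have hlT : l ∈ T ∪ N := Finset.mem_union_right _ hl
      exact exists_swap halg hK α₀ (hN l hl) (hP.isPrime l (Or.inl hlT)) (hP.mem l (Or.inl hlT)))
      hdis hP
  have hfinq : Finite (AbsGal K ⧸ C) := by
    obtain ⟨W, hW, hWC⟩ := hC
    exact Subgroup.quotient_finite_of_isOpen C (Subgroup.isOpen_mono hWC hW.2.1)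
  have hst : MulAction.stabilizer (AbsGal K) ((1 : AbsGal K) : AbsGal K ⧸ C) = C :=
    MulAction.stabilizer_quotient C
  have htr : ∀ x : AbsGal K ⧸ C, ∃ g : AbsGal K, g • ((1 : AbsGal K) : AbsGal K ⧸ C) = x :=
    fun x => MulAction.exists_smul_eq _ _ _
  have hrng : ∀ i : (Option T × Bool) ⊕ N, (jKI κ P i).range = dG (emb α₀) (pKI c P i) :=
    (famKI hc hκ (SD := fun i => fullD (DKI P i)) fun i W hW => ⟨W, hW, le_rfl⟩).rng
  obtain ⟨h3, h4, h5⟩ := coreK halg α₀ hK.deg hne hCT hplc hst htr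
  have hidx : Nat.card (AbsGal K ⧸ C) = C.index := rfl
  rw [hidx, nPl_eq hrng] at h4 h5
  refine ⟨hCT, h3, injC_of hplc hne hrng
    (h2 (T ∪ N) (hT2.trans Finset.subset_union_left) hne _ (emdK α₀ (T ∪ N)) hCT), h4,
    fun h6 SD hSD => ?_⟩
  exact shaC_of hplc hne (famKI hc hκ hSD) (h5 h6)

end quad

end Pool.Agent.Work.MP_787500_nt.GA
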